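import Pool.Agent.H63.VC.VolDefs
import Pool.Agent.H63.VC3.Defs

/-! # Definitions for the geometric part -/

namespace Pool.Agent.H63.VC4

open Pool.Agent.H63.VC Pool.Agent.H63.VC3 Complex
open scoped BigOperators

/-- Auxiliary function for `conway`. -/
def conwayAux : ℕ → List ℤ → List ℕ
  | _, [] => []
  | d, [a] => [2 * a.natAbs - d]
  | d, a :: b :: l => if 0 < a * b then (2 * a.natAbs - d - 1) :: 1 :: conwayAux 1 (b :: l)
      else (2 * a.natAbs - d) :: conwayAux 0 (b :: l)

/-- The positive continued fraction (Conway notation) of the two-bridge knot. -/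
def conway (l : List ℤ) : List ℕ := conwayAux 0 l

/-- The first layer of a twist region. -/
def oo (r : ℕ → ℤ) : ℕ → ℕ
  | 0 => 0
  | i + 1 => oo r i + (2 * (r i).natAbs - if 0 < r i * r (i + 1) then 1 else 0)

open scoped Classical in
/-- The shape parameters seen from the right: inverted at hinges. -/
noncomputable def shT (a : List ℕ) (sh : ℕ → ℂ) (i : ℕ) : ℂ :=
  if IsHinge a i then ((starRingEnd ℂ) (sh i))⁻¹ else sh i

/-- Orientation of a twist region. -/
noncomputable def stw (r : ℤ) (v : ℂ) : ℂ := if r < 0 then v else -(starRingEnd ℂ) v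

/-- Orientation of a twist region. -/
noncomputable def sty (r : ℤ) (y : ℂ) : ℂ := if r < 0 then y else (starRingEnd ℂ) y

/-- The angle of a slot. -/
noncomputable def bet (w : ℂ) : Option ℂ → ℂ
  | none => 0
  | some y => -I * (hh (y + w) - hh (y - w))

/-- The shape parameters of a twist region. -/
noncomputable def zK (w β : ℂ) (k : ℕ) : ℂ :=
  sin (Real.pi * w) ^ 2 / sin (k * (Real.pi * w) + β / 2) ^ 2

/-- The value of `zK` at `0`. -/
noncomputable def Uo (w y : ℂ) : ℂ :=
  -(cos (2 * Real.pi * w) - cos (2 * Real.pi * y)) / (1 + cos (2 * Real.pi * y))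

/-- The value of `zK` at `1`. -/
noncomputable def Vo (w y : ℂ) : ℂ :=
  -(cos (2 * Real.pi * w) - cos (2 * Real.pi * y)) * exp (-(2 * Real.pi * I * y)) /
    (1 + cos (2 * Real.pi * w))

/-- The data of a twist region at the critical point. -/
structure Reg (p : ℕ) (w : ℂ) (yl yr : Option ℂ) : Prop where
  hp : 10 ≤ p
  hp2 : yl ≠ none → yr ≠ none → 20 ≤ p
  hne : yl ≠ none ∨ yr ≠ none
  re_pos : 0 < w.re
  re_lt : w.re < 2 / (4 * p - 1)
  im_pos : 0 < w.im
  bd : ‖w - 1 / (2 * p)‖ ≤ 6 / (10 * (p : ℝ) ^ 2)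
  bdl : ∀ y ∈ yl, ‖y - 1 / 4‖ ≤ 6 / 1000
  bdr : ∀ y ∈ yr, ‖y - 1 / 4‖ ≤ 6 / 1000
  eq : 2 * p * (2 * Real.pi * w) + bet w yl + bet w yr = 2 * Real.pi

/-- The contribution of a slot to the volume. -/
noncomputable def slotD (w : ℂ) : Option ℂ → ℝ
  | none => 0
  | some y => blochWigner (exp (2 * Real.pi * I * y) *
        ((1 + exp (2 * Real.pi * I * w)) / (1 + exp (2 * Real.pi * I * y)))) +
      blochWigner (exp (2 * Real.pi * I * y) * ((1 + exp (2 * Real.pi * I * w)) /
        (exp (2 * Real.pi * I * w) * (1 + exp (2 * Real.pi * I * y)))))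

end Pool.Agent.H63.VC4
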