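import Pool.Agent.H63.VC3.Defs

/-! # Complex Gaussian integrals -/

namespace Pool.Agent.H63.VC4

open Pool.Agent.H63.VC Pool.Agent.H63.VC3 Complex MeasureTheory
open scoped BigOperators

theorem GaussN_inner {q s r : ℂ} (hq : 0 < q.re) :
    ∫ y : ℝ, exp (-(q * y ^ 2 + 2 * s * y + r)) = (Real.pi / q) ^ (1 / 2 : ℂ) * exp (-(r - s ^ 2 / q)) := by
  have hq0 : q ≠ 0 := by
    rintro rfl
    simp at hq
  have h1 := integral_cexp_quadratic (b := -q) (by simpa using hq) (-(2 * s)) (-r)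
  have h2 : (fun a : ℝ => exp (-(q * a ^ 2 + 2 * s * a + r))) =
      fun a : ℝ => exp (-q * a ^ 2 + -(2 * s) * a + -r) := by
    funext a
    congr 1
    ring
  rw [h2, h1]
  congr 1
  · rw [neg_neg]
  · congr 1
    field_simp
    ring

theorem GaussN_expand {n : ℕ} (q : Fin (n + 1) → Fin (n + 1) → ℂ) (hq0 : ∀ a b, q a b = q b a)
    (y : ℂ) (x : Fin n → ℂ) :
    ∑ a, ∑ b, q a b * (Fin.cons y x : Fin (n + 1) → ℂ) a * (Fin.cons y x : Fin (n + 1) → ℂ) b =
      q 0 0 * y ^ 2 + 2 * (∑ b : Fin n, q 0 b.succ * x b) * y + ∑ a : Fin n, ∑ b : Fin n, q a.succ b.succ * x a * x b := by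
  rw [Fin.sum_univ_succ]
  simp only [Fin.sum_univ_succ (n := n), Fin.cons_zero, Fin.cons_succ]
  rw [Finset.sum_add_distrib]
  have h1 : ∑ a : Fin n, q a.succ 0 * x a * y = (∑ b : Fin n, q 0 b.succ * x b) * y := by
    rw [Finset.sum_mul]
    apply Finset.sum_congr rfl
    intro a _
    rw [hq0 a.succ 0]
  have h2 : ∑ a : Fin n, q 0 a.succ * y * x a = (∑ b : Fin n, q 0 b.succ * x b) * y := by
    rw [Finset.sum_mul]
    apply Finset.sum_congr rfl
    intro a _
    ring
  rw [h1, h2]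
  ring

theorem GaussN_int {ι : Type*} [Fintype ι] (q : ι → ι → ℂ) (c : ℝ)
    (hc : 0 < c) (hq : ∀ ξ : ι → ℝ, c * ∑ a, ξ a ^ 2 ≤ (∑ a, ∑ b, q a b * ξ a * ξ b).re) :
    Integrable (fun ξ : ι → ℝ => exp (-∑ a, ∑ b, q a b * ξ a * ξ b)) := by
  have h1 : Integrable (fun ξ : ι → ℝ => ∏ a, Real.exp (-c * ξ a ^ 2)) :=
    Integrable.fintype_prod (f := fun _ x => Real.exp (-c * x ^ 2)) (fun _ => integrable_exp_neg_mul_sq hc)
  refine h1.mono' ?_ (Filter.Eventually.of_forall fun ξ => ?_)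
  · apply Continuous.aestronglyMeasurable
    fun_prop
  · rw [Complex.norm_exp, ← Real.exp_sum]
    apply Real.exp_le_exp.2
    rw [Complex.neg_re]
    have := hq ξ
    have e : ∑ a, -c * ξ a ^ 2 = -(c * ∑ a, ξ a ^ 2) := by
      rw [Finset.mul_sum, ← Finset.sum_neg_distrib]
      apply Finset.sum_congr rfl
      intro a _
      ring
    rw [e]
    linarith

theorem GaussN_fin (n : ℕ) : ∀ (q : Fin n → Fin n → ℂ) (_ : ∀ a b, q a b = q b a) (c : ℝ) (_ : 0 < c)
    (_ : ∀ ξ : Fin n → ℝ, c * ∑ a, ξ a ^ 2 ≤ (∑ a, ∑ b, q a b * ξ a * ξ b).re),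
    ∫ ξ : Fin n → ℝ, exp (-∑ a, ∑ b, q a b * ξ a * ξ b) ≠ 0 := by
  induction n with
  | zero =>
    intro q _ c _ _
    simp [MeasureTheory.integral_const, MeasureTheory.Measure.real, MeasureTheory.volume_pi]
  | succ n ih =>
    intro q hq0 c hc hq
    have hre : 0 < (q 0 0).re := by
      have h := hq (Fin.cons 1 0)
      have e := GaussN_expand q hq0 1 (fun _ => 0)
      have e2 : ∀ a : Fin (n + 1), (((Fin.cons 1 0 : Fin (n + 1) → ℝ) a : ℝ) : ℂ) =
          (Fin.cons 1 (fun _ => 0) : Fin (n + 1) → ℂ) a := by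
        intro a
        refine Fin.cases ?_ (fun i => ?_) a
        · simp
        · simp
      simp only [e2] at h
      rw [e] at h
      rw [Fin.sum_univ_succ] at h
      simp at h
      linarith
    have hq00 : q 0 0 ≠ 0 := by
      intro h0
      rw [h0] at hre
      simp at hre
    have hcast : ∀ (y : ℝ) (x : Fin n → ℝ) (a : Fin (n + 1)), (((Fin.cons y x : Fin (n + 1) → ℝ) a : ℝ) : ℂ) =
          (Fin.cons (y : ℂ) (fun i => (x i : ℂ)) : Fin (n + 1) → ℂ) a := by
      intro y x a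
      refine Fin.cases ?_ (fun i => ?_) a
      · simp
      · simp
    have hint := GaussN_int q c hc hq
    have hmp := (MeasureTheory.volume_preserving_piFinSuccAbove (fun _ : Fin (n + 1) => ℝ) 0).symm
    rw [← hmp.integral_comp (MeasurableEquiv.measurableEmbedding _)]
    have hint2 := (hmp.integrable_comp_emb (MeasurableEquiv.measurableEmbedding _)).mpr hint
    have hfun : ∀ z : ℝ × (Fin n → ℝ), (MeasurableEquiv.piFinSuccAbove (fun _ : Fin (n + 1) => ℝ) 0).symm z =
        Fin.cons z.1 z.2 := by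
      intro z
      exact Fin.insertNth_zero' z.1 z.2
    have hval : ∀ z : ℝ × (Fin n → ℝ), exp (-∑ a, ∑ b, q a b *
        (((MeasurableEquiv.piFinSuccAbove (fun _ : Fin (n + 1) => ℝ) 0).symm z a : ℝ) : ℂ) *
        (((MeasurableEquiv.piFinSuccAbove (fun _ : Fin (n + 1) => ℝ) 0).symm z b : ℝ) : ℂ)) =
        exp (-(q 0 0 * (z.1 : ℂ) ^ 2 + 2 * (∑ b : Fin n, q 0 b.succ * (z.2 b : ℂ)) * (z.1 : ℂ) +
          ∑ a : Fin n, ∑ b : Fin n, q a.succ b.succ * (z.2 a : ℂ) * (z.2 b : ℂ))) := by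
      intro z
      rw [hfun z]
      simp only [hcast]
      rw [GaussN_expand q hq0]
    have hint3 : Integrable (fun z : ℝ × (Fin n → ℝ) =>
        exp (-(q 0 0 * (z.1 : ℂ) ^ 2 + 2 * (∑ b : Fin n, q 0 b.succ * (z.2 b : ℂ)) * (z.1 : ℂ) +
          ∑ a : Fin n, ∑ b : Fin n, q a.succ b.succ * (z.2 a : ℂ) * (z.2 b : ℂ)))) := by
      refine hint2.congr (Filter.Eventually.of_forall fun z => ?_)
      exact hval z
    simp only [hval]
    rw [Measure.volume_eq_prod, integral_prod_symm _ (by rw [← Measure.volume_eq_prod]; exact hint3)]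
    simp only [GaussN_inner hre]
    rw [integral_const_mul]
    apply mul_ne_zero
    · rw [Ne, cpow_eq_zero_iff]
      intro h
      have h2 := h.1
      rw [div_eq_zero_iff] at h2
      rcases h2 with h2 | h2
      · exact Real.pi_ne_zero (by exact_mod_cast h2)
      · exact hq00 h2
    · have hq' := ih (fun a b => q a.succ b.succ - q 0 a.succ * q 0 b.succ / q 0 0)
        (fun a b => by rw [hq0 a.succ b.succ]; ring) c hc ?_
      · have hQ : ∀ x : Fin n → ℝ, ∑ a : Fin n, ∑ b : Fin n,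
            (q a.succ b.succ - q 0 a.succ * q 0 b.succ / q 0 0) * (x a : ℂ) * (x b : ℂ) =
            ∑ a : Fin n, ∑ b : Fin n, q a.succ b.succ * (x a : ℂ) * (x b : ℂ) -
              (∑ b : Fin n, q 0 b.succ * (x b : ℂ)) ^ 2 / q 0 0 := by
          intro x
          rw [sq, Finset.sum_mul_sum, Finset.sum_div, ← Finset.sum_sub_distrib]
          apply Finset.sum_congr rfl
          intro a _
          rw [Finset.sum_div, ← Finset.sum_sub_distrib]
          apply Finset.sum_congr rfl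
          intro b _
          ring
        simp only [hQ] at hq'
        exact hq'
      · intro x
        set s : ℂ := ∑ b : Fin n, q 0 b.succ * (x b : ℂ) with hs
        set r : ℂ := ∑ a : Fin n, ∑ b : Fin n, q a.succ b.succ * (x a : ℂ) * (x b : ℂ) with hr
        set z : ℂ := -s / q 0 0 with hz
        have hsz : s = -(q 0 0 * z) := by rw [hz]; field_simp
        have e1 := hq (Fin.cons z.re x)
        have e2 := hq (Fin.cons z.im 0)
        simp only [hcast] at e1 e2
        rw [GaussN_expand q hq0, ← hs, ← hr] at e1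
        rw [GaussN_expand q hq0] at e2
        rw [Fin.sum_univ_succ] at e1 e2
        simp only [Fin.cons_zero, Fin.cons_succ, Pi.zero_apply, Complex.ofReal_zero, mul_zero,
          Finset.sum_const_zero, zero_mul, add_zero, zero_pow (two_ne_zero)] at e1 e2
        have hQ : ∑ a : Fin n, ∑ b : Fin n,
            (q a.succ b.succ - q 0 a.succ * q 0 b.succ / q 0 0) * (x a : ℂ) * (x b : ℂ) =
            r - s ^ 2 / q 0 0 := by
          rw [hs, hr, sq, Finset.sum_mul_sum, Finset.sum_div, ← Finset.sum_sub_distrib]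
          apply Finset.sum_congr rfl
          intro a _
          rw [Finset.sum_div, ← Finset.sum_sub_distrib]
          apply Finset.sum_congr rfl
          intro b _
          ring
        rw [hQ]
        have key : r - s ^ 2 / q 0 0 = (q 0 0 * (z.re : ℂ) ^ 2 + 2 * s * (z.re : ℂ) + r) + q 0 0 * (z.im : ℂ) ^ 2 := by
          have c1 : (z.re : ℂ) ^ 2 + (z.im : ℂ) ^ 2 = z * (starRingEnd ℂ) z := by
            rw [Complex.mul_conj, Complex.normSq_apply]
            push_cast
            ring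
          have r1 : (2 : ℂ) * (z.re : ℂ) = z + (starRingEnd ℂ) z := by
            rw [Complex.add_conj]; push_cast; ring
          have d1 : s ^ 2 / q 0 0 = q 0 0 * z ^ 2 := by rw [hsz]; field_simp
          rw [d1]
          linear_combination (-(q 0 0)) * c1 - s * r1 - (z + (starRingEnd ℂ) z) * hsz
        rw [key, Complex.add_re]
        have : 0 ≤ c * ∑ a : Fin n, (0 : ℝ) ^ 2 := by simp
        nlinarith [e1, e2, sq_nonneg z.re, sq_nonneg z.im]

theorem gaussN_ne {ι : Type*} [Fintype ι] (q : ι → ι → ℂ) (hq0 : ∀ a b, q a b = q b a) (c : ℝ)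
    (hc : 0 < c) (hq : ∀ ξ : ι → ℝ, c * ∑ a, ξ a ^ 2 ≤ (∑ a, ∑ b, q a b * ξ a * ξ b).re) :
    ∫ ξ : ι → ℝ, exp (-∑ a, ∑ b, q a b * ξ a * ξ b) ≠ 0 := by
  classical
  set e := (Fintype.equivFin ι).symm with he
  have hmp := MeasureTheory.volume_measurePreserving_piCongrLeft (fun _ : ι => ℝ) e
  rw [← hmp.integral_comp (MeasurableEquiv.measurableEmbedding _)]
  have hval : ∀ ξ : Fin (Fintype.card ι) → ℝ, ∀ a : Fin (Fintype.card ι),
      (MeasurableEquiv.piCongrLeft (fun _ : ι => ℝ) e) ξ (e a) = ξ a := by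
    intro ξ a
    exact Equiv.piCongrLeft_apply_apply (fun _ : ι => ℝ) e ξ a
  have hsum : ∀ ξ : Fin (Fintype.card ι) → ℝ, ∑ a, ∑ b, q a b *
      (((MeasurableEquiv.piCongrLeft (fun _ : ι => ℝ) e) ξ a : ℝ) : ℂ) *
      (((MeasurableEquiv.piCongrLeft (fun _ : ι => ℝ) e) ξ b : ℝ) : ℂ) =
      ∑ a, ∑ b, q (e a) (e b) * (ξ a : ℂ) * (ξ b : ℂ) := by
    intro ξ
    rw [← Equiv.sum_comp e]
    apply Finset.sum_congr rfl
    intro a _
    rw [← Equiv.sum_comp e]
    apply Finset.sum_congr rfl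
    intro b _
    rw [hval, hval]
  simp only [hsum]
  refine GaussN_fin _ (fun a b => q (e a) (e b)) (fun a b => hq0 _ _) c hc ?_
  intro ξ
  have h := hq ((MeasurableEquiv.piCongrLeft (fun _ : ι => ℝ) e) ξ)
  rw [hsum ξ, ← Equiv.sum_comp e] at h
  simp only [hval] at h
  exact h

end Pool.Agent.H63.VC4
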