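import Pool.Agent.H63.VC3.Defs

/-! # The Laplace method -/

namespace Pool.Agent.H63.VC4

open Pool.Agent.H63.VC Pool.Agent.H63.VC3 Complex Filter Topology
open scoped BigOperators

/-- Change of variables. -/
private theorem LaplaceN_subst {ι : Type*} [Fintype ι] (f : (ι → ℝ) → ℂ) (p : ι → ℝ) {M : ℕ}
    (hM : 0 < M) :
    (((M : ℝ) ^ ((Fintype.card ι : ℝ) / 2) : ℝ) : ℂ) * ∫ z, f z =
      ∫ ξ, f (p + (1 / Real.sqrt M) • ξ) := by
  have hM0 : (0 : ℝ) < M := by exact_mod_cast hM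
  have hs : 0 < Real.sqrt M := Real.sqrt_pos.2 hM0
  have h1 : ∫ ξ, f (p + (1 / Real.sqrt M) • ξ) =
      |(((1 / Real.sqrt M) : ℝ) ^ (Module.finrank ℝ (ι → ℝ)))⁻¹| • ∫ z, f (p + z) :=
    MeasureTheory.Measure.integral_comp_smul MeasureTheory.volume (fun z => f (p + z))
      (1 / Real.sqrt M)
  have h2 : ∫ z, f (p + z) = ∫ z, f z :=
    MeasureTheory.integral_add_left_eq_self f p
  have h3 : Module.finrank ℝ (ι → ℝ) = Fintype.card ι := Module.finrank_fintype_fun_eq_card ℝ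
  have h4 : |(((1 / Real.sqrt M) : ℝ) ^ (Fintype.card ι))⁻¹| =
      (M : ℝ) ^ ((Fintype.card ι : ℝ) / 2) := by
    rw [abs_of_pos (by positivity)]
    rw [one_div, inv_pow, inv_inv, Real.sqrt_eq_rpow, ← Real.rpow_natCast, ← Real.rpow_mul hM0.le]
    congr 1
    ring
  rw [h1, h2, h3, h4]
  simp

private theorem LaplaceN_bound_int {ι : Type*} [Fintype ι] (K : ℝ) {c : ℝ} (hc : 0 < c) :
    MeasureTheory.Integrable (fun ξ : ι → ℝ => K * Real.exp (-c * ∑ i, ξ i ^ 2)) := by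
  have h1 : MeasureTheory.Integrable (fun x : ℝ => Real.exp (-c * x ^ 2)) :=
    integrable_exp_neg_mul_sq hc
  have h2 := (MeasureTheory.Integrable.fintype_prod (ι := ι) (𝕜 := ℝ)
    (f := fun _ x => Real.exp (-c * x ^ 2)) (fun _ => h1)).const_mul K
  refine h2.congr (Filter.Eventually.of_forall fun ξ => ?_)
  simp only
  rw [← Real.exp_sum, Finset.mul_sum]

private theorem LaplaceN_qmp {ι : Type*} [Fintype ι] (p : ι → ℝ) {s : ℝ} (hs : s ≠ 0) :
    MeasureTheory.Measure.QuasiMeasurePreserving (fun ξ : ι → ℝ => p + s • ξ)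
      MeasureTheory.volume MeasureTheory.volume := by
  have h1 : MeasureTheory.Measure.QuasiMeasurePreserving (fun ξ : ι → ℝ => s • ξ)
      MeasureTheory.volume MeasureTheory.volume := by
    refine ⟨measurable_const_smul s, ?_⟩
    rw [MeasureTheory.Measure.map_addHaar_smul MeasureTheory.volume hs]
    exact MeasureTheory.Measure.smul_absolutelyContinuous
  exact (MeasureTheory.measurePreserving_add_left MeasureTheory.volume p).quasiMeasurePreserving.comp
    h1

theorem laplaceN {ι : Type*} [Fintype ι] (φ : (ι → ℝ) → ℂ) (p : ι → ℝ) (A : ℕ → (ι → ℝ) → ℂ)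
    (K c : ℝ) (hc : 0 < c) (Q : (ι → ℝ) → ℂ) (a : ℂ)
    (hmeas : ∀ᶠ M in atTop, MeasureTheory.AEStronglyMeasurable
      (fun z => A M z * exp (M * (φ z - φ p))) MeasureTheory.volume)
    (hA : ∀ᶠ M in atTop, ∀ z, ‖A M z‖ ≤ K)
    (hdec : ∀ᶠ M in atTop, ∀ z, A M z ≠ 0 → (φ z - φ p).re ≤ -c * ∑ i, (z i - p i) ^ 2)
    (hAlim : ∀ ξ : ι → ℝ, Tendsto (fun M : ℕ => A M (p + (1 / Real.sqrt M) • ξ)) atTop (𝓝 a))
    (hφlim : ∀ ξ : ι → ℝ, Tendsto (fun M : ℕ =>
      (M : ℂ) * (φ (p + (1 / Real.sqrt M) • ξ) - φ p)) atTop (𝓝 (-Q ξ))) :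
    Tendsto (fun M : ℕ => (((M : ℝ) ^ ((Fintype.card ι : ℝ) / 2) : ℝ) : ℂ) *
      ∫ z, A M z * exp (M * (φ z - φ p))) atTop (𝓝 (a * ∫ ξ, exp (-Q ξ))) := by
  rw [← MeasureTheory.integral_const_mul]
  have hev : (fun M : ℕ => ∫ ξ, A M (p + (1 / Real.sqrt M) • ξ) *
      exp (M * (φ (p + (1 / Real.sqrt M) • ξ) - φ p))) =ᶠ[atTop]
      (fun M : ℕ => (((M : ℝ) ^ ((Fintype.card ι : ℝ) / 2) : ℝ) : ℂ) *
        ∫ z, A M z * exp (M * (φ z - φ p))) := by
    filter_upwards [eventually_gt_atTop 0] with M hM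
    exact (LaplaceN_subst (fun z => A M z * exp (M * (φ z - φ p))) p hM).symm
  refine Tendsto.congr' hev ?_
  refine MeasureTheory.tendsto_integral_filter_of_dominated_convergence
    (fun ξ : ι → ℝ => K * Real.exp (-c * ∑ i, ξ i ^ 2)) ?_ ?_
    (LaplaceN_bound_int K hc) ?_
  · filter_upwards [hmeas, eventually_gt_atTop 0] with M h1 hM
    have hM0 : (0 : ℝ) < M := by exact_mod_cast hM
    have hs : 0 < Real.sqrt M := Real.sqrt_pos.2 hM0
    exact h1.comp_quasiMeasurePreserving (LaplaceN_qmp p (one_div_pos.2 hs).ne')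
  · filter_upwards [hA, hdec, eventually_gt_atTop 0] with M h1 h2 hM
    refine Filter.Eventually.of_forall fun ξ => ?_
    have hM0 : (0 : ℝ) < M := by exact_mod_cast hM
    have hs : 0 < Real.sqrt M := Real.sqrt_pos.2 hM0
    have hss : Real.sqrt M ^ 2 = M := Real.sq_sqrt hM0.le
    set z : ι → ℝ := p + (1 / Real.sqrt M) • ξ with hz
    have hK : 0 ≤ K := (norm_nonneg _).trans (h1 z)
    by_cases h0 : A M z = 0
    · rw [h0, zero_mul, norm_zero]
      positivity
    · have h3 := h2 z h0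
      have e1 : ∑ i, (z i - p i) ^ 2 = (∑ i, ξ i ^ 2) / M := by
        rw [Finset.sum_div]
        refine Finset.sum_congr rfl fun i _ => ?_
        have : z i - p i = ξ i / Real.sqrt M := by
          rw [hz]; simp; ring
        rw [this, div_pow, hss]
      rw [e1] at h3
      rw [norm_mul, Complex.norm_exp]
      refine mul_le_mul (h1 z) ?_ (Real.exp_pos _).le hK
      apply Real.exp_le_exp.2
      have h4 : ((M : ℂ) * (φ z - φ p)).re = M * (φ z - φ p).re := by
        simp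
      rw [h4]
      calc (M : ℝ) * (φ z - φ p).re
          ≤ M * (-c * ((∑ i, ξ i ^ 2) / M)) :=
            mul_le_mul_of_nonneg_left h3 hM0.le
        _ = -c * ∑ i, ξ i ^ 2 := by
            field_simp
  · refine Filter.Eventually.of_forall fun ξ => ?_
    refine (hAlim ξ).mul ?_
    exact (Complex.continuous_exp.tendsto _).comp (hφlim ξ)

end Pool.Agent.H63.VC4
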