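import Pool.Agent.H63.VC3.Defs

/-!
# Two-bridge knots with many twists: definitions

Auxiliary definitions for the asymptotics of the colored invariants of the two-bridge knots with
an even number of twist regions.
-/

namespace Pool.Agent.H63.VC4

open Pool.Agent.H63.VC Pool.Agent.H63.VC3 Complex

/-! ### The invariants -/

/-- The matrix of one full twist. -/
noncomputable def Bmat (N : ℕ) (A x : ℂ) : Matrix (Fin (N + 1)) (Fin (N + 1)) ℂ :=
  fun k j => qbin (x ^ 2) k j * ((A ^ 2) ^ (j : ℕ) * (x ^ 2) ^ ((j : ℕ) * ((j : ℕ) - 1)))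

/-- The ratios of the consecutive weights. -/
noncomputable def facC (N : ℕ) (A x : ℂ) (i : ℕ) : ℂ :=
  -(A ^ 2 * (x ^ 2) ^ i * (cb (x ^ ((N : ℤ) - i)) / cb (x ^ ((i : ℤ) + 1)) *
    (cb (A * x ^ ((N : ℤ) + i)) * cb (A * x ^ ((i : ℤ) - 1)))))

/-- The matrix of one full twist in the other direction. -/
noncomputable def Cmat (N : ℕ) (A x : ℂ) : Matrix (Fin (N + 1)) (Fin (N + 1)) ℂ :=
  fun j k => (∏ i ∈ Finset.Ico (j : ℕ) k, facC N A x i) * Bmat N A x k j

/-- The product `C^{r_1} B^{r_2} C^{r_3} ⋯`. -/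
noncomputable def chainMat (N : ℕ) (A x : ℂ) : List ℤ → Matrix (Fin (N + 1)) (Fin (N + 1)) ℂ
  | [] => 1
  | [a] => Cmat N A x ^ a
  | a :: b :: l => Cmat N A x ^ a * Bmat N A x ^ b * chainMat N A x l

/-- The reduced HOMFLY-PT invariant of the two-bridge knot, colored by the `N`-th symmetric power. -/
noncomputable def homflyChain (l : List ℤ) (N : ℕ) (A x : ℂ) : ℂ := chainMat N A x l 0 0

/-- The colored `SU(n)` invariants. -/
noncomputable def suChain (l : List ℤ) (n N : ℕ) (x : ℂ) : ℂ := homflyChain l N (x ^ n) x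

/-! ### The normalized matrices at the root of unity -/

/-- Phases. -/
noncomputable def th (n M k : ℕ) : ℂ := (-1) ^ k * I ^ k *
  exp (-(Real.pi * I / M) * (k * (n - 1) + k * (k + 1) / 2))

/-- A common phase. -/
noncomputable def Th0 (n M : ℕ) : ℂ := (-1) ^ (n + M) * (-I)

/-- The normalized entries of the `r`-th power of the twist matrix. -/
noncomputable def RG (r : ℤ) (n M k j : ℕ) : ℂ :=
  Th0 n M * (c1 n M / c1 (n + 2 * j) M) ^ r * NN r (n + 2 * j) M (k - j) / S M (k - j)

/-- The symmetric form of the entries, `t + t' + n ≥ M + 1`. -/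
noncomputable def RS (r : ℤ) (n M t t' : ℕ) : ℂ :=
  if M + 1 ≤ t + t' + n then RG r n M (min t t') (M + 1 - n - max t t') else 0

/-! ### Slots -/

/-- The neighbours of the twist regions: `none` at both ends. -/
def ext {α : Type*} {m : ℕ} (f : Fin m → α) : Fin (m + 2) → Option α :=
  Fin.cons (α := fun _ => Option α) none
    (Fin.snoc (α := fun _ => Option α) (fun i => some (f i)) none)

/-- The number of proper neighbours of a twist region. -/
noncomputable def nA (m : ℕ) (i : Fin (m + 1)) : ℝ :=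
  (if i = 0 then 0 else 1) + (if i = Fin.last m then 0 else 1)

/-- `RS` with `none` in place of `M + 1 - n`. -/
noncomputable def RSo (r : ℤ) (n M : ℕ) (u u' : Option ℕ) : ℂ :=
  RS r n M (u.getD (M + 1 - n)) (u'.getD (M + 1 - n))

/-- The invariant as a sum over `[0, M + 1 - n]^m`. -/
noncomputable def JC {m : ℕ} (r : Fin (m + 1) → ℤ) (n g M : ℕ) : ℂ :=
  ∑ t ∈ Fintype.piFinset (fun _ : Fin m => Finset.range (M + 2 - n)),
    (∏ j, Cc n g M (yk n M (t j))) * ∏ i, RSo (r i) n M (ext t i.castSucc) (ext t i.succ)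

/-! ### Kernels -/

/-- The factor of a slot in the kernel. -/
noncomputable def Qo (n M : ℕ) : Option ℂ → ℂ → ℂ
  | none, v => Bn n M v / M
  | some y, v => exp (-LL M (M * (y - v) - 1 / 2) - LL M (M * (y + v) - 1 / 2))

/-- The kernel of the `l`-sum of a twist region with `r` full twists. -/
noncomputable def KR (r : ℤ) (n M : ℕ) (u u' : Option ℂ) (v : ℂ) : ℂ :=
  M * exp (2 * Real.pi * I * r * M * v ^ 2) * (2 * sin (2 * Real.pi * v)) * Qo n M u v * Qo n M u' v

/-- The contour integral for the `l`-sum. -/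
noncomputable def PPo (r : ℤ) (n M : ℕ) (u u' : Option ℂ) (ρ Y : ℝ) : ℂ :=
  Path (fun v => KR r n M u u' v * om n M v) ρ Y

/-- Its flat part. -/
noncomputable def FLo (r : ℤ) (n M : ℕ) (u u' : Option ℂ) (ρ Y : ℝ) : ℂ :=
  ∫ x in (-ρ)..ρ, KR r n M u u' (x + Y * I) * om n M (x + Y * I)

/-- The integrand of the main integral. -/
noncomputable def GI {m : ℕ} (r : Fin (m + 1) → ℤ) (n g M : ℕ) (y : Fin m → ℂ)
    (v : Fin (m + 1) → ℂ) : ℂ :=
  (∏ j, Cc n g M (y j)) *
    ∏ i, (KR (r i) n M (ext y i.castSucc) (ext y i.succ) (v i) * om n M (v i))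

/-- The point of the integration domain. -/
noncomputable def zy {m : ℕ} (Y0 : Fin m → ℝ) (z : Fin m ⊕ Fin (m + 1) → ℝ) (j : Fin m) : ℂ :=
  z (Sum.inl j) + Y0 j * I

/-- The point of the integration domain. -/
noncomputable def zv {m : ℕ} (Y1 : Fin (m + 1) → ℝ) (z : Fin m ⊕ Fin (m + 1) → ℝ)
    (i : Fin (m + 1)) : ℂ := z (Sum.inr i) + Y1 i * I

/-- The box. -/
def Bx (m : ℕ) (y1 y2 ρ : ℝ) : Set (Fin m ⊕ Fin (m + 1) → ℝ) :=
  Set.pi Set.univ (Sum.elim (fun _ => Set.Ioc y1 y2) (fun _ => Set.Ioc (-ρ) ρ))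

/-- The main integral over the flat contours. -/
noncomputable def MI {m : ℕ} (r : Fin (m + 1) → ℤ) (n g M : ℕ) (Y0 : Fin m → ℝ)
    (Y1 : Fin (m + 1) → ℝ) (y1 y2 ρ : ℝ) : ℂ :=
  ∫ z in Bx m y1 y2 ρ, GI r n g M (zy Y0 z) (zv Y1 z)

/-! ### The potential function and its critical point -/

/-- The contribution of a slot to the potential function. -/
noncomputable def po : Option ℂ → ℂ → ℂ
  | none, _ => 0
  | some y, v => -ff (y - v) - ff (y + v)

/-- Its derivative with respect to `v`. -/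
noncomputable def dpo : Option ℂ → ℂ → ℂ
  | none, _ => 0
  | some y, v => hh (y - v) - hh (y + v)

/-- The part of the potential function of a twist region. -/
noncomputable def WN (r : ℤ) (u u' : Option ℂ) (v : ℂ) : ℂ :=
  2 * Real.pi * I * (r * v ^ 2 + v) + po u v + po u' v

/-- The potential function. -/
noncomputable def VN {m : ℕ} (r : Fin (m + 1) → ℤ) (y : Fin m → ℂ) (v : Fin (m + 1) → ℂ) : ℂ :=
  (∑ j, 4 * ff (y j + 1 / 2)) + ∑ i, WN (r i) (ext y i.castSucc) (ext y i.succ) (v i)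

/-- The critical point of the potential function, with its approximate location. -/
structure CritN {m : ℕ} (r : Fin (m + 1) → ℤ) (y : Fin m → ℂ) (v : Fin (m + 1) → ℂ) : Prop where
  hm : 1 ≤ m
  hr : ∀ i, 10 * nA m i ≤ |(r i : ℝ)|
  hs : ∑ i, nA m i / (r i : ℝ) ^ 2 ≤ 1 / 50
  ey : ∀ j : Fin m, 4 * hh (y j + 1 / 2) =
    hh (y j - v j.castSucc) + hh (y j + v j.castSucc) + hh (y j - v j.succ) + hh (y j + v j.succ)
  ev : ∀ i, 2 * Real.pi * I * (2 * r i * v i + 1) + dpo (ext y i.castSucc) (v i) +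
    dpo (ext y i.succ) (v i) = 0
  bdy : ∀ j : Fin m, ‖y j - 1 / 4‖ ≤
    3 / 10 * (1 / (r j.castSucc : ℝ) ^ 2 + 1 / (r j.succ : ℝ) ^ 2)
  bdv : ∀ i, ‖v i + 1 / (2 * r i)‖ ≤ 3 / 10 * nA m i / (r i : ℝ) ^ 2
  imv : ∀ i, 0 < (v i).im
  rev : ∀ i, |(v i).re| < 2 / (4 * |(r i : ℝ)| - 1)

/-- The weights of a slot. -/
noncomputable def es (M : ℕ) : Option ℕ → ℝ
  | none => 1
  | some k => S M k ^ 2

/-- The number of proper slots. -/
noncomputable def ns {α : Type*} : Option α → ℝ
  | none => 0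
  | some _ => 1

/-- The growth rate of a slot. -/
noncomputable def eo (M : ℕ) : Option ℕ → ℝ
  | none => 0
  | some k => 4 * Fr (3 / 4) - (if 53 / 1000 ≤ |(k : ℝ) / M - 3 / 4| then 17 / 1000 else 0)

/-- The weights of the `l`-sum of an interior region. -/
noncomputable def W2 (n M t t' l : ℕ) : ℝ :=
  Wt (n + 2 * (M + 1 - n - t')) M (t - (M + 1 - n - t')) (l - (M + 1 - n - t')) /
    S M (t - (M + 1 - n - t'))

/-! ### Elementary facts about slots -/

theorem ext_zero {α : Type*} {m : ℕ} (f : Fin m → α) : ext f 0 = none := rfl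

theorem ext_castSucc_zero {α : Type*} {m : ℕ} (f : Fin m → α) :
    ext f (0 : Fin (m + 1)).castSucc = none := rfl

theorem ext_last {α : Type*} {m : ℕ} (f : Fin m → α) : ext f (Fin.last (m + 1)) = none := by
  rw [← Fin.succ_last]
  simp [ext, Fin.snoc_last]

theorem ext_last_succ {α : Type*} {m : ℕ} (f : Fin m → α) :
    ext f (Fin.last m).succ = none := by
  rw [Fin.succ_last]; exact ext_last f

theorem ext_mid {α : Type*} {m : ℕ} (f : Fin m → α) (j : Fin m) :
    ext f j.castSucc.succ = some (f j) := by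
  unfold ext
  rw [Fin.cons_succ, Fin.snoc_castSucc]

theorem ext_mid' {α : Type*} {m : ℕ} (f : Fin m → α) (j : Fin m) :
    ext f j.succ.castSucc = some (f j) := by
  rw [← Fin.succ_castSucc]; exact ext_mid f j

theorem ext_map {α β : Type*} {m : ℕ} (f : Fin m → α) (h : α → β) (i : Fin (m + 2)) :
    ext (fun j => h (f j)) i = (ext f i).map h := by
  refine Fin.cases rfl (fun i => ?_) i
  refine Fin.lastCases ?_ (fun i => ?_) i
  · rw [ext_last_succ, ext_last_succ]; rfl
  · rw [ext_mid, ext_mid]; rfl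

/-- Products over the slots. -/
theorem prod_slots {α : Type*} {m : ℕ} (f : Fin m → α) (h : Option α → ℝ) (h0 : h none = 1) :
    ∏ i : Fin (m + 1), (h (ext f i.castSucc) * h (ext f i.succ)) = ∏ j, h (some (f j)) ^ 2 := by
  rw [Finset.prod_mul_distrib]
  have e1 : ∏ i : Fin (m + 1), h (ext f i.castSucc) = ∏ j, h (some (f j)) := by
    rw [Fin.prod_univ_succ]
    simp only [ext_castSucc_zero, h0, one_mul, ext_mid']
  have e2 : ∏ i : Fin (m + 1), h (ext f i.succ) = ∏ j, h (some (f j)) := by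
    rw [Fin.prod_univ_castSucc]
    simp only [ext_last_succ, h0, mul_one, ext_mid]
  rw [e1, e2, ← Finset.prod_mul_distrib]
  exact Finset.prod_congr rfl (fun j _ => by ring)

/-- Sums over the slots. -/
theorem sum_slots {α E : Type*} [AddCommMonoid E] {m : ℕ} (f : Fin m → α)
    (h : Fin (m + 1) → Option α → E) (h0 : ∀ i, h i none = 0) :
    ∑ i : Fin (m + 1), (h i (ext f i.castSucc) + h i (ext f i.succ)) =
      ∑ j : Fin m, (h j.castSucc (some (f j)) + h j.succ (some (f j))) := by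
  rw [Finset.sum_add_distrib, Finset.sum_add_distrib, add_comm]
  congr 1
  · rw [Fin.sum_univ_castSucc]
    simp only [ext_last_succ, h0, add_zero, ext_mid]
  · rw [Fin.sum_univ_succ]
    simp only [ext_castSucc_zero, h0, zero_add, ext_mid']

theorem ns_none {α : Type*} : ns (none : Option α) = 0 := rfl

theorem ns_some {α : Type*} (a : α) : ns (some a) = 1 := rfl

theorem ns_ext {α : Type*} {m : ℕ} (f : Fin m → α) (i : Fin (m + 1)) :
    ns (ext f i.castSucc) + ns (ext f i.succ) = nA m i := by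
  unfold nA
  congr 1
  · refine Fin.cases ?_ (fun j => ?_) i
    · rw [ext_castSucc_zero, ns_none, if_pos rfl]
    · rw [ext_mid', ns_some, if_neg (Fin.succ_ne_zero j)]
  · refine Fin.lastCases ?_ (fun j => ?_) i
    · rw [ext_last_succ, ns_none, if_pos rfl]
    · rw [ext_mid, ns_some, if_neg (Fin.castSucc_lt_last j).ne]

theorem sum_nA {m : ℕ} (c : Fin (m + 1) → ℝ) :
    ∑ i, nA m i * c i = ∑ j : Fin m, (c j.castSucc + c j.succ) := by
  have h := sum_slots (fun _ : Fin m => ()) (fun i u => ns u * c i)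
    (fun i => by rw [ns_none, zero_mul])
  have e : ∀ i : Fin (m + 1), nA m i * c i = ns (ext (fun _ : Fin m => ()) i.castSucc) * c i +
      ns (ext (fun _ : Fin m => ()) i.succ) * c i := fun i => by
    rw [← ns_ext (fun _ : Fin m => ()) i, add_mul]
  rw [Finset.sum_congr rfl (fun i _ => e i), h]
  exact Finset.sum_congr rfl (fun j _ => by rw [ns_some, one_mul, one_mul])

theorem nA_le (m : ℕ) (i : Fin (m + 1)) : nA m i ≤ 2 := by
  unfold nA; split_ifs <;> norm_num

theorem nA_nonneg (m : ℕ) (i : Fin (m + 1)) : 0 ≤ nA m i := by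
  unfold nA; split_ifs <;> norm_num

theorem nA_pos (m : ℕ) (hm : 1 ≤ m) (i : Fin (m + 1)) : 1 ≤ nA m i := by
  unfold nA
  by_cases h : i = 0
  · subst h
    have : (0 : Fin (m + 1)) ≠ Fin.last m := by
      intro h
      have := congrArg Fin.val h
      simp at this
      omega
    simp [this]
  · simp only [h, if_false]
    split_ifs <;> norm_num

end Pool.Agent.H63.VC4
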