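import Pool.Agent.H63.VC3.Rel
import Pool.Agent.H63.VC4.Defs
import Pool.Agent.H63.VC4.GeoDefs

/-! # The relations at the vertices -/

namespace Pool.Agent.H63.VC4

open Pool.Agent.H63.VC Pool.Agent.H63.VC3 Complex
open scoped BigOperators

private lemma Vertex_r {m : ℕ} {r : Fin (m + 1) → ℤ} {y : Fin m → ℂ} {v : Fin (m + 1) → ℂ}
    (hc : CritN r y v) (i : Fin (m + 1)) : 10 ≤ |r i| := by
  have h1 := hc.hr i
  have h2 := nA_pos m hc.hm i
  have h3 : (10 : ℝ) ≤ |(r i : ℝ)| := by linarith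
  have h4 : ((10 : ℤ) : ℝ) ≤ ((|r i| : ℤ) : ℝ) := by push_cast; exact h3
  exact_mod_cast h4

private lemma Vertex_re {m : ℕ} {r : Fin (m + 1) → ℤ} {y : Fin m → ℂ} {v : Fin (m + 1) → ℂ}
    (hc : CritN r y v) (i : Fin (m + 1)) : |(v i).re| < 2 / 39 :=
  Rel_re_small (Vertex_r hc i) (hc.rev i)

private lemma Vertex_inv {m : ℕ} {r : Fin (m + 1) → ℤ} {y : Fin m → ℂ} {v : Fin (m + 1) → ℂ}
    (hc : CritN r y v) (i : Fin (m + 1)) : 1 / (r i : ℝ) ^ 2 ≤ 1 / 100 := by
  have h1 : (10 : ℝ) ≤ |(r i : ℝ)| := by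
    have := Vertex_r hc i
    have h4 : ((10 : ℤ) : ℝ) ≤ ((|r i| : ℤ) : ℝ) := by exact_mod_cast this
    push_cast at h4
    exact h4
  have h2 : (100 : ℝ) ≤ (r i : ℝ) ^ 2 := by
    have h := pow_le_pow_left₀ (by norm_num : (0 : ℝ) ≤ 10) h1 2
    rw [sq_abs] at h
    linarith
  exact div_le_div_of_nonneg_left (by norm_num) (by norm_num) h2

private lemma Vertex_y {m : ℕ} {r : Fin (m + 1) → ℤ} {y : Fin m → ℂ} {v : Fin (m + 1) → ℂ}
    (hc : CritN r y v) (j : Fin m) : |(y j).re - 1 / 4| ≤ 6 / 1000 := by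
  have h1 := hc.bdy j
  have h2 := Vertex_inv hc j.castSucc
  have h3 := Vertex_inv hc j.succ
  have h4 : |(y j - 1 / 4).re| ≤ ‖y j - 1 / 4‖ := Complex.abs_re_le_norm _
  have h5 : (y j - 1 / 4).re = (y j).re - 1 / 4 := by
    rw [Complex.sub_re]; norm_num
  rw [h5] at h4
  linarith

private lemma Vertex_strip {m : ℕ} {r : Fin (m + 1) → ℤ} {y : Fin m → ℂ} {v : Fin (m + 1) → ℂ}
    (hc : CritN r y v) (j : Fin m) (i : Fin (m + 1)) :
    (0 < (y j - v i).re ∧ (y j - v i).re < 1) ∧ (0 < (y j + v i).re ∧ (y j + v i).re < 1) := by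
  have h1 := abs_lt.1 (Vertex_re hc i)
  have h2 := abs_le.1 (Vertex_y hc j)
  simp only [Complex.sub_re, Complex.add_re]
  refine ⟨⟨?_, ?_⟩, ⟨?_, ?_⟩⟩ <;> linarith [h1.1, h1.2, h2.1, h2.2]

theorem vertex_cos {m : ℕ} (r : Fin (m + 1) → ℤ) (y : Fin m → ℂ) (v : Fin (m + 1) → ℂ)
    (hc : CritN r y v) (j : Fin m) :
    cos (2 * Real.pi * y j) * (2 + cos (2 * Real.pi * v j.castSucc) +
        cos (2 * Real.pi * v j.succ)) =
      cos (2 * Real.pi * v j.castSucc) * cos (2 * Real.pi * v j.succ) - 1 ∧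
    1 + cos (2 * Real.pi * v j.castSucc) ≠ 0 ∧ 1 + cos (2 * Real.pi * v j.succ) ≠ 0 ∧
    2 + cos (2 * Real.pi * v j.castSucc) + cos (2 * Real.pi * v j.succ) ≠ 0 := by
  have hp := Real.pi_pos
  have aux : ∀ i, 1 + cos (2 * Real.pi * v i) ≠ 0 := by
    intro i
    rw [Rel_one_add_cos]
    apply mul_ne_zero two_ne_zero
    apply pow_ne_zero
    apply Rel_cos_ne
    have h1 : (Real.pi * v i : ℂ).im = Real.pi * (v i).im := by simp
    have h2 := hc.imv i
    rw [h1]
    positivity
  refine ⟨?_, aux _, aux _, ?_⟩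
  · obtain ⟨⟨b1, b2⟩, ⟨c1, c2⟩⟩ := Vertex_strip hc j j.castSucc
    obtain ⟨⟨d1, d2⟩, ⟨e1, e2⟩⟩ := Vertex_strip hc j j.succ
    have hy := abs_le.1 (Vertex_y hc j)
    have h5 : (y j + 1 / 2).re = (y j).re + 1 / 2 := by
      rw [Complex.add_re]; norm_num
    have a1 : 0 < (y j + 1 / 2).re := by rw [h5]; linarith [hy.1]
    have a2 : (y j + 1 / 2).re < 1 := by rw [h5]; linarith [hy.2]
    have h := congrArg Complex.exp (hc.ey j)
    rw [Complex.exp_add, Complex.exp_add, Complex.exp_add, hh_exp _ b1 b2, hh_exp _ c1 c2,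
      hh_exp _ d1 d2, hh_exp _ e1 e2] at h
    have h4 : Complex.exp (4 * hh (y j + 1 / 2)) = (2 * (1 + cos (2 * Real.pi * y j))) ^ 2 := by
      have : (4 : ℂ) * hh (y j + 1 / 2) = (4 : ℕ) * hh (y j + 1 / 2) := by norm_num
      rw [this, Complex.exp_nat_mul, hh_exp _ a1 a2, Rel_cos_half, Rel_one_add_cos]
      ring
    rw [h4, Rel_prod (y j) (v j.castSucc)] at h
    have h5 : 2 * (cos (2 * Real.pi * v j.castSucc) - cos (2 * Real.pi * y j)) *
        (2 * sin (Real.pi * (y j - v j.succ))) * (2 * sin (Real.pi * (y j + v j.succ))) =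
        2 * (cos (2 * Real.pi * v j.castSucc) - cos (2 * Real.pi * y j)) *
        (2 * (cos (2 * Real.pi * v j.succ) - cos (2 * Real.pi * y j))) := by
      rw [← Rel_prod (y j) (v j.succ)]; ring
    rw [h5] at h
    linear_combination (1 / 4) * h
  · have h1 := Rel_cos_re (Vertex_re hc j.castSucc)
    have h2 := Rel_cos_re (Vertex_re hc j.succ)
    intro h
    have := congrArg Complex.re h
    simp only [Complex.add_re, Complex.zero_re, Complex.re_ofNat] at this
    linarith

/-! ### Conjugation -/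

private lemma Vertex_cos_conj (z : ℂ) :
    cos (2 * Real.pi * (starRingEnd ℂ) z) = (starRingEnd ℂ) (cos (2 * Real.pi * z)) := by
  rw [← Complex.cos_conj]
  congr 1
  rw [map_mul, map_mul, Complex.conj_ofReal, map_ofNat]

private lemma Vertex_cos_neg_conj (z : ℂ) :
    cos (2 * Real.pi * (-(starRingEnd ℂ) z)) = (starRingEnd ℂ) (cos (2 * Real.pi * z)) := by
  rw [mul_neg, Complex.cos_neg, Vertex_cos_conj]

private lemma Vertex_exp_conj (z : ℂ) :
    exp (-(2 * Real.pi * I * (starRingEnd ℂ) z)) =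
      (starRingEnd ℂ) (exp (2 * Real.pi * I * z)) := by
  rw [← Complex.exp_conj]
  congr 1
  rw [map_mul, map_mul, map_mul, Complex.conj_ofReal, map_ofNat, Complex.conj_I]
  ring

private lemma Vertex_Uo_conj (v y : ℂ) :
    Uo (-(starRingEnd ℂ) v) ((starRingEnd ℂ) y) = (starRingEnd ℂ) (Uo v y) := by
  unfold Uo
  rw [Vertex_cos_neg_conj, Vertex_cos_conj, map_div₀, map_neg, map_sub, map_add, map_one]

/-- The conjugate form of `Vo`. -/
private noncomputable def Vertex_Vp (v y : ℂ) : ℂ :=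
  -(cos (2 * Real.pi * v) - cos (2 * Real.pi * y)) * exp (2 * Real.pi * I * y) /
    (1 + cos (2 * Real.pi * v))

private lemma Vertex_Vo_conj (v y : ℂ) :
    Vo (-(starRingEnd ℂ) v) ((starRingEnd ℂ) y) = (starRingEnd ℂ) (Vertex_Vp v y) := by
  unfold Vo Vertex_Vp
  rw [Vertex_cos_neg_conj, Vertex_cos_conj, Vertex_exp_conj, map_div₀, map_mul, map_neg, map_sub,
    map_add, map_one]

/-! ### Natural values -/

private lemma Vertex_U (y v v' : ℂ)
    (h : cos (2 * Real.pi * y) * (2 + cos (2 * Real.pi * v) + cos (2 * Real.pi * v')) =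
      cos (2 * Real.pi * v) * cos (2 * Real.pi * v') - 1)
    (h1 : 1 + cos (2 * Real.pi * v) ≠ 0) (h2 : 1 + cos (2 * Real.pi * v') ≠ 0)
    (h3 : 2 + cos (2 * Real.pi * v) + cos (2 * Real.pi * v') ≠ 0) :
    Uo v y = -((1 + cos (2 * Real.pi * v)) / (1 + cos (2 * Real.pi * v'))) ∧
    Vo v y = -((1 + cos (2 * Real.pi * v)) * exp (-(2 * Real.pi * I * y)) /
      (2 + cos (2 * Real.pi * v) + cos (2 * Real.pi * v'))) ∧
    Vertex_Vp v y = -((1 + cos (2 * Real.pi * v)) * exp (2 * Real.pi * I * y) /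
      (2 + cos (2 * Real.pi * v) + cos (2 * Real.pi * v'))) := by
  unfold Uo Vo Vertex_Vp
  generalize exp (-(2 * Real.pi * I * y)) = E
  generalize exp (2 * Real.pi * I * y) = F
  generalize cos (2 * Real.pi * v) = A at *
  generalize cos (2 * Real.pi * v') = B at *
  generalize cos (2 * Real.pi * y) = c at *
  have k1 : (1 + c) * (2 + A + B) = (1 + A) * (1 + B) := by linear_combination h
  have k2 : (A - c) * (2 + A + B) = (1 + A) ^ 2 := by linear_combination -h
  have hc0 : 1 + c ≠ 0 := by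
    intro h0
    rw [h0, zero_mul] at k1
    exact mul_ne_zero h1 h2 k1.symm
  refine ⟨?_, ?_, ?_⟩
  · rw [neg_div, neg_inj, div_eq_div_iff hc0 h2]
    apply mul_right_cancel₀ h3
    linear_combination (1 + B) * k2 - (1 + A) * k1
  · rw [neg_mul, neg_div, neg_inj, div_eq_div_iff h1 h3]
    linear_combination E * k2
  · rw [neg_mul, neg_div, neg_inj, div_eq_div_iff h1 h3]
    linear_combination F * k2

/-! ### Signs -/

private lemma Vertex_im_cos (v : ℂ) : (cos (2 * Real.pi * v)).im =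
    -(Real.sin (2 * Real.pi * v.re) * Real.sinh (2 * Real.pi * v.im)) := by
  rw [Complex.cos_eq]
  have e1 : (2 * Real.pi * v : ℂ).re = 2 * Real.pi * v.re := by simp
  have e2 : (2 * Real.pi * v : ℂ).im = 2 * Real.pi * v.im := by simp
  rw [e1, e2, ← Complex.ofReal_cos, ← Complex.ofReal_cosh, ← Complex.ofReal_sin,
    ← Complex.ofReal_sinh]
  simp only [Complex.sub_im, Complex.mul_re, Complex.ofReal_re, Complex.ofReal_im,
    Complex.I_re, Complex.I_im, Complex.mul_im, mul_zero, zero_mul, sub_zero, add_zero, mul_one,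
    zero_add, zero_sub]

private lemma Vertex_sign {m : ℕ} {r : Fin (m + 1) → ℤ} {y : Fin m → ℂ} {v : Fin (m + 1) → ℂ}
    (hc : CritN r y v) (i : Fin (m + 1)) :
    (r i < 0 → (cos (2 * Real.pi * v i)).im < 0) ∧ (0 < r i → 0 < (cos (2 * Real.pi * v i)).im) := by
  have hp := Real.pi_pos
  have h10 : (10 : ℝ) ≤ |(r i : ℝ)| := by
    have := Vertex_r hc i
    have h4 : ((10 : ℤ) : ℝ) ≤ ((|r i| : ℤ) : ℝ) := by exact_mod_cast this
    push_cast at h4
    exact h4
  have h1 := hc.bdv i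
  have h2 : |(v i + 1 / (2 * r i)).re| ≤ ‖v i + 1 / (2 * r i)‖ := Complex.abs_re_le_norm _
  have h3 : (v i + 1 / (2 * r i)).re = (v i).re + 1 / (2 * (r i : ℝ)) := by
    have : (1 : ℂ) / (2 * (r i : ℂ)) = ((1 / (2 * (r i : ℝ)) : ℝ) : ℂ) := by push_cast; ring
    rw [this, Complex.add_re, Complex.ofReal_re]
  rw [h3] at h2
  have h4 : 3 / 10 * nA m i / (r i : ℝ) ^ 2 ≤ 6 / 10 / (r i : ℝ) ^ 2 := by
    apply div_le_div_of_nonneg_right _ (sq_nonneg _)
    have := nA_le m i
    linarith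
  have h5 := abs_le.1 (h2.trans (h1.trans h4))
  have hre := abs_lt.1 (Vertex_re hc i)
  have him := hc.imv i
  have hsinh : 0 < Real.sinh (2 * Real.pi * (v i).im) :=
    Real.sinh_pos_iff.2 (by positivity)
  rw [Vertex_im_cos]
  constructor
  · intro hr
    have hr' : (r i : ℝ) ≤ -10 := by
      have : (r i : ℝ) < 0 := by exact_mod_cast hr
      rw [abs_of_neg this] at h10
      linarith
    have h6 : 6 / 10 / (r i : ℝ) ^ 2 < -(1 / (2 * (r i : ℝ))) := by
      have e : -(1 / (2 * (r i : ℝ))) = (-(r i : ℝ) / 2) / (r i : ℝ) ^ 2 := by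
        have : (r i : ℝ) ≠ 0 := by linarith
        field_simp
      rw [e]
      have : (0 : ℝ) < (r i : ℝ) ^ 2 := by nlinarith
      exact (div_lt_div_iff_of_pos_right this).2 (by linarith)
    have h7 : 0 < (v i).re := by linarith [h5.1]
    have h8 : 0 < Real.sin (2 * Real.pi * (v i).re) :=
      Real.sin_pos_of_pos_of_lt_pi (by positivity) (by nlinarith [hre.2])
    have := mul_pos h8 hsinh
    linarith
  · intro hr
    have hr' : 10 ≤ (r i : ℝ) := by
      have : (0 : ℝ) < (r i : ℝ) := by exact_mod_cast hr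
      rw [abs_of_pos this] at h10
      linarith
    have h6 : 6 / 10 / (r i : ℝ) ^ 2 < 1 / (2 * (r i : ℝ)) := by
      have e : 1 / (2 * (r i : ℝ)) = ((r i : ℝ) / 2) / (r i : ℝ) ^ 2 := by
        have : (r i : ℝ) ≠ 0 := by linarith
        field_simp
      rw [e]
      have : (0 : ℝ) < (r i : ℝ) ^ 2 := by nlinarith
      exact (div_lt_div_iff_of_pos_right this).2 (by linarith)
    have h7 : (v i).re < 0 := by linarith [h5.2]
    have h8 : Real.sin (2 * Real.pi * (v i).re) < 0 :=
      Real.sin_neg_of_neg_of_neg_pi_lt (by nlinarith) (by nlinarith [hre.1])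
    have := mul_neg_of_neg_of_pos h8 hsinh
    linarith

private lemma Vertex_im_div (A B : ℂ) (hA : 0 < A.re) (hB : 0 < B.re) (iA : A.im < 0)
    (iB : 0 < B.im) : 0 < (-((1 + A) / (1 + B))).im ∧ (-((1 + B) / (1 + A))).im < 0 := by
  have hn1 : 0 < Complex.normSq (1 + B) := by
    rw [Complex.normSq_pos]
    intro h
    have := congrArg Complex.re h
    simp at this
    linarith
  have hn2 : 0 < Complex.normSq (1 + A) := by
    rw [Complex.normSq_pos]
    intro h
    have := congrArg Complex.re h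
    simp at this
    linarith
  constructor
  · rw [Complex.neg_im, Complex.div_im]
    simp only [Complex.add_re, Complex.add_im, Complex.one_re, Complex.one_im, zero_add]
    rw [neg_pos, ← sub_div]
    apply div_neg_of_neg_of_pos _ hn1
    nlinarith
  · rw [Complex.neg_im, Complex.div_im]
    simp only [Complex.add_re, Complex.add_im, Complex.one_re, Complex.one_im, zero_add]
    rw [neg_lt_zero, ← sub_div]
    apply div_pos _ hn2
    nlinarith

theorem vertex_opp {m : ℕ} (r : Fin (m + 1) → ℤ) (y : Fin m → ℂ) (v : Fin (m + 1) → ℂ)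
    (hc : CritN r y v) (j : Fin m) (w w' y1 y2 : ℂ) (hw : w = stw (r j.castSucc) (v j.castSucc))
    (hw' : w' = stw (r j.succ) (v j.succ)) (hy1 : y1 = sty (r j.castSucc) (y j))
    (hy2 : y2 = sty (r j.succ) (y j)) (h : r j.castSucc * r j.succ < 0) :
    0 < (Uo w y1).im ∧ Uo w' y2 * (starRingEnd ℂ) (Uo w y1) = 1 ∧
    (1 - Uo w y1) ^ 2 * Vo w y1 * (starRingEnd ℂ) (Vo w' y2) = -Uo w y1 := by
  obtain ⟨hcos, n1, n2, n3⟩ := vertex_cos r y v hc j
  obtain ⟨u1, vo1, vp1⟩ := Vertex_U (y j) _ _ hcos n1 n2 n3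
  have n3' : 2 + cos (2 * Real.pi * v j.succ) + cos (2 * Real.pi * v j.castSucc) ≠ 0 := by
    intro h0; apply n3; linear_combination h0
  obtain ⟨u2, vo2, vp2⟩ := Vertex_U (y j) (v j.succ) (v j.castSucc)
    (by linear_combination hcos) n2 n1 n3'
  have hA := Rel_cos_re (Vertex_re hc j.castSucc)
  have hB := Rel_cos_re (Vertex_re hc j.succ)
  obtain ⟨sA1, sA2⟩ := Vertex_sign hc j.castSucc
  obtain ⟨sB1, sB2⟩ := Vertex_sign hc j.succ
  have hE : exp (-(2 * Real.pi * I * y j)) * exp (2 * Real.pi * I * y j) = 1 := by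
    rw [← Complex.exp_add]; simp
  rcases lt_or_ge (r j.castSucc) 0 with hr | hr
  · have hr' : 0 < r j.succ := by
      by_contra h0
      push Not at h0
      have := mul_nonneg_of_nonpos_of_nonpos hr.le h0
      omega
    have hnr' : ¬ r j.succ < 0 := by omega
    unfold stw at hw hw'
    unfold sty at hy1 hy2
    rw [if_pos hr] at hw hy1
    rw [if_neg hnr'] at hw' hy2
    subst hw hw' hy1 hy2
    rw [Vertex_Uo_conj, Vertex_Vo_conj, Complex.conj_conj, u1, u2, vo1, vp2]
    refine ⟨(Vertex_im_div _ _ hA hB (sA1 hr) (sB2 hr')).1, ?_, ?_⟩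
    · rw [← map_mul]
      have e : -((1 + cos (2 * Real.pi * v j.succ)) / (1 + cos (2 * Real.pi * v j.castSucc))) *
          -((1 + cos (2 * Real.pi * v j.castSucc)) / (1 + cos (2 * Real.pi * v j.succ))) = 1 := by
        field_simp
      rw [e, map_one]
    · generalize exp (-(2 * Real.pi * I * y j)) = E at *
      generalize exp (2 * Real.pi * I * y j) = F at *
      generalize cos (2 * Real.pi * v j.castSucc) = A at *
      generalize cos (2 * Real.pi * v j.succ) = B at *
      have e1 : 1 - -((1 + A) / (1 + B)) = (2 + A + B) / (1 + B) := by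
        field_simp
        ring
      have e2 : -((1 + B) * F / (2 + B + A)) = -((1 + B) * F / (2 + A + B)) := by
        rw [add_right_comm]
      rw [e1, e2]
      field_simp
      linear_combination hE
  · have hr0 : 0 < r j.castSucc := by
      rcases hr.lt_or_eq with h0 | h0
      · exact h0
      · rw [← h0, zero_mul] at h
        omega
    have hr' : r j.succ < 0 := by
      by_contra h0
      push Not at h0
      have := mul_nonneg hr h0
      omega
    have hnr : ¬ r j.castSucc < 0 := by omega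
    unfold stw at hw hw'
    unfold sty at hy1 hy2
    rw [if_neg hnr] at hw hy1
    rw [if_pos hr'] at hw' hy2
    subst hw hw' hy1 hy2
    rw [Vertex_Uo_conj, Vertex_Vo_conj, Complex.conj_conj, u1, u2, vo2, vp1]
    refine ⟨?_, ?_, ?_⟩
    · rw [Complex.conj_im, neg_pos]
      exact (Vertex_im_div _ _ hB hA (sB1 hr') (sA2 hr0)).2
    · field_simp
    · have e3 : (1 - (starRingEnd ℂ) (-((1 + cos (2 * Real.pi * v j.castSucc)) /
          (1 + cos (2 * Real.pi * v j.succ)))) : ℂ) = (starRingEnd ℂ)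
          (1 - (-((1 + cos (2 * Real.pi * v j.castSucc)) /
          (1 + cos (2 * Real.pi * v j.succ))))) := by
        rw [map_sub, map_one]
      rw [e3, ← map_pow, ← map_mul, ← map_mul, ← map_neg]
      congr 1
      generalize exp (-(2 * Real.pi * I * y j)) = E at *
      generalize exp (2 * Real.pi * I * y j) = F at *
      generalize cos (2 * Real.pi * v j.castSucc) = A at *
      generalize cos (2 * Real.pi * v j.succ) = B at *
      have e1 : 1 - -((1 + A) / (1 + B)) = (2 + A + B) / (1 + B) := by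
        field_simp
        ring
      have e2 : -((1 + B) * E / (2 + B + A)) = -((1 + B) * E / (2 + A + B)) := by
        rw [add_right_comm]
      rw [e1, e2]
      field_simp
      linear_combination hE

theorem vertex_same {m : ℕ} (r : Fin (m + 1) → ℤ) (y : Fin m → ℂ) (v : Fin (m + 1) → ℂ)
    (hc : CritN r y v) (j : Fin m) (w w' y1 y2 : ℂ) (hw : w = stw (r j.castSucc) (v j.castSucc))
    (hw' : w' = stw (r j.succ) (v j.succ)) (hy1 : y1 = sty (r j.castSucc) (y j))
    (hy2 : y2 = sty (r j.succ) (y j)) (h : 0 < r j.castSucc * r j.succ) :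
    Uo w' y2 * Uo w y1 = 1 ∧ Vo w y1 = -(Uo w y1 * Vo w' y2) := by
  obtain ⟨hcos, n1, n2, n3⟩ := vertex_cos r y v hc j
  obtain ⟨u1, vo1, vp1⟩ := Vertex_U (y j) _ _ hcos n1 n2 n3
  have n3' : 2 + cos (2 * Real.pi * v j.succ) + cos (2 * Real.pi * v j.castSucc) ≠ 0 := by
    intro h0; apply n3; linear_combination h0
  obtain ⟨u2, vo2, vp2⟩ := Vertex_U (y j) (v j.succ) (v j.castSucc)
    (by linear_combination hcos) n2 n1 n3'
  rcases lt_or_ge (r j.castSucc) 0 with hr | hr
  · have hr' : r j.succ < 0 := by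
      by_contra h0
      push Not at h0
      have := mul_nonpos_of_nonpos_of_nonneg hr.le h0
      omega
    unfold stw at hw hw'
    unfold sty at hy1 hy2
    rw [if_pos hr] at hw hy1
    rw [if_pos hr'] at hw' hy2
    subst hw hw' hy1 hy2
    rw [u1, u2, vo1, vo2]
    constructor
    · field_simp
    · rw [add_right_comm 2 (cos (2 * Real.pi * v j.succ)) (cos (2 * Real.pi * v j.castSucc))]
      field_simp
  · have hr0 : 0 < r j.castSucc := by
      rcases hr.lt_or_eq with h0 | h0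
      · exact h0
      · rw [← h0, zero_mul] at h
        omega
    have hr' : ¬ r j.succ < 0 := by
      intro h0
      have := mul_nonpos_of_nonneg_of_nonpos hr h0.le
      omega
    have hnr : ¬ r j.castSucc < 0 := by omega
    unfold stw at hw hw'
    unfold sty at hy1 hy2
    rw [if_neg hnr] at hw hy1
    rw [if_neg hr'] at hw' hy2
    subst hw hw' hy1 hy2
    rw [Vertex_Uo_conj, Vertex_Uo_conj, Vertex_Vo_conj, Vertex_Vo_conj, u1, u2, vp1, vp2]
    constructor
    · rw [← map_mul]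
      have e : -((1 + cos (2 * Real.pi * v j.succ)) / (1 + cos (2 * Real.pi * v j.castSucc))) *
          -((1 + cos (2 * Real.pi * v j.castSucc)) / (1 + cos (2 * Real.pi * v j.succ))) = 1 := by
        field_simp
      rw [e, map_one]
    · rw [← map_mul, ← map_neg]
      congr 1
      rw [add_right_comm 2 (cos (2 * Real.pi * v j.succ)) (cos (2 * Real.pi * v j.castSucc))]
      field_simp

end Pool.Agent.H63.VC4
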