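import Pool.Agent.H63.VC4.KAnN
import Pool.Agent.H63.VC3.KB

/-! # Bounds and limits of the kernels -/

namespace Pool.Agent.H63.VC4

open Pool.Agent.H63.VC Pool.Agent.H63.VC3 Complex Filter Topology
open scoped BigOperators

theorem KBN_natCast_mul_re (M : ℕ) (z : ℂ) : ((M : ℂ) * z).re = M * z.re := by
  have : (M : ℂ) = ((M : ℝ) : ℂ) := by push_cast; rfl
  rw [this, Complex.re_ofReal_mul]

theorem KBN_Qo_bound (n : ℕ) : ∃ C : ℝ, 0 < C ∧ ∀ M : ℕ, 1 ≤ M → ∀ (u : Option ℂ) (v : ℂ),
    (∀ y ∈ u, 4 / 100 ≤ (y - v).re ∧ (y - v).re ≤ 46 / 100 ∧ 4 / 100 ≤ (y + v).re ∧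
      (y + v).re ≤ 46 / 100 ∧ |y.im| ≤ 1 / 10) → |v.im| ≤ 1 / 10 →
    ‖Qo n M u v‖ ≤ C / M * Real.exp (M * (po u v).re) := by
  obtain ⟨C₀, hC₀, hL⟩ := LL_asym (4 / 100) (2 / 10) (by norm_num)
  refine ⟨(2 * Real.exp (Real.pi * (1 / 10))) ^ (n - 2) + Real.exp (2 * C₀), by positivity, ?_⟩
  intro M hM u v hu h6
  have hM0 : (0 : ℝ) < M := by exact_mod_cast hM
  have hM1 : (1 : ℝ) ≤ M := by exact_mod_cast hM
  cases u with
  | none =>
    have hb : ‖Bn n M v‖ ≤ (2 * Real.exp (Real.pi * (1 / 10))) ^ (n - 2) := by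
      refine (KB_Bn_norm n M v).trans (pow_le_pow_left₀ (by positivity) ?_ _)
      refine mul_le_mul_of_nonneg_left (Real.exp_le_exp.2 ?_) (by norm_num)
      exact mul_le_mul_of_nonneg_left h6 Real.pi_pos.le
    simp only [Qo, po, Complex.zero_re, mul_zero, Real.exp_zero, mul_one]
    rw [norm_div, Complex.norm_natCast]
    refine div_le_div_of_nonneg_right (hb.trans ?_) hM0.le
    linarith [Real.exp_pos (2 * C₀)]
  | some y =>
    obtain ⟨h1, h2, h3, h4, h5⟩ := hu y rfl
    have him1 : |(y - v).im| ≤ 2 / 10 := by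
      rw [Complex.sub_im]; rw [abs_le] at *; constructor <;> linarith
    have him2 : |(y + v).im| ≤ 2 / 10 := by
      rw [Complex.add_im]; rw [abs_le] at *; constructor <;> linarith
    have hA := hL M hM (y - v) h1 (by linarith) him1
    have hB := hL M hM (y + v) h3 (by linarith) him2
    have hCM : C₀ / M ≤ C₀ := div_le_self hC₀.le hM1
    have hA' := (abs_le.1 ((Complex.abs_re_le_norm _).trans (hA.trans hCM))).1
    have hB' := (abs_le.1 ((Complex.abs_re_le_norm _).trans (hB.trans hCM))).1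
    have e1 : ((Real.log M : ℂ) / 2).re = Real.log M / 2 := by
      have : ((Real.log M : ℂ) / 2) = ((Real.log M / 2 : ℝ) : ℂ) := by push_cast; ring
      rw [this, Complex.ofReal_re]
    rw [Complex.sub_re, Complex.sub_re, e1, KBN_natCast_mul_re] at hA' hB'
    simp only [Qo, po]
    rw [Complex.norm_exp]
    have h8 : Real.exp (2 * C₀) / M * Real.exp (M * (-ff (y - v) - ff (y + v)).re) =
        Real.exp (2 * C₀ - Real.log M + M * (-ff (y - v) - ff (y + v)).re) := by
      rw [Real.exp_add, Real.exp_sub, Real.exp_log hM0]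
    calc Real.exp (-LL M (M * (y - v) - 1 / 2) - LL M (M * (y + v) - 1 / 2)).re
        ≤ Real.exp (2 * C₀) / M * Real.exp (M * (-ff (y - v) - ff (y + v)).re) := by
          rw [h8]
          refine Real.exp_le_exp.2 ?_
          rw [Complex.sub_re, Complex.neg_re, Complex.sub_re, Complex.neg_re]
          linarith
      _ ≤ _ := by
          refine mul_le_mul_of_nonneg_right (div_le_div_of_nonneg_right ?_ hM0.le)
            (Real.exp_pos _).le
          have : 0 ≤ (2 * Real.exp (Real.pi * (1 / 10))) ^ (n - 2) := by positivity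
          linarith

theorem KR_bound (r : ℤ) (n : ℕ) : ∃ C : ℝ, 0 < C ∧ ∀ M : ℕ, 1 ≤ M → ∀ (u u' : Option ℂ) (v : ℂ),
    (∀ y, (y ∈ u ∨ y ∈ u') → 4 / 100 ≤ (y - v).re ∧ (y - v).re ≤ 46 / 100 ∧ 4 / 100 ≤ (y + v).re ∧
      (y + v).re ≤ 46 / 100 ∧ |y.im| ≤ 1 / 10) → |v.re| ≤ 1 → |v.im| ≤ 1 / 10 →
    ‖KR r n M u u' v‖ ≤ C / M * Real.exp (M * (2 * Real.pi * I * r * v ^ 2 + po u v + po u' v).re) := by
  obtain ⟨C, hC, hQ⟩ := KBN_Qo_bound n
  refine ⟨(2 * Real.exp (2 * Real.pi * (1 / 10))) * C * C, by positivity, ?_⟩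
  intro M hM u u' v hy _ h6
  have hM0 : (0 : ℝ) < M := by exact_mod_cast hM
  have hs : ‖2 * Complex.sin (2 * Real.pi * v)‖ ≤ 2 * Real.exp (2 * Real.pi * (1 / 10)) := by
    rw [norm_mul]
    have h2 : ‖(2 : ℂ)‖ = 2 := by simp
    rw [h2]
    refine mul_le_mul_of_nonneg_left ((KB_norm_sin_le _).trans (Real.exp_le_exp.2 ?_)) (by norm_num)
    have h7 : (2 * (Real.pi : ℂ) * v).im = 2 * Real.pi * v.im := by
      have : (2 * (Real.pi : ℂ)) = ((2 * Real.pi : ℝ) : ℂ) := by push_cast; ring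
      rw [this, Complex.im_ofReal_mul]
    rw [h7, abs_mul, abs_of_pos (by positivity : 0 < 2 * Real.pi)]
    exact mul_le_mul_of_nonneg_left h6 (by positivity)
  have hu := hQ M hM u v (fun y h => hy y (Or.inl h)) h6
  have hu' := hQ M hM u' v (fun y h => hy y (Or.inr h)) h6
  unfold KR
  rw [norm_mul, norm_mul, norm_mul, norm_mul, Complex.norm_natCast, Complex.norm_exp]
  have h9 : (2 * Real.pi * I * r * M * v ^ 2 : ℂ) = M * (2 * Real.pi * I * r * v ^ 2) := by ring
  rw [h9, KBN_natCast_mul_re, Complex.add_re, Complex.add_re, mul_add, mul_add, Real.exp_add,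
    Real.exp_add]
  calc (M : ℝ) * Real.exp (M * (2 * Real.pi * I * r * v ^ 2).re) *
        ‖2 * Complex.sin (2 * Real.pi * v)‖ * ‖Qo n M u v‖ * ‖Qo n M u' v‖
      ≤ (M : ℝ) * Real.exp (M * (2 * Real.pi * I * r * v ^ 2).re) *
        (2 * Real.exp (2 * Real.pi * (1 / 10))) * (C / M * Real.exp (M * (po u v).re)) *
        (C / M * Real.exp (M * (po u' v).re)) := by
        refine mul_le_mul (mul_le_mul (mul_le_mul_of_nonneg_left hs (by positivity)) hu
          (norm_nonneg _) (by positivity)) hu' (norm_nonneg _) (by positivity)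
    _ = _ := by
        field_simp

/-- A slot is either always empty or always the same vertex. -/
theorem KBN_ext_cases {m : ℕ} (k : Fin (m + 2)) : (∀ f : Fin m → ℂ, ext f k = none) ∨
    ∃ j : Fin m, ∀ f : Fin m → ℂ, ext f k = some (f j) := by
  refine Fin.cases (Or.inl fun f => rfl) (fun i => ?_) k
  refine Fin.lastCases (Or.inl fun f => ext_last_succ f) (fun i => ?_) i
  exact Or.inr ⟨i, fun f => ext_mid f i⟩

theorem KBN_mem_ext {m : ℕ} {k : Fin (m + 2)} {f : Fin m → ℂ} {y : ℂ} (h : y ∈ ext f k) :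
    ∃ j, y = f j := by
  rcases KBN_ext_cases k with h1 | ⟨j, h1⟩
  · rw [h1] at h; cases h
  · rw [h1] at h
    exact ⟨j, (Option.some.inj h).symm⟩

theorem GI_bound {m : ℕ} (r : Fin (m + 1) → ℤ) (n g : ℕ) (hg : 1 ≤ g) (hgn : g ≤ n - 1)
    (Y1 : Fin (m + 1) → ℝ) (hY1 : ∀ i, 0 < Y1 i ∧ Y1 i ≤ 1 / 50) :
    ∃ C : ℝ, 0 < C ∧ ∃ M0 : ℕ, ∀ M : ℕ, M0 ≤ M → ∀ (y : Fin m → ℂ) (a : Fin (m + 1) → ℝ),
      (∀ j, |(y j).re - 1 / 4| ≤ 55 / 1000 ∧ |(y j).im| ≤ 1 / 50) → (∀ i, |a i| ≤ 15 / 100) →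
      ‖GI r n g M y (fun i => a i + Y1 i * I)‖ ≤ C * ((M : ℝ) ^ (2 * m) / (M : ℝ) ^ (m + 1)) *
        Real.exp (M * (VN r y (fun i => a i + Y1 i * I)).re) := by
  obtain ⟨C, hC, hCc⟩ := Cc_bound n g hg hgn
  choose D hD hDb using fun i : Fin (m + 1) => KR_bound (r i) n
  -- the size of `M`
  have hM0 : ∃ M0 : ℕ, 1000 * (n + 1) ≤ M0 ∧ ∀ M : ℕ, M0 ≤ M → ∀ i, 1 ≤ 2 * Real.pi * M * Y1 i := by
    have hev : ∀ᶠ M : ℕ in atTop, ∀ i, 1 ≤ 2 * Real.pi * M * Y1 i := by
      rw [eventually_all]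
      intro i
      have h1 : Tendsto (fun M : ℕ => (2 * Real.pi * Y1 i) * (M : ℝ)) atTop atTop :=
        tendsto_natCast_atTop_atTop.const_mul_atTop (by have := (hY1 i).1; positivity)
      filter_upwards [h1.eventually_ge_atTop 1] with M hM
      linarith
    obtain ⟨M1, hM1⟩ := eventually_atTop.1 hev
    exact ⟨max M1 (1000 * (n + 1)), le_max_right _ _, fun M hM => hM1 M ((le_max_left _ _).trans hM)⟩
  obtain ⟨M0, hM0a, hM0b⟩ := hM0
  refine ⟨C ^ m * ∏ i, (4 * D i), by
    have : 0 < ∏ i, (4 * D i) := Finset.prod_pos fun i _ => by have := hD i; positivity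
    positivity, M0, ?_⟩
  intro M hM y a hy ha
  have hMn : 1000 * (n + 1) ≤ M := hM0a.trans hM
  have hM1 : 1 ≤ M := by omega
  have hMp : (0 : ℝ) < M := by exact_mod_cast hM1
  set v : Fin (m + 1) → ℂ := fun i => a i + Y1 i * I with hv
  have hvre : ∀ i, (v i).re = a i := by intro i; simp [hv]
  have hvim : ∀ i, (v i).im = Y1 i := by intro i; simp [hv]
  have h1 : ∀ j : Fin m, ‖Cc n g M (y j)‖ ≤ C * (M : ℝ) ^ 2 *
      Real.exp (M * (4 * ff (y j + 1 / 2)).re) := by
    intro j
    obtain ⟨h1, h2⟩ := hy j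
    rw [abs_le] at h1
    exact hCc M hMn (y j) (by linarith) (by linarith) (h2.trans (by norm_num))
  have h2 : ∀ i : Fin (m + 1), ‖KR (r i) n M (ext y i.castSucc) (ext y i.succ) (v i) *
      om n M (v i)‖ ≤ (4 * D i) / M *
        Real.exp (M * (WN (r i) (ext y i.castSucc) (ext y i.succ) (v i)).re) := by
    intro i
    have hb := hDb i M hM1 (ext y i.castSucc) (ext y i.succ) (v i) (by
      intro z hz
      obtain ⟨j, rfl⟩ : ∃ j, z = y j := by
        rcases hz with hz | hz <;> exact KBN_mem_ext hz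
      obtain ⟨h1, h2⟩ := hy j
      have h3 := ha i
      rw [abs_le] at h1 h3
      rw [Complex.sub_re, Complex.add_re (y j), hvre]
      refine ⟨by linarith, by linarith, by linarith, by linarith, h2.trans (by norm_num)⟩)
      (by rw [hvre]; exact (ha i).trans (by norm_num))
      (by rw [hvim, abs_of_pos (hY1 i).1]; exact (hY1 i).2.trans (by norm_num))
    have ho := om_flat n M (v i) (by rw [hvim]; exact hM0b M hM i)
    rw [norm_mul]
    have e : WN (r i) (ext y i.castSucc) (ext y i.succ) (v i) =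
        (2 * Real.pi * I * r i * (v i) ^ 2 + po (ext y i.castSucc) (v i) +
          po (ext y i.succ) (v i)) + 2 * Real.pi * I * v i := by
      unfold WN; ring
    have e2 : (2 * Real.pi * I * v i).re = -(2 * Real.pi * (v i).im) := by
      have : 2 * Real.pi * I * v i = ((2 * Real.pi : ℝ) : ℂ) * (I * v i) := by push_cast; ring
      rw [this, Complex.re_ofReal_mul, Complex.I_mul_re]
      ring
    rw [e, Complex.add_re, e2, mul_add, Real.exp_add]
    have e3 : (M : ℝ) * -(2 * Real.pi * (v i).im) = -(2 * Real.pi * M * (v i).im) := by ring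
    rw [e3]
    calc ‖KR (r i) n M (ext y i.castSucc) (ext y i.succ) (v i)‖ * ‖om n M (v i)‖
        ≤ (D i / M * Real.exp (M * (2 * Real.pi * I * r i * (v i) ^ 2 +
          po (ext y i.castSucc) (v i) + po (ext y i.succ) (v i)).re)) *
          (4 * Real.exp (-(2 * Real.pi * M * (v i).im))) := by
          refine mul_le_mul hb ho (norm_nonneg _) ?_
          have := hD i
          positivity
      _ = _ := by ring
  unfold GI
  rw [norm_mul, _root_.norm_prod, _root_.norm_prod]
  calc (∏ j, ‖Cc n g M (y j)‖) * ∏ i, ‖KR (r i) n M (ext y i.castSucc) (ext y i.succ) (v i) *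
        om n M (v i)‖
      ≤ (∏ j : Fin m, (C * (M : ℝ) ^ 2 * Real.exp (M * (4 * ff (y j + 1 / 2)).re))) *
        ∏ i, ((4 * D i) / M *
          Real.exp (M * (WN (r i) (ext y i.castSucc) (ext y i.succ) (v i)).re)) := by
        refine mul_le_mul (Finset.prod_le_prod (fun _ _ => norm_nonneg _) fun j _ => h1 j)
          (Finset.prod_le_prod (fun _ _ => norm_nonneg _) fun i _ => h2 i)
          (Finset.prod_nonneg fun _ _ => norm_nonneg _)
          (Finset.prod_nonneg fun _ _ => by positivity)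
    _ = _ := by
        have hP1 : (∏ j : Fin m, (C * (M : ℝ) ^ 2 * Real.exp (M * (4 * ff (y j + 1 / 2)).re))) =
            C ^ m * (M : ℝ) ^ (2 * m) * ∏ j : Fin m, Real.exp (M * (4 * ff (y j + 1 / 2)).re) := by
          rw [Finset.prod_mul_distrib, Finset.prod_const, Finset.card_univ, Fintype.card_fin,
            mul_pow, ← pow_mul]
        have hP2 : (∏ i, ((4 * D i) / M *
            Real.exp (M * (WN (r i) (ext y i.castSucc) (ext y i.succ) (v i)).re))) =
            (∏ i, (4 * D i)) / (M : ℝ) ^ (m + 1) * ∏ i,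
              Real.exp (M * (WN (r i) (ext y i.castSucc) (ext y i.succ) (v i)).re) := by
          rw [Finset.prod_mul_distrib, Finset.prod_div_distrib, Finset.prod_const,
            Finset.card_univ, Fintype.card_fin]
        have e : M * (VN r y v).re = (∑ j : Fin m, M * (4 * ff (y j + 1 / 2)).re) +
            ∑ i, M * (WN (r i) (ext y i.castSucc) (ext y i.succ) (v i)).re := by
          unfold VN
          rw [Complex.add_re, Complex.re_sum, Complex.re_sum, mul_add, Finset.mul_sum,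
            Finset.mul_sum]
        rw [hP1, hP2, e, Real.exp_add, Real.exp_sum, Real.exp_sum]
        ring

/-! ### Limits -/

/-- The limit of the factor of a slot. -/
noncomputable def KBN_Lq (n : ℕ) : Option ℂ → ℂ → ℂ
  | none, v => (2 * cos (Real.pi * v)) ^ (n - 2)
  | some _, _ => 1

theorem KBN_Qo_lim {m : ℕ} (n : ℕ) (k : Fin (m + 2)) (y : Fin m → ℂ) (v : ℂ)
    (Y : ℕ → Fin m → ℂ) (V : ℕ → ℂ) (hY : ∀ j, Tendsto (fun M => Y M j) atTop (𝓝 (y j)))
    (hV : Tendsto V atTop (𝓝 v)) (hok : okS v (ext y k)) :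
    Tendsto (fun M : ℕ => (M : ℂ) * Qo n M (ext (Y M) k) (V M) *
      exp (-M * po (ext (Y M) k) (V M))) atTop (𝓝 (KBN_Lq n (ext y k) v)) := by
  rcases KBN_ext_cases k with h | ⟨j, h⟩
  · simp only [h]
    simp only [Qo, po, KBN_Lq, mul_zero, Complex.exp_zero, mul_one]
    refine (KB_Bn_lim n v V hV).congr' ?_
    filter_upwards [eventually_ge_atTop 1] with M hM
    have hM0 : (M : ℂ) ≠ 0 := by
      have : M ≠ 0 := by omega
      exact_mod_cast this
    field_simp
  · simp only [h] at hok ⊢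
    obtain ⟨h1, h2, h3, h4⟩ := hok (y j) rfl
    have hE1 := KB_asym_tendsto (y j - v) (fun M => Y M j - V M) ((hY j).sub hV) h1 h2
    have hE2 := KB_asym_tendsto (y j + v) (fun M => Y M j + V M) ((hY j).add hV) h3 h4
    have hexp : Tendsto (fun M : ℕ => exp (-(LL M (M * (Y M j - V M) - 1 / 2) -
        Real.log M / 2 - M * ff (Y M j - V M)) - (LL M (M * (Y M j + V M) - 1 / 2) -
        Real.log M / 2 - M * ff (Y M j + V M)))) atTop (𝓝 1) := by
      have h := (Complex.continuous_exp.tendsto _).comp ((hE1.neg).sub hE2)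
      rw [neg_zero, sub_zero, Complex.exp_zero] at h
      exact h
    simp only [Qo, po, KBN_Lq]
    refine hexp.congr' ?_
    filter_upwards [eventually_ge_atTop 1] with M hM
    have hM0 : (0 : ℝ) < M := by
      have : 0 < M := by omega
      exact_mod_cast this
    have hlog : (M : ℂ) = exp (Real.log M) := by
      rw [← Complex.ofReal_exp, Real.exp_log hM0]; push_cast; rfl
    rw [mul_assoc, ← Complex.exp_add]
    conv_rhs => rw [hlog]
    rw [← Complex.exp_add]
    congr 1
    rw [← hlog]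
    ring

/-- A phase. -/
theorem KBN_om (n M : ℕ) (v : ℂ) : om n M v * exp (-M * (2 * Real.pi * I * v)) =
    (-1) ^ (M + n + 1) * (1 / (1 - ww n M v) ^ 2) := by
  have h : ww n M v * exp (-M * (2 * Real.pi * I * v)) = (-1) ^ (M + n + 1) := by
    unfold ww
    rw [← Complex.exp_add]
    have e1 : 2 * Real.pi * I * (M * (v + 1 / 2) - bt n) + -M * (2 * Real.pi * I * v) =
        (M : ℂ) * (Real.pi * I) + (n + 1 : ℕ) * (Real.pi * I) - (n : ℂ) * (2 * Real.pi * I) := by
      unfold bt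
      push_cast
      ring
    rw [e1, Complex.exp_sub, Complex.exp_add, Complex.exp_nat_mul, Complex.exp_nat_mul,
      Complex.exp_pi_mul_I, Complex.exp_nat_mul_two_pi_mul_I, div_one]
    ring
  unfold om
  rw [div_mul_eq_mul_div, h]
  ring

theorem GI_lim {m : ℕ} (hm : Even (m + 1)) (r : Fin (m + 1) → ℤ) (n g : ℕ) (hn : 2 ≤ n)
    (hg : 1 ≤ g) (hgn : g ≤ n - 1) (y : Fin m → ℂ) (v : Fin (m + 1) → ℂ)
    (hy : ∀ j, 0 < (y j).re ∧ (y j).re < 1 / 2)
    (hok : ∀ i : Fin (m + 1), okS (v i) (ext y i.castSucc) ∧ okS (v i) (ext y i.succ))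
    (him : ∀ i, 0 < (v i).im) : ∃ L : ℂ, L ≠ 0 ∧ ∀ (Y : ℕ → Fin m → ℂ) (V : ℕ → Fin (m + 1) → ℂ),
      (∀ j, Tendsto (fun M => Y M j) atTop (𝓝 (y j))) →
      (∀ i, Tendsto (fun M => V M i) atTop (𝓝 (v i))) → (∀ M i, (V M i).im = (v i).im) →
      Tendsto (fun M : ℕ => GI r n g M (Y M) (V M) * ((M : ℂ) ^ (m + 1) / (M : ℂ) ^ (2 * m)) *
        exp (-M * VN r (Y M) (V M))) atTop (𝓝 L) := by
  refine ⟨(∏ j, exp (-2 * hh (y j + 1 / 2))) * ∏ i : Fin (m + 1),
    (2 * sin (2 * Real.pi * v i) * KBN_Lq n (ext y i.castSucc) (v i) *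
      KBN_Lq n (ext y i.succ) (v i)), ?_, ?_⟩
  · refine mul_ne_zero (Finset.prod_ne_zero_iff.2 fun j _ => Complex.exp_ne_zero _)
      (Finset.prod_ne_zero_iff.2 fun i _ => ?_)
    have hnr : ∀ x : ℝ, v i ≠ x := by
      intro x hx
      have := him i
      rw [hx, Complex.ofReal_im] at this
      exact lt_irrefl _ this
    have hpi : (Real.pi : ℂ) ≠ 0 := by exact_mod_cast Real.pi_ne_zero
    have hq : ∀ u : Option ℂ, KBN_Lq n u (v i) ≠ 0 := by
      intro u
      cases u with
      | some _ => exact one_ne_zero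
      | none =>
        refine pow_ne_zero _ (mul_ne_zero two_ne_zero ?_)
        intro h0
        rw [Complex.cos_eq_zero_iff] at h0
        obtain ⟨k, hk⟩ := h0
        refine hnr ((2 * k + 1) / 2) ?_
        have h1 : (Real.pi : ℂ) * v i = Real.pi * ((2 * k + 1) / 2) := by rw [hk]; ring
        have h2 := mul_left_cancel₀ hpi h1
        rw [h2]
        push_cast
        ring
    refine mul_ne_zero (mul_ne_zero (mul_ne_zero two_ne_zero ?_) (hq _)) (hq _)
    intro h0
    rw [Complex.sin_eq_zero_iff] at h0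
    obtain ⟨k, hk⟩ := h0
    refine hnr (k / 2) ?_
    have h1 : (Real.pi : ℂ) * (2 * v i) = Real.pi * k := by rw [mul_comm (Real.pi : ℂ) (k : ℂ), ← hk]; ring
    have h2 := mul_left_cancel₀ hpi h1
    have h3 : v i = k / 2 := by rw [← h2]; ring
    rw [h3]
    push_cast
    ring
  · intro Y V hY hV hVim
    have hCc : Tendsto (fun M : ℕ => ∏ j : Fin m, (Cc n g M (Y M j) / (M : ℂ) ^ 2 *
        exp (-M * (4 * ff (Y M j + 1 / 2))))) atTop (𝓝 (∏ j, exp (-2 * hh (y j + 1 / 2)))) := by
      refine tendsto_finsetProd _ fun j _ => ?_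
      exact Cc_lim n g hg hgn (y j) (fun M => Y M j) (hY j) (hy j).1 (hy j).2
    have hK : Tendsto (fun M : ℕ => ∏ i : Fin (m + 1), (2 * sin (2 * Real.pi * V M i) *
        ((M : ℂ) * Qo n M (ext (Y M) i.castSucc) (V M i) *
          exp (-M * po (ext (Y M) i.castSucc) (V M i))) *
        ((M : ℂ) * Qo n M (ext (Y M) i.succ) (V M i) *
          exp (-M * po (ext (Y M) i.succ) (V M i))))) atTop
        (𝓝 (∏ i : Fin (m + 1), (2 * sin (2 * Real.pi * v i) *
          KBN_Lq n (ext y i.castSucc) (v i) * KBN_Lq n (ext y i.succ) (v i)))) := by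
      refine tendsto_finsetProd _ fun i _ => ?_
      have hs : Tendsto (fun M : ℕ => 2 * sin (2 * Real.pi * V M i)) atTop
          (𝓝 (2 * sin (2 * Real.pi * v i))) := by
        have hcont : Continuous (fun w : ℂ => 2 * Complex.sin (2 * Real.pi * w)) := by fun_prop
        exact (hcont.tendsto (v i)).comp (hV i)
      exact (hs.mul (KBN_Qo_lim n i.castSucc y (v i) Y (fun M => V M i) hY (hV i) (hok i).1)).mul
        (KBN_Qo_lim n i.succ y (v i) Y (fun M => V M i) hY (hV i) (hok i).2)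
    have hO : Tendsto (fun M : ℕ => ∏ i : Fin (m + 1), (1 / (1 - ww n M (V M i)) ^ 2)) atTop
        (𝓝 1) := by
      have h : Tendsto (fun M : ℕ => ∏ i : Fin (m + 1), (1 / (1 - ww n M (V M i)) ^ 2)) atTop
          (𝓝 (∏ _i : Fin (m + 1), 1)) := by
        refine tendsto_finsetProd _ fun i _ => ?_
        have hA := Om_tendsto n (fun M => V M i) (v i).im (him i) (fun M => hVim M i)
        have h1 : Tendsto (fun M : ℕ => (1 - ww n M (V M i)) ^ 2) atTop (𝓝 ((1 - 0) ^ 2)) :=
          (tendsto_const_nhds.sub hA).pow 2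
        rw [sub_zero, one_pow] at h1
        have h2 := h1.inv₀ one_ne_zero
        rw [inv_one] at h2
        refine h2.congr fun M => ?_
        rw [one_div]
      rwa [Finset.prod_const_one] at h
    have hall := (hCc.mul hK).mul hO
    rw [mul_one] at hall
    refine hall.congr' ?_
    filter_upwards [eventually_ge_atTop 1] with M hM
    have hM0 : (M : ℂ) ≠ 0 := by
      have : M ≠ 0 := by omega
      exact_mod_cast this
    have hsgn : ∏ _i : Fin (m + 1), ((-1 : ℂ)) ^ (M + n + 1) = 1 := by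
      rw [Finset.prod_const, Finset.card_univ, Fintype.card_fin, ← pow_mul, mul_comm, pow_mul,
        hm.neg_one_pow, one_pow]
    have hVN : exp (-M * VN r (Y M) (V M)) = (∏ j, exp (-M * (4 * ff (Y M j + 1 / 2)))) *
        ∏ i : Fin (m + 1), exp (-M * WN (r i) (ext (Y M) i.castSucc) (ext (Y M) i.succ)
          (V M i)) := by
      rw [← Complex.exp_sum, ← Complex.exp_sum, ← Complex.exp_add]
      congr 1
      unfold VN
      rw [mul_add, Finset.mul_sum, Finset.mul_sum]
    have hfac : ∀ i : Fin (m + 1), (2 * sin (2 * Real.pi * V M i) *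
        ((M : ℂ) * Qo n M (ext (Y M) i.castSucc) (V M i) *
          exp (-M * po (ext (Y M) i.castSucc) (V M i))) *
        ((M : ℂ) * Qo n M (ext (Y M) i.succ) (V M i) *
          exp (-M * po (ext (Y M) i.succ) (V M i)))) * (1 / (1 - ww n M (V M i)) ^ 2) =
        (-1 : ℂ) ^ (M + n + 1) * (KR (r i) n M (ext (Y M) i.castSucc) (ext (Y M) i.succ) (V M i) *
          om n M (V M i) * M * exp (-M * WN (r i) (ext (Y M) i.castSucc) (ext (Y M) i.succ)
            (V M i))) := by
      intro i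
      have ho := KBN_om n M (V M i)
      have hW : exp (-M * WN (r i) (ext (Y M) i.castSucc) (ext (Y M) i.succ) (V M i)) =
          exp (-(2 * Real.pi * I * r i * M * (V M i) ^ 2)) * exp (-M * (2 * Real.pi * I * V M i)) *
          exp (-M * po (ext (Y M) i.castSucc) (V M i)) *
          exp (-M * po (ext (Y M) i.succ) (V M i)) := by
        rw [← Complex.exp_add, ← Complex.exp_add, ← Complex.exp_add]
        congr 1
        unfold WN
        ring
      have hsq : ((-1 : ℂ) ^ (M + n + 1)) * (-1) ^ (M + n + 1) = 1 := by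
        rw [← pow_add, ← two_mul, pow_mul]; simp
      have hee : exp (2 * Real.pi * I * r i * M * (V M i) ^ 2) *
          exp (-(2 * Real.pi * I * r i * M * (V M i) ^ 2)) = 1 := by
        rw [← Complex.exp_add, add_neg_cancel, Complex.exp_zero]
      rw [hW]
      unfold KR
      generalize Qo n M (ext (Y M) i.castSucc) (V M i) = q1 at *
      generalize Qo n M (ext (Y M) i.succ) (V M i) = q2 at *
      generalize exp (-M * po (ext (Y M) i.castSucc) (V M i)) = p1 at *
      generalize exp (-M * po (ext (Y M) i.succ) (V M i)) = p2 at *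
      generalize exp (2 * Real.pi * I * r i * M * (V M i) ^ 2) = a1 at *
      generalize exp (-(2 * Real.pi * I * r i * M * (V M i) ^ 2)) = a2 at *
      generalize exp (-M * (2 * Real.pi * I * V M i)) = b at *
      generalize om n M (V M i) = o at *
      generalize 1 / (1 - ww n M (V M i)) ^ 2 = w at *
      generalize ((-1 : ℂ)) ^ (M + n + 1) = s at *
      generalize sin (2 * Real.pi * V M i) = sn at *
      have e : s * ((M : ℂ) * a1 * (2 * sn) * q1 * q2 * o * M * (a2 * b * p1 * p2)) =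
          (a1 * a2) * (s * (o * b)) * (2 * sn * (M * q1 * p1) * (M * q2 * p2)) := by ring
      rw [e, hee, ho]
      have e2 : s * (s * w) = w := by rw [← mul_assoc, hsq, one_mul]
      rw [e2]
      ring
    have hP1 : (∏ j : Fin m, (Cc n g M (Y M j) / (M : ℂ) ^ 2 *
        exp (-M * (4 * ff (Y M j + 1 / 2))))) = (∏ j, Cc n g M (Y M j)) / (M : ℂ) ^ (2 * m) *
        ∏ j, exp (-M * (4 * ff (Y M j + 1 / 2))) := by
      rw [Finset.prod_mul_distrib, Finset.prod_div_distrib, Finset.prod_const, Finset.card_univ,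
        Fintype.card_fin, ← pow_mul]
    have hP2 : (∏ i : Fin (m + 1), ((-1 : ℂ) ^ (M + n + 1) *
        (KR (r i) n M (ext (Y M) i.castSucc) (ext (Y M) i.succ) (V M i) *
          om n M (V M i) * M * exp (-M * WN (r i) (ext (Y M) i.castSucc) (ext (Y M) i.succ)
            (V M i))))) = (∏ i : Fin (m + 1),
        (KR (r i) n M (ext (Y M) i.castSucc) (ext (Y M) i.succ) (V M i) * om n M (V M i))) *
        (M : ℂ) ^ (m + 1) * ∏ i : Fin (m + 1), exp (-M * WN (r i) (ext (Y M) i.castSucc)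
          (ext (Y M) i.succ) (V M i)) := by
      rw [Finset.prod_mul_distrib, hsgn, one_mul, Finset.prod_mul_distrib,
        Finset.prod_mul_distrib, Finset.prod_const, Finset.card_univ, Fintype.card_fin]
    rw [mul_assoc, ← Finset.prod_mul_distrib, Finset.prod_congr rfl fun i _ => hfac i, hP2, hP1,
      hVN]
    unfold GI
    ring

end Pool.Agent.H63.VC4
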