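import Pool.Agent.H63.VC3.GBound
import Pool.Agent.H63.VC3.Tube
import Pool.Agent.H63.VC4.Defs

/-! # Upper bounds of the potential function on the flat contours -/

namespace Pool.Agent.H63.VC4

open Pool.Agent.H63.VC Pool.Agent.H63.VC3 Complex
open scoped BigOperators

private lemma UpperN_cot_le (u : ℝ) (h0 : 45 / 1000 ≤ u) (h1 : u ≤ 455 / 1000) :
    Real.cos (Real.pi * u) / Real.sin (Real.pi * u) ≤ 71 / 10 := by
  have hpi := Real.pi_gt_d2
  have hpi' := Real.pi_lt_d2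
  have hz0 : 0 < Real.pi * u := by positivity
  have hz1 : Real.pi * u < Real.pi / 2 := by nlinarith
  have hc : 0 < Real.cos (Real.pi * u) :=
    Real.cos_pos_of_mem_Ioo ⟨by linarith, hz1⟩
  have hs : 0 < Real.sin (Real.pi * u) :=
    Real.sin_pos_of_pos_of_lt_pi hz0 (by linarith)
  have ht := Real.lt_tan hz0 hz1
  rw [Real.tan_eq_sin_div_cos, lt_div_iff₀ hc] at ht
  rw [div_le_iff₀ hs]
  have h2 : 1413 / 10000 ≤ Real.pi * u := by nlinarith
  nlinarith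

/-- The bound of a slot. -/
noncomputable def UpperN_g : Option ℂ → ℝ
  | none => 0
  | some z => -2 * Fr z.re + 224 / 10 * z.im ^ 2

private lemma UpperN_slot (x η a Y : ℝ) (hx : |x - 1 / 4| ≤ 55 / 1000)
    (ha : |a| ≤ 15 / 100) :
    (po (some ((x : ℂ) + η * I)) (a + Y * I)).re ≤
      UpperN_g (some ((x : ℂ) + η * I)) + (224 / 10 * Y ^ 2 - 6 / 10 * Real.pi * a ^ 2) := by
  obtain ⟨hx1, hx2⟩ := abs_le.mp hx
  obtain ⟨ha1, ha2⟩ := abs_le.mp ha
  have hpi := Real.pi_gt_d2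
  have hpi' := Real.pi_lt_d2
  have e1 : ((x : ℂ) + η * I) - (a + Y * I) = ((x - a : ℝ) : ℂ) + ((η - Y : ℝ) : ℂ) * I := by
    push_cast; ring
  have e2 : ((x : ℂ) + η * I) + (a + Y * I) = ((x + a : ℝ) : ℂ) + ((η + Y : ℝ) : ℂ) * I := by
    push_cast; ring
  have hg : UpperN_g (some ((x : ℂ) + η * I)) = -2 * Fr x + 224 / 10 * η ^ 2 := by
    simp [UpperN_g]
  have hpo : po (some ((x : ℂ) + η * I)) (a + Y * I) =
      -ff (((x : ℂ) + η * I) - (a + Y * I)) - ff (((x : ℂ) + η * I) + (a + Y * I)) := rfl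
  rw [hg, hpo, e1, e2, sub_re, neg_re]
  have f1 := (ff_vert_left (x - a) (η - Y) (by linarith only [hx1, ha2, hpi, hpi']) (by linarith only [hx2, ha1])).1
  have f2 := (ff_vert_left (x + a) (η + Y) (by linarith) (by linarith)).1
  have c1 := UpperN_cot_le (x - a) (by linarith) (by linarith)
  have c2 := UpperN_cot_le (x + a) (by linarith) (by linarith)
  have s := Fr_sym_ge x a (by linarith) (by linarith) (abs_le.mpr ⟨by linarith, by linarith⟩)
    (by linarith only [ha, hx2])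
  have cg := cot_ge (x - 1 / 4) (by rw [abs_lt]; constructor <;> linarith only [hx1, hx2])
  rw [show (1 : ℝ) / 4 + (x - 1 / 4) = x by ring] at cg
  set c := Real.cos (Real.pi * x) / Real.sin (Real.pi * x) with hc
  set d1 := Real.cos (Real.pi * (x - a)) / Real.sin (Real.pi * (x - a))
  set d2 := Real.cos (Real.pi * (x + a)) / Real.sin (Real.pi * (x + a))
  have hc6 : 6 / 10 ≤ c := by nlinarith only [hx2, hpi, hpi', cg]
  have g1 : Real.pi / 2 * d1 * (η - Y) ^ 2 ≤ 315 / 200 * (71 / 10) * (η - Y) ^ 2 := by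
    have : Real.pi / 2 * d1 ≤ 315 / 200 * (71 / 10) := by nlinarith only [hpi, hpi', c1]
    exact mul_le_mul_of_nonneg_right this (sq_nonneg _)
  have g2 : Real.pi / 2 * d2 * (η + Y) ^ 2 ≤ 315 / 200 * (71 / 10) * (η + Y) ^ 2 := by
    have : Real.pi / 2 * d2 ≤ 315 / 200 * (71 / 10) := by nlinarith only [hpi, hpi', c2]
    exact mul_le_mul_of_nonneg_right this (sq_nonneg _)
  have g3 : 6 / 10 * Real.pi * a ^ 2 ≤ Real.pi * c * a ^ 2 := by
    have : 6 / 10 * Real.pi ≤ Real.pi * c := by nlinarith only [hpi, hc6]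
    exact mul_le_mul_of_nonneg_right this (sq_nonneg _)
  nlinarith [sq_nonneg η, sq_nonneg Y]

private lemma UpperN_slot' {m : ℕ} (x η : Fin m → ℝ) (hx : ∀ j, |x j - 1 / 4| ≤ 55 / 1000)
    (a Y : ℝ) (ha : |a| ≤ 15 / 100) (i : Fin (m + 2)) :
    (po (ext (fun j => ((x j : ℂ) + η j * I)) i) (a + Y * I)).re ≤
      UpperN_g (ext (fun j => ((x j : ℂ) + η j * I)) i) +
        ns (ext (fun j => ((x j : ℂ) + η j * I)) i) *
          (224 / 10 * Y ^ 2 - 6 / 10 * Real.pi * a ^ 2) := by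
  have hnone : (po none ((a : ℂ) + Y * I)).re ≤ UpperN_g none +
      ns (none : Option ℂ) * (224 / 10 * Y ^ 2 - 6 / 10 * Real.pi * a ^ 2) := by
    simp [po, UpperN_g, ns_none]
  refine Fin.cases ?_ (fun i => ?_) i
  · rw [ext_zero]; exact hnone
  · refine Fin.lastCases ?_ (fun i => ?_) i
    · rw [ext_last_succ]; exact hnone
    · rw [ext_mid, ns_some, one_mul]
      exact UpperN_slot (x i) (η i) a Y (hx i) ha

private lemma UpperN_region {m : ℕ} (hm : 1 ≤ m) (r : ℤ) (i : Fin (m + 1))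
    (hr : 10 * nA m i ≤ |(r : ℝ)|) (x η : Fin m → ℝ) (hx : ∀ j, |x j - 1 / 4| ≤ 55 / 1000)
    (a Y : ℝ) (ha : |a| ≤ 15 / 100) (hY : 0 ≤ Y) (hY' : Y ≤ 3 / 10 * nA m i / (r : ℝ) ^ 2) :
    (WN r (ext (fun j => ((x j : ℂ) + η j * I)) i.castSucc)
      (ext (fun j => ((x j : ℂ) + η j * I)) i.succ) (a + Y * I)).re ≤
      UpperN_g (ext (fun j => ((x j : ℂ) + η j * I)) i.castSucc) +
        UpperN_g (ext (fun j => ((x j : ℂ) + η j * I)) i.succ) +
        224 / 10 * (9 / 100) * (1 / 100) * (nA m i / (r : ℝ) ^ 2) := by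
  have h1 := UpperN_slot' x η hx a Y ha i.castSucc
  have h2 := UpperN_slot' x η hx a Y ha i.succ
  have hn := ns_ext (fun j => ((x j : ℂ) + η j * I)) i
  have hn1 := nA_pos m hm i
  set nl := ns (ext (fun j => ((x j : ℂ) + η j * I)) i.castSucc)
  set nr := ns (ext (fun j => ((x j : ℂ) + η j * I)) i.succ)
  set N := nA m i
  have hpi := Real.pi_gt_d2
  have hr0 : 0 < (r : ℝ) ^ 2 := by
    have : (0 : ℝ) < |(r : ℝ)| := by linarith only [hr, hn1]
    rw [← sq_abs]; positivity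
  have hr2 : 100 * N ^ 2 ≤ (r : ℝ) ^ 2 := by
    have h := pow_le_pow_left₀ (by linarith : (0 : ℝ) ≤ 10 * N) hr 2
    rw [sq_abs] at h
    linarith only [h]
  have e3 : 2 * (Real.pi : ℂ) * I * ((r : ℂ) * ((a : ℂ) + Y * I) ^ 2 + (a + Y * I)) =
      ((-4 * Real.pi * r * a * Y - 2 * Real.pi * Y : ℝ) : ℂ) +
        ((2 * Real.pi * (r * (a ^ 2 - Y ^ 2) + a) : ℝ) : ℂ) * I := by
    push_cast
    linear_combination (4 * (Real.pi : ℂ) * r * a * Y + 2 * Real.pi * Y +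
      2 * Real.pi * r * Y ^ 2 * I) * I_sq
  have e4 : (2 * (Real.pi : ℂ) * I * ((r : ℂ) * ((a : ℂ) + Y * I) ^ 2 + (a + Y * I))).re =
      -4 * Real.pi * r * a * Y - 2 * Real.pi * Y := by
    rw [e3]
    simp only [add_re, ofReal_re, mul_re, ofReal_im, I_re, I_im, mul_zero, zero_mul, sub_zero,
      add_zero]
  have hrY : (r : ℝ) ^ 2 * Y ≤ 3 / 10 * N := by
    rw [le_div_iff₀ hr0] at hY'
    linarith only [hY']
  -- the quadratic form
  have q : -(6 / 10 * Real.pi * (N * a ^ 2)) - 4 * Real.pi * r * a * Y - 2 * Real.pi * Y ≤ 0 := by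
    have q1 : -(6 / 10 * (N * a ^ 2)) - 4 * r * a * Y - 2 * Y ≤ 0 := by
      have h3 : 0 ≤ (6 / 10 * N * a + 2 * r * Y) ^ 2 := sq_nonneg _
      have h4 : 4 * ((r : ℝ) ^ 2 * Y) * Y ≤ 12 / 10 * N * Y := by
        nlinarith only [mul_le_mul_of_nonneg_right hrY hY]
      have h5 : 0 ≤ (6 / 10 * N) * (6 / 10 * (N * a ^ 2) + 4 * r * a * Y + 2 * Y) := by
        nlinarith
      have h6 : 0 < 6 / 10 * N := by linarith only [hn1]
      have h7 := nonneg_of_mul_nonneg_right h5 h6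
      linarith only [h7]
    nlinarith only [hpi, q1]
  have hYs : N * Y ^ 2 ≤ 9 / 100 * (1 / 100) * (N / (r : ℝ) ^ 2) := by
    have h3 : Y ^ 2 ≤ (3 / 10 * N / (r : ℝ) ^ 2) ^ 2 := pow_le_pow_left₀ hY hY' 2
    have h4 : (3 / 10 * N / (r : ℝ) ^ 2) ^ 2 ≤ 9 / 100 * (1 / 100) * (1 / (r : ℝ) ^ 2) := by
      have h5 : (3 / 10 * N / (r : ℝ) ^ 2) ^ 2 =
          9 / 100 * (N ^ 2 / (r : ℝ) ^ 2) * (1 / (r : ℝ) ^ 2) := by
        field_simp
        ring
      rw [h5]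
      have h6 : N ^ 2 / (r : ℝ) ^ 2 ≤ 1 / 100 := by
        rw [div_le_iff₀ hr0]; linarith only [hr2]
      have h7 : 0 ≤ 1 / (r : ℝ) ^ 2 := by positivity
      nlinarith only [h6, h7]
    have h8 : N * Y ^ 2 ≤ N * (9 / 100 * (1 / 100) * (1 / (r : ℝ) ^ 2)) :=
      mul_le_mul_of_nonneg_left (h3.trans h4) (by linarith)
    have h9 : N * (9 / 100 * (1 / 100) * (1 / (r : ℝ) ^ 2)) =
        9 / 100 * (1 / 100) * (N / (r : ℝ) ^ 2) := by ring
    linarith only [h8, h9]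
  unfold WN
  rw [add_re, add_re, e4]
  have hsum : nl * (224 / 10 * Y ^ 2 - 6 / 10 * Real.pi * a ^ 2) +
      nr * (224 / 10 * Y ^ 2 - 6 / 10 * Real.pi * a ^ 2) =
      224 / 10 * (N * Y ^ 2) - 6 / 10 * Real.pi * (N * a ^ 2) := by
    rw [← add_mul, hn]; ring
  linarith

private lemma UpperN_vertex (x η : ℝ) (hx : |x - 1 / 4| ≤ 55 / 1000) :
    (4 * ff ((x : ℂ) + η * I + 1 / 2)).re + 2 * UpperN_g (some ((x : ℂ) + η * I)) ≤
      8 * Fr (3 / 4) - 4 * Real.pi * (x - 1 / 4) ^ 2 + 553 / 10 * η ^ 2 := by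
  obtain ⟨hx1, hx2⟩ := abs_le.mp hx
  have hpi := Real.pi_gt_d2
  have hpi' := Real.pi_lt_d2
  have hg : UpperN_g (some ((x : ℂ) + η * I)) = -2 * Fr x + 224 / 10 * η ^ 2 := by
    simp [UpperN_g]
  have e : 4 * ff ((x : ℂ) + η * I + 1 / 2) =
      ((4 : ℝ) : ℂ) * ff (((x + 1 / 2 : ℝ) : ℂ) + (η : ℂ) * I) := by
    have e1 : ((x + 1 / 2 : ℝ) : ℂ) + (η : ℂ) * I = (x + η * I) + 1 / 2 := by push_cast; ring
    rw [e1]
    push_cast
    ring
  have f := (ff_vert_right (x + 1 / 2) η (by linarith) (by linarith)).2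
  have cg := cot_ge (x - 1 / 4) (by rw [abs_lt]; constructor <;> linarith)
  rw [show (1 : ℝ) / 4 + (x - 1 / 4) = x by ring] at cg
  have hs : 0 < Real.sin (Real.pi * x) :=
    Real.sin_pos_of_pos_of_lt_pi (by nlinarith only [hx1, hpi]) (by nlinarith)
  have hcs : 0 < Real.cos (Real.pi * x) :=
    Real.cos_pos_of_mem_Ioo ⟨by nlinarith only [hx1, hpi], by nlinarith only [hx2, hpi]⟩
  have hc6 : 6 / 10 ≤ Real.cos (Real.pi * x) / Real.sin (Real.pi * x) := by nlinarith only [hx2, hpi, hpi', cg]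
  have ht : -(Real.cos (Real.pi * (x + 1 / 2)) / Real.sin (Real.pi * (x + 1 / 2))) ≤ 5 / 3 := by
    rw [show Real.pi * (x + 1 / 2) = Real.pi * x + Real.pi / 2 by ring, Real.cos_add_pi_div_two,
      Real.sin_add_pi_div_two, neg_div, neg_neg, div_le_iff₀ hcs]
    rw [le_div_iff₀ hs] at hc6
    linarith
  have fy := Fr_y_le x (by linarith only [hx1]) (by linarith)
  rw [e, re_ofReal_mul, hg]
  set d3 := Real.cos (Real.pi * (x + 1 / 2)) / Real.sin (Real.pi * (x + 1 / 2))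
  have g : -(Real.pi / 2 * d3 * η ^ 2) ≤ 315 / 200 * (5 / 3) * η ^ 2 := by
    have : -(Real.pi / 2 * d3) ≤ 315 / 200 * (5 / 3) := by nlinarith only [hpi, hpi', ht]
    have := mul_le_mul_of_nonneg_right this (sq_nonneg η)
    linarith
  linarith only [fy, f, g]

theorem flat_upperN {m : ℕ} (hm : 1 ≤ m) (r : Fin (m + 1) → ℤ)
    (hr : ∀ i, 10 * nA m i ≤ |(r i : ℝ)|) (hs : ∑ i, nA m i / (r i : ℝ) ^ 2 ≤ 1 / 50)
    (x η : Fin m → ℝ) (a Y : Fin (m + 1) → ℝ) (hx : ∀ j, |x j - 1 / 4| ≤ 55 / 1000)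
    (hη : ∀ j, |η j| ≤ 1 / 100) (hη2 : ∑ j, η j ^ 2 ≤ 2 / 10000) (ha : ∀ i, |a i| ≤ 15 / 100)
    (hY : ∀ i, 0 ≤ Y i) (hY' : ∀ i, Y i ≤ 3 / 10 * nA m i / (r i : ℝ) ^ 2) :
    (VN r (fun j => x j + η j * I) (fun i => a i + Y i * I)).re ≤
      8 * m * Fr (3 / 4) - 4 * Real.pi * ∑ j, (x j - 1 / 4) ^ 2 + 12 / 1000 := by
  have hR : ∀ i, (WN (r i) (ext (fun j => ((x j : ℂ) + η j * I)) i.castSucc)
      (ext (fun j => ((x j : ℂ) + η j * I)) i.succ) (a i + Y i * I)).re ≤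
      (UpperN_g (ext (fun j => ((x j : ℂ) + η j * I)) i.castSucc) +
        UpperN_g (ext (fun j => ((x j : ℂ) + η j * I)) i.succ)) +
        224 / 10 * (9 / 100) * (1 / 100) * (nA m i / (r i : ℝ) ^ 2) := fun i =>
    UpperN_region hm (r i) i (hr i) x η hx (a i) (Y i) (ha i) (hY i) (hY' i)
  have hsl := sum_slots (fun j => ((x j : ℂ) + η j * I))
    (fun _ : Fin (m + 1) => UpperN_g) (fun _ => rfl)
  have h1 := Finset.sum_le_sum (fun i (_ : i ∈ Finset.univ) => hR i)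
  rw [Finset.sum_add_distrib, hsl, ← Finset.mul_sum] at h1
  have h2 := Finset.sum_le_sum (fun j (_ : j ∈ Finset.univ) => UpperN_vertex (x j) (η j) (hx j))
  rw [Finset.sum_add_distrib, Finset.sum_add_distrib, Finset.sum_sub_distrib, ← Finset.mul_sum,
    ← Finset.mul_sum, ← Finset.mul_sum, Finset.sum_const, Finset.card_univ, Fintype.card_fin,
    nsmul_eq_mul] at h2
  have h3 : ∑ j : Fin m, (UpperN_g (some ((x j : ℂ) + η j * I)) +
      UpperN_g (some ((x j : ℂ) + η j * I))) =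
      2 * ∑ j : Fin m, UpperN_g (some ((x j : ℂ) + η j * I)) := by
    rw [Finset.sum_add_distrib]; ring
  have h4 : (VN r (fun j => x j + η j * I) (fun i => a i + Y i * I)).re =
      ∑ j, (4 * ff ((x j : ℂ) + η j * I + 1 / 2)).re +
      ∑ i, (WN (r i) (ext (fun j => ((x j : ℂ) + η j * I)) i.castSucc)
      (ext (fun j => ((x j : ℂ) + η j * I)) i.succ) (a i + Y i * I)).re := by
    unfold VN
    rw [add_re, re_sum, re_sum]
  have h5 : ∑ j : Fin m, 553 / 10 * η j ^ 2 = 553 / 10 * ∑ j : Fin m, η j ^ 2 :=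
    (Finset.mul_sum _ _ _).symm
  rw [h5] at h2
  rw [h4]
  rw [h3] at h1
  linarith

end Pool.Agent.H63.VC4
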