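import Pool.Agent.H63.VC4.CritNA

/-! # Location of the critical point -/

namespace Pool.Agent.H63.VC4

open Pool.Agent.H63.VC Pool.Agent.H63.VC3 Complex
open scoped BigOperators

theorem CritNB_norm_sin (z : ℂ) :
    ‖Complex.sin z‖ ^ 2 = Real.sin z.re ^ 2 + Real.sinh z.im ^ 2 := by
  have h : Complex.sin z = (Real.sin z.re * Real.cosh z.im : ℝ) +
      (Real.cos z.re * Real.sinh z.im : ℝ) * I := by
    rw [Complex.sin_eq]; push_cast; ring
  rw [Complex.sq_norm, h, Complex.normSq_add_mul_I]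
  have h1 := Real.cosh_sq z.im
  have h2 := Real.sin_sq_add_cos_sq z.re
  linarith only [h2, h1, mul_nonneg (sq_nonneg (Real.cosh z.im)) (sub_nonneg.2 h2.le),
    mul_nonneg (sq_nonneg (Real.cosh z.im)) (sub_nonneg.2 h2.ge),
    mul_nonneg (sq_nonneg (Real.cos z.re)) (sub_nonneg.2 h1.le),
    mul_nonneg (sq_nonneg (Real.cos z.re)) (sub_nonneg.2 h1.ge)]

theorem CritNB_norm_cos (z : ℂ) :
    ‖Complex.cos z‖ ^ 2 = Real.cos z.re ^ 2 + Real.sinh z.im ^ 2 := by
  have h : Complex.cos z = (Real.cos z.re * Real.cosh z.im : ℝ) +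
      (-(Real.sin z.re * Real.sinh z.im) : ℝ) * I := by
    rw [Complex.cos_eq]; push_cast; ring
  rw [Complex.sq_norm, h, Complex.normSq_add_mul_I]
  have h1 := Real.cosh_sq z.im
  have h2 := Real.sin_sq_add_cos_sq z.re
  linarith only [h2, h1, mul_nonneg (sq_nonneg (Real.cosh z.im)) (sub_nonneg.2 h2.le),
    mul_nonneg (sq_nonneg (Real.cosh z.im)) (sub_nonneg.2 h2.ge),
    mul_nonneg (sq_nonneg (Real.sin z.re)) (sub_nonneg.2 h1.le),
    mul_nonneg (sq_nonneg (Real.sin z.re)) (sub_nonneg.2 h1.ge)]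

/-- the second difference -/
theorem CritNB_sd {S : Set ℂ} (hS : Convex ℝ S) {f f' f'' : ℂ → ℂ}
    (hf : ∀ z ∈ S, HasDerivAt f (f' z) z) (hf' : ∀ z ∈ S, HasDerivAt f' (f'' z) z) {B : ℝ}
    (hB : ∀ z ∈ S, ‖f'' z‖ ≤ B) {y v : ℂ} (h1 : y - v ∈ S) (h2 : y + v ∈ S) :
    ‖f (y - v) + f (y + v) - 2 * f y‖ ≤ B * ‖v‖ ^ 2 := by
  have hmem : ∀ s : ℝ, s ∈ Set.Icc (0 : ℝ) 1 → y - s * v ∈ S ∧ y + s * v ∈ S := by
    intro s hs
    constructor
    · have := hS h1 h2 (a := (1 + s) / 2) (b := (1 - s) / 2) (by linarith only [hs.1]) (by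
        linarith only [hs.2]) (by ring)
      convert this using 1
      simp only [real_smul]
      push_cast
      ring
    · have := hS h1 h2 (a := (1 - s) / 2) (b := (1 + s) / 2) (by linarith only [hs.2]) (by
        linarith only [hs.1]) (by ring)
      convert this using 1
      simp only [real_smul]
      push_cast
      ring
  have hder : ∀ s : ℝ, s ∈ Set.Icc (0 : ℝ) 1 →
      HasDerivAt (fun s : ℝ => f (y - s * v) + f (y + s * v) - 2 * f y)
        (v * (f' (y + s * v) - f' (y - s * v))) s := by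
    intro s hs
    obtain ⟨m1, m2⟩ := hmem s hs
    have a1 : HasDerivAt (fun s : ℝ => (y - s * v : ℂ)) (-v) s := by
      have := ((hasDerivAt_id s).ofReal_comp.mul_const v).const_sub y
      simpa using this
    have a2 : HasDerivAt (fun s : ℝ => (y + s * v : ℂ)) v s := by
      have := ((hasDerivAt_id s).ofReal_comp.mul_const v).const_add y
      simpa using this
    have b1 := (hf _ m1).comp s a1
    have b2 := (hf _ m2).comp s a2
    have b3 := (b1.add b2).sub_const (2 * f y)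
    exact b3.congr_deriv (by ring)
  have hbd : ∀ s : ℝ, s ∈ Set.Icc (0 : ℝ) 1 →
      ‖v * (f' (y + s * v) - f' (y - s * v))‖ ≤ 2 * (B * ‖v‖ ^ 2) * s := by
    intro s hs
    obtain ⟨m1, m2⟩ := hmem s hs
    have h3 := hS.norm_image_sub_le_of_norm_hasDerivWithin_le
      (fun z hz => (hf' z hz).hasDerivWithinAt) hB m1 m2
    have h4 : y + s * v - (y - s * v) = 2 * s * v := by ring
    rw [h4, norm_mul, norm_mul, norm_real, Real.norm_eq_abs, abs_of_nonneg hs.1] at h3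
    rw [norm_mul]
    simp only [Complex.norm_ofNat] at h3
    calc ‖v‖ * ‖f' (y + s * v) - f' (y - s * v)‖ ≤ ‖v‖ * (B * (2 * s * ‖v‖)) :=
          mul_le_mul_of_nonneg_left h3 (norm_nonneg _)
      _ = 2 * (B * ‖v‖ ^ 2) * s := by ring
  have key := image_norm_le_of_norm_deriv_right_le_deriv_boundary (a := 0) (b := 1)
    (B := fun s => B * ‖v‖ ^ 2 * s ^ 2) (B' := fun s => 2 * (B * ‖v‖ ^ 2) * s)
    (fun s hs => (hder s hs).continuousAt.continuousWithinAt)
    (fun s hs => (hder s ⟨hs.1, hs.2.le⟩).hasDerivWithinAt) (by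
      simp
      ring_nf)
    (fun s => by
      have := (hasDerivAt_pow 2 s).const_mul (B * ‖v‖ ^ 2)
      exact this.congr_deriv (by norm_num; ring)) (fun s hs => hbd s ⟨hs.1, hs.2.le⟩) (Set.right_mem_Icc.2 zero_le_one)
  simpa using key

/-- the third difference -/
theorem CritNB_td {S : Set ℂ} (hS : Convex ℝ S) {f f' f'' f3 : ℂ → ℂ}
    (hf : ∀ z ∈ S, HasDerivAt f (f' z) z) (hf' : ∀ z ∈ S, HasDerivAt f' (f'' z) z)
    (hf'' : ∀ z ∈ S, HasDerivAt f'' (f3 z) z) {B : ℝ}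
    (hB : ∀ z ∈ S, ‖f3 z‖ ≤ B) {y v : ℂ} (h1 : y - v ∈ S) (h2 : y + v ∈ S) :
    ‖f (y - v) - f (y + v) + 2 * v * f' y‖ ≤ B / 3 * ‖v‖ ^ 3 := by
  have hmem : ∀ s : ℝ, s ∈ Set.Icc (0 : ℝ) 1 → y - s * v ∈ S ∧ y + s * v ∈ S := by
    intro s hs
    constructor
    · have := hS h1 h2 (a := (1 + s) / 2) (b := (1 - s) / 2) (by linarith only [hs.1]) (by
        linarith only [hs.2]) (by ring)
      convert this using 1
      simp only [real_smul]
      push_cast
      ring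
    · have := hS h1 h2 (a := (1 - s) / 2) (b := (1 + s) / 2) (by linarith only [hs.2]) (by
        linarith only [hs.1]) (by ring)
      convert this using 1
      simp only [real_smul]
      push_cast
      ring
  have hder : ∀ s : ℝ, s ∈ Set.Icc (0 : ℝ) 1 →
      HasDerivAt (fun s : ℝ => f (y - s * v) - f (y + s * v) + 2 * (s * v) * f' y)
        (-v * (f' (y - s * v) + f' (y + s * v) - 2 * f' y)) s := by
    intro s hs
    obtain ⟨m1, m2⟩ := hmem s hs
    have a1 : HasDerivAt (fun s : ℝ => (y - s * v : ℂ)) (-v) s := by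
      have := ((hasDerivAt_id s).ofReal_comp.mul_const v).const_sub y
      simpa using this
    have a2 : HasDerivAt (fun s : ℝ => (y + s * v : ℂ)) v s := by
      have := ((hasDerivAt_id s).ofReal_comp.mul_const v).const_add y
      simpa using this
    have a3 : HasDerivAt (fun s : ℝ => (2 * (s * v) * f' y : ℂ)) (2 * v * f' y) s := by
      have := (((hasDerivAt_id s).ofReal_comp.mul_const v).const_mul 2).mul_const (f' y)
      simpa using this
    have b1 := (hf _ m1).comp s a1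
    have b2 := (hf _ m2).comp s a2
    have b3 := (b1.sub b2).add a3
    exact b3.congr_deriv (by ring)
  have hbd : ∀ s : ℝ, s ∈ Set.Icc (0 : ℝ) 1 →
      ‖-v * (f' (y - s * v) + f' (y + s * v) - 2 * f' y)‖ ≤ B * ‖v‖ ^ 3 * s ^ 2 := by
    intro s hs
    obtain ⟨m1, m2⟩ := hmem s hs
    have h3 := CritNB_sd hS hf' hf'' hB m1 m2
    rw [norm_mul, norm_real, Real.norm_eq_abs, abs_of_nonneg hs.1] at h3
    rw [norm_mul, norm_neg]
    calc ‖v‖ * ‖f' (y - s * v) + f' (y + s * v) - 2 * f' y‖ ≤ ‖v‖ * (B * (s * ‖v‖) ^ 2) :=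
          mul_le_mul_of_nonneg_left h3 (norm_nonneg _)
      _ = B * ‖v‖ ^ 3 * s ^ 2 := by ring
  have key := image_norm_le_of_norm_deriv_right_le_deriv_boundary (a := 0) (b := 1)
    (B := fun s => B / 3 * ‖v‖ ^ 3 * s ^ 3) (B' := fun s => B * ‖v‖ ^ 3 * s ^ 2)
    (fun s hs => (hder s hs).continuousAt.continuousWithinAt)
    (fun s hs => (hder s ⟨hs.1, hs.2.le⟩).hasDerivWithinAt) (by simp)
    (fun s => by
      have := (hasDerivAt_pow 3 s).const_mul (B / 3 * ‖v‖ ^ 3)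
      exact this.congr_deriv (by norm_num; ring)) (fun s hs => hbd s ⟨hs.1, hs.2.le⟩) (Set.right_mem_Icc.2 zero_le_one)
  simpa using key

/-- the derivative of `hh` and its derivatives -/
noncomputable def CritNB_F (z : ℂ) : ℂ := Real.pi * Complex.cot (Real.pi * z)

noncomputable def CritNB_F1 (z : ℂ) : ℂ := -(Real.pi : ℂ) ^ 2 / Complex.sin (Real.pi * z) ^ 2

noncomputable def CritNB_F2 (z : ℂ) : ℂ :=
  2 * (Real.pi : ℂ) ^ 3 * Complex.cos (Real.pi * z) / Complex.sin (Real.pi * z) ^ 3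

theorem CritNB_F_deriv {z : ℂ} (h : Complex.sin (Real.pi * z) ≠ 0) :
    HasDerivAt CritNB_F (CritNB_F1 z) z := by
  have h0 : HasDerivAt (fun z : ℂ => (Real.pi : ℂ) * z) (Real.pi : ℂ) z := by
    simpa using (hasDerivAt_id z).const_mul (Real.pi : ℂ)
  have h1 := h0.ccos
  have h2 := h0.csin
  have h3 := (h1.div h2 h).const_mul (Real.pi : ℂ)
  have h4 : CritNB_F = fun z : ℂ => (Real.pi : ℂ) * (Complex.cos (Real.pi * z) /
      Complex.sin (Real.pi * z)) := by
    funext z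
    rw [CritNB_F, Complex.cot]
  rw [h4]
  refine h3.congr_deriv ?_
  rw [CritNB_F1]
  have h5 := Complex.sin_sq_add_cos_sq (Real.pi * z)
  generalize Complex.sin (Real.pi * z) = s at h h5 ⊢
  generalize Complex.cos (Real.pi * z) = c at h5 ⊢
  field_simp
  linear_combination (-1 : ℂ) * h5

theorem CritNB_F1_deriv {z : ℂ} (h : Complex.sin (Real.pi * z) ≠ 0) :
    HasDerivAt CritNB_F1 (CritNB_F2 z) z := by
  have h0 : HasDerivAt (fun z : ℂ => (Real.pi : ℂ) * z) (Real.pi : ℂ) z := by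
    simpa using (hasDerivAt_id z).const_mul (Real.pi : ℂ)
  have h2 := h0.csin.pow 2
  have h3 := (hasDerivAt_const z (-(Real.pi : ℂ) ^ 2)).div h2 (pow_ne_zero 2 h)
  refine h3.congr_deriv ?_
  rw [CritNB_F2]
  simp only [Pi.pow_apply]
  generalize Complex.sin (Real.pi * z) = s at h ⊢
  generalize Complex.cos (Real.pi * z) = c
  field_simp
  push_cast
  ring

theorem CritNB_sin_lower {c : ℝ} (hc : c = 1 / 4 ∨ c = 3 / 4) {z : ℂ} {R : ℝ}
    (h : |z.re - c| ≤ R) :
    (1 - 2 * Real.pi * R) / 2 ≤ ‖Complex.sin (Real.pi * z)‖ ^ 2 := by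
  rw [CritNB_norm_sin]
  have h1 : ((Real.pi : ℂ) * z).re = Real.pi * z.re := by simp
  rw [h1, Real.sin_sq_eq_half_sub]
  have h2 : Real.cos (2 * (Real.pi * z.re)) ≤ 2 * Real.pi * R := by
    have h3 : |Real.sin (2 * Real.pi * (z.re - c))| ≤ 2 * Real.pi * R := by
      refine Real.abs_sin_le_abs.trans ?_
      rw [abs_mul, abs_of_pos (by positivity)]
      exact mul_le_mul_of_nonneg_left h (by positivity)
    rcases hc with rfl | rfl
    · have e : 2 * (Real.pi * z.re) = 2 * Real.pi * (z.re - 1 / 4) + Real.pi / 2 := by ring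
      rw [e, Real.cos_add_pi_div_two]
      linarith only [neg_abs_le (Real.sin (2 * Real.pi * (z.re - 1 / 4))), h3]
    · have e : 2 * (Real.pi * z.re) = 2 * Real.pi * (z.re - 3 / 4) + Real.pi / 2 + Real.pi := by
        ring
      rw [e, Real.cos_add_pi, Real.cos_add_pi_div_two, neg_neg]
      exact (le_abs_self _).trans h3
  linarith only [sq_nonneg (Real.sinh ((Real.pi : ℂ) * z).im), h2]

theorem CritNB_F1_le {c : ℝ} (hc : c = 1 / 4 ∨ c = 3 / 4) {z : ℂ} {R : ℝ}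
    (hR : 2 * Real.pi * R < 1) (h : |z.re - c| ≤ R) :
    Complex.sin (Real.pi * z) ≠ 0 ∧ ‖CritNB_F1 z‖ ≤ 2 * Real.pi ^ 2 / (1 - 2 * Real.pi * R) := by
  have h1 := CritNB_sin_lower hc h
  have h2 : 0 < ‖Complex.sin (Real.pi * z)‖ ^ 2 := by linarith only [h1, hR]
  refine ⟨fun h3 => by rw [h3] at h2; simp at h2, ?_⟩
  rw [CritNB_F1, norm_div, norm_neg, norm_pow, norm_pow, norm_real, Real.norm_eq_abs, sq_abs]
  rw [div_le_div_iff₀ h2 (by linarith only [hR])]
  linarith only [mul_nonneg (sq_nonneg (Real.pi)) (sub_nonneg.2 h1)]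

/-- bound for the second derivative -/
theorem CritNB_F2_le {z : ℂ} (h : |z.re - 1 / 4| ≤ 65 / 1000) (h' : |z.im| ≤ 65 / 1000) :
    ‖CritNB_F2 z‖ ≤ 340 := by
  have hp1 := Real.pi_gt_d4
  have hp2 := Real.pi_lt_d4
  have h1 := CritNB_sin_lower (Or.inl rfl) h
  have h1' : (2957 / 10000 : ℝ) ≤ ‖Complex.sin (Real.pi * z)‖ ^ 2 := by linarith only [h1, hp2, hp1]
  have h2 : ‖Complex.cos (Real.pi * z)‖ ^ 2 ≤ 7479 / 10000 := by
    rw [CritNB_norm_cos]
    have e1 : ((Real.pi : ℂ) * z).re = Real.pi * z.re := by simp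
    have e2 : ((Real.pi : ℂ) * z).im = Real.pi * z.im := by simp
    rw [e1, e2, Real.cos_sq]
    have h3 : |Real.sin (2 * Real.pi * (z.re - 1 / 4))| ≤ 2 * Real.pi * (65 / 1000) := by
      refine Real.abs_sin_le_abs.trans ?_
      rw [abs_mul, abs_of_pos (by positivity)]
      exact mul_le_mul_of_nonneg_left h (by positivity)
    have e : 2 * (Real.pi * z.re) = 2 * Real.pi * (z.re - 1 / 4) + Real.pi / 2 := by ring
    rw [e, Real.cos_add_pi_div_two]
    have h4 := neg_abs_le (Real.sin (2 * Real.pi * (z.re - 1 / 4)))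
    have h5 : Real.sinh (Real.pi * z.im) ^ 2 ≤ 436 / 10000 := by
      have h6 := Real.cosh_sq (Real.pi * z.im)
      have h7 := Real.cosh_le_exp_half_sq (Real.pi * z.im)
      have h8 : (Real.pi * z.im) ^ 2 ≤ 4171 / 100000 := by
        have h9 : |Real.pi * z.im| ≤ 2042041 / 10000000 := by
          rw [abs_mul, abs_of_pos Real.pi_pos]
          (refine le_of_not_gt fun hng => ?_; linarith only [hp2, hp1, h',
            mul_nonneg (sub_nonneg.2 h') (sub_nonneg.2 hp1.le),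
            mul_pos (sub_pos.2 hng) (sub_pos.2 hp2), mul_pos (sub_pos.2 hng) (sub_pos.2 hp1)])
        rw [← sq_abs]
        linarith only [h9,
          mul_nonneg (sub_nonneg.2 h9) (sub_nonneg.2 (abs_nonneg (Real.pi * z.im)))]
      have h10 : Real.cosh (Real.pi * z.im) ^ 2 ≤ Real.exp ((Real.pi * z.im) ^ 2) := by
        have h11 : Real.exp ((Real.pi * z.im) ^ 2) = Real.exp ((Real.pi * z.im) ^ 2 / 2) ^ 2 := by
          rw [← Real.exp_nat_mul]
          congr 1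
          push_cast
          ring
        rw [h11]
        exact pow_le_pow_left₀ (Real.cosh_pos _).le h7 2
      have h12 := Real.add_one_le_exp (-(Real.pi * z.im) ^ 2)
      have h13 : Real.exp ((Real.pi * z.im) ^ 2) * Real.exp (-(Real.pi * z.im) ^ 2) = 1 := by
        rw [← Real.exp_add]
        simp
      have h14 := Real.exp_pos ((Real.pi * z.im) ^ 2)
      have h15 : Real.exp ((Real.pi * z.im) ^ 2) ≤ 10436 / 10000 := by
        by_contra hcon
        rw [not_le] at hcon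
        have h16 : (95829 / 100000 : ℝ) ≤ Real.exp (-(Real.pi * z.im) ^ 2) := by linarith only [h12,
                                                                                   h8]
        linarith only [hcon, h13, h12, h8, mul_nonneg (sub_nonneg.2 h12) (sub_nonneg.2 hcon.le),
          mul_nonneg (sub_nonneg.2 h8) (sub_nonneg.2 hcon.le)]
      linarith only [h15, h10, h6]
    linarith only [h5, h4, h3, hp2, hp1]
  have h3 : ‖CritNB_F2 z‖ ^ 2 ≤ 340 ^ 2 := by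
    rw [CritNB_F2, norm_div, norm_mul, norm_mul, norm_pow, norm_pow, norm_real, Real.norm_eq_abs,
      abs_of_pos Real.pi_pos, div_pow, mul_pow, mul_pow, ← pow_mul, ← pow_mul]
    simp only [Complex.norm_ofNat]
    have h4 : ‖Complex.sin (Real.pi * z)‖ ^ (3 * 2) = (‖Complex.sin (Real.pi * z)‖ ^ 2) ^ 3 := by
      ring
    have h5 : (2957 / 10000 : ℝ) ^ 3 ≤ (‖Complex.sin (Real.pi * z)‖ ^ 2) ^ 3 :=
      pow_le_pow_left₀ (by norm_num) h1' 3
    have h6 : Real.pi ^ (3 * 2) ≤ (31416 / 10000 : ℝ) ^ 6 :=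
      pow_le_pow_left₀ Real.pi_pos.le (by linarith only [hp2]) 6
    rw [h4, div_le_iff₀ (by positivity)]
    have h7 : (2 : ℝ) ^ 2 * Real.pi ^ (3 * 2) * ‖Complex.cos (Real.pi * z)‖ ^ 2 ≤
        (2 : ℝ) ^ 2 * (31416 / 10000 : ℝ) ^ 6 * (7479 / 10000) := by
      apply mul_le_mul _ h2 (by positivity) (by positivity)
      exact mul_le_mul_of_nonneg_left h6 (by norm_num)
    refine h7.trans (le_trans ?_ (mul_le_mul_of_nonneg_left h5 (by norm_num)))
    norm_num
  exact le_of_sq_le_sq h3 (by norm_num)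

theorem CritNB_convex (c R : ℝ) : Convex ℝ {z : ℂ | |z.re - c| ≤ R} := by
  have h : {z : ℂ | |z.re - c| ≤ R} = Complex.reLm ⁻¹' Set.Icc (c - R) (c + R) := by
    ext z
    simp only [Set.mem_ofPred_eq, Set.mem_preimage, Complex.reLm_coe, Set.mem_Icc, abs_le]
    constructor
    · rintro ⟨h1, h2⟩
      constructor <;> linarith
    · rintro ⟨h1, h2⟩
      constructor <;> linarith
  rw [h]
  exact (convex_Icc _ _).linear_preimage _

theorem CritNB_convex' (R : ℝ) : Convex ℝ {z : ℂ | |z.im| ≤ R} := by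
  have h : {z : ℂ | |z.im| ≤ R} = Complex.imLm ⁻¹' Set.Icc (-R) R := by
    ext z
    simp only [Set.mem_ofPred_eq, Set.mem_preimage, Complex.imLm_coe, Set.mem_Icc, abs_le]
  rw [h]
  exact (convex_Icc _ _).linear_preimage _

theorem CritNB_re_le {z : ℂ} {c d : ℝ} (h : ‖z - c‖ ≤ d) : |z.re - c| ≤ d := by
  have := abs_re_le_norm (z - c)
  simp only [sub_re, ofReal_re] at this
  exact this.trans h

theorem CritNB_F_quarter : CritNB_F ((1 / 4 : ℝ) : ℂ) = Real.pi := by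
  rw [CritNB_F, Complex.cot]
  have e : (Real.pi : ℂ) * ((1 / 4 : ℝ) : ℂ) = ((Real.pi / 4 : ℝ) : ℂ) := by push_cast; ring
  rw [e, ← Complex.ofReal_cos, ← Complex.ofReal_sin, Real.cos_pi_div_four, Real.sin_pi_div_four,
    div_self, mul_one]
  have : (0 : ℝ) < √2 / 2 := by positivity
  exact_mod_cast this.ne'

theorem CritNB_num16 : 2 * Real.pi ^ 2 / (1 - 2 * Real.pi * (16 / 1000)) ≤ 2195 / 100 := by
  have hp1 := Real.pi_gt_d4
  have hp2 := Real.pi_lt_d4
  rw [div_le_iff₀ (by linarith only [hp2])]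
  (refine le_of_not_gt fun hng => ?_; linarith only [hp2, mul_pos (sub_pos.2 hp1) (sub_pos.2 hp2),
    mul_pos (sub_pos.2 hng) (sub_pos.2 hp2), mul_pos (sub_pos.2 hng) (sub_pos.2 hp1),
    mul_nonneg (sq_nonneg (1 * Real.pi)) (sub_nonneg.2 hp1.le)])

theorem CritNB_F_near {c : ℝ} (hc : c = 1 / 4 ∨ c = 3 / 4) {z : ℂ}
    (h : ‖z - c‖ ≤ 16 / 1000) : ‖CritNB_F z - CritNB_F c‖ ≤ 2195 / 100 * ‖z - c‖ := by
  have hp2 := Real.pi_lt_d4
  refine (CritNB_convex c (16 / 1000)).norm_image_sub_le_of_norm_hasDerivWithin_le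
    (f' := CritNB_F1) (fun w hw => ?_) (fun w hw => ?_) (x := (c : ℂ)) (by simp; norm_num)
    (CritNB_re_le h)
  · exact (CritNB_F_deriv (CritNB_F1_le hc (by linarith only [hp2]) hw).1).hasDerivWithinAt
  · exact (CritNB_F1_le hc (by linarith only [hp2]) hw).2.trans CritNB_num16
lemma CritNB_exp_hh {z : ℂ} (hz : ‖z - 1 / 4‖ ≤ 71 / 1000) :
    exp (hh z) = 2 * sin (Real.pi * z) ∧ sin (Real.pi * z) ≠ 0 := by
  have h1 := CritA_sin_lower hz
  have h2 : sin (Real.pi * z) ≠ 0 := by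
    intro h; rw [h, norm_zero] at h1; norm_num at h1
  refine ⟨?_, h2⟩
  unfold hh
  rw [Complex.exp_log]
  exact mul_ne_zero two_ne_zero h2

lemma CritNB_G_exp {y v : ℂ} (hy : ‖y - 1 / 4‖ ≤ 16 / 1000) (hv : ‖v‖ ≤ 55 / 1000) :
    exp (-CritA_G y v) = 1 + -(sin (Real.pi * v) ^ 2 / sin (Real.pi * y) ^ 2) := by
  obtain ⟨e1, n1⟩ := CritNB_exp_hh (hy.trans (by norm_num : (16 / 1000 : ℝ) ≤ 71 / 1000))
  obtain ⟨e2, -⟩ := CritNB_exp_hh (CritA_sub hy hv)
  obtain ⟨e3, -⟩ := CritNB_exp_hh (CritA_add hy hv)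
  have e : -CritA_G y v = hh (y - v) + hh (y + v) - (hh y + hh y) := by
    unfold CritA_G; ring
  rw [e, Complex.exp_sub, Complex.exp_add, Complex.exp_add, e1, e2, e3]
  have e4 : (Real.pi : ℂ) * (y - v) = Real.pi * y - Real.pi * v := by ring
  have e5 : (Real.pi : ℂ) * (y + v) = Real.pi * y + Real.pi * v := by ring
  rw [e4, e5, Complex.sin_sub, Complex.sin_add]
  have h1 := Complex.sin_sq_add_cos_sq (Real.pi * y)
  have h2 := Complex.sin_sq_add_cos_sq (Real.pi * v)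
  generalize sin (Real.pi * y) = s at *
  generalize cos (Real.pi * y) = c at *
  generalize sin (Real.pi * v) = s' at *
  generalize cos (Real.pi * v) = c' at *
  field_simp
  linear_combination (s ^ 2) * h2 - (s' ^ 2) * h1

lemma CritNB_G_bound {y v : ℂ} (hy : ‖y - 1 / 4‖ ≤ 16 / 1000) (hv : ‖v‖ ≤ 55 / 1000) :
    ‖CritA_G y v‖ ≤ 238 / 10 * ‖v‖ ^ 2 := by
  have hp1 := Real.pi_gt_d4
  have hp2 := Real.pi_lt_d4
  have h0 := norm_nonneg v
  have hG := CritA_G_bound hy hv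
  have hv2 : ‖v‖ ^ 2 ≤ (55 / 1000) ^ 2 := by gcongr
  have hG1 : ‖CritA_G y v‖ ≤ 1 := by
    norm_num at hv2 ⊢
    linarith only [hv2, hG, hp2, hp1]
  set q : ℂ := -(sin (Real.pi * v) ^ 2 / sin (Real.pi * y) ^ 2) with hq
  have hexp : exp (-CritA_G y v) = 1 + q := CritNB_G_exp hy hv
  have hG1' : ‖-CritA_G y v‖ ≤ 1 := by rw [norm_neg]; exact hG1
  have him1 := abs_le.1 ((abs_im_le_norm (-CritA_G y v)).trans hG1')
  have hlog : -CritA_G y v = log (1 + q) := by
    rw [← hexp, Complex.log_exp]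
    · linarith only [him1.1, hp2, hp1]
    · linarith only [him1.2, hp2, hp1]
  have e14 : ((1 / 4 : ℝ) : ℂ) = 1 / 4 := by push_cast; ring
  have hre := CritNB_re_le (z := y) (c := 1 / 4) (d := 16 / 1000) (by rw [e14]; exact hy)
  have hlow := CritNB_sin_lower (Or.inl rfl) hre
  have hlow' : (4497 / 10000 : ℝ) ≤ ‖sin (Real.pi * y)‖ ^ 2 := by linarith only [hlow, hp2]
  have hsin := CritA_sin_small (θ := Real.pi * v) (by rw [CritA_norm_pi]; (refine le_of_not_gt fun hng => ?_; linarith only [hp2,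
                                                                            hp1, hv,
                                                                            mul_nonneg (sub_nonneg.2 hv) (sub_nonneg.2 hp1.le),
                                                                            mul_pos (sub_pos.2 hng) (sub_pos.2 hp2),
                                                                            mul_pos (sub_pos.2 hng) (sub_pos.2 hp1)]))
  rw [CritA_norm_pi] at hsin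
  have hsin2 : ‖sin (Real.pi * v)‖ ≤ 32076 / 10000 * ‖v‖ := by
    refine hsin.trans ?_
    linarith only [h0, mul_nonneg (sub_nonneg.2 hp2.le) (sub_nonneg.2 h0)]
  have hqn : ‖q‖ ≤ 229 / 10 * ‖v‖ ^ 2 := by
    rw [hq, norm_neg, norm_div, norm_pow, norm_pow, div_le_iff₀ (by linarith only [hlow, hp2, hp1])]
    have h1 : ‖sin (Real.pi * v)‖ ^ 2 ≤ (32076 / 10000 * ‖v‖) ^ 2 := by gcongr
    have h2 : 229 / 10 * ‖v‖ ^ 2 * (4497 / 10000) ≤
        229 / 10 * ‖v‖ ^ 2 * ‖sin (Real.pi * y)‖ ^ 2 := by gcongr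
    have h3 := sq_nonneg ‖v‖
    linarith only [h2, h1, sq_nonneg (1 * ‖v‖)]
  have hq0 := norm_nonneg q
  have hq1 : ‖q‖ ≤ 693 / 10000 := by
    norm_num at hv2
    linarith only [hv2, hqn]
  have hl := Complex.norm_log_one_add_le (z := q) (by linarith only [hqn, hv2])
  rw [← hlog, norm_neg] at hl
  have h1 : (1 - ‖q‖)⁻¹ ≤ 10745 / 10000 := by
    rw [inv_le_comm₀ (by linarith only [hqn, hv2]) (by norm_num)]
    norm_num
    linarith only [hqn, hv2]
  have h2 : ‖q‖ ^ 2 * (1 - ‖q‖)⁻¹ / 2 ≤ 373 / 10000 * ‖q‖ := by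
    have h3 : 0 ≤ (1 - ‖q‖)⁻¹ := inv_nonneg.2 (by linarith only [hqn, hv2, hp2, hp1])
    have h4 : ‖q‖ ^ 2 * (1 - ‖q‖)⁻¹ ≤ ‖q‖ ^ 2 * (10745 / 10000) := by gcongr
    (refine le_of_not_gt fun hng => ?_; linarith only [hng, h4, hq0,
      mul_nonneg (sub_nonneg.2 hqn) (sub_nonneg.2 hq0),
      mul_nonneg (sq_nonneg (1 * ‖v‖)) (sub_nonneg.2 h4),
      mul_nonneg (sq_nonneg (1 * ‖v‖)) (sub_nonneg.2 hng.le),
      mul_nonneg (sq_nonneg (1 * ‖q‖)) (sub_nonneg.2 hv2)])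
  have h3 := sq_nonneg ‖v‖
  linarith only [h2, hl, hqn, hG]

lemma CritNB_v_small {a : ℝ} (ha : 1 ≤ a) {r : ℤ} (hr : 10 * a ≤ |(r : ℝ)|) {v : ℂ}
    (hv : ‖v + 1 / (2 * r)‖ ≤ a / (2 * (r : ℝ) ^ 2)) :
    ‖v‖ ≤ 55 / 1000 ∧ ‖v‖ ^ 2 ≤ 3025 / 10000 * (1 / (r : ℝ) ^ 2) := by
  have hpos : 0 < |(r : ℝ)| := by linarith only [hr, ha]
  have e : v = (v + 1 / (2 * r)) - 1 / (2 * r) := by ring
  have n1 : ‖(1 : ℂ) / (2 * r)‖ = 1 / (2 * |(r : ℝ)|) := by
    rw [norm_div, norm_one, norm_mul, Complex.norm_intCast]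
    norm_num
  have h1 : ‖v‖ ≤ a / (2 * (r : ℝ) ^ 2) + 1 / (2 * |(r : ℝ)|) := by
    conv_lhs => rw [e]
    refine (norm_sub_le _ _).trans ?_
    rw [n1]; linarith only [hv]
  have h2 : a / (2 * (r : ℝ) ^ 2) + 1 / (2 * |(r : ℝ)|) ≤ 55 / 100 / |(r : ℝ)| := by
    rw [← sq_abs (r : ℝ)]
    have : a / (2 * |(r : ℝ)| ^ 2) ≤ 5 / 100 / |(r : ℝ)| := by
      rw [div_le_div_iff₀ (by positivity) hpos]
      nlinarith only [ha, hr]
    have e3 : 1 / (2 * |(r : ℝ)|) = 50 / 100 / |(r : ℝ)| := by field_simp; norm_num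
    have e4 : 55 / 100 / |(r : ℝ)| = 5 / 100 / |(r : ℝ)| + 50 / 100 / |(r : ℝ)| := by ring
    rw [e4, e3]
    linarith only [this]
  have h3 : 55 / 100 / |(r : ℝ)| ≤ 55 / 1000 := by
    rw [div_le_iff₀ hpos]; linarith only [hr, ha]
  have h4 := h1.trans h2
  refine ⟨h4.trans h3, ?_⟩
  have h5 : ‖v‖ ^ 2 ≤ (55 / 100 / |(r : ℝ)|) ^ 2 := by gcongr
  refine h5.trans (le_of_eq ?_)
  rw [div_pow, sq_abs]
  ring

lemma CritNB_y {y v w : ℂ} {s s' : ℝ}
    (ey : 4 * hh (y + 1 / 2) = hh (y - v) + hh (y + v) + hh (y - w) + hh (y + w))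
    (hy : ‖y - 1 / 4‖ ≤ 16 / 1000) (hv : ‖v‖ ≤ 55 / 1000) (hw : ‖w‖ ≤ 55 / 1000)
    (hs : ‖v‖ ^ 2 ≤ 3025 / 10000 * s) (hs' : ‖w‖ ^ 2 ≤ 3025 / 10000 * s') :
    ‖y - 1 / 4‖ ≤ 3 / 10 * (s + s') := by
  have hp1 := Real.pi_gt_d4
  have a1 := CritNB_G_bound hy hv
  have a2 := CritNB_G_bound hy hw
  have a3 := CritA_A_lip (y := 1 / 4) (y' := y) (by norm_num) hy
  rw [CritA_A_quarter] at a3
  have n8 : ‖(8 * Real.pi : ℂ)‖ = 8 * Real.pi := by
    rw [norm_mul, Complex.norm_real, Real.norm_of_nonneg Real.pi_pos.le]; norm_num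
  have hpi : (Real.pi : ℂ) ≠ 0 := by exact_mod_cast Real.pi_ne_zero
  have e1 : (hh (y + 1 / 2) - hh y) / (2 * Real.pi) =
      -((CritA_G y v + CritA_G y w) / (8 * Real.pi)) := by
    have e0 : CritA_G y v + CritA_G y w = -(4 * hh (y + 1 / 2) - 4 * hh y) := by
      unfold CritA_G
      rw [ey]
      ring
    rw [e0]
    generalize hh (y + 1 / 2) = A
    field_simp
    ring
  have e2 : y - 1 / 4 = (CritA_A y - 1 / 4) + (CritA_G y v + CritA_G y w) / (8 * Real.pi) := by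
    unfold CritA_A
    rw [e1]
    ring
  have h1 : ‖y - 1 / 4‖ ≤ 6 / 1000 * ‖y - 1 / 4‖ +
      ‖CritA_G y v + CritA_G y w‖ / (8 * Real.pi) := by
    conv_lhs => rw [e2]
    refine (norm_add_le _ _).trans (add_le_add a3 (le_of_eq ?_))
    rw [norm_div, n8]
  have h2 : ‖CritA_G y v + CritA_G y w‖ ≤ 71995 / 10000 * (s + s') := by
    refine (norm_add_le _ _).trans ?_
    linarith only [a2, a1, hs', hs]
  have h3 : ‖CritA_G y v + CritA_G y w‖ / (8 * Real.pi) ≤ 287 / 1000 * (s + s') := by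
    rw [div_le_iff₀ (by positivity)]
    have h4 : 0 ≤ s + s' := by linarith only [hs', hs, sq_nonneg (1 * ‖w‖), sq_nonneg (‖v‖)]
    have h5 : 287 / 1000 * (s + s') * (8 * 3.1415) ≤ 287 / 1000 * (s + s') * (8 * Real.pi) := by
      gcongr
    linarith only [h5, h4, h2]
  have h4 : 0 ≤ s + s' := by linarith only [hs', hs, sq_nonneg (1 * ‖v‖), sq_nonneg (1 * ‖w‖)]
  linarith only [h4, h3, h1]

/-- the contribution of one slot -/
lemma CritNB_slot (u : Option ℂ) (hu : ∀ y, u = some y → ‖y - 1 / 4‖ ≤ 1 / 100) {v : ℂ}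
    (hv55 : ‖v‖ ≤ 55 / 1000) : ∃ F : ℂ, ‖F - ns u * Real.pi‖ ≤ 2195 / 10000 * ns u ∧
      ‖dpo u v + 2 * v * F‖ ≤ 3429 / 10000 * ns u * ‖v‖ := by
  have hp1 := Real.pi_gt_d4
  have hp2 := Real.pi_lt_d4
  rcases u with _ | y
  · refine ⟨0, ?_, ?_⟩
    · rw [ns_none]; simp
    · rw [ns_none]; simp [dpo]
  have hy := hu y rfl
  rw [ns_some]
  have e14 : ((1 / 4 : ℝ) : ℂ) = 1 / 4 := by push_cast; ring
  have hy' : ‖y - ((1 / 4 : ℝ) : ℂ)‖ ≤ 1 / 100 := by rw [e14]; exact hy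
  have hre := abs_le.1 (CritNB_re_le hy')
  have him : |y.im| ≤ 1 / 100 := by
    have := abs_im_le_norm (y - ((1 / 4 : ℝ) : ℂ))
    simp only [sub_im, ofReal_im, sub_zero] at this
    exact this.trans hy'
  have him' := abs_le.1 him
  have hvre := abs_le.1 ((abs_re_le_norm v).trans hv55)
  have hvim := abs_le.1 ((abs_im_le_norm v).trans hv55)
  have htd := CritNB_td (f := hh) (f' := CritNB_F) (f'' := CritNB_F1) (f3 := CritNB_F2)
      ((CritNB_convex (1 / 4) (65 / 1000)).inter (CritNB_convex' (65 / 1000)))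
      (fun z hz => by
        have h1 := abs_le.1 (show |z.re - 1 / 4| ≤ 65 / 1000 from hz.1)
        exact hh_hasDerivAt z (by linarith only [h1.1, hp2, hp1]) (by linarith only [h1.2, hp2, hp1]))
      (fun z hz => CritNB_F_deriv (CritNB_F1_le (Or.inl rfl) (by linarith only [hp2]) hz.1).1)
      (fun z hz => CritNB_F1_deriv (CritNB_F1_le (Or.inl rfl) (by linarith only [hp2]) hz.1).1)
      (B := 340) (fun z hz => CritNB_F2_le hz.1 hz.2)
      (y := y) (v := v) (by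
        constructor
        · show |(y - v).re - 1 / 4| ≤ 65 / 1000
          rw [sub_re, abs_le]
          constructor <;> linarith [hvre.1, hvre.2, hre.1, hre.2]
        · show |(y - v).im| ≤ 65 / 1000
          rw [sub_im, abs_le]
          constructor <;> linarith [hvim.1, hvim.2, him'.1, him'.2]) (by
        constructor
        · show |(y + v).re - 1 / 4| ≤ 65 / 1000
          rw [add_re, abs_le]
          constructor <;> linarith only [hvre.1, hre.1, hvre.2, hre.2]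
        · show |(y + v).im| ≤ 65 / 1000
          rw [add_im, abs_le]
          constructor <;> linarith only [hvim.1, him'.1, hvim.2, him'.2])
  have hF := CritNB_F_near (Or.inl rfl) (hy'.trans (by norm_num))
  rw [CritNB_F_quarter] at hF
  refine ⟨CritNB_F y, ?_, ?_⟩
  · rw [ofReal_one, one_mul]
    linarith only [hF, hy']
  · show ‖hh (y - v) - hh (y + v) + 2 * v * CritNB_F y‖ ≤ _
    refine htd.trans ?_
    have h0 := norm_nonneg v
    have h1 : ‖v‖ ^ 2 ≤ (55 / 1000) ^ 2 := pow_le_pow_left₀ h0 hv55 2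
    (refine le_of_not_gt fun hng => ?_; linarith only [h0,
      mul_nonneg (sub_nonneg.2 hng.le) (sub_nonneg.2 h0), mul_pos (sub_pos.2 hng) (sub_pos.2 hp2),
      mul_pos (sub_pos.2 hng) (sub_pos.2 hp1), mul_nonneg (sq_nonneg (1 * ‖v‖)) (sub_nonneg.2 h1),
      mul_nonneg (sq_nonneg (1 * ‖v‖)) (sub_nonneg.2 hv55)])

lemma CritNB_v (r : ℤ) {a : ℝ} (ha : 1 ≤ a) (ha2 : a ≤ 2) (hr : 10 * a ≤ |(r : ℝ)|) {v D F : ℂ}
    (hF : ‖F - a * Real.pi‖ ≤ 2195 / 10000 * a)
    (herr : ‖D + 2 * v * F‖ ≤ 3429 / 10000 * a * ‖v‖)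
    (hDev : 2 * Real.pi * I * (2 * r * v + 1) + D = 0) :
    ‖v + 1 / (2 * r)‖ ≤ 3 / 10 * a / (r : ℝ) ^ 2 ∧ 0 < v.im ∧
      |v.re| < 2 / (4 * |(r : ℝ)| - 1) := by
  have hp1 := Real.pi_gt_d4
  have hp2 := Real.pi_lt_d4
  set ρ : ℝ := |(r : ℝ)| with hρ
  have hρ10 : 10 ≤ ρ := by linarith only [hr, ha]
  have hρ2 : (r : ℝ) ^ 2 = ρ ^ 2 := by rw [hρ, sq_abs]
  have hr0 : (r : ℂ) ≠ 0 := by
    intro h
    have : r = 0 := by exact_mod_cast h
    rw [hρ, this] at hρ10
    norm_num at hρ10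
  have hnr : ‖(r : ℂ)‖ = ρ := by rw [hρ, Complex.norm_intCast]
  rw [hρ2]
  set δ : ℝ := ‖v + 1 / (2 * r)‖ with hδ
  have hδ0 : 0 ≤ δ := norm_nonneg _
  have hn1 : ‖(1 / (2 * r) : ℂ)‖ = 1 / (2 * ρ) := by
    rw [norm_div, norm_mul, hnr]
    simp
  have hvn : ‖v‖ ≤ δ + 1 / (2 * ρ) := by
    have : v = (v + 1 / (2 * r)) - 1 / (2 * r) := by ring
    calc ‖v‖ = ‖(v + 1 / (2 * r)) - 1 / (2 * r)‖ := by rw [← this]
      _ ≤ _ := (norm_sub_le _ _).trans (by rw [hn1])
  have hv0 := norm_nonneg v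
  have hFn : ‖F‖ ≤ 33611 / 10000 * a := by
    have : F = (F - a * Real.pi) + a * Real.pi := by ring
    rw [this]
    refine (norm_add_le _ _).trans ?_
    rw [norm_mul, norm_real, norm_real, Real.norm_eq_abs, Real.norm_eq_abs,
      abs_of_pos Real.pi_pos, abs_of_pos (by linarith only [ha] : 0 < a)]
    linarith only [hp2, hF, mul_nonneg (sub_nonneg.2 ha) (sub_nonneg.2 hp2.le)]
  have hDn : ‖D‖ ≤ 70652 / 10000 * a * ‖v‖ := by
    have e : D = (D + 2 * v * F) - 2 * v * F := by ring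
    rw [e]
    refine (norm_sub_le _ _).trans ?_
    have h1 : ‖2 * v * F‖ ≤ 2 * ‖v‖ * (33611 / 10000 * a) := by
      rw [norm_mul, norm_mul]
      simp only [Complex.norm_ofNat]
      exact mul_le_mul_of_nonneg_left hFn (by positivity)
    have h2 : 0 ≤ a * ‖v‖ := by positivity
    linarith only [h2, h1, herr]
  have hrel : (v + 1 / (2 * r)) * (4 * Real.pi * I * r) = -D := by
    have h2 : (1 / (2 * r) : ℂ) * (4 * Real.pi * I * r) = 2 * Real.pi * I := by
      field_simp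
      ring
    linear_combination hDev + h2
  have hδD : δ * (4 * Real.pi * ρ) ≤ 70652 / 10000 * a * ‖v‖ := by
    have h1 : ‖(v + 1 / (2 * r)) * (4 * Real.pi * I * r)‖ = δ * (4 * Real.pi * ρ) := by
      rw [norm_mul, norm_mul, norm_mul, norm_mul, hnr, norm_real, Real.norm_eq_abs,
        abs_of_pos Real.pi_pos, ← hδ]
      simp only [Complex.norm_ofNat, Complex.norm_I, mul_one]
    rw [← h1, hrel, norm_neg]
    exact hDn
  have hδa : a * (δ * ρ) * 10 ≤ δ * ρ ^ 2 := by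
    have : 0 ≤ δ * ρ := by positivity
    linarith only [mul_nonneg (sub_nonneg.2 hr) (sub_nonneg.2 this)]
  have hδ3 : δ * ρ ^ 2 ≤ 3 / 10 * a := by
    have h1 : δ * (4 * Real.pi * ρ) * ρ ≤ 70652 / 10000 * a * (δ + 1 / (2 * ρ)) * ρ := by
      apply mul_le_mul_of_nonneg_right (hδD.trans _) (by linarith only [hr, ha])
      exact mul_le_mul_of_nonneg_left hvn (by positivity)
    have h2 : 70652 / 10000 * a * (δ + 1 / (2 * ρ)) * ρ =
        70652 / 10000 * (a * (δ * ρ)) + 35326 / 10000 * a := by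
      field_simp
      ring
    rw [h2] at h1
    have h4 : 125660 / 10000 * (δ * ρ ^ 2) ≤ δ * (4 * Real.pi * ρ) * ρ := by
      have h5 : 0 ≤ δ * ρ ^ 2 := by positivity
      linarith only [mul_nonneg (sub_nonneg.2 hp1.le) (sub_nonneg.2 h5)]
    linarith only [h4, h1, hδa, ha]
  have hδ3' : δ ≤ 3 / 10 * a / ρ ^ 2 := by
    rw [le_div_iff₀ (by positivity)]
    exact hδ3
  refine ⟨hδ3', ?_⟩
  -- the product r D
  have hδρ : δ * ρ ≤ 3 / 100 := by
    have h1 : a * (δ * ρ) * 10 ≤ 3 / 10 * a := hδa.trans hδ3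
    have h2 : a * (δ * ρ * 10 - 3 / 10) ≤ 0 := by linarith only [hδ3, hδa]
    by_contra hcon
    rw [not_le] at hcon
    linarith only [hcon, hδ3, hδa, mul_nonneg (sub_nonneg.2 ha) (sub_nonneg.2 hcon.le)]
  have hvρ : ρ * ‖v‖ ≤ 53 / 100 := by
    have h1 : ρ * ‖v‖ ≤ ρ * (δ + 1 / (2 * ρ)) := mul_le_mul_of_nonneg_left hvn (by linarith only [hr,
                                                                                     hp2, hp1, ha])
    have h2 : ρ * (δ + 1 / (2 * ρ)) = δ * ρ + 1 / 2 := by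
      field_simp
    linarith only [h2, h1, hδρ]
  have hT : ‖r * D - a * Real.pi‖ ≤ 61 / 100 * a := by
    have e : r * D - a * Real.pi = (F - a * Real.pi) - (2 * r) * (v + 1 / (2 * r)) * F +
        r * (D + 2 * v * F) := by
      field_simp
      ring
    rw [e]
    refine (norm_add_le _ _).trans ((add_le_add_left (norm_sub_le _ _) _).trans ?_)
    have h1 : ‖(2 * r) * (v + 1 / (2 * r)) * F‖ ≤ 2 * (δ * ρ) * (33611 / 10000 * a) := by
      rw [norm_mul, norm_mul, norm_mul, hnr]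
      simp only [Complex.norm_ofNat]
      calc 2 * ρ * ‖v + 1 / (2 * r)‖ * ‖F‖ ≤ 2 * ρ * δ * (33611 / 10000 * a) :=
            mul_le_mul_of_nonneg_left hFn (by positivity)
        _ = _ := by ring
    have h2 : ‖r * (D + 2 * v * F)‖ ≤ 3429 / 10000 * a * (ρ * ‖v‖) := by
      rw [norm_mul, hnr]
      calc ρ * ‖D + 2 * v * F‖ ≤ ρ * (3429 / 10000 * a * ‖v‖) :=
            mul_le_mul_of_nonneg_left herr (by linarith only [hr, hp2, hp1, ha])
        _ = _ := by ring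
    have h3 : 2 * (δ * ρ) * (33611 / 10000 * a) ≤ 2 * (3 / 100) * (33611 / 10000 * a) := by
      gcongr
    have h4 : 3429 / 10000 * a * (ρ * ‖v‖) ≤ 3429 / 10000 * a * (53 / 100) := by gcongr
    linarith only [h4, h2, h1, hδ3, hδa, hF, ha]
  have hvT : (v + 1 / (2 * r)) * (4 * Real.pi * ρ ^ 2 : ℝ) = I * (r * D) := by
    have h2 : D = -((v + 1 / (2 * r)) * (4 * Real.pi * I * r)) := by rw [hrel, neg_neg]
    have h3 : ((ρ ^ 2 : ℝ) : ℂ) = (r : ℂ) ^ 2 := by rw [← hρ2]; push_cast; ring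
    have h4 : ((4 * Real.pi * ρ ^ 2 : ℝ) : ℂ) = 4 * Real.pi * (r : ℂ) ^ 2 := by
      rw [← h3]; push_cast; ring
    rw [h4, h2]
    linear_combination ((v + 1 / (2 * r)) * (4 * Real.pi * (r : ℂ) ^ 2)) * I_sq
  have hTre := abs_le.1 ((abs_re_le_norm (r * D - a * Real.pi)).trans hT)
  have hTim := abs_le.1 ((abs_im_le_norm (r * D - a * Real.pi)).trans hT)
  rw [← ofReal_mul] at hTre hTim
  simp only [sub_re, sub_im, ofReal_re, ofReal_im, sub_zero] at hTre hTim
  have hreal : (1 / (2 * r) : ℂ) = ((1 / (2 * (r : ℝ)) : ℝ) : ℂ) := by push_cast; ring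
  have h1 := congrArg Complex.im hvT
  have h2 := congrArg Complex.re hvT
  rw [hreal] at h1 h2
  simp only [re_mul_ofReal, im_mul_ofReal, add_re, add_im, ofReal_re, ofReal_im, add_zero,
    I_mul_im, I_mul_re] at h1 h2
  have hK : 0 < 4 * Real.pi * ρ ^ 2 := by positivity
  constructor
  · by_contra hcon
    rw [not_lt] at hcon
    have : v.im * (4 * Real.pi * ρ ^ 2) ≤ 0 := mul_nonpos_of_nonpos_of_nonneg hcon hK.le
    linarith only [hTre.1, this, h1, hp1, ha, mul_nonneg (sub_nonneg.2 ha) (sub_nonneg.2 hp1.le)]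
  · have h3 : |v.re + 1 / (2 * (r : ℝ))| * (4 * Real.pi * ρ ^ 2) ≤ 61 / 100 * a := by
      have h5 := congrArg abs h2
      rw [abs_mul, abs_of_pos hK, abs_neg] at h5
      rw [h5]
      exact abs_le.2 hTim
    have h4 : |v.re| ≤ |v.re + 1 / (2 * (r : ℝ))| + 1 / (2 * ρ) := by
      have h5 : |1 / (2 * (r : ℝ))| = 1 / (2 * ρ) := by
        rw [abs_div, abs_mul, ← hρ]; simp
      have h6 : v.re = (v.re + 1 / (2 * (r : ℝ))) - 1 / (2 * (r : ℝ)) := by ring
      calc |v.re| = |(v.re + 1 / (2 * (r : ℝ))) - 1 / (2 * (r : ℝ))| := by rw [← h6]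
        _ ≤ _ := (abs_sub _ _).trans (by rw [h5])
    have h5 : |v.re + 1 / (2 * (r : ℝ))| * ρ ^ 2 ≤ 1 / 10 := by
      have h6 : 0 ≤ |v.re + 1 / (2 * (r : ℝ))| * ρ ^ 2 := by positivity
      (refine le_of_not_gt fun hng => ?_; linarith only [hng, h3, hp1, ha2,
        mul_pos (sub_pos.2 hng) (sub_pos.2 hp1)])
    have h6 : |v.re + 1 / (2 * (r : ℝ))| ≤ 1 / (10 * ρ ^ 2) := by
      rw [le_div_iff₀ (by positivity)]
      linarith only [h5]
    have h7 : 1 / (10 * ρ ^ 2) + 1 / (2 * ρ) < 2 / (4 * ρ - 1) := by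
      have h8 : 0 < 4 * ρ - 1 := by linarith only [hr, ha]
      have h9 : 1 / (10 * ρ ^ 2) + 1 / (2 * ρ) = (1 + 5 * ρ) / (10 * ρ ^ 2) := by
        field_simp
        ring
      rw [h9, div_lt_div_iff₀ (by positivity) h8]
      linarith only [hr, ha]
    linarith only [h7, h6, h4]

theorem critN_exists {m : ℕ} (hm : 1 ≤ m) (r : Fin (m + 1) → ℤ)
    (hr : ∀ i, 10 * nA m i ≤ |(r i : ℝ)|) (hs : ∑ i, nA m i / (r i : ℝ) ^ 2 ≤ 1 / 50) :
    ∃ (y : Fin m → ℂ) (v : Fin (m + 1) → ℂ), CritN r y v := by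
  obtain ⟨y, v, ey, ev, hy, hv⟩ := critN_contraction hm r hr hs
  have hsm := fun i => CritNB_v_small (nA_pos m hm i) (hr i) (hv i)
  have hbd : ∀ j : Fin m, ‖y j - 1 / 4‖ ≤
      3 / 10 * (1 / (r j.castSucc : ℝ) ^ 2 + 1 / (r j.succ : ℝ) ^ 2) := fun j =>
    CritNB_y (ey j) (hy j) (hsm _).1 (hsm _).1 (hsm _).2 (hsm _).2
  have hss : ∀ j : Fin m, 1 / (r j.castSucc : ℝ) ^ 2 + 1 / (r j.succ : ℝ) ^ 2 ≤ 1 / 50 := by
    intro j
    have e : ∑ i, nA m i / (r i : ℝ) ^ 2 =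
        ∑ j : Fin m, (1 / (r j.castSucc : ℝ) ^ 2 + 1 / (r j.succ : ℝ) ^ 2) := by
      rw [← sum_nA (fun i => 1 / (r i : ℝ) ^ 2)]
      exact Finset.sum_congr rfl fun i _ => by ring
    rw [e] at hs
    refine le_trans ?_ hs
    exact Finset.single_le_sum (f := fun j : Fin m =>
      (1 / (r j.castSucc : ℝ) ^ 2 + 1 / (r j.succ : ℝ) ^ 2)) (fun j _ => by positivity)
      (Finset.mem_univ j)
  have hy1 : ∀ j, ‖y j - 1 / 4‖ ≤ 1 / 100 := fun j => (hbd j).trans (by linarith only [hss j])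
  have hext : ∀ i : Fin (m + 2), ∀ z, ext y i = some z → ‖z - 1 / 4‖ ≤ 1 / 100 := by
    intro i z hz
    have key : ∀ i : Fin (m + 2), ext y i = none ∨ ∃ j, ext y i = some (y j) := by
      intro i
      refine Fin.cases (Or.inl (ext_zero y)) (fun i => ?_) i
      refine Fin.lastCases (Or.inl (ext_last_succ y)) (fun i => ?_) i
      exact Or.inr ⟨i, ext_mid y i⟩
    rcases key i with h | ⟨j, h⟩
    · rw [h] at hz; cases hz
    · rw [h] at hz
      cases hz
      exact hy1 j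
  have hvv : ∀ i, ‖v i + 1 / (2 * r i)‖ ≤ 3 / 10 * nA m i / (r i : ℝ) ^ 2 ∧ 0 < (v i).im ∧
      |(v i).re| < 2 / (4 * |(r i : ℝ)| - 1) := by
    intro i
    obtain ⟨F, hF1, hF2⟩ := CritNB_slot (ext y i.castSucc) (hext _) (hsm i).1
    obtain ⟨F', hF1', hF2'⟩ := CritNB_slot (ext y i.succ) (hext _) (hsm i).1
    have hns := ns_ext y i
    refine CritNB_v (r i) (D := dpo (ext y i.castSucc) (v i) + dpo (ext y i.succ) (v i))
      (F := F + F') (nA_pos m hm i) (nA_le m i) (hr i) ?_ ?_ ?_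
    · rw [← hns, ofReal_add]
      have e : F + F' - ((ns (ext y i.castSucc) : ℂ) + (ns (ext y i.succ) : ℂ)) * Real.pi =
        (F - ns (ext y i.castSucc) * Real.pi) + (F' - ns (ext y i.succ) * Real.pi) := by ring
      rw [e]
      refine (norm_add_le _ _).trans ?_
      linarith only [hF1', hF1]
    · rw [← hns]
      have e : dpo (ext y i.castSucc) (v i) + dpo (ext y i.succ) (v i) + 2 * v i * (F + F') =
        (dpo (ext y i.castSucc) (v i) + 2 * v i * F) +
          (dpo (ext y i.succ) (v i) + 2 * v i * F') := by ring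
      rw [e]
      refine (norm_add_le _ _).trans ?_
      linarith only [hF2', hF2]
    · rw [← ev i]; ring
  exact ⟨y, v, ⟨hm, hr, hs, ey, ev, hbd, fun i => (hvv i).1, fun i => (hvv i).2.1,
    fun i => (hvv i).2.2⟩⟩

end Pool.Agent.H63.VC4
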