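import Pool.Agent.H63.VC4.PosReg

/-! # The volume of a twist region -/

namespace Pool.Agent.H63.VC4

open Pool.Agent.H63.VC Pool.Agent.H63.VC3 Complex
open scoped BigOperators

theorem FanSum_five (x y : ℂ) (hx : x ≠ 0) (hy : y ≠ 0) (hxy : x ≠ y) (hx1 : x ≠ 1)
    (hy1 : y ≠ 1) :
    blochWigner x - blochWigner y + blochWigner (y / x) -
      blochWigner ((1 - 1 / x) / (1 - 1 / y)) + blochWigner ((1 - x) / (1 - y)) = 0 := by
  have h : x * y⁻¹ ≠ 1 := by
    intro h
    apply hxy
    field_simp at h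
    exact h
  have h5 := five_term x y⁻¹ h
  have hyx : y - x ≠ 0 := sub_ne_zero.2 (Ne.symm hxy)
  have hxy' : x - y ≠ 0 := sub_ne_zero.2 hxy
  have h1y : 1 - y ≠ 0 := sub_ne_zero.2 (Ne.symm hy1)
  have hy1' : y - 1 ≠ 0 := sub_ne_zero.2 hy1
  have hx1' : x - 1 ≠ 0 := sub_ne_zero.2 hx1
  have h1x : 1 - x ≠ 0 := sub_ne_zero.2 (Ne.symm hx1)
  have e1 : 1 - x * y⁻¹ = (y - x) / y := by field_simp
  have a1 : blochWigner (1 - x * y⁻¹) = blochWigner (y / x) := by
    rw [SWpath_one_sub, ← SWpath_inv]
    congr 1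
    field_simp
  have a2 : blochWigner ((1 - x) / (1 - y)) = blochWigner ((1 - y⁻¹) / (1 - x * y⁻¹)) := by
    rw [← neg_neg (blochWigner ((1 - x) / (1 - y))), ← SWpath_one_sub, ← SWpath_inv]
    congr 1
    rw [e1]
    have e2 : 1 - (1 - x) / (1 - y) = (x - y) / (1 - y) := by field_simp; ring
    have e3 : 1 - y⁻¹ = (y - 1) / y := by field_simp
    rw [e2, e3, inv_div, div_div_div_cancel_right₀ hy, div_eq_div_iff hxy' hyx]
    ring
  have a3 : blochWigner ((1 - 1 / x) / (1 - 1 / y)) =
      -blochWigner ((1 - x) / (1 - x * y⁻¹)) := by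
    rw [← neg_neg (blochWigner ((1 - 1 / x) / (1 - 1 / y))), ← SWpath_one_sub, ← SWpath_inv,
      ← SWpath_one_sub]
    congr 1
    have e2 : (1 - 1 / x) / (1 - 1 / y) = y * (x - 1) / (x * (y - 1)) := by
      have : 1 - 1 / y ≠ 0 := by
        rw [sub_ne_zero]
        intro h
        apply hy1
        field_simp at h
        exact h
      rw [div_eq_div_iff this (mul_ne_zero hx hy1')]
      field_simp
    have e3 : 1 - y * (x - 1) / (x * (y - 1)) = (y - x) / (x * (y - 1)) := by
      field_simp
      ring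
    rw [e1, e2, e3, inv_div]
    field_simp
    ring
  rw [SWpath_inv, ← a2, a1] at h5
  rw [a3]
  linarith


theorem FanSum_zero : blochWigner 0 = 0 := by
  have := blochWigner_real 0
  rwa [Complex.ofReal_zero] at this

theorem FanSum_one : blochWigner 1 = 0 := by
  have := blochWigner_real 1
  rwa [Complex.ofReal_one] at this

/-- The generic telescoping relation. -/
theorem FanSum_rel (q E x0 x1 x2 : ℂ) (hq0 : q ≠ 0) (hE : E ≠ 0) (h1 : x1 = 1 + q * x0)
    (h2 : x2 = 1 + q * x1) (h3 : x1 - x0 = E) (n0 : x0 ≠ 0) (n1 : x1 ≠ 0) (n2 : x2 ≠ 0) :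
    blochWigner (E / x1 ^ 2) = blochWigner x2 - blochWigner x1 - blochWigner (x2 / x1) +
      blochWigner (x1 / x0) := by
  have hxy : x1 ≠ x2 := by
    intro h
    have : q * (x1 - x0) = 0 := by linear_combination h1 - h2 - h
    rw [h3] at this
    exact mul_ne_zero hq0 hE this
  have hx1 : x1 ≠ 1 := by
    intro h
    have : q * x0 = 0 := by linear_combination h - h1
    exact mul_ne_zero hq0 n0 this
  have hy1 : x2 ≠ 1 := by
    intro h
    have : q * x1 = 0 := by linear_combination h - h2
    exact mul_ne_zero hq0 n1 this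
  have h5 := FanSum_five x1 x2 n1 n2 hxy hx1 hy1
  have e1 : 1 - x1 = -(q * x0) := by linear_combination -h1
  have e2 : 1 - x2 = -(q * x1) := by linear_combination -h2
  have t1 : (1 - x1) / (1 - x2) = (x1 / x0)⁻¹ := by
    rw [e1, e2, inv_div, neg_div_neg_eq, mul_div_mul_left _ _ hq0]
  have t2 : (1 - 1 / x1) / (1 - 1 / x2) = 1 - E / x1 ^ 2 := by
    have u1 : 1 - 1 / x1 = q * x0 / x1 := by
      field_simp
      linear_combination -e1
    have u2 : 1 - 1 / x2 = q * x1 / x2 := by
      field_simp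
      linear_combination -e2
    have hd : q * x1 / x2 ≠ 0 := div_ne_zero (mul_ne_zero hq0 n1) n2
    rw [u1, u2, ← h3, div_div_div_eq]
    have hx : q * x0 * x2 = q * (x1 ^ 2 - (x1 - x0)) := by
      linear_combination (q * x0) * h2 - (q * x1) * h1
    rw [hx]
    field_simp
  rw [t1, t2, SWpath_inv, SWpath_one_sub] at h5
  linarith

theorem FanSum_exp_pow (w β : ℂ) (k : ℕ) :
    exp (2 * Real.pi * I * w) ^ k * exp (I * β) = exp (2 * I * (k * (Real.pi * w) + β / 2)) := by
  rw [← Complex.exp_nat_mul, ← Complex.exp_add]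
  congr 1
  ring

theorem FanSum_ne (w β : ℂ) (k : ℕ) (h : sin (k * (Real.pi * w) + β / 2) ≠ 0) :
    exp (2 * Real.pi * I * w) ^ k * exp (I * β) ≠ 1 := by
  intro h1
  rw [FanSum_exp_pow] at h1
  have h2 := FanRel_sin_sq (k * (Real.pi * w) + β / 2)
  rw [h1] at h2
  have h3 : sin (k * (Real.pi * w) + β / 2) ^ 2 = 0 := by linear_combination h2 / 4
  exact h (by simpa using h3)

/-- `zK` in terms of `x_k = (q^k e^{iβ} - 1)/(q - 1)`. -/
theorem FanSum_zK (w β : ℂ) (k : ℕ) (hs : sin (Real.pi * w) ≠ 0)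
    (h : sin (((k + 1 : ℕ) : ℂ) * (Real.pi * w) + β / 2) ≠ 0) :
    zK w β (k + 1) = (exp (2 * Real.pi * I * w) ^ k * exp (I * β)) /
      ((exp (2 * Real.pi * I * w) ^ (k + 1) * exp (I * β) - 1) /
        (exp (2 * Real.pi * I * w) - 1)) ^ 2 := by
  have h1 := FanRel_sin_sq (((k + 1 : ℕ) : ℂ) * (Real.pi * w) + β / 2)
  rw [← FanSum_exp_pow] at h1
  have h2 := FanRel_sin_sq (Real.pi * w)
  rw [show 2 * I * (Real.pi * w) = 2 * Real.pi * I * w by ring] at h2
  have h3 := FanSum_ne w β (k + 1) h
  have hq1 : exp (2 * Real.pi * I * w) - 1 ≠ 0 := by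
    intro h0
    rw [h0] at h2
    have h4 : sin (Real.pi * w) ^ 2 * (4 * exp (2 * Real.pi * I * w)) = 0 := by
      rw [h2]
      ring
    exact mul_ne_zero (pow_ne_zero 2 hs) (mul_ne_zero (by norm_num) (Complex.exp_ne_zero _)) h4
  have h3' := sub_ne_zero.2 h3
  unfold zK
  have hq0 : exp (2 * Real.pi * I * w) ≠ 0 := Complex.exp_ne_zero _
  have he0 : exp (I * β) ≠ 0 := Complex.exp_ne_zero _
  generalize exp (2 * Real.pi * I * w) = q at *
  generalize exp (I * β) = e at *
  generalize sin (((k + 1 : ℕ) : ℂ) * (Real.pi * w) + β / 2) = s at *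
  generalize sin (Real.pi * w) = a at *
  rw [div_pow, ← div_mul, div_mul_eq_mul_div, div_eq_div_iff (pow_ne_zero 2 h) (pow_ne_zero 2 h3')]
  have h5 : 4 * q * (a ^ 2 * (q ^ (k + 1) * e - 1) ^ 2) = 4 * q * (q ^ k * e * (q - 1) ^ 2 * s ^ 2) := by
    have e1 : (q ^ (k + 1) * e - 1) ^ 2 = -(s ^ 2 * (4 * (q ^ (k + 1) * e))) := by
      rw [h1]
      ring
    have e2 : (q - 1) ^ 2 = -(a ^ 2 * (4 * q)) := by
      rw [h2]
      ring
    rw [e1, e2, pow_succ]
    ring
  exact mul_left_cancel₀ (mul_ne_zero (by norm_num) hq0) h5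

/-- `e^{iβ} = (Yq - 1)/(Y - q)`. -/
theorem FanSum_e (p : ℕ) (w y : ℂ) (yr : Option ℂ) (h : Reg p w (some y) yr) :
    exp (2 * Real.pi * I * y) - exp (2 * Real.pi * I * w) ≠ 0 ∧
    exp (2 * Real.pi * I * y) * exp (2 * Real.pi * I * w) - 1 ≠ 0 ∧
    1 + exp (2 * Real.pi * I * y) ≠ 0 ∧ 1 + exp (2 * Real.pi * I * w) ≠ 0 ∧
    exp (I * bet w (some y)) =
      (exp (2 * Real.pi * I * y) * exp (2 * Real.pi * I * w) - 1) /
        (exp (2 * Real.pi * I * y) - exp (2 * Real.pi * I * w)) ∧
    Uo w y = (exp (2 * Real.pi * I * y) - exp (2 * Real.pi * I * w)) *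
      (exp (2 * Real.pi * I * y) - 1 / exp (2 * Real.pi * I * w)) /
        (1 + exp (2 * Real.pi * I * y)) ^ 2 := by
  obtain ⟨-, -, n3, n4, n5, n6, hE⟩ := bet_sin p w y yr h
  have hY0 : exp (2 * Real.pi * I * y) ≠ 0 := Complex.exp_ne_zero _
  have hq0 : exp (2 * Real.pi * I * w) ≠ 0 := Complex.exp_ne_zero _
  have hcos : ∀ z : ℂ, cos (2 * Real.pi * z) * (2 * exp (2 * Real.pi * I * z)) =
      exp (2 * Real.pi * I * z) ^ 2 + 1 := by
    intro z
    have e1 : exp (2 * Real.pi * z * I) = exp (2 * Real.pi * I * z) := by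
      congr 1
      ring
    have e2 : exp (-(2 * Real.pi * z) * I) * exp (2 * Real.pi * I * z) = 1 := by
      rw [← Complex.exp_add]
      have : -(2 * Real.pi * z) * I + 2 * Real.pi * I * z = 0 := by ring
      rw [this, Complex.exp_zero]
    rw [Complex.cos, e1]
    linear_combination e2
  have cy := hcos y
  have cw := hcos w
  -- the two sines
  have hS : sin (Real.pi * (y + w)) * (2 * I * exp (I * (Real.pi * (y + w)))) =
      exp (2 * Real.pi * I * y) * exp (2 * Real.pi * I * w) - 1 := by
    have e1 : exp (2 * Real.pi * I * y) * exp (2 * Real.pi * I * w) =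
        exp (I * (Real.pi * (y + w))) ^ 2 := by
      rw [← Complex.exp_nat_mul, ← Complex.exp_add]
      congr 1
      push_cast
      ring
    have e2 : exp (Real.pi * (y + w) * I) = exp (I * (Real.pi * (y + w))) := by
      congr 1
      ring
    have e3 : exp (-(Real.pi * (y + w)) * I) * exp (I * (Real.pi * (y + w))) = 1 := by
      rw [← Complex.exp_add]
      have : -(Real.pi * (y + w)) * I + I * (Real.pi * (y + w)) = 0 := by ring
      rw [this, Complex.exp_zero]
    rw [Complex.sin, e1, e2]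
    linear_combination I ^ 2 * e3 + (1 - exp (I * (Real.pi * (y + w))) ^ 2) * I_sq
  have hT : sin (Real.pi * (y - w)) * (2 * I * exp (I * (Real.pi * (y + w)))) =
      exp (2 * Real.pi * I * y) - exp (2 * Real.pi * I * w) := by
    have e1 : exp (Real.pi * (y - w) * I) * exp (I * (Real.pi * (y + w))) =
        exp (2 * Real.pi * I * y) := by
      rw [← Complex.exp_add]
      congr 1
      ring
    have e2 : exp (-(Real.pi * (y - w)) * I) * exp (I * (Real.pi * (y + w))) =
        exp (2 * Real.pi * I * w) := by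
      rw [← Complex.exp_add]
      congr 1
      ring
    rw [Complex.sin, ← e1, ← e2]
    linear_combination (exp (-(Real.pi * (y - w)) * I) * exp (I * (Real.pi * (y + w))) -
      exp (Real.pi * (y - w) * I) * exp (I * (Real.pi * (y + w)))) * I_sq
  rw [FanRel_cos] at n6
  have nT : sin (Real.pi * (y - w)) ≠ 0 := fun h0 => n6 (by rw [h0]; ring)
  have nS : sin (Real.pi * (y + w)) ≠ 0 := fun h0 => n6 (by rw [h0]; ring)
  have nI : 2 * I * exp (I * (Real.pi * (y + w))) ≠ 0 :=
    mul_ne_zero (mul_ne_zero two_ne_zero I_ne_zero) (Complex.exp_ne_zero _)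
  have m1 : exp (2 * Real.pi * I * y) - exp (2 * Real.pi * I * w) ≠ 0 := by
    rw [← hT]
    exact mul_ne_zero nT nI
  have m2 : exp (2 * Real.pi * I * y) * exp (2 * Real.pi * I * w) - 1 ≠ 0 := by
    rw [← hS]
    exact mul_ne_zero nS nI
  have m3 : 1 + exp (2 * Real.pi * I * y) ≠ 0 := by
    intro h0
    have h1 : (1 + exp (2 * Real.pi * I * y)) ^ 2 =
        (1 + cos (2 * Real.pi * y)) * (2 * exp (2 * Real.pi * I * y)) := by
      linear_combination -cy
    rw [h0] at h1
    exact mul_ne_zero n4 (mul_ne_zero two_ne_zero hY0) (by rw [← h1]; ring)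
  have m4 : 1 + exp (2 * Real.pi * I * w) ≠ 0 := by
    intro h0
    have h1 : (1 + exp (2 * Real.pi * I * w)) ^ 2 =
        (1 + cos (2 * Real.pi * w)) * (2 * exp (2 * Real.pi * I * w)) := by
      linear_combination -cw
    rw [h0] at h1
    exact mul_ne_zero n5 (mul_ne_zero two_ne_zero hq0) (by rw [← h1]; ring)
  refine ⟨m1, m2, m3, m4, ?_, ?_⟩
  · rw [hE, ← hS, ← hT, mul_div_mul_right _ _ nI]
  · unfold Uo
    rw [div_eq_div_iff n4 (pow_ne_zero 2 m3)]
    generalize exp (2 * Real.pi * I * y) = Y at *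
    generalize exp (2 * Real.pi * I * w) = q at *
    generalize cos (2 * Real.pi * y) = cY at *
    generalize cos (2 * Real.pi * w) = cW at *
    have h1 : 4 * Y * q * (-(cW - cY) * (1 + Y) ^ 2) =
        4 * Y * q * ((Y - q) * (Y - 1 / q) * (1 + cY)) := by
      have e1 : 4 * Y * q * ((Y - q) * (Y - 1 / q) * (1 + cY)) =
          4 * Y * ((Y - q) * (Y * q - 1) * (1 + cY)) := by
        field_simp
      rw [e1]
      linear_combination (2 * q * (1 + Y) ^ 2 - 2 * (Y - q) * (Y * q - 1)) * cy -
        2 * Y * (1 + Y) ^ 2 * cw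
    exact mul_left_cancel₀ (mul_ne_zero (mul_ne_zero (by norm_num) hY0) hq0) h1

theorem fan_sum_reg (p : ℕ) (w : ℂ) (yl yr : Option ℂ) (h : Reg p w yl yr) :
    ∑ k ∈ Finset.Icc 1 (2 * p - 1), blochWigner (zK w (bet w yl) k) =
      slotD w yl + slotD w yr := by
  have hp := h.hp
  obtain ⟨P, hP⟩ : ∃ P : ℕ, 2 * p = P + 2 := ⟨2 * p - 2, by omega⟩
  have hP18 : 18 ≤ P := by omega
  have hs : sin (Real.pi * w) ≠ 0 := by
    rcases yl with _ | y
    · have h1 := reg_ne p w none yr h 1 (by omega) (fun _ => le_rfl) (fun _ => by omega)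
      have h2 : ((1 : ℕ) : ℂ) * (Real.pi * w) + bet w none / 2 = Real.pi * w := by
        show ((1 : ℕ) : ℂ) * (Real.pi * w) + 0 / 2 = Real.pi * w
        push_cast
        ring
      rwa [h2] at h1
    · exact (bet_sin p w y yr h).2.2.1
  have hne := fun k hk hl hr => reg_ne p w yl yr h k hk hl hr
  set β := bet w yl with hβ
  set q := exp (2 * Real.pi * I * w) with hq
  set e := exp (I * β) with he
  have hq0 : q ≠ 0 := Complex.exp_ne_zero _
  have he0 : e ≠ 0 := Complex.exp_ne_zero _
  have hq1 : q - 1 ≠ 0 := by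
    intro h0
    have h2 := FanRel_sin_sq (Real.pi * w)
    rw [show 2 * I * (Real.pi * w) = 2 * Real.pi * I * w by ring, ← hq, h0] at h2
    have h4 : sin (Real.pi * w) ^ 2 * (4 * q) = 0 := by
      rw [h2]
      ring
    exact mul_ne_zero (pow_ne_zero 2 hs) (mul_ne_zero (by norm_num) hq0) h4
  -- the sequence
  set x : ℕ → ℂ := fun k => (q ^ k * e - 1) / (q - 1) with hx
  have hxs : ∀ k, x (k + 1) = 1 + q * x k := by
    intro k
    show (q ^ (k + 1) * e - 1) / (q - 1) = 1 + q * ((q ^ k * e - 1) / (q - 1))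
    rw [pow_succ]
    field_simp
    ring
  have hxd : ∀ k, x (k + 1) - x k = q ^ k * e := by
    intro k
    show (q ^ (k + 1) * e - 1) / (q - 1) - (q ^ k * e - 1) / (q - 1) = q ^ k * e
    rw [pow_succ]
    field_simp
    ring
  have hxne : ∀ k, k ≤ 2 * p → (yl = none → 1 ≤ k) → (yr = none → k ≤ 2 * p - 1) → x k ≠ 0 := by
    intro k h1 h2 h3
    exact div_ne_zero (sub_ne_zero.2 (FanSum_ne w β k (hne k h1 h2 h3))) hq1
  have hz : ∀ k, k + 1 ≤ 2 * p - 1 → zK w β (k + 1) = q ^ k * e / x (k + 1) ^ 2 := by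
    intro k hk
    exact FanSum_zK w β k hs (hne (k + 1) (by omega) (fun _ => by omega) (fun _ => hk))
  -- the equation of the region
  have hend : ∀ e' : ℂ, e' = exp (I * bet w yr) → q ^ (2 * p) * e * e' = 1 := by
    rintro e' rfl
    have h1 : q ^ (2 * p) * e * exp (I * bet w yr) =
        exp (I * (2 * p * (2 * Real.pi * w) + bet w yl + bet w yr)) := by
      rw [hq, he, ← Complex.exp_nat_mul, ← Complex.exp_add, ← Complex.exp_add]
      congr 1
      push_cast
      ring
    rw [h1, h.eq, show I * (2 * Real.pi : ℂ) = 2 * Real.pi * I by ring, Complex.exp_two_pi_mul_I]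
  -- telescoping
  have hrel : ∀ k, k + 2 ≤ 2 * p → blochWigner (zK w β (k + 1)) =
      blochWigner (x (k + 2)) - blochWigner (x (k + 1)) - blochWigner (x (k + 2) / x (k + 1)) +
        blochWigner (x (k + 1) / x k) := by
    intro k hk
    rw [hz k (by omega)]
    by_cases hl : yl = none ∧ k = 0
    · obtain ⟨hl, rfl⟩ := hl
      have hb : e = 1 := by
        rw [he, hβ, hl]
        show exp (I * 0) = 1
        simp
      have x0 : x 0 = 0 := by
        show (q ^ 0 * e - 1) / (q - 1) = 0
        rw [hb]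
        simp
      have x1 : x (0 + 1) = 1 := by rw [hxs, x0]; ring
      rw [x1, x0, hb]
      simp [FanSum_zero, FanSum_one]
    · by_cases hr : yr = none ∧ k + 2 = 2 * p
      · obtain ⟨hr, hk2⟩ := hr
        have hb := hend 1 (by
          rw [hr]
          show 1 = exp (I * 0)
          simp)
        rw [mul_one] at hb
        have x2 : x (k + 2) = 0 := by
          show (q ^ (k + 2) * e - 1) / (q - 1) = 0
          rw [hk2, hb]
          simp
        have hE2 : q ^ k * e = 1 / q ^ 2 := by
          rw [← hk2, pow_add] at hb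
          field_simp
          linear_combination hb
        have x1 : x (k + 1) = -1 / q := by
          have h1 := hxs (k + 1)
          rw [x2] at h1
          field_simp
          linear_combination -h1
        have x0 : x k = -(1 + q) / q ^ 2 := by
          have h1 := hxd k
          rw [hE2, x1] at h1
          have h2 : x k = -1 / q - 1 / q ^ 2 := by linear_combination -h1
          rw [h2]
          field_simp
          ring
        have n0 : x k ≠ 0 := hxne k (by omega) (fun hn => by
          rcases Nat.eq_zero_or_pos k with h0 | h0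
          · exact absurd ⟨hn, h0⟩ hl
          · exact h0) (fun _ => by omega)
        have nq : 1 + q ≠ 0 := by
          intro h0
          rw [x0, h0] at n0
          simp at n0
        rw [x2, x1, hE2, x0]
        have a1 : 1 / q ^ 2 / (-1 / q) ^ 2 = 1 := by
          field_simp
        have a2 : -1 / q / (-(1 + q) / q ^ 2) = 1 - 1 / (1 + q) := by
          field_simp
          ring
        have a3 : blochWigner (-1 / q) = -blochWigner (-q) := by
          rw [← SWpath_inv]
          congr 1
          field_simp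
        have a4 : blochWigner (1 / (1 + q)) = blochWigner (-q) := by
          rw [one_div, SWpath_inv, show 1 + q = 1 - -q by ring, SWpath_one_sub, neg_neg]
        rw [a1, a2, zero_div, FanSum_one, FanSum_zero, SWpath_one_sub, a3, a4]
        ring
      · have n0 : x k ≠ 0 := hxne k (by omega) (fun hn => by
          rcases Nat.eq_zero_or_pos k with h0 | h0
          · exact absurd ⟨hn, h0⟩ hl
          · exact h0) (fun _ => by omega)
        have n1 : x (k + 1) ≠ 0 := hxne (k + 1) (by omega) (fun _ => by omega) (fun _ => by omega)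
        have n2 : x (k + 2) ≠ 0 := hxne (k + 2) (by omega) (fun _ => by omega) (fun hn => by
          have : k + 2 ≠ 2 * p := fun h0 => hr ⟨hn, h0⟩
          omega)
        exact FanSum_rel q (q ^ k * e) (x k) (x (k + 1)) (x (k + 2)) hq0
          (mul_ne_zero (pow_ne_zero _ hq0) he0) (hxs k) (hxs (k + 1)) (hxd k) n0 n1 n2
  have hmain : ∀ j, j + 2 ≤ 2 * p → ∑ k ∈ Finset.Icc 1 (j + 1), blochWigner (zK w β k) =
      (blochWigner (x (j + 2)) - blochWigner (x (j + 2) / x (j + 1))) +
        (blochWigner (x 1 / x 0) - blochWigner (x 1)) := by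
    intro j
    induction j with
    | zero =>
      intro hj
      rw [Finset.Icc_self, Finset.sum_singleton, hrel 0 hj]
      ring
    | succ j ih =>
      intro hj
      rw [Finset.sum_Icc_succ_top (by omega), ih (by omega), hrel (j + 1) hj]
      ring
  have hsum := hmain P (by omega)
  rw [show 2 * p - 1 = P + 1 by omega, hsum, add_comm (slotD w yl)]
  congr 1
  · -- the right slot
    rcases yr with _ | y
    · have hb := hend 1 (by
        show 1 = exp (I * 0)
        simp)
      rw [mul_one] at hb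
      have x2 : x (P + 2) = 0 := by
        show (q ^ (P + 2) * e - 1) / (q - 1) = 0
        rw [← hP, hb]
        simp
      rw [x2, zero_div, FanSum_zero]
      show (0 : ℝ) - 0 = 0
      ring
    · obtain ⟨m1, m2, m3, m4, m5, -⟩ := FanSum_e p w y yl (reg_swap p w yl (some y) h)
      have hb := hend _ rfl
      rw [m5] at hb
      rw [← hq] at m1 m2 m4 hb
      set Y := exp (2 * Real.pi * I * y) with hY
      have hY0 : Y ≠ 0 := Complex.exp_ne_zero _
      have hE : q ^ (P + 2) * e = (Y - q) / (Y * q - 1) := by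
        rw [← hP]
        field_simp at hb ⊢
        linear_combination hb
      have x2 : x (P + 2) = (1 + Y) / (1 - Y * q) := by
        show (q ^ (P + 2) * e - 1) / (q - 1) = _
        rw [hE]
        have m2' : 1 - Y * q ≠ 0 := fun h0 => m2 (by linear_combination -h0)
        field_simp
        ring
      have x1 : x (P + 1) = Y * (1 + q) / (q * (1 - Y * q)) := by
        have h1 := hxs (P + 1)
        rw [x2] at h1
        have m2' : 1 - Y * q ≠ 0 := fun h0 => m2 (by linear_combination -h0)
        field_simp at h1 ⊢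
        linear_combination -h1
      have m2' : 1 - Y * q ≠ 0 := fun h0 => m2 (by linear_combination -h0)
      have b1 : x (P + 2) = (1 - Y * ((1 + q) / (1 + Y)))⁻¹ := by
        rw [x2]
        have : 1 - Y * ((1 + q) / (1 + Y)) = (1 - Y * q) / (1 + Y) := by
          field_simp
          ring
        rw [this, inv_div]
      have b2 : x (P + 2) / x (P + 1) = (Y * ((1 + q) / (q * (1 + Y))))⁻¹ := by
        rw [x2, x1]
        field_simp
      rw [b2, b1, SWpath_inv, SWpath_inv, SWpath_one_sub]
      show - -blochWigner (Y * ((1 + q) / (1 + Y))) - -blochWigner (Y * ((1 + q) / (q * (1 + Y)))) =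
        blochWigner (Y * ((1 + q) / (1 + Y))) + blochWigner (Y * ((1 + q) / (q * (1 + Y))))
      ring
  · -- the left slot
    rcases yl with _ | y
    · have hb : e = 1 := by
        rw [he, hβ]
        show exp (I * 0) = 1
        simp
      have x0 : x 0 = 0 := by
        show (q ^ 0 * e - 1) / (q - 1) = 0
        rw [hb]
        simp
      have x1 : x 1 = 1 := by
        rw [show (1 : ℕ) = 0 + 1 from rfl, hxs, x0]
        ring
      rw [x1, x0, div_zero, FanSum_zero, FanSum_one]
      show (0 : ℝ) - 0 = 0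
      ring
    · obtain ⟨m1, m2, m3, m4, m5, -⟩ := FanSum_e p w y yr h
      rw [← hβ, ← he, ← hq] at m5
      rw [← hq] at m1 m2 m4
      set Y := exp (2 * Real.pi * I * y) with hY
      have hY0 : Y ≠ 0 := Complex.exp_ne_zero _
      have x0 : x 0 = (1 + Y) / (Y - q) := by
        show (q ^ 0 * e - 1) / (q - 1) = _
        rw [m5, pow_zero, one_mul]
        field_simp
        ring
      have x1 : x 1 = Y * (1 + q) / (Y - q) := by
        rw [show (1 : ℕ) = 0 + 1 from rfl, hxs, x0]
        field_simp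
        ring
      have b1 : x 1 / x 0 = Y * ((1 + q) / (1 + Y)) := by
        rw [x1, x0]
        field_simp
      have b2 : x 1 = (1 - (Y * ((1 + q) / (q * (1 + Y))))⁻¹)⁻¹ := by
        have : 1 - (Y * ((1 + q) / (q * (1 + Y))))⁻¹ = (Y - q) / (Y * (1 + q)) := by
          field_simp
          ring
        rw [this, inv_div, x1]
      rw [b1, b2, SWpath_inv, SWpath_one_sub, SWpath_inv]
      show blochWigner (Y * ((1 + q) / (1 + Y))) - - - -blochWigner (Y * ((1 + q) / (q * (1 + Y)))) =
        blochWigner (Y * ((1 + q) / (1 + Y))) + blochWigner (Y * ((1 + q) / (q * (1 + Y))))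
      ring

theorem slotD_eq (p : ℕ) (w y : ℂ) (yr : Option ℂ) (h : Reg p w (some y) yr) :
    2 * slotD w (some y) = blochWigner (exp (2 * Real.pi * I * (y - w))) +
      blochWigner (exp (2 * Real.pi * I * (y + w))) -
      2 * blochWigner (-exp (2 * Real.pi * I * y)) - blochWigner (Uo w y) := by
  obtain ⟨m1, m2, m3, m4, -, m6⟩ := FanSum_e p w y yr h
  have e1 : exp (2 * Real.pi * I * (y - w)) =
      exp (2 * Real.pi * I * y) / exp (2 * Real.pi * I * w) := by
    rw [← Complex.exp_sub]
    congr 1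
    ring
  have e2 : exp (2 * Real.pi * I * (y + w)) =
      exp (2 * Real.pi * I * y) * exp (2 * Real.pi * I * w) := by
    rw [← Complex.exp_add]
    congr 1
    ring
  obtain ⟨h1, h2⟩ := bw_quad (exp (2 * Real.pi * I * y)) (exp (2 * Real.pi * I * w))
    (Complex.exp_ne_zero _) (Complex.exp_ne_zero _) m3 m4 (sub_ne_zero.1 m1) (sub_ne_zero.1 m2)
  rw [e1, e2, m6]
  unfold slotD
  linarith

end Pool.Agent.H63.VC4
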