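import Pool.Agent.H63.VC4.Defs
import Pool.Agent.H63.VC3.KAn
import Pool.Agent.H63.VC3.Om

/-! # Analyticity of the kernels -/

namespace Pool.Agent.H63.VC4

open Pool.Agent.H63.VC Pool.Agent.H63.VC3 Complex
open scoped BigOperators

/-- The kernel is analytic. -/
def okS (v : ℂ) (u : Option ℂ) : Prop :=
  ∀ y ∈ u, 0 < (y - v).re ∧ (y - v).re < 1 ∧ 0 < (y + v).re ∧ (y + v).re < 1

theorem KAnN_Qo_neg (n M : ℕ) (u : Option ℂ) (v : ℂ) : Qo n M u (-v) = Qo n M u v := by
  cases u with
  | none => simp only [Qo, KAn_Bn_neg]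
  | some y =>
    simp only [Qo]
    congr 1
    rw [show y - -v = y + v by ring, show y + -v = y - v by ring]; ring

theorem KAnN_Qo_differentiable_v (n M : ℕ) (hM : 0 < M) (u : Option ℂ) (v : ℂ) (h : okS v u) :
    DifferentiableAt ℂ (fun v => Qo n M u v) v := by
  cases u with
  | none =>
    simp only [Qo]
    have hC := (KAn_Bn_differentiable n M) v
    fun_prop
  | some y =>
    obtain ⟨h1, h2, h3, h4⟩ := h y rfl
    have ha := KAn_arg hM h1 h2
    have hb := KAn_arg hM h3 h4
    have hA : DifferentiableAt ℂ (fun v : ℂ => LL M (M * (y - v) - 1 / 2)) v :=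
      DifferentiableAt.comp (f := fun v : ℂ => (M : ℂ) * (y - v) - 1 / 2) (g := LL M) v
        (LL_differentiableAt M hM _ ha.1 ha.2) (by fun_prop)
    have hB : DifferentiableAt ℂ (fun v : ℂ => LL M (M * (y + v) - 1 / 2)) v :=
      DifferentiableAt.comp (f := fun v : ℂ => (M : ℂ) * (y + v) - 1 / 2) (g := LL M) v
        (LL_differentiableAt M hM _ hb.1 hb.2) (by fun_prop)
    simp only [Qo]
    fun_prop

theorem KAnN_Qo_differentiable_y (n M : ℕ) (hM : 0 < M) (y v : ℂ) (h : okS v (some y)) :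
    DifferentiableAt ℂ (fun y => Qo n M (some y) v) y := by
  obtain ⟨h1, h2, h3, h4⟩ := h y rfl
  have ha := KAn_arg hM h1 h2
  have hb := KAn_arg hM h3 h4
  have hA : DifferentiableAt ℂ (fun y : ℂ => LL M (M * (y - v) - 1 / 2)) y :=
    DifferentiableAt.comp (f := fun y : ℂ => (M : ℂ) * (y - v) - 1 / 2) (g := LL M) y
      (LL_differentiableAt M hM _ ha.1 ha.2) (by fun_prop)
  have hB : DifferentiableAt ℂ (fun y : ℂ => LL M (M * (y + v) - 1 / 2)) y :=
    DifferentiableAt.comp (f := fun y : ℂ => (M : ℂ) * (y + v) - 1 / 2) (g := LL M) y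
      (LL_differentiableAt M hM _ hb.1 hb.2) (by fun_prop)
  simp only [Qo]
  fun_prop

theorem KAnN_Qo_continuousAt (n M : ℕ) (hM : 0 < M) (y v : ℂ) (h : okS v (some y)) :
    ContinuousAt (fun z : ℂ × ℂ => Qo n M (some z.1) z.2) (y, v) := by
  obtain ⟨h1, h2, h3, h4⟩ := h y rfl
  have ha := KAn_arg hM h1 h2
  have hb := KAn_arg hM h3 h4
  have hA : ContinuousAt (fun z : ℂ × ℂ => LL M (M * (z.1 - z.2) - 1 / 2)) (y, v) := by
    have h := (LL_differentiableAt M hM _ ha.1 ha.2).continuousAt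
    have h' : ContinuousAt (fun z : ℂ × ℂ => (M : ℂ) * (z.1 - z.2) - 1 / 2) (y, v) := by fun_prop
    exact ContinuousAt.comp (f := fun z : ℂ × ℂ => (M : ℂ) * (z.1 - z.2) - 1 / 2)
      (g := LL M) (x := (y, v)) h h'
  have hB : ContinuousAt (fun z : ℂ × ℂ => LL M (M * (z.1 + z.2) - 1 / 2)) (y, v) := by
    have h := (LL_differentiableAt M hM _ hb.1 hb.2).continuousAt
    have h' : ContinuousAt (fun z : ℂ × ℂ => (M : ℂ) * (z.1 + z.2) - 1 / 2) (y, v) := by fun_prop
    exact ContinuousAt.comp (f := fun z : ℂ × ℂ => (M : ℂ) * (z.1 + z.2) - 1 / 2)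
      (g := LL M) (x := (y, v)) h h'
  simp only [Qo]
  fun_prop

theorem KR_comm (r : ℤ) (n M : ℕ) (u u' : Option ℂ) (v : ℂ) :
    KR r n M u u' v = KR r n M u' u v := by
  unfold KR
  ring

theorem KR_end (r : ℤ) (n M : ℕ) (hM : 0 < M) (y v : ℂ) :
    KR r n M none (some y) v = KK r n M y v := by
  have hM' : (M : ℂ) ≠ 0 := by exact_mod_cast hM.ne'
  unfold KR KK
  simp only [Qo]
  field_simp

theorem KR_odd (r : ℤ) (n M : ℕ) (u u' : Option ℂ) (v : ℂ) :
    KR r n M u u' (-v) = -KR r n M u u' v := by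
  unfold KR
  rw [KAnN_Qo_neg, KAnN_Qo_neg]
  have h1 : 2 * Complex.sin (2 * Real.pi * -v) = -(2 * Complex.sin (2 * Real.pi * v)) := by
    rw [show 2 * (Real.pi : ℂ) * -v = -(2 * Real.pi * v) by ring, Complex.sin_neg]; ring
  have h2 : Complex.exp (2 * Real.pi * I * r * M * (-v) ^ 2) =
      Complex.exp (2 * Real.pi * I * r * M * v ^ 2) := by ring_nf
  rw [h1, h2]; ring

theorem KR_differentiable_v (r : ℤ) (n M : ℕ) (hM : 0 < M) (u u' : Option ℂ) (v : ℂ)
    (h : okS v u) (h' : okS v u') : DifferentiableAt ℂ (fun v => KR r n M u u' v) v := by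
  have h1 := KAnN_Qo_differentiable_v n M hM u v h
  have h2 := KAnN_Qo_differentiable_v n M hM u' v h'
  unfold KR
  fun_prop

theorem KR_continuousAt (r : ℤ) (n M : ℕ) (hM : 0 < M) (u u' : Option ℂ) (v : ℂ)
    (h : okS v u) (h' : okS v u') : ContinuousAt (fun v => KR r n M u u' v) v :=
  (KR_differentiable_v r n M hM u u' v h h').continuousAt

/-- The dependence of the slots on one of the variables. -/
theorem KAnN_ext_update {m : ℕ} (y : Fin m → ℂ) (j : Fin m) (k : Fin (m + 2)) :
    (∀ w, ext (Function.update y j w) k = ext y k) ∨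
      (k = j.castSucc.succ ∧ ∀ w, ext (Function.update y j w) k = some w) := by
  refine Fin.cases ?_ (fun i => ?_) k
  · left; intro w; rfl
  · refine Fin.lastCases ?_ (fun i => ?_) i
    · left; intro w; rw [ext_last_succ, ext_last_succ]
    · by_cases hij : i = j
      · right
        subst hij
        refine ⟨rfl, fun w => ?_⟩
        rw [ext_mid, Function.update_self]
      · left
        intro w
        rw [ext_mid, ext_mid, Function.update_of_ne hij]

theorem KAnN_Qo_update {m : ℕ} (n M : ℕ) (hM : 0 < M) (y : Fin m → ℂ) (j : Fin m)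
    (k : Fin (m + 2)) (v : ℂ) (h : k = j.castSucc.succ → okS v (some (y j))) :
    DifferentiableAt ℂ (fun w => Qo n M (ext (Function.update y j w) k) v) (y j) := by
  rcases KAnN_ext_update y j k with h1 | ⟨h1, h2⟩
  · simp only [h1]
    exact differentiableAt_const _
  · simp only [h2]
    exact KAnN_Qo_differentiable_y n M hM (y j) v (h h1)

theorem GI_update_differentiable {m : ℕ} (r : Fin (m + 1) → ℤ) (n g M : ℕ) (hg : 1 ≤ g)
    (hgn : g ≤ n - 1) (hM : 1000 * (n + 1) ≤ M) (y : Fin m → ℂ) (v : Fin (m + 1) → ℂ) (j : Fin m)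
    (hy : 1 / 10 ≤ (y j).re ∧ (y j).re ≤ 4 / 10)
    (h1 : okS (v j.castSucc) (some (y j))) (h2 : okS (v j.succ) (some (y j))) :
    DifferentiableAt ℂ (fun w => GI r n g M (Function.update y j w) v) (y j) := by
  have hM0 : 0 < M := by omega
  unfold GI
  refine DifferentiableAt.mul ?_ ?_
  · refine DifferentiableAt.fun_finsetProd fun i _ => ?_
    by_cases hij : i = j
    · subst hij
      simp only [Function.update_self]
      exact Cc_differentiableAt n g M hg hgn hM _ hy.1 hy.2
    · simp only [Function.update_of_ne hij]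
      exact differentiableAt_const _
  · refine DifferentiableAt.fun_finsetProd fun i _ => ?_
    have a1 : DifferentiableAt ℂ
        (fun w => Qo n M (ext (Function.update y j w) i.castSucc) (v i)) (y j) := by
      refine KAnN_Qo_update n M hM0 y j _ _ fun h => ?_
      have hi : i = j.succ := by
        apply Fin.castSucc_injective
        rw [h, Fin.succ_castSucc]
      rw [hi]; exact h2
    have a2 : DifferentiableAt ℂ
        (fun w => Qo n M (ext (Function.update y j w) i.succ) (v i)) (y j) := by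
      refine KAnN_Qo_update n M hM0 y j _ _ fun h => ?_
      have hi : i = j.castSucc := Fin.succ_injective _ h
      rw [hi]; exact h1
    unfold KR
    fun_prop

theorem KAnN_Qo_ext_continuousAt {m : ℕ} (n M : ℕ) (hM : 0 < M) (y : Fin m → ℂ)
    (v : Fin (m + 1) → ℂ) (i : Fin (m + 1)) (k : Fin (m + 2)) (h : okS (v i) (ext y k)) :
    ContinuousAt (fun z : (Fin m → ℂ) × (Fin (m + 1) → ℂ) => Qo n M (ext z.1 k) (z.2 i))
      (y, v) := by
  have hnone : ContinuousAt (fun z : (Fin m → ℂ) × (Fin (m + 1) → ℂ) => Qo n M none (z.2 i))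
      (y, v) := by
    simp only [Qo]
    have hB : Continuous (Bn n M) := (KAn_Bn_differentiable n M).continuous
    have : Continuous (fun z : (Fin m → ℂ) × (Fin (m + 1) → ℂ) => Bn n M (z.2 i) / M) := by
      fun_prop
    exact this.continuousAt
  revert h
  refine Fin.cases ?_ (fun a => ?_) k
  · intro _
    simp only [ext_zero]
    exact hnone
  · refine Fin.lastCases ?_ (fun a => ?_) a
    · intro _
      simp only [ext_last_succ]
      exact hnone
    · intro h
      rw [ext_mid] at h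
      simp only [ext_mid]
      have h1 := KAnN_Qo_continuousAt n M hM (y a) (v i) h
      have h2 : ContinuousAt (fun z : (Fin m → ℂ) × (Fin (m + 1) → ℂ) => (z.1 a, z.2 i))
          (y, v) := by fun_prop
      exact ContinuousAt.comp (f := fun z : (Fin m → ℂ) × (Fin (m + 1) → ℂ) => (z.1 a, z.2 i))
        (g := fun z : ℂ × ℂ => Qo n M (some z.1) z.2) (x := (y, v)) h1 h2

theorem GI_continuousAt {m : ℕ} (r : Fin (m + 1) → ℤ) (n g M : ℕ) (hg : 1 ≤ g)
    (hgn : g ≤ n - 1) (hM : 1000 * (n + 1) ≤ M) (y : Fin m → ℂ) (v : Fin (m + 1) → ℂ)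
    (hy : ∀ j, 1 / 10 ≤ (y j).re ∧ (y j).re ≤ 4 / 10)
    (hok : ∀ i : Fin (m + 1), okS (v i) (ext y i.castSucc) ∧ okS (v i) (ext y i.succ))
    (hw : ∀ i, ww n M (v i) ≠ 1) :
    ContinuousAt (fun z : (Fin m → ℂ) × (Fin (m + 1) → ℂ) => GI r n g M z.1 z.2) (y, v) := by
  have hM0 : 0 < M := by omega
  unfold GI
  refine ContinuousAt.mul ?_ ?_
  · refine tendsto_finsetProd _ fun i _ => ?_
    have h1 := (Cc_differentiableAt n g M hg hgn hM (y i) (hy i).1 (hy i).2).continuousAt
    have h2 : ContinuousAt (fun z : (Fin m → ℂ) × (Fin (m + 1) → ℂ) => z.1 i) (y, v) := by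
      fun_prop
    exact ContinuousAt.comp (f := fun z : (Fin m → ℂ) × (Fin (m + 1) → ℂ) => z.1 i)
      (g := Cc n g M) (x := (y, v)) h1 h2
  · refine tendsto_finsetProd _ fun i _ => ?_
    have h1 := KAnN_Qo_ext_continuousAt n M hM0 y v i i.castSucc (hok i).1
    have h2 := KAnN_Qo_ext_continuousAt n M hM0 y v i i.succ (hok i).2
    have h3 : ContinuousAt (fun z : (Fin m → ℂ) × (Fin (m + 1) → ℂ) => om n M (z.2 i)) (y, v) :=
      ContinuousAt.comp (f := fun z : (Fin m → ℂ) × (Fin (m + 1) → ℂ) => z.2 i)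
        (g := om n M) (x := (y, v)) (om_continuousAt n M (v i) (hw i)) (by fun_prop)
    have h4 : ContinuousAt (fun z : (Fin m → ℂ) × (Fin (m + 1) → ℂ) =>
        KR (r i) n M (ext z.1 i.castSucc) (ext z.1 i.succ) (z.2 i) * om n M (z.2 i)) (y, v) := by
      unfold KR
      fun_prop
    exact h4

end Pool.Agent.H63.VC4
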