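import Pool.Agent.H63.VC3.WBound
import Pool.Agent.H63.VC4.Defs

/-! # The size of the terms -/

namespace Pool.Agent.H63.VC4

open Pool.Agent.H63.VC Pool.Agent.H63.VC3 Complex
open scoped BigOperators

theorem W2B_eq (n M t t' l : ℕ) (hn : 2 ≤ n) (h1 : t ≤ t') (h2 : t' + n ≤ M + 1)
    (h3 : M + 1 ≤ t + t' + n) (h4 : M + 1 - n - t' ≤ l) (h5 : l ≤ t) :
    W2 n M t t' l = M / (S M (t' - l) * S M (l - (M + 1 - n - t')) * S M (t - l) *
      (if t + l + n ≤ M then S M (t + l + n - 1) else M * S M (t + l + n - 1 - M))) := by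
  have hM0 : (M : ℝ) ≠ 0 := by
    have : 0 < M := by omega
    positivity
  obtain ⟨j, hj⟩ : ∃ j, j = M + 1 - n - t' := ⟨_, rfl⟩
  unfold W2 Wt
  rw [← hj]
  have e1 : t - j + (l - j) + (n + 2 * j) = t + l + n := by omega
  have e2 : l - j + (n + 2 * j) - 2 = M - 1 - (t' - l) := by omega
  have e3 : t - j - (l - j) = t - l := by omega
  rw [e1, e2, e3]
  have hmul := S_mul (M := M) (k := t' - l) (by omega)
  have p1 : 0 < S M (t' - l) := S_pos (by omega)
  have p2 : 0 < S M (t - j) := S_pos (by omega)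
  have p3 : 0 < S M (l - j) := S_pos (by omega)
  have p4 : 0 < S M (t - l) := S_pos (by omega)
  have hS : S M (M - 1 - (t' - l)) = M / S M (t' - l) := by
    rw [← hmul]
    field_simp
  rw [hS]
  split_ifs with hc
  · have p5 : 0 < S M (t + l + n - 1) := S_pos (by omega)
    field_simp
  · have p5 : 0 < S M (t + l + n - 1 - M) := S_pos (by omega)
    field_simp

theorem W2_bound (n : ℕ) (hn : 2 ≤ n) : ∃ C : ℝ, 0 < C ∧ ∃ D : ℕ, ∀ M t t' l : ℕ, 2 ≤ M →
    t ≤ t' → t' + n ≤ M + 1 → M + 1 ≤ t + t' + n → M + 1 - n - t' ≤ l → l ≤ t →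
    0 ≤ W2 n M t t' l ∧ S M t ^ 2 * S M t' ^ 2 * W2 n M t t' l ≤
      C * (M : ℝ) ^ D * Real.exp (M * (gg (t / M) (l / M) + gg (t' / M) (l / M))) := by
  obtain ⟨K, hK, hb⟩ := WBound_aux n
  obtain ⟨D, hD⟩ := exists_nat_ge (10 * K + 1)
  refine ⟨1, one_pos, D, fun M t t' l hM ht ht' htt hl hlt => ?_⟩
  obtain ⟨h1, h2⟩ := hb M hM
  have hM' : (2 : ℝ) ≤ M := by exact_mod_cast hM
  have hMp : (0 : ℝ) < M := by linarith
  have hM0 : (M : ℝ) ≠ 0 := hMp.ne'
  have hL0 : 0 ≤ Real.log M := Real.log_natCast_nonneg M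
  have pt : 0 < S M t := S_pos (by omega)
  have pt' : 0 < S M t' := S_pos (by omega)
  have p1 : 0 < S M (t' - l) := S_pos (by omega)
  have p2 : 0 < S M (l - (M + 1 - n - t')) := S_pos (by omega)
  have p3 : 0 < S M (t - l) := S_pos (by omega)
  -- estimates
  have a1 := abs_le.1 (h1 t (by omega))
  have a2 := abs_le.1 (h1 t' (by omega))
  have a3 := abs_le.1 (h1 (t' - l) (by omega))
  have a4 := abs_le.1 (h1 (l - (M + 1 - n - t')) (by omega))
  have a5 := abs_le.1 (h1 (t - l) (by omega))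
  have b1 := abs_le.1 (h2 ((t : ℝ) / M + l / M) (n - 1) (by omega))
  have b2 := abs_le.1 (h2 ((t' : ℝ) / M + l / M) (n - 1) (by omega))
  have c1 : ((t' - l : ℕ) : ℝ) / M = t' / M - l / M := by
    rw [Nat.cast_sub (by omega)]
    ring
  have c2 : ((t - l : ℕ) : ℝ) / M = t / M - l / M := by
    rw [Nat.cast_sub hlt]
    ring
  have c3 : Fr (((l - (M + 1 - n - t') : ℕ) : ℝ) / M) =
      Fr (t' / M + l / M + ((n - 1 : ℕ) : ℝ) / M) := by
    rw [← Fr_add_one]
    congr 1
    have : ((l - (M + 1 - n - t') : ℕ) : ℝ) = t' + l + ((n - 1 : ℕ) : ℝ) - M := by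
      have h3 : l - (M + 1 - n - t') + M = t' + l + (n - 1) := by omega
      have h4 : ((l - (M + 1 - n - t') + M : ℕ) : ℝ) = ((t' + l + (n - 1) : ℕ) : ℝ) := by rw [h3]
      rw [Nat.cast_add, Nat.cast_add, Nat.cast_add] at h4
      linarith
    rw [this]
    field_simp
    ring
  rw [c1] at a3
  rw [c3] at a4
  rw [c2] at a5
  have hg : (M : ℝ) * (gg (t / M) (l / M) + gg (t' / M) (l / M)) =
      2 * (M * Fr (t / M)) - M * Fr (t / M - l / M) - M * Fr (t / M + l / M) +
      (2 * (M * Fr (t' / M)) - M * Fr (t' / M - l / M) - M * Fr (t' / M + l / M)) := by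
    rw [gg, gg]
    ring
  rw [W2B_eq n M t t' l hn ht ht' htt hl hlt]
  by_cases hc : t + l + n ≤ M
  · have p4 : 0 < S M (t + l + n - 1) := S_pos (by omega)
    have a6 := abs_le.1 (h1 (t + l + n - 1) (by omega))
    have c4 : ((t + l + n - 1 : ℕ) : ℝ) / M = t / M + l / M + ((n - 1 : ℕ) : ℝ) / M := by
      have : t + l + n - 1 = t + l + (n - 1) := by omega
      rw [this]
      push_cast
      ring
    rw [c4] at a6
    rw [if_pos hc]
    set W : ℝ := M / (S M (t' - l) * S M (l - (M + 1 - n - t')) * S M (t - l) *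
      S M (t + l + n - 1)) with hW
    have pos : 0 < W := by rw [hW]; positivity
    refine ⟨pos.le, WBound_exp hM' (mul_pos (by positivity) pos) rfl (K := 10 * K + 1) ?_ hD⟩
    have hlog : Real.log (S M t ^ 2 * S M t' ^ 2 * W) = 2 * Real.log (S M t) +
        2 * Real.log (S M t') + (Real.log M - (Real.log (S M (t' - l)) +
        Real.log (S M (l - (M + 1 - n - t'))) + Real.log (S M (t - l)) +
        Real.log (S M (t + l + n - 1)))) := by
      rw [Real.log_mul (by positivity) pos.ne', Real.log_mul (by positivity) (by positivity),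
        Real.log_pow, Real.log_pow, hW, Real.log_div (by positivity) (by positivity),
        Real.log_mul (by positivity) p4.ne', Real.log_mul (by positivity) p3.ne',
        Real.log_mul p1.ne' p2.ne']
      push_cast
      ring
    rw [hlog, hg]
    linarith [a1.1, a1.2, a2.1, a2.2, a3.1, a3.2, a4.1, a4.2, a5.1, a5.2, a6.1, a6.2, b1.1, b1.2,
      b2.1, b2.2]
  · have p4 : 0 < S M (t + l + n - 1 - M) := S_pos (by omega)
    have a6 := abs_le.1 (h1 (t + l + n - 1 - M) (by omega))
    have c4 : Fr (((t + l + n - 1 - M : ℕ) : ℝ) / M) =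
        Fr (t / M + l / M + ((n - 1 : ℕ) : ℝ) / M) := by
      rw [← Fr_add_one]
      congr 1
      have : ((t + l + n - 1 - M : ℕ) : ℝ) = t + l + ((n - 1 : ℕ) : ℝ) - M := by
        have h3 : t + l + n - 1 - M + M = t + l + (n - 1) := by omega
        have h4 : ((t + l + n - 1 - M + M : ℕ) : ℝ) = ((t + l + (n - 1) : ℕ) : ℝ) := by rw [h3]
        rw [Nat.cast_add, Nat.cast_add, Nat.cast_add] at h4
        linarith
      rw [this]
      field_simp
      ring
    rw [c4] at a6
    rw [if_neg hc]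
    set W : ℝ := M / (S M (t' - l) * S M (l - (M + 1 - n - t')) * S M (t - l) *
      (M * S M (t + l + n - 1 - M))) with hW
    have pos : 0 < W := by rw [hW]; positivity
    refine ⟨pos.le, WBound_exp hM' (mul_pos (by positivity) pos) rfl (K := 10 * K + 1) ?_ hD⟩
    have hlog : Real.log (S M t ^ 2 * S M t' ^ 2 * W) = 2 * Real.log (S M t) +
        2 * Real.log (S M t') + (Real.log M - (Real.log (S M (t' - l)) +
        Real.log (S M (l - (M + 1 - n - t'))) + Real.log (S M (t - l)) +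
        (Real.log M + Real.log (S M (t + l + n - 1 - M))))) := by
      rw [Real.log_mul (by positivity) pos.ne', Real.log_mul (by positivity) (by positivity),
        Real.log_pow, Real.log_pow, hW, Real.log_div (by positivity) (by positivity),
        Real.log_mul (by positivity) (by positivity), Real.log_mul (by positivity) p3.ne',
        Real.log_mul p1.ne' p2.ne', Real.log_mul hM0 p4.ne']
      push_cast
      ring
    rw [hlog, hg]
    linarith [a1.1, a1.2, a2.1, a2.2, a3.1, a3.2, a4.1, a4.2, a5.1, a5.2, a6.1, a6.2, b1.1, b1.2,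
      b2.1, b2.2]

end Pool.Agent.H63.VC4
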