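import Pool.Agent.H63.VC4.RTerms
import Pool.Agent.H63.VC4.W2B
import Pool.Agent.H63.VC3.StepNN

/-! # Bounds of the entries -/

namespace Pool.Agent.H63.VC4

open Pool.Agent.H63.VC Pool.Agent.H63.VC3 Complex
open scoped BigOperators

theorem RSB_symm (r : ℤ) (n M t t' : ℕ) : RS r n M t t' = RS r n M t' t := by
  unfold RS
  rw [min_comm, max_comm, add_comm t t']

theorem RSo_symm (r : ℤ) (n M : ℕ) (u u' : Option ℕ) : RSo r n M u u' = RSo r n M u' u := by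
  unfold RSo
  exact RSB_symm r n M _ _

/-- The phase has modulus one. -/
theorem RSB_c1_ne (n M : ℕ) : c1 n M ≠ 0 := by
  unfold c1
  simp [Complex.exp_ne_zero]

theorem RSo_end (r : ℤ) (n M t : ℕ) (ht : t + n ≤ M + 1) :
    RSo r n M none (some t) = Th0 n M * NN r n M t / S M t := by
  unfold RSo RS
  simp only [Option.getD_none, Option.getD_some]
  rw [if_pos (by omega), min_eq_right (by omega), max_eq_left (by omega), Nat.sub_self]
  unfold RG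
  rw [Nat.mul_zero, Nat.add_zero, Nat.sub_zero, div_self (RSB_c1_ne n M), one_zpow, mul_one]

theorem RSB_Th0 (n M : ℕ) : ‖Th0 n M‖ = 1 := by
  unfold Th0
  simp

/-- The bound of a sum of terms. -/
theorem RSB_sum (σ C0 : ℝ) (hσ : 0 ≤ σ) (hC0 : 0 < C0) (D0 : ℕ) (r : ℤ) (M : ℕ)
    (hM : 2 ≤ M) (τ : ℕ → ℂ) (W G : ℕ → ℝ) (B : ℝ)
    (s : Finset ℕ) (hs : s.card ≤ M)
    (hW : ∀ l ∈ s, σ * W l ≤ C0 * (M : ℝ) ^ D0 * Real.exp (M * G l))
    (ht : ∀ l ∈ s, ‖τ l‖ ≤ 4 * (|(r : ℝ)| * (M : ℝ) + (M : ℝ) ^ 2 + 1) * W l)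
    (hB : ∀ l ∈ s, G l ≤ B) :
    σ * ‖∑ l ∈ s, τ l‖ ≤ 4 * (|(r : ℝ)| + 2) * C0 * (M : ℝ) ^ (D0 + 3) * Real.exp (M * B) := by
  have hM1 : (1 : ℝ) ≤ M := by exact_mod_cast (by omega : 1 ≤ M)
  have hcard : (s.card : ℝ) ≤ M := by exact_mod_cast hs
  have hr : 0 ≤ |(r : ℝ)| := abs_nonneg _
  have h1 : |(r : ℝ)| * (M : ℝ) + (M : ℝ) ^ 2 + 1 ≤ (|(r : ℝ)| + 2) * (M : ℝ) ^ 2 := by
    have h2 : (M : ℝ) ≤ (M : ℝ) ^ 2 := by nlinarith
    have h3 : (1 : ℝ) ≤ (M : ℝ) ^ 2 := by nlinarith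
    nlinarith [mul_le_mul_of_nonneg_left h2 hr]
  have hterm : ∀ l ∈ s, σ * ‖τ l‖ ≤
      4 * (|(r : ℝ)| + 2) * C0 * (M : ℝ) ^ (D0 + 2) * Real.exp (M * B) := by
    intro l hl
    have h4 : Real.exp (M * G l) ≤ Real.exp (M * B) := by
      apply Real.exp_le_exp.2
      exact mul_le_mul_of_nonneg_left (hB l hl) (by positivity)
    have h5 : σ * W l ≤ C0 * (M : ℝ) ^ D0 * Real.exp (M * B) :=
      (hW l hl).trans (mul_le_mul_of_nonneg_left h4 (by positivity))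
    calc σ * ‖τ l‖ ≤ σ * (4 * (|(r : ℝ)| * (M : ℝ) + (M : ℝ) ^ 2 + 1) * W l) :=
          mul_le_mul_of_nonneg_left (ht l hl) hσ
      _ = 4 * (|(r : ℝ)| * (M : ℝ) + (M : ℝ) ^ 2 + 1) * (σ * W l) := by ring
      _ ≤ 4 * (|(r : ℝ)| * (M : ℝ) + (M : ℝ) ^ 2 + 1) *
            (C0 * (M : ℝ) ^ D0 * Real.exp (M * B)) :=
          mul_le_mul_of_nonneg_left h5 (by positivity)
      _ ≤ 4 * ((|(r : ℝ)| + 2) * (M : ℝ) ^ 2) * (C0 * (M : ℝ) ^ D0 * Real.exp (M * B)) := by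
          refine mul_le_mul_of_nonneg_right ?_ (by positivity)
          linarith
      _ = _ := by rw [pow_add]; ring
  calc σ * ‖∑ l ∈ s, τ l‖ ≤ σ * ∑ l ∈ s, ‖τ l‖ :=
        mul_le_mul_of_nonneg_left (norm_sum_le _ _) hσ
    _ = ∑ l ∈ s, σ * ‖τ l‖ := by rw [Finset.mul_sum]
    _ ≤ ∑ _l ∈ s, 4 * (|(r : ℝ)| + 2) * C0 * (M : ℝ) ^ (D0 + 2) * Real.exp (M * B) :=
        Finset.sum_le_sum hterm
    _ = s.card * (4 * (|(r : ℝ)| + 2) * C0 * (M : ℝ) ^ (D0 + 2) * Real.exp (M * B)) := by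
        rw [Finset.sum_const, nsmul_eq_mul]
    _ ≤ M * (4 * (|(r : ℝ)| + 2) * C0 * (M : ℝ) ^ (D0 + 2) * Real.exp (M * B)) :=
        mul_le_mul_of_nonneg_right hcard (by positivity)
    _ = _ := by rw [pow_succ _ (D0 + 2)]; ring

/-- The growth rate of one slot. -/
theorem RSB_gg (M t l : ℕ) (hM : 2 ≤ M) (hl : l ≤ t) (ht : t ≤ M) :
    gg (t / M) (l / M) ≤ eo M (some t) := by
  obtain ⟨h1, h2, h3⟩ := StepNN_frac M t l hM hl ht
  show gg (t / M) (l / M) ≤ 4 * Fr (3 / 4) -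
    (if 53 / 1000 ≤ |(t : ℝ) / M - 3 / 4| then 17 / 1000 else 0)
  split_ifs with h
  · exact gg_le_x _ _ h1 h2 h3 h
  · rw [sub_zero]
    exact gg_le _ _ h1 h2 h3

/-- The bound at the ends. -/
theorem RSB_end (r : ℤ) (hr : r ≠ 0) (n : ℕ) (hn : 2 ≤ n) : ∃ C : ℝ, 0 < C ∧ ∃ D : ℕ,
    ∀ M : ℕ, 2 ≤ M → ∀ t : ℕ, t + n ≤ M + 1 →
    es M none * es M (some t) * ‖RSo r n M none (some t)‖ ≤
      C * (M : ℝ) ^ D * Real.exp (M * (eo M none + eo M (some t))) := by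
  obtain ⟨C, hC, D, h⟩ := NN_bound r hr n hn
  refine ⟨C, hC, D, fun M hM t ht => ?_⟩
  obtain ⟨hb1, hb2⟩ := h M t hM ht
  have hS : 0 < S M t := S_pos (by omega)
  have e1 : es M none * es M (some t) * ‖RSo r n M none (some t)‖ = S M t * ‖NN r n M t‖ := by
    rw [RSo_end r n M t ht, norm_div, norm_mul, RSB_Th0, one_mul, Complex.norm_real,
      Real.norm_of_nonneg hS.le]
    show 1 * S M t ^ 2 * (‖NN r n M t‖ / S M t) = S M t * ‖NN r n M t‖
    field_simp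
  rw [e1]
  show _ ≤ C * (M : ℝ) ^ D * Real.exp (M * (0 + (4 * Fr (3 / 4) -
    (if 53 / 1000 ≤ |(t : ℝ) / M - 3 / 4| then 17 / 1000 else 0))))
  split_ifs with h53
  · rw [zero_add]
    exact hb2 h53
  · rw [zero_add, sub_zero]
    exact hb1

/-- The bound in the interior. -/
theorem RSB_int (r : ℤ) (hr : r ≠ 0) (n : ℕ) (hn : 2 ≤ n) : ∃ C : ℝ, 0 < C ∧ ∃ D : ℕ,
    ∀ M : ℕ, 2 ≤ M → ∀ t t' : ℕ, t ≤ t' → t' + n ≤ M + 1 →
    es M (some t) * es M (some t') * ‖RS r n M t t'‖ ≤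
      C * (M : ℝ) ^ D * Real.exp (M * (eo M (some t) + eo M (some t'))) := by
  obtain ⟨C0, hC0, D0, hW⟩ := W2_bound n hn
  refine ⟨4 * (|(r : ℝ)| + 2) * C0, by positivity, D0 + 3, fun M hM t t' htt ht' => ?_⟩
  by_cases h : M + 1 ≤ t + t' + n
  · obtain ⟨τ, h1, h2, -⟩ := RS_terms r hr n M t t' hn hM htt ht' h
    rw [h1]
    show S M t ^ 2 * S M t' ^ 2 * _ ≤ _
    refine RSB_sum (S M t ^ 2 * S M t' ^ 2) C0 (by positivity) hC0 D0 r M hM τ (W2 n M t t')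
      (fun l => gg (t / M) (l / M) + gg (t' / M) (l / M)) _ _ ?_ (fun l hl => ?_) h2
      (fun l hl => ?_)
    · rw [Nat.card_Icc]
      omega
    · rw [Finset.mem_Icc] at hl
      exact (hW M t t' l hM htt ht' h hl.1 hl.2).2
    · rw [Finset.mem_Icc] at hl
      exact add_le_add (RSB_gg M t l hM hl.2 (by omega))
        (RSB_gg M t' l hM (by omega) (by omega))
  · have e : RS r n M t t' = 0 := by
      unfold RS
      rw [if_neg h]
    rw [e, norm_zero, mul_zero]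
    positivity

theorem RSB_es_nonneg (M : ℕ) (u : Option ℕ) : 0 ≤ es M u := by
  cases u
  · exact zero_le_one
  · exact sq_nonneg _

theorem RSo_bound (r : ℤ) (hr : r ≠ 0) (n : ℕ) (hn : 2 ≤ n) : ∃ C : ℝ, 0 < C ∧ ∃ D : ℕ,
    ∀ M : ℕ, 2 ≤ M → ∀ u u' : Option ℕ, (u ≠ none ∨ u' ≠ none) →
    (∀ t ∈ u, t + n ≤ M + 1) → (∀ t ∈ u', t + n ≤ M + 1) →
    es M u * es M u' * ‖RSo r n M u u'‖ ≤ C * (M : ℝ) ^ D * Real.exp (M * (eo M u + eo M u')) := by
  obtain ⟨C1, hC1, D1, h1⟩ := RSB_end r hr n hn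
  obtain ⟨C2, hC2, D2, h2⟩ := RSB_int r hr n hn
  have key : ∀ M : ℕ, 2 ≤ M → ∀ e : ℝ, 0 ≤ e →
      C1 * (M : ℝ) ^ D1 * e ≤ (C1 + C2) * (M : ℝ) ^ (D1 + D2) * e ∧
      C2 * (M : ℝ) ^ D2 * e ≤ (C1 + C2) * (M : ℝ) ^ (D1 + D2) * e := by
    intro M hM e he
    have hM1 : (1 : ℝ) ≤ M := by exact_mod_cast (by omega : 1 ≤ M)
    have a1 : (M : ℝ) ^ D1 ≤ (M : ℝ) ^ (D1 + D2) := pow_le_pow_right₀ hM1 (by omega)
    have a2 : (M : ℝ) ^ D2 ≤ (M : ℝ) ^ (D1 + D2) := pow_le_pow_right₀ hM1 (by omega)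
    constructor
    · refine mul_le_mul_of_nonneg_right ?_ he
      exact mul_le_mul (by linarith) a1 (by positivity) (by positivity)
    · refine mul_le_mul_of_nonneg_right ?_ he
      exact mul_le_mul (by linarith) a2 (by positivity) (by positivity)
  refine ⟨C1 + C2, by positivity, D1 + D2, fun M hM u u' huu hu hu' => ?_⟩
  rcases u with _ | t
  · rcases u' with _ | t'
    · simp at huu
    · exact (h1 M hM t' (hu' t' rfl)).trans (key M hM _ (Real.exp_pos _).le).1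
  · rcases u' with _ | t'
    · have := h1 M hM t (hu t rfl)
      rw [RSo_symm, mul_comm (es M (some t)), add_comm (eo M (some t))]
      exact this.trans (key M hM _ (Real.exp_pos _).le).1
    · have ht := hu t rfl
      have ht' := hu' t' rfl
      rcases le_total t t' with h | h
      · exact (h2 M hM t t' h ht').trans (key M hM _ (Real.exp_pos _).le).2
      · have := h2 M hM t' t h ht
        rw [RSo_symm, mul_comm (es M (some t)), add_comm (eo M (some t))]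
        exact this.trans (key M hM _ (Real.exp_pos _).le).2

/-- The window error for interior regions. -/
theorem RS_window (r : ℤ) (hr : r ≠ 0) (n : ℕ) (hn : 2 ≤ n) : ∃ C : ℝ, 0 < C ∧ ∃ D : ℕ,
    ∀ M k1 k2 l1 l2 t t' : ℕ, Win n M k1 k2 l1 l2 → k1 ≤ t → t ≤ t' → t' ≤ k2 →
    S M t ^ 2 * S M t' ^ 2 * ‖RS r n M t t' - Th0 n M * c1 n M ^ r / (4 * Real.pi * I * M) *
      ∑ l ∈ Finset.Icc l1 l2,
        deriv (KR r n M (some (yk n M t : ℂ)) (some (yk n M t' : ℂ))) (vl n M l)‖ ≤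
      C * (M : ℝ) ^ D * Real.exp (M * (8 * Fr (3 / 4) - 40 / 1000)) := by
  obtain ⟨C0, hC0, D0, hW⟩ := W2_bound n hn
  refine ⟨4 * (|(r : ℝ)| + 2) * C0, by positivity, D0 + 3,
    fun M k1 k2 l1 l2 t t' hw hk1 htt hk2 => ?_⟩
  obtain ⟨f1, f2, f3, -, f5, -, -⟩ := win_facts n M k1 k2 l1 l2 hn hw
  have hll := hw.hl
  have hM : 2 ≤ M := by have := hw.big; omega
  have ht' : t' + n ≤ M + 1 := by omega
  have hbig : (1000 : ℝ) * (n + 1) ≤ M := by exact_mod_cast hw.big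
  have hMp : (0 : ℝ) < M := by exact_mod_cast (by omega : 0 < M)
  have hlow : ∀ k : ℕ, k1 ≤ k → k ≤ k2 → (3 / 4 - 56 / 1000) * (M : ℝ) ≤ k := by
    intro k ha hb
    have h := (abs_le.1 (f3 k ha hb).2).1
    have h' : (3 / 4 - 56 / 1000 : ℝ) ≤ (k : ℝ) / M := by linarith
    rwa [le_div_iff₀ hMp] at h'
  have h : M + 1 ≤ t + t' + n := by
    have g1 := hlow t hk1 (htt.trans hk2)
    have g2 := hlow t' (hk1.trans htt) hk2
    have hn' : (2 : ℝ) ≤ n := by exact_mod_cast hn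
    have : (M : ℝ) + 1 ≤ t + t' + n := by linarith
    exact_mod_cast this
  obtain ⟨τ, hτ, hb, hpair⟩ := RS_terms r hr n M t t' hn hM htt ht' h
  have hsub : Finset.Icc l1 l2 ⊆ Finset.Icc (M + 1 - n - t') t := by
    intro l hl
    rw [Finset.mem_Icc] at hl ⊢
    omega
  have hsumI : ∑ l ∈ Finset.Icc l1 l2, τ l = Th0 n M * c1 n M ^ r / (4 * Real.pi * I * M) *
      ∑ l ∈ Finset.Icc l1 l2,
        deriv (KR r n M (some (yk n M t : ℂ)) (some (yk n M t' : ℂ))) (vl n M l) := by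
    have hrefl : ∑ l ∈ Finset.Icc l1 l2, τ l = ∑ l ∈ Finset.Icc l1 l2, τ (l1 + l2 - l) := by
      refine Finset.sum_nbij' (fun l => l1 + l2 - l) (fun l => l1 + l2 - l) ?_ ?_ ?_ ?_ ?_
      · intro l hl
        rw [Finset.mem_Icc] at hl ⊢
        omega
      · intro l hl
        rw [Finset.mem_Icc] at hl ⊢
        omega
      · intro l hl
        rw [Finset.mem_Icc] at hl
        omega
      · intro l hl
        rw [Finset.mem_Icc] at hl
        omega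
      · intro l hl
        rw [Finset.mem_Icc] at hl
        congr 1
        omega
    have h2 : 2 * ∑ l ∈ Finset.Icc l1 l2, τ l =
        2 * (Th0 n M * c1 n M ^ r / (4 * Real.pi * I * M) *
          ∑ l ∈ Finset.Icc l1 l2,
            deriv (KR r n M (some (yk n M t : ℂ)) (some (yk n M t' : ℂ))) (vl n M l)) := by
      calc 2 * ∑ l ∈ Finset.Icc l1 l2, τ l
          = ∑ l ∈ Finset.Icc l1 l2, τ l + ∑ l ∈ Finset.Icc l1 l2, τ (l1 + l2 - l) := by
            rw [← hrefl]; ring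
        _ = ∑ l ∈ Finset.Icc l1 l2, (τ l + τ (l1 + l2 - l)) := by
            rw [Finset.sum_add_distrib]
        _ = ∑ l ∈ Finset.Icc l1 l2, 2 * Th0 n M * c1 n M ^ r / (4 * Real.pi * I * M) *
              deriv (KR r n M (some (yk n M t : ℂ)) (some (yk n M t' : ℂ))) (vl n M l) := by
            refine Finset.sum_congr rfl fun l hl => ?_
            have hl' : l1 + l2 - l ∈ Finset.Icc l1 l2 := by
              rw [Finset.mem_Icc] at hl ⊢
              omega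
            have hl0 := Finset.mem_Icc.1 hl
            exact hpair l (l1 + l2 - l) (by omega) (hsub hl) (hsub hl')
        _ = _ := by rw [← Finset.mul_sum]; ring
    exact mul_left_cancel₀ two_ne_zero h2
  have hdiff : RS r n M t t' - Th0 n M * c1 n M ^ r / (4 * Real.pi * I * M) *
      ∑ l ∈ Finset.Icc l1 l2,
        deriv (KR r n M (some (yk n M t : ℂ)) (some (yk n M t' : ℂ))) (vl n M l) =
      ∑ l ∈ Finset.Icc (M + 1 - n - t') t \ Finset.Icc l1 l2, τ l := by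
    rw [hτ, ← hsumI, ← Finset.sum_sdiff hsub]
    ring
  rw [hdiff]
  refine RSB_sum (S M t ^ 2 * S M t' ^ 2) C0 (by positivity) hC0 D0 r M hM τ (W2 n M t t')
    (fun l => gg (t / M) (l / M) + gg (t' / M) (l / M)) _ _ ?_ (fun l hl => ?_)
    (fun l hl => ?_) (fun l hl => ?_)
  · refine (Finset.card_le_card Finset.sdiff_subset).trans ?_
    rw [Nat.card_Icc]
    omega
  · rw [Finset.mem_sdiff, Finset.mem_Icc] at hl
    exact (hW M t t' l hM htt ht' h hl.1.1 hl.1.2).2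
  · rw [Finset.mem_sdiff] at hl
    exact hb l hl.1
  · rw [Finset.mem_sdiff, Finset.mem_Icc, Finset.mem_Icc] at hl
    obtain ⟨h1, h2, h3⟩ := StepNN_frac M t l hM (by omega) (by omega)
    obtain ⟨h1', h2', h3'⟩ := StepNN_frac M t' l hM (by omega) (by omega)
    have g1 := gg_le_l _ _ h1 h2 h3 (f3 t hk1 (htt.trans hk2)).2 (f5 l (by omega))
    have g2 := gg_le _ _ h1' h2' h3'
    show gg (t / M) (l / M) + gg (t' / M) (l / M) ≤ 8 * Fr (3 / 4) - 40 / 1000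
    linarith

end Pool.Agent.H63.VC4
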