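import Pool.Agent.H63.VC3.StepPP
import Pool.Agent.H63.VC4.KAnN
import Pool.Agent.H63.VC4.RSB

/-! # The entries as contour integrals -/

namespace Pool.Agent.H63.VC4

open Pool.Agent.H63.VC Pool.Agent.H63.VC3 Complex
open scoped BigOperators

/-- The kernel of `PPo` is the same after exchanging the slots. -/
theorem RSP_PPo_comm (r : ℤ) (n M : ℕ) (u u' : Option ℂ) (ρ Y : ℝ) :
    PPo r n M u u' ρ Y = PPo r n M u' u ρ Y := by
  unfold PPo
  congr 1
  funext v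
  rw [KR_comm]

theorem RSP_PPo_end (r : ℤ) (n M : ℕ) (hM : 0 < M) (y : ℂ) (ρ Y : ℝ) :
    PPo r n M none (some y) ρ Y = PP r n M y ρ Y := by
  unfold PPo PP
  congr 1
  funext v
  rw [KR_end r n M hM]

theorem RSP_norm_Th0 (n M : ℕ) : ‖Th0 n M‖ = 1 := by
  unfold Th0
  rw [norm_mul, norm_pow, norm_neg, norm_one, one_pow, norm_neg, Complex.norm_I, one_mul]

/-- The error for one pair of slots. -/
noncomputable def RSP_E (r : ℤ) (n M l2 : ℕ) (Y : ℝ) (u u' : Option ℕ) : ℝ :=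
  es M u * es M u' * ‖RSo r n M u u' + Th0 n M * c1 n M ^ r * M *
      PPo r n M (u.map fun k => ((yk n M k : ℝ) : ℂ)) (u'.map fun k => ((yk n M k : ℝ) : ℂ))
        (rho n M l2) Y‖

theorem RSP_E_comm (r : ℤ) (n M l2 : ℕ) (Y : ℝ) (u u' : Option ℕ) :
    RSP_E r n M l2 Y u u' = RSP_E r n M l2 Y u' u := by
  unfold RSP_E
  rw [RSo_symm, RSP_PPo_comm, mul_comm (es M u)]

/-- Ends. -/
theorem RSP_end (r : ℤ) (hr : r ≠ 0) (n : ℕ) (hn : 2 ≤ n) (Y : ℝ) (hY : 0 < Y) :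
    ∃ C : ℝ, 0 < C ∧ ∃ D : ℕ, ∀ M k1 k2 l1 l2 t : ℕ, Win n M k1 k2 l1 l2 → k1 ≤ t → t ≤ k2 →
    RSP_E r n M l2 Y none (some t) ≤
      C * (M : ℝ) ^ D * Real.exp (M * (4 * Fr (3 / 4) - 40 / 1000)) := by
  obtain ⟨C, hC, D, h⟩ := NN_PP r hr n hn Y hY
  refine ⟨C, hC, D, fun M k1 k2 l1 l2 t hw h1 h2 => ?_⟩
  have h3 := h M k1 k2 l1 l2 t hw h1 h2
  obtain ⟨f1, f2, f3, f4, f5, f6, f7⟩ := win_facts n M k1 k2 l1 l2 hn hw
  have hMpos : 0 < M := by have := hw.big; omega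
  have htM : t < M := by omega
  have hS := S_pos htM
  have hS0 : (S M t : ℂ) ≠ 0 := by exact_mod_cast hS.ne'
  refine le_trans (le_of_eq ?_) h3
  unfold RSP_E
  simp only [Option.map_none, Option.map_some]
  rw [RSo_end r n M t (by omega), RSP_PPo_end r n M hMpos]
  have e1 : Th0 n M * NN r n M t / S M t + Th0 n M * c1 n M ^ r * M *
      PP r n M ((yk n M t : ℝ) : ℂ) (rho n M l2) Y =
      Th0 n M * (NN r n M t + c1 n M ^ r * (S M t * M) *
        PP r n M ((yk n M t : ℝ) : ℂ) (rho n M l2) Y) / S M t := by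
    field_simp
  rw [e1, norm_div, norm_mul, RSP_norm_Th0, one_mul, Complex.norm_real, Real.norm_eq_abs,
    abs_of_pos hS]
  have e2 : es M none = 1 := rfl
  have e3 : es M (some t) = S M t ^ 2 := rfl
  rw [e2, e3]
  field_simp

/-- Interior regions. -/
theorem RSP_mid (r : ℤ) (hr : r ≠ 0) (n : ℕ) (hn : 2 ≤ n) (Y : ℝ) (hY : 0 < Y) :
    ∃ C : ℝ, 0 < C ∧ ∃ D : ℕ, ∀ M k1 k2 l1 l2 t t' : ℕ, Win n M k1 k2 l1 l2 → k1 ≤ t → t ≤ t' →
    t' ≤ k2 → RSP_E r n M l2 Y (some t) (some t') ≤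
      C * (M : ℝ) ^ D * Real.exp (M * (8 * Fr (3 / 4) - 40 / 1000)) := by
  obtain ⟨C, hC, D, h⟩ := RS_window r hr n hn
  refine ⟨C, hC, D, fun M k1 k2 l1 l2 t t' hw h1 h2 h3 => ?_⟩
  have h4 := h M k1 k2 l1 l2 t t' hw h1 h2 h3
  obtain ⟨f1, f2, f3, f4, f5, f6, f7⟩ := win_facts n M k1 k2 l1 l2 hn hw
  have g1 := (f3 t h1 (h2.trans h3)).1
  have g2 := (f3 t' (h1.trans h2) h3).1
  rw [abs_le] at g1 g2
  have hMpos : 0 < M := by have := hw.big; omega
  have hM0 : (M : ℂ) ≠ 0 := by exact_mod_cast hMpos.ne'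
  have hpi : (Real.pi : ℂ) ≠ 0 := by exact_mod_cast Real.pi_ne_zero
  have hs : ∑ l ∈ Finset.Icc l1 l2,
      deriv (KR r n M (some (yk n M t : ℂ)) (some (yk n M t' : ℂ))) (vl n M l) =
      -(4 * Real.pi * I) * M ^ 2 *
        PPo r n M (some (yk n M t : ℂ)) (some (yk n M t' : ℂ)) (rho n M l2) Y := by
    refine sum_l (KR r n M (some (yk n M t : ℂ)) (some (yk n M t' : ℂ))) n M l1 l2 Y hMpos hw.hl
      (by omega) hw.hl' hY (rho n M l2) rfl ?_ ?_
    · intro z hz1 hz2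
      rw [abs_le] at hz1
      refine KR_differentiable_v r n M hMpos _ _ z ?_ ?_
      · intro y hy
        rw [Option.mem_some_iff] at hy
        subst hy
        refine ⟨?_, ?_, ?_, ?_⟩ <;>
          simp only [Complex.sub_re, Complex.add_re, Complex.ofReal_re] <;> linarith
      · intro y hy
        rw [Option.mem_some_iff] at hy
        subst hy
        refine ⟨?_, ?_, ?_, ?_⟩ <;>
          simp only [Complex.sub_re, Complex.add_re, Complex.ofReal_re] <;> linarith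
    · intro z
      exact KR_odd r n M _ _ z
  rw [hs] at h4
  refine le_trans (le_of_eq ?_) h4
  unfold RSP_E
  simp only [Option.map_some]
  have e3 : ∀ k : ℕ, es M (some k) = S M k ^ 2 := fun k => rfl
  rw [e3, e3]
  congr 2
  have e4 : RSo r n M (some t) (some t') = RS r n M t t' := rfl
  rw [e4]
  have hI := Complex.I_ne_zero
  field_simp
  ring

theorem RSo_PP (r : ℤ) (hr : r ≠ 0) (n : ℕ) (hn : 2 ≤ n) (Y : ℝ) (hY : 0 < Y) :
    ∃ C : ℝ, 0 < C ∧ ∃ D : ℕ, ∀ M k1 k2 l1 l2 : ℕ, Win n M k1 k2 l1 l2 → ∀ u u' : Option ℕ,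
    (u ≠ none ∨ u' ≠ none) → (∀ t ∈ u, k1 ≤ t ∧ t ≤ k2) → (∀ t ∈ u', k1 ≤ t ∧ t ≤ k2) →
    es M u * es M u' * ‖RSo r n M u u' + Th0 n M * c1 n M ^ r * M *
      PPo r n M (u.map fun k => ((yk n M k : ℝ) : ℂ)) (u'.map fun k => ((yk n M k : ℝ) : ℂ))
        (rho n M l2) Y‖ ≤
      C * (M : ℝ) ^ D * Real.exp (M * (4 * (ns u + ns u') * Fr (3 / 4) - 40 / 1000)) := by
  obtain ⟨C1, hC1, D1, h1⟩ := RSP_end r hr n hn Y hY
  obtain ⟨C2, hC2, D2, h2⟩ := RSP_mid r hr n hn Y hY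
  refine ⟨C1 + C2, by positivity, D1 + D2, fun M k1 k2 l1 l2 hw u u' hu hk hk' => ?_⟩
  have hMpos : 0 < M := by have := hw.big; omega
  have hM1 : (1 : ℝ) ≤ M := by exact_mod_cast hMpos
  have b1 : C1 * (M : ℝ) ^ D1 ≤ (C1 + C2) * (M : ℝ) ^ (D1 + D2) := by
    have : (M : ℝ) ^ D1 ≤ (M : ℝ) ^ (D1 + D2) := pow_le_pow_right₀ hM1 (by omega)
    have h3 : 0 ≤ (M : ℝ) ^ D1 := by positivity
    nlinarith
  have b2 : C2 * (M : ℝ) ^ D2 ≤ (C1 + C2) * (M : ℝ) ^ (D1 + D2) := by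
    have : (M : ℝ) ^ D2 ≤ (M : ℝ) ^ (D1 + D2) := pow_le_pow_right₀ hM1 (by omega)
    have h3 : 0 ≤ (M : ℝ) ^ D2 := by positivity
    nlinarith
  change RSP_E r n M l2 Y u u' ≤ _
  cases u with
  | none =>
    cases u' with
    | none => exact absurd hu (by simp)
    | some t' =>
      have hk1 := hk' t' rfl
      have h3 := h1 M k1 k2 l1 l2 t' hw hk1.1 hk1.2
      refine h3.trans ?_
      rw [ns_none, ns_some, zero_add, mul_one]
      exact mul_le_mul_of_nonneg_right b1 (Real.exp_pos _).le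
  | some t =>
    have hk1 := hk t rfl
    cases u' with
    | none =>
      have h3 := h1 M k1 k2 l1 l2 t hw hk1.1 hk1.2
      rw [RSP_E_comm]
      refine h3.trans ?_
      rw [ns_none, ns_some, add_zero, mul_one]
      exact mul_le_mul_of_nonneg_right b1 (Real.exp_pos _).le
    | some t' =>
      have hk2 := hk' t' rfl
      have e : (4 : ℝ) * (ns (some t) + ns (some t')) = 8 := by
        rw [ns_some, ns_some]; norm_num
      rw [e]
      rcases le_total t t' with htt | htt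
      · refine (h2 M k1 k2 l1 l2 t t' hw hk1.1 htt hk2.2).trans ?_
        exact mul_le_mul_of_nonneg_right b2 (Real.exp_pos _).le
      · rw [RSP_E_comm]
        refine (h2 M k1 k2 l1 l2 t' t hw hk2.1 htt hk1.2).trans ?_
        exact mul_le_mul_of_nonneg_right b2 (Real.exp_pos _).le

end Pool.Agent.H63.VC4
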