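import Pool.Agent.H63.VC4.KBN
import Pool.Agent.H63.VC3.StepPP

/-! # The vertical sides of the contours -/

namespace Pool.Agent.H63.VC4

open Pool.Agent.H63.VC Pool.Agent.H63.VC3 Complex
open scoped BigOperators

private lemma SideN_cot_le (u : ℝ) (h0 : 45 / 1000 ≤ u) (h1 : u ≤ 455 / 1000) :
    Real.cos (Real.pi * u) / Real.sin (Real.pi * u) ≤ 71 / 10 := by
  have hpi := Real.pi_gt_d2
  have hpi' := Real.pi_lt_d2
  have hz0 : 0 < Real.pi * u := by positivity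
  have hz1 : Real.pi * u < Real.pi / 2 := by nlinarith
  have hc : 0 < Real.cos (Real.pi * u) :=
    Real.cos_pos_of_mem_Ioo ⟨by linarith, hz1⟩
  have hs : 0 < Real.sin (Real.pi * u) :=
    Real.sin_pos_of_pos_of_lt_pi hz0 (by linarith)
  have ht := Real.lt_tan hz0 hz1
  rw [Real.tan_eq_sin_div_cos, lt_div_iff₀ hc] at ht
  rw [div_le_iff₀ hs]
  have h2 : 1413 / 10000 ≤ Real.pi * u := by nlinarith
  nlinarith only [hs, ht, h2]

/-- The contribution of one slot on a vertical side. -/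
private lemma SideN_slot (x t ρ : ℝ) (hx : |x - 1 / 4| ≤ 55 / 1000) (hρ : 149 / 1000 ≤ |ρ|)
    (hρ' : |ρ| ≤ 15 / 100) (ht : 0 ≤ t) (ht3 : t ≤ 3 / 1000) :
    2 * Fr (x + 1 / 2) + (po (some (x : ℂ)) (ρ + t * I)).re ≤ 4 * Fr (3 / 4) - 60 / 1000 := by
  obtain ⟨hx1, hx2⟩ := abs_le.mp hx
  obtain ⟨ha1, ha2⟩ := abs_le.mp hρ'
  have hpi := Real.pi_gt_d2
  have hpi' := Real.pi_lt_d2
  have e0 : (po (some (x : ℂ)) (ρ + t * I)).re =
      -(ff (((x - ρ : ℝ) : ℂ) + ((0 - t : ℝ) : ℂ) * I)).re -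
      (ff (((x + ρ : ℝ) : ℂ) + ((0 + t : ℝ) : ℂ) * I)).re := by
    have e1 : (x : ℂ) - (ρ + t * I) = ((x - ρ : ℝ) : ℂ) + ((0 - t : ℝ) : ℂ) * I := by
      push_cast; ring
    have e2 : (x : ℂ) + (ρ + t * I) = ((x + ρ : ℝ) : ℂ) + ((0 + t : ℝ) : ℂ) * I := by
      push_cast; ring
    show (-ff ((x : ℂ) - (ρ + t * I)) - ff ((x : ℂ) + (ρ + t * I))).re = _
    rw [e1, e2]
    simp only [sub_re, neg_re]
  rw [e0]
  have f1 := (ff_vert_left (x - ρ) (0 - t) (by linarith) (by linarith)).1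
  have f2 := (ff_vert_left (x + ρ) (0 + t) (by linarith) (by linarith)).1
  have c1 := SideN_cot_le (x - ρ) (by linarith) (by linarith)
  have c2 := SideN_cot_le (x + ρ) (by linarith) (by linarith)
  have s := Fr_sym_ge x ρ (by linarith) (by linarith only [hx2]) (by linarith) (by linarith)
  have cg := cot_ge (x - 1 / 4) (by linarith only [hx])
  rw [show (1 : ℝ) / 4 + (x - 1 / 4) = x by ring] at cg
  have fy := Fr_y_le x (by linarith only [hx1]) (by linarith)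
  set c := Real.cos (Real.pi * x) / Real.sin (Real.pi * x) with hc
  set d1 := Real.cos (Real.pi * (x - ρ)) / Real.sin (Real.pi * (x - ρ))
  set d2 := Real.cos (Real.pi * (x + ρ)) / Real.sin (Real.pi * (x + ρ))
  set d := x - 1 / 4 with hd
  have hρ2 : ρ ^ 2 = |ρ| ^ 2 := (sq_abs ρ).symm
  have g1 : Real.pi / 2 * d1 * (0 - t) ^ 2 ≤ 315 / 200 * (71 / 10) * t ^ 2 := by
    have : Real.pi / 2 * d1 ≤ 315 / 200 * (71 / 10) := by nlinarith only [hpi, hpi', c1]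
    have := mul_le_mul_of_nonneg_right this (sq_nonneg t)
    nlinarith only [this]
  have g2 : Real.pi / 2 * d2 * (0 + t) ^ 2 ≤ 315 / 200 * (71 / 10) * t ^ 2 := by
    have : Real.pi / 2 * d2 ≤ 315 / 200 * (71 / 10) := by nlinarith only [hpi, hpi', c2]
    have := mul_le_mul_of_nonneg_right this (sq_nonneg t)
    nlinarith only [this]
  have ht4 : t ^ 2 ≤ 9 / 1000000 := by nlinarith only [ht, ht3]
  have m1 : -(Real.pi * c * ρ ^ 2) ≤ -(Real.pi * (1 - 2 * Real.pi * d) * ρ ^ 2) := by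
    have : Real.pi * (1 - 2 * Real.pi * d) ≤ Real.pi * c := by nlinarith only [hpi, cg]
    nlinarith only [mul_le_mul_of_nonneg_right this (sq_nonneg ρ)]
  have m2 : -(2 * Real.pi * d ^ 2) + 2 * Real.pi ^ 2 * d * ρ ^ 2 ≤ Real.pi ^ 3 * ρ ^ 4 / 2 := by
    nlinarith only [mul_nonneg (by positivity : (0 : ℝ) ≤ 2 * Real.pi) (sq_nonneg (d - Real.pi * ρ ^ 2 / 2))]
  have r1 : (149 / 1000) ^ 2 ≤ ρ ^ 2 := by rw [hρ2]; nlinarith only [hρ]
  have r2 : ρ ^ 2 ≤ (15 / 100) ^ 2 := by rw [hρ2]; nlinarith only [hρ, hρ']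
  have m3 : Real.pi ^ 3 * ρ ^ 4 / 2 ≤ 8 / 1000 := by
    have h3 : Real.pi ^ 3 ≤ 315 ^ 3 / 100 ^ 3 := by
      have := pow_le_pow_left₀ Real.pi_pos.le hpi'.le 3
      linarith only [this]
    have h4 : ρ ^ 4 ≤ (15 / 100) ^ 4 := by nlinarith only [r2]
    have h5 : Real.pi ^ 3 * ρ ^ 4 ≤ 315 ^ 3 / 100 ^ 3 * (15 / 100) ^ 4 :=
      mul_le_mul h3 h4 (by positivity) (by positivity)
    linarith only [h5]
  have m4 : -(Real.pi * ρ ^ 2) ≤ -(314 / 100 * (149 / 1000) ^ 2) := by nlinarith only [hpi, r1]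
  nlinarith

private lemma SideN_WN_re (r : ℤ) (u u' : Option ℂ) (a t : ℝ) :
    (WN r u u' (a + t * I)).re = -4 * Real.pi * r * a * t - 2 * Real.pi * t +
      (po u (a + t * I)).re + (po u' (a + t * I)).re := by
  have e3 : 2 * (Real.pi : ℂ) * I * ((r : ℂ) * ((a : ℂ) + t * I) ^ 2 + (a + t * I)) =
      ((-4 * Real.pi * r * a * t - 2 * Real.pi * t : ℝ) : ℂ) +
        ((2 * Real.pi * (r * (a ^ 2 - t ^ 2) + a) : ℝ) : ℂ) * I := by
    push_cast
    linear_combination (4 * (Real.pi : ℂ) * r * a * t + 2 * Real.pi * t +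
      2 * Real.pi * r * t ^ 2 * I) * I_sq
  unfold WN
  rw [add_re, add_re, e3]
  simp only [add_re, ofReal_re, mul_re, ofReal_im, I_re, I_im, mul_zero, zero_mul, sub_zero,
    add_zero]

theorem side_v2 (r : ℤ) (hr : 20 ≤ |r|) (x x' t ρ : ℝ)
    (hx : |x - 1 / 4| ≤ 55 / 1000) (hx' : |x' - 1 / 4| ≤ 55 / 1000) (hρ : 149 / 1000 ≤ |ρ|)
    (hρ' : |ρ| ≤ 15 / 100) (ht : 0 ≤ t) (ht' : t ≤ 6 / (10 * (r : ℝ) ^ 2)) :
    2 * Fr (x + 1 / 2) + 2 * Fr (x' + 1 / 2) +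
      (WN r (some (x : ℂ)) (some (x' : ℂ)) (ρ + t * I)).re ≤ 8 * Fr (3 / 4) - 20 / 1000 := by
  have hr1 : (20 : ℝ) ≤ |(r : ℝ)| := by
    have : ((20 : ℤ) : ℝ) ≤ ((|r| : ℤ) : ℝ) := by exact_mod_cast hr
    simpa using this
  have hr2 : (400 : ℝ) ≤ (r : ℝ) ^ 2 := by
    nlinarith [sq_abs (r : ℝ), abs_nonneg (r : ℝ)]
  have hrt : (r : ℝ) ^ 2 * t ≤ 6 / 10 := by
    rw [le_div_iff₀ (by positivity)] at ht'
    linarith
  have hpi := Real.pi_gt_d2
  have hpi' := Real.pi_lt_d2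
  have ht3 : t ≤ 3 / 1000 := by nlinarith only [hr2, hrt]
  have s1 := SideN_slot x t ρ hx hρ hρ' ht ht3
  have s2 := SideN_slot x' t ρ hx' hρ hρ' ht ht3
  rw [SideN_WN_re]
  have l1 : -4 * Real.pi * r * ρ * t ≤ 4 * Real.pi * |(r : ℝ)| * |ρ| * t := by
    have h1 : -(r * ρ) ≤ |(r : ℝ)| * |ρ| := by
      rw [← abs_mul]; exact neg_le_abs _
    nlinarith only [h1, mul_nonneg (by positivity : (0 : ℝ) ≤ 4 * Real.pi) ht]
  have h1 : |(r : ℝ)| ^ 2 * t ≤ 6 / 10 := by rw [sq_abs]; exact hrt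
  have h2 : |(r : ℝ)| * t ≤ 3 / 100 := by nlinarith only [hr1, h1]
  have h3 : |(r : ℝ)| * |ρ| * t ≤ 45 / 10000 := by
    have h0 : 0 ≤ |(r : ℝ)| * t := by positivity
    nlinarith only [hρ, hρ', h2]
  have h4 : 4 * Real.pi * |(r : ℝ)| * |ρ| * t ≤ 4 * (315 / 100) * (45 / 10000) := by
    have h0 : 0 ≤ |(r : ℝ)| * |ρ| * t := by positivity
    have : 4 * Real.pi * |(r : ℝ)| * |ρ| * t = 4 * (Real.pi * (|(r : ℝ)| * |ρ| * t)) := by ring
    rw [this]
    nlinarith only [hpi, hpi', h3]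
  have h5 : 0 ≤ 2 * Real.pi * t := by positivity
  linarith

/-- The size of the square of `S`. -/
private lemma SideN_S (n : ℕ) (hn : 2 ≤ n) : ∃ C : ℝ, 0 < C ∧
    ∀ M k1 k2 l1 l2 k : ℕ, Win n M k1 k2 l1 l2 → k1 ≤ k → k ≤ k2 →
    S M k ^ 2 ≤ (M : ℝ) ^ ⌈2 * C⌉₊ *
      (Real.exp n * Real.exp (M * (2 * Fr (yk n M k + 1 / 2)))) := by
  obtain ⟨C2, hC2, hS⟩ := log_S_bound
  refine ⟨C2, hC2, fun M k1 k2 l1 l2 k hw hk1 hk2 => ?_⟩
  obtain ⟨f1, f2, f3, f4, f5, f6, f7⟩ := win_facts n M k1 k2 l1 l2 hn hw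
  have f8 := (f3 k hk1 hk2).1
  have f9 := (f3 k hk1 hk2).2
  rw [abs_le] at f8
  have hMbig : 1000 * (n + 1) ≤ M := hw.big
  have hMpos : 0 < M := by omega
  have hM0 : (0 : ℝ) < M := by exact_mod_cast hMpos
  have hM1 : (1 : ℝ) ≤ M := by exact_mod_cast hMpos
  set y : ℝ := yk n M k with hy
  have hkM : k < M := by omega
  have hSpos := S_pos hkM
  have hlog := hS M k (by omega) hkM
  rw [abs_le] at hlog
  have hlogM : 0 ≤ Real.log M := Real.log_nonneg hM1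
  have hFr : M * Fr (k / M) ≤ M * Fr (y + 1 / 2) + n / 2 := by
    have hyk : y + 1 / 2 = (k : ℝ) / M + (n / 2) / M := by
      rw [hy]; unfold yk bt; field_simp; ring
    have hnM : (n : ℝ) / 2 / M ≤ 1 / 1000 := by
      rw [div_div, div_le_div_iff₀ (by positivity) (by norm_num)]
      have : (1000 * (n + 1) : ℝ) ≤ M := by exact_mod_cast hMbig
      linarith
    have hnM0 : 0 ≤ (n : ℝ) / 2 / M := by positivity
    rw [abs_le] at f9
    have h1 := StepPP_Fr ((k : ℝ) / M) (y + 1 / 2) (by linarith) (by linarith) (by linarith only [f8])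
      (by linarith)
    have h2 : |(k : ℝ) / M - (y + 1 / 2)| = (n / 2) / M := by
      rw [hyk, show (k : ℝ) / M - ((k : ℝ) / M + (n / 2) / M) = -((n / 2) / M) by ring, abs_neg,
        abs_of_nonneg hnM0]
    rw [h2] at h1
    have h3 : Fr ((k : ℝ) / M) ≤ Fr (y + 1 / 2) + (n / 2) / M := by
      have := (abs_le.mp h1).2
      linarith only [this]
    calc (M : ℝ) * Fr (k / M) ≤ M * (Fr (y + 1 / 2) + (n / 2) / M) := by gcongr
      _ = M * Fr (y + 1 / 2) + n / 2 := by field_simp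
  have h1 : Real.log (S M k) ≤ M * Fr (y + 1 / 2) + n / 2 + C2 * Real.log M := by linarith
  have h2 : S M k ^ 2 = Real.exp (2 * Real.log (S M k)) := by
    rw [two_mul, Real.exp_add, Real.exp_log hSpos]; ring
  rw [h2]
  calc Real.exp (2 * Real.log (S M k))
      ≤ Real.exp (Real.log M * ⌈2 * C2⌉₊ + (n + M * (2 * Fr (y + 1 / 2)))) := by
        apply Real.exp_le_exp.mpr
        have h3 : 2 * C2 ≤ ⌈2 * C2⌉₊ := Nat.le_ceil _
        have h4 : Real.log M * (2 * C2) ≤ Real.log M * ⌈2 * C2⌉₊ :=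
          mul_le_mul_of_nonneg_left h3 hlogM
        linarith only [hlog, hFr, h4]
    _ = _ := by
        rw [Real.exp_add, Real.exp_add, Real.exp_mul, Real.exp_log hM0, Real.rpow_natCast]

/-- Two proper slots. -/
private lemma SideN_two (r : ℤ) (hr : 20 ≤ |r|) (n : ℕ)
    (hn : 2 ≤ n) (Y : ℝ) (hY : 0 < Y) (hY' : Y ≤ 6 / (10 * (r : ℝ) ^ 2)) :
    ∃ C : ℝ, 0 < C ∧ ∃ D : ℕ, ∀ M k1 k2 l1 l2 k k' : ℕ, Win n M k1 k2 l1 l2 →
    k1 ≤ k → k ≤ k2 → k1 ≤ k' → k' ≤ k2 →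
    S M k ^ 2 * S M k' ^ 2 *
      ‖PPo r n M (some ((yk n M k : ℝ) : ℂ)) (some ((yk n M k' : ℝ) : ℂ)) (rho n M l2) Y -
      FLo r n M (some ((yk n M k : ℝ) : ℂ)) (some ((yk n M k' : ℝ) : ℂ)) (rho n M l2) Y‖ ≤
      C * (M : ℝ) ^ D * Real.exp (M * (8 * Fr (3 / 4) - 20 / 1000)) := by
  obtain ⟨C1, hC1, hKK⟩ := KR_bound r n
  obtain ⟨C2, hC2, hS⟩ := SideN_S n hn
  refine ⟨2 * Y * C1 * Real.exp n * Real.exp n, by positivity, ⌈2 * C2⌉₊ + ⌈2 * C2⌉₊,
    fun M k1 k2 l1 l2 k k' hw hk1 hk2 hk1' hk2' => ?_⟩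
  obtain ⟨f1, f2, f3, f4, f5, f6, f7⟩ := win_facts n M k1 k2 l1 l2 hn hw
  have f8 := (f3 k hk1 hk2).1
  have f8' := (f3 k' hk1' hk2').1
  have hMbig : 1000 * (n + 1) ≤ M := hw.big
  have hMpos : 0 < M := by omega
  have hM0 : (0 : ℝ) < M := by exact_mod_cast hMpos
  have hM1 : (1 : ℝ) ≤ M := by exact_mod_cast hMpos
  have hr2 : (400 : ℝ) ≤ (r : ℝ) ^ 2 := by
    have h1 : (20 : ℝ) ≤ |(r : ℝ)| := by exact_mod_cast hr
    rw [← sq_abs]
    nlinarith only [h1]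
  have hY3 : Y ≤ 3 / 1000 := by
    refine hY'.trans ?_
    rw [div_le_div_iff₀ (by positivity) (by norm_num)]
    nlinarith only [hr2]
  set y : ℝ := yk n M k with hy
  set y' : ℝ := yk n M k' with hy'
  set ρ : ℝ := rho n M l2 with hρ
  -- the bound on a vertical side
  have side : ∀ σ : ℝ, (σ = ρ ∨ σ = -ρ) → ∀ t : ℝ, 0 ≤ t → t ≤ Y →
      ‖KR r n M (some (y : ℂ)) (some (y' : ℂ)) ((σ : ℂ) + t * I) * om n M ((σ : ℂ) + t * I) * I‖ ≤
        C1 / M * Real.exp (M * (8 * Fr (3 / 4) - 20 / 1000 - 2 * Fr (y + 1 / 2) -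
          2 * Fr (y' + 1 / 2))) := by
    intro σ hσ t ht0 ht1
    have hom : ‖om n M ((σ : ℂ) + t * I)‖ ≤ Real.exp (-(2 * Real.pi * M * t)) := by
      obtain ⟨o1, o2, -, -⟩ := om_side n M l1 l2 hMpos hw.hl t ρ rfl
      rcases hσ with h | h
      · rw [h]; exact o1
      · rw [h, Complex.ofReal_neg]; exact o2
    have hσabs : |σ| = ρ := by
      have : 0 ≤ ρ := by linarith
      rcases hσ with h | h
      · rw [h, abs_of_nonneg this]
      · rw [h, abs_neg, abs_of_nonneg this]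
    have hσ1 : -ρ ≤ σ := by rw [← hσabs]; exact neg_abs_le σ
    have hσ2 : σ ≤ ρ := by rw [← hσabs]; exact le_abs_self σ
    have g8 := f8
    have g8' := f8'
    rw [abs_le] at g8 g8'
    have hre : ((σ : ℂ) + t * I).re = σ := by simp
    have him : ((σ : ℂ) + t * I).im = t := by simp
    have hk := hKK M (by omega) (some (y : ℂ)) (some (y' : ℂ)) ((σ : ℂ) + t * I)
      (by
        intro z hz
        have hz' : z = (y : ℂ) ∨ z = (y' : ℂ) := by
          rcases hz with hz | hz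
          · exact Or.inl (Option.mem_some_iff.mp hz).symm
          · exact Or.inr (Option.mem_some_iff.mp hz).symm
        have hz1 : |z.re - 1 / 4| ≤ 55 / 1000 ∧ z.im = 0 := by
          rcases hz' with rfl | rfl
          · exact ⟨by rw [Complex.ofReal_re]; exact f8, Complex.ofReal_im _⟩
          · exact ⟨by rw [Complex.ofReal_re]; exact f8', Complex.ofReal_im _⟩
        obtain ⟨hz2, hz3⟩ := hz1
        rw [abs_le] at hz2
        have w1 : (z - ((σ : ℂ) + t * I)).re = z.re - σ := by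
          rw [Complex.sub_re, hre]
        have w2 : (z + ((σ : ℂ) + t * I)).re = z.re + σ := by
          rw [Complex.add_re, hre]
        rw [w1, w2, hz3, abs_zero]
        refine ⟨by linarith only [f7, hσ2, hz2], by linarith, by linarith, by linarith, by norm_num⟩)
      (by rw [hre, hσabs]; linarith)
      (by rw [him, abs_of_nonneg ht0]; linarith)
    have hsv := side_v2 r hr y y' t σ f8 f8' (by rw [hσabs]; exact f6)
      (by rw [hσabs]; linarith) ht0 (ht1.trans hY')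
    have hWf : (WN r (some (y : ℂ)) (some (y' : ℂ)) ((σ : ℂ) + t * I)).re =
        (2 * Real.pi * I * r * ((σ : ℂ) + t * I) ^ 2 + po (some (y : ℂ)) ((σ : ℂ) + t * I) +
          po (some (y' : ℂ)) ((σ : ℂ) + t * I)).re - 2 * Real.pi * t := by
      have h1 : WN r (some (y : ℂ)) (some (y' : ℂ)) ((σ : ℂ) + t * I) =
        (2 * Real.pi * I * r * ((σ : ℂ) + t * I) ^ 2 + po (some (y : ℂ)) ((σ : ℂ) + t * I) +
          po (some (y' : ℂ)) ((σ : ℂ) + t * I)) + 2 * Real.pi * I * ((σ : ℂ) + t * I) := by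
        unfold WN; ring
      rw [h1, Complex.add_re]
      have h2 : (2 * (Real.pi : ℂ) * I * ((σ : ℂ) + t * I)).re = -(2 * Real.pi * t) := by
        simp
      rw [h2]; ring
    rw [norm_mul, norm_mul, Complex.norm_I, mul_one]
    calc ‖KR r n M (some (y : ℂ)) (some (y' : ℂ)) ((σ : ℂ) + t * I)‖ * ‖om n M ((σ : ℂ) + t * I)‖
        ≤ (C1 / M * Real.exp (M * (2 * Real.pi * I * r * ((σ : ℂ) + t * I) ^ 2 +
          po (some (y : ℂ)) ((σ : ℂ) + t * I) + po (some (y' : ℂ)) ((σ : ℂ) + t * I)).re)) *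
          Real.exp (-(2 * Real.pi * M * t)) :=
          mul_le_mul hk hom (norm_nonneg _) (by positivity)
      _ = C1 / M * Real.exp (M * (WN r (some (y : ℂ)) (some (y' : ℂ)) ((σ : ℂ) + t * I)).re) := by
          rw [mul_assoc, ← Real.exp_add, hWf]
          congr 2
          ring
      _ ≤ _ := by
          have : (WN r (some (y : ℂ)) (some (y' : ℂ)) ((σ : ℂ) + t * I)).re ≤
            8 * Fr (3 / 4) - 20 / 1000 - 2 * Fr (y + 1 / 2) - 2 * Fr (y' + 1 / 2) := by linarith only [hsv]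
          gcongr
  set B : ℝ := C1 / M * Real.exp (M * (8 * Fr (3 / 4) - 20 / 1000 - 2 * Fr (y + 1 / 2) -
          2 * Fr (y' + 1 / 2))) with hB
  have hB0 : 0 ≤ B := by positivity
  have i1 : ‖∫ t in (0 : ℝ)..Y, KR r n M (some (y : ℂ)) (some (y' : ℂ)) (-(ρ : ℂ) + t * I) *
      om n M (-(ρ : ℂ) + t * I) * I‖ ≤ B * |Y - 0| := by
    apply intervalIntegral.norm_integral_le_of_norm_le_const
    intro t ht
    rw [Set.uIoc_of_le hY.le] at ht
    have := side (-ρ) (Or.inr rfl) t ht.1.le ht.2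
    rwa [Complex.ofReal_neg] at this
  have i2 : ‖∫ t in (0 : ℝ)..Y, KR r n M (some (y : ℂ)) (some (y' : ℂ)) ((ρ : ℂ) + t * I) *
      om n M ((ρ : ℂ) + t * I) * I‖ ≤ B * |Y - 0| := by
    apply intervalIntegral.norm_integral_le_of_norm_le_const
    intro t ht
    rw [Set.uIoc_of_le hY.le] at ht
    exact side ρ (Or.inl rfl) t ht.1.le ht.2
  rw [sub_zero, abs_of_pos hY] at i1 i2
  have hdiff : PPo r n M (some (y : ℂ)) (some (y' : ℂ)) ρ Y -
      FLo r n M (some (y : ℂ)) (some (y' : ℂ)) ρ Y =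
      (∫ t in (0 : ℝ)..Y, KR r n M (some (y : ℂ)) (some (y' : ℂ)) (-(ρ : ℂ) + t * I) *
        om n M (-(ρ : ℂ) + t * I) * I) -
      ∫ t in (0 : ℝ)..Y, KR r n M (some (y : ℂ)) (some (y' : ℂ)) ((ρ : ℂ) + t * I) *
        om n M ((ρ : ℂ) + t * I) * I := by
    unfold PPo FLo VC3.Path
    ring
  have hPF : ‖PPo r n M (some (y : ℂ)) (some (y' : ℂ)) ρ Y -
      FLo r n M (some (y : ℂ)) (some (y' : ℂ)) ρ Y‖ ≤ 2 * Y * B := by
    rw [hdiff]
    refine (norm_sub_le _ _).trans ?_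
    linarith only [i1, i2]
  -- the size of `S`
  have hS2 := hS M k1 k2 l1 l2 k hw hk1 hk2
  have hS2' := hS M k1 k2 l1 l2 k' hw hk1' hk2'
  rw [← hy] at hS2
  rw [← hy'] at hS2'
  calc S M k ^ 2 * S M k' ^ 2 * ‖PPo r n M (some (y : ℂ)) (some (y' : ℂ)) ρ Y -
      FLo r n M (some (y : ℂ)) (some (y' : ℂ)) ρ Y‖
      ≤ ((M : ℝ) ^ ⌈2 * C2⌉₊ * (Real.exp n * Real.exp (M * (2 * Fr (y + 1 / 2))))) *
        ((M : ℝ) ^ ⌈2 * C2⌉₊ * (Real.exp n * Real.exp (M * (2 * Fr (y' + 1 / 2))))) *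
        (2 * Y * B) :=
        mul_le_mul (mul_le_mul hS2 hS2' (by positivity) (by positivity)) hPF (norm_nonneg _)
          (by positivity)
    _ = 2 * Y * (C1 / M) * Real.exp n * Real.exp n * (M : ℝ) ^ (⌈2 * C2⌉₊ + ⌈2 * C2⌉₊) *
        (Real.exp (M * (2 * Fr (y + 1 / 2))) * Real.exp (M * (2 * Fr (y' + 1 / 2))) *
          Real.exp (M * (8 * Fr (3 / 4) - 20 / 1000 - 2 * Fr (y + 1 / 2) -
            2 * Fr (y' + 1 / 2)))) := by
        rw [hB, pow_add]; ring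
    _ = 2 * Y * (C1 / M) * Real.exp n * Real.exp n * (M : ℝ) ^ (⌈2 * C2⌉₊ + ⌈2 * C2⌉₊) *
        Real.exp (M * (8 * Fr (3 / 4) - 20 / 1000)) := by
        rw [← Real.exp_add, ← Real.exp_add]
        congr 2
        ring
    _ ≤ 2 * Y * C1 * Real.exp n * Real.exp n * (M : ℝ) ^ (⌈2 * C2⌉₊ + ⌈2 * C2⌉₊) *
        Real.exp (M * (8 * Fr (3 / 4) - 20 / 1000)) := by
        have : C1 / M ≤ C1 := div_le_self hC1.le hM1
        gcongr

/-- One proper slot. -/
private lemma SideN_PP (r : ℤ) (n M : ℕ) (hM : 0 < M) (y : ℂ) (ρ Y : ℝ) :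
    PPo r n M none (some y) ρ Y = PP r n M y ρ Y ∧ FLo r n M none (some y) ρ Y = FL r n M y ρ Y ∧
    PPo r n M (some y) none ρ Y = PP r n M y ρ Y ∧
      FLo r n M (some y) none ρ Y = FL r n M y ρ Y := by
  have h1 : ∀ v, KR r n M none (some y) v = KK r n M y v := fun v => KR_end r n M hM y v
  have h2 : ∀ v, KR r n M (some y) none v = KK r n M y v := fun v => by
    rw [KR_comm, h1]
  unfold PPo FLo PP FL
  simp only [h1, h2, and_self]

theorem PPo_FLo (r : ℤ) (c : ℝ) (hc : c = 1 ∨ c = 2) (hr : 10 * c ≤ |(r : ℝ)|) (n : ℕ)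
    (hn : 2 ≤ n) (Y : ℝ) (hY : 0 < Y) (hY' : Y ≤ 3 / 10 * c / (r : ℝ) ^ 2) :
    ∃ C : ℝ, 0 < C ∧ ∃ D : ℕ, ∀ M k1 k2 l1 l2 : ℕ, Win n M k1 k2 l1 l2 → ∀ u u' : Option ℕ,
    ns u + ns u' = c → (∀ t ∈ u, k1 ≤ t ∧ t ≤ k2) → (∀ t ∈ u', k1 ≤ t ∧ t ≤ k2) →
    es M u * es M u' *
      ‖PPo r n M (u.map fun k => ((yk n M k : ℝ) : ℂ)) (u'.map fun k => ((yk n M k : ℝ) : ℂ))
        (rho n M l2) Y -
      FLo r n M (u.map fun k => ((yk n M k : ℝ) : ℂ)) (u'.map fun k => ((yk n M k : ℝ) : ℂ))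
        (rho n M l2) Y‖ ≤
      C * (M : ℝ) ^ D * Real.exp (M * (4 * c * Fr (3 / 4) - 20 / 1000)) := by
  rcases hc with rfl | rfl
  · -- one proper slot
    have hr1 : 10 ≤ |r| := by
      have : ((10 : ℤ) : ℝ) ≤ ((|r| : ℤ) : ℝ) := by
        push_cast
        linarith
      exact_mod_cast this
    have hr0 : (0 : ℝ) < (r : ℝ) ^ 2 := by
      rw [← sq_abs]
      have : (0 : ℝ) < |(r : ℝ)| := by linarith
      positivity
    have hY1 : Y ≤ 3 / (10 * (r : ℝ) ^ 2) := by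
      refine hY'.trans (le_of_eq ?_)
      field_simp
    obtain ⟨C, hC, D, h⟩ := PP_FL r hr1 n hn Y hY hY1
    refine ⟨C, hC, D, fun M k1 k2 l1 l2 hw u u' hns hu hu' => ?_⟩
    have hMpos : 0 < M := by have := hw.big; omega
    rw [mul_one]
    rcases u with _ | k
    · rcases u' with _ | k'
      · simp [ns] at hns
      · obtain ⟨e1, e2, -, -⟩ := SideN_PP r n M hMpos ((yk n M k' : ℝ) : ℂ) (rho n M l2) Y
        simp only [Option.map_none, Option.map_some]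
        rw [e1, e2]
        have := h M k1 k2 l1 l2 k' hw (hu' k' rfl).1 (hu' k' rfl).2
        simpa [es] using this
    · rcases u' with _ | k'
      · obtain ⟨-, -, e1, e2⟩ := SideN_PP r n M hMpos ((yk n M k : ℝ) : ℂ) (rho n M l2) Y
        simp only [Option.map_none, Option.map_some]
        rw [e1, e2]
        have := h M k1 k2 l1 l2 k hw (hu k rfl).1 (hu k rfl).2
        simpa [es] using this
      · simp [ns] at hns
  · -- two proper slots
    have hr1 : 20 ≤ |r| := by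
      have : ((20 : ℤ) : ℝ) ≤ ((|r| : ℤ) : ℝ) := by
        push_cast
        linarith
      exact_mod_cast this
    have hr0 : (0 : ℝ) < (r : ℝ) ^ 2 := by
      rw [← sq_abs]
      have : (0 : ℝ) < |(r : ℝ)| := by linarith
      positivity
    have hY1 : Y ≤ 6 / (10 * (r : ℝ) ^ 2) := by
      refine hY'.trans (le_of_eq ?_)
      field_simp
      norm_num
    obtain ⟨C, hC, D, h⟩ := SideN_two r hr1 n hn Y hY hY1
    refine ⟨C, hC, D, fun M k1 k2 l1 l2 hw u u' hns hu hu' => ?_⟩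
    rcases u with _ | k
    · rcases u' with _ | k'
      · simp [ns] at hns
      · simp only [ns] at hns
        norm_num at hns
    · rcases u' with _ | k'
      · simp only [ns] at hns
        norm_num at hns
      · simp only [Option.map_some]
        have := h M k1 k2 l1 l2 k k' hw (hu k rfl).1 (hu k rfl).2 (hu' k' rfl).1 (hu' k' rfl).2
        rw [show (4 : ℝ) * 2 = 8 by norm_num]
        exact this

end Pool.Agent.H63.VC4
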