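import Pool.Agent.H63.VC4.FLmainN
import Pool.Agent.H63.VC4.RSP
import Pool.Agent.H63.VC4.SideN

/-! # Reduction to the main integral -/

namespace Pool.Agent.H63.VC4

open Pool.Agent.H63.VC Pool.Agent.H63.VC3 Complex
open scoped BigOperators

theorem ReduceN_norm_Th0 (n M : ℕ) : ‖Th0 n M‖ = 1 := by
  unfold Th0
  rw [norm_mul, norm_pow, norm_neg, norm_neg, norm_one, one_pow, Complex.norm_I, one_mul]

theorem ReduceN_mono {C C' : ℝ} {D D' : ℕ} {M : ℕ} {E E' f : ℝ} (hM : 1 ≤ M) (hC0 : 0 ≤ C)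
    (hC : C ≤ C') (hD : D ≤ D') (hE : 0 ≤ E) (hE' : E ≤ E') (h : f ≤ C * (M : ℝ) ^ D * E) :
    f ≤ C' * (M : ℝ) ^ D' * E' := by
  have hM1 : (1 : ℝ) ≤ M := by exact_mod_cast hM
  have h1 : (M : ℝ) ^ D ≤ (M : ℝ) ^ D' := pow_le_pow_right₀ hM1 hD
  have h2 : C * (M : ℝ) ^ D ≤ C' * (M : ℝ) ^ D' := by
    calc C * (M : ℝ) ^ D ≤ C' * (M : ℝ) ^ D := mul_le_mul_of_nonneg_right hC (by positivity)
      _ ≤ _ := mul_le_mul_of_nonneg_left h1 (hC0.trans hC)
  have h3 : 0 ≤ C' * (M : ℝ) ^ D' := by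
    have := hC0.trans hC
    positivity
  exact h.trans ((mul_le_mul_of_nonneg_right h2 hE).trans (mul_le_mul_of_nonneg_left hE' h3))

/-- Weighted products. -/
theorem ReduceN_prod_le {ι : Type*} (s : Finset ι) (a : ι → ℂ) (w X : ι → ℝ)
    (hw : ∀ i, 0 ≤ w i) (ha : ∀ i, w i * ‖a i‖ ≤ X i) :
    (∏ i ∈ s, w i) * ‖∏ i ∈ s, a i‖ ≤ ∏ i ∈ s, X i := by
  rw [_root_.norm_prod, ← Finset.prod_mul_distrib]
  exact Finset.prod_le_prod (fun i _ => mul_nonneg (hw i) (norm_nonneg _)) (fun i _ => ha i)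

/-- The difference of two weighted products. -/
theorem ReduceN_prod_diff {ι : Type*} [DecidableEq ι] (s : Finset ι) (a b : ι → ℂ)
    (w X : ι → ℝ) (δ : ℝ) (hw : ∀ i, 0 ≤ w i) (ha : ∀ i, w i * ‖a i‖ ≤ X i)
    (hb : ∀ i, w i * ‖b i‖ ≤ X i) (hab : ∀ i, w i * ‖a i - b i‖ ≤ δ * X i) :
    (∏ i ∈ s, w i) * ‖∏ i ∈ s, a i - ∏ i ∈ s, b i‖ ≤ s.card * (δ * ∏ i ∈ s, X i) := by
  induction s using Finset.induction_on with
  | empty => simp
  | insert k s hk ih =>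
    rw [Finset.prod_insert hk, Finset.prod_insert hk, Finset.prod_insert hk,
      Finset.prod_insert hk, Finset.card_insert_of_notMem hk]
    have hA := ReduceN_prod_le s a w X hw ha
    have hW : 0 ≤ ∏ i ∈ s, w i := Finset.prod_nonneg (fun i _ => hw i)
    have hX : ∀ i, 0 ≤ X i := fun i => le_trans (mul_nonneg (hw i) (norm_nonneg _)) (ha i)
    have hXs : 0 ≤ ∏ i ∈ s, X i := Finset.prod_nonneg (fun i _ => hX i)
    have e : a k * ∏ i ∈ s, a i - b k * ∏ i ∈ s, b i =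
        (a k - b k) * ∏ i ∈ s, a i + b k * (∏ i ∈ s, a i - ∏ i ∈ s, b i) := by ring
    have h1 : ‖a k * ∏ i ∈ s, a i - b k * ∏ i ∈ s, b i‖ ≤
        ‖a k - b k‖ * ‖∏ i ∈ s, a i‖ + ‖b k‖ * ‖∏ i ∈ s, a i - ∏ i ∈ s, b i‖ := by
      rw [e]
      refine (norm_add_le _ _).trans ?_
      rw [norm_mul, norm_mul]
    have hδ : 0 ≤ δ * X k := le_trans (mul_nonneg (hw k) (norm_nonneg _)) (hab k)
    calc w k * (∏ i ∈ s, w i) * ‖a k * ∏ i ∈ s, a i - b k * ∏ i ∈ s, b i‖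
        ≤ w k * (∏ i ∈ s, w i) * (‖a k - b k‖ * ‖∏ i ∈ s, a i‖ +
            ‖b k‖ * ‖∏ i ∈ s, a i - ∏ i ∈ s, b i‖) :=
          mul_le_mul_of_nonneg_left h1 (mul_nonneg (hw k) hW)
      _ = (w k * ‖a k - b k‖) * ((∏ i ∈ s, w i) * ‖∏ i ∈ s, a i‖) +
          (w k * ‖b k‖) * ((∏ i ∈ s, w i) * ‖∏ i ∈ s, a i - ∏ i ∈ s, b i‖) := by ring
      _ ≤ (δ * X k) * (∏ i ∈ s, X i) + X k * (s.card * (δ * ∏ i ∈ s, X i)) := by
          refine add_le_add ?_ ?_
          · exact mul_le_mul (hab k) hA (mul_nonneg hW (norm_nonneg _)) hδ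
          · exact mul_le_mul (hb k) ih (mul_nonneg hW (norm_nonneg _)) (hX k)
      _ = _ := by push_cast; ring

theorem ReduceN_Cc (n g M k : ℕ) (hn : 2 ≤ n) (hg : 1 ≤ g) (hgn : g ≤ n - 1)
    (hk : k + n ≤ M + 1) : ‖Cc n g M (yk n M k)‖ ≤ 2 ^ (2 * n - 4) * (S M k ^ 2) ^ 2 := by
  rw [Cc_yk n g M k hg hgn hk hn]
  have p0 : 0 < S M k := S_pos (by omega)
  have p1 : 0 < S M (k + (g - 1)) := S_pos (by omega)
  have p2 : 0 < S M (k + (n - g - 1)) := S_pos (by omega)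
  have p3 : 0 < S M (k + (n - 2)) := S_pos (by omega)
  have q1 : S M (k + (g - 1)) ≤ S M k * 2 ^ (g - 1) := by
    rw [add_comm]; exact S_shift_le M k (g - 1) (by omega)
  have q2 : S M (k + (n - g - 1)) ≤ S M k * 2 ^ (n - g - 1) := by
    rw [add_comm]; exact S_shift_le M k (n - g - 1) (by omega)
  have q3 : S M (k + (n - 2)) ≤ S M k * 2 ^ (n - 2) := by
    rw [add_comm]; exact S_shift_le M k (n - 2) (by omega)
  rw [norm_mul, norm_mul, norm_mul, Complex.norm_real, Complex.norm_real, Complex.norm_real,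
    Complex.norm_real, Real.norm_of_nonneg p0.le, Real.norm_of_nonneg p1.le,
    Real.norm_of_nonneg p2.le, Real.norm_of_nonneg p3.le]
  have e : (2 : ℝ) ^ (2 * n - 4) = 2 ^ (g - 1) * 2 ^ (n - g - 1) * 2 ^ (n - 2) := by
    rw [← pow_add, ← pow_add]
    congr 1
    omega
  rw [e]
  calc S M k * S M (k + (g - 1)) * S M (k + (n - g - 1)) * S M (k + (n - 2))
      ≤ S M k * (S M k * 2 ^ (g - 1)) * (S M k * 2 ^ (n - g - 1)) * (S M k * 2 ^ (n - 2)) := by
        gcongr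
    _ = _ := by ring

theorem ReduceN_es_nonneg (M : ℕ) (u : Option ℕ) : 0 ≤ es M u := by
  cases u with
  | none => exact zero_le_one
  | some k => exact sq_nonneg _

theorem ReduceN_W {m : ℕ} (n g M : ℕ) (hn : 2 ≤ n) (hg : 1 ≤ g) (hgn : g ≤ n - 1)
    (t : Fin m → ℕ) (ht : ∀ j, t j + n ≤ M + 1) :
    ‖∏ j, Cc n g M (yk n M (t j))‖ ≤ (2 ^ (2 * n - 4)) ^ m *
      ∏ i : Fin (m + 1), (es M (ext t i.castSucc) * es M (ext t i.succ)) := by
  rw [prod_slots t (es M) rfl, _root_.norm_prod]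
  have e : ((2 : ℝ) ^ (2 * n - 4)) ^ m = ∏ _j : Fin m, (2 : ℝ) ^ (2 * n - 4) := by
    rw [Finset.prod_const, Finset.card_univ, Fintype.card_fin]
  rw [e, ← Finset.prod_mul_distrib]
  exact Finset.prod_le_prod (fun j _ => norm_nonneg _)
    (fun j _ => ReduceN_Cc n g M (t j) hn hg hgn (ht j))

theorem ReduceN_eo_le (M : ℕ) (u : Option ℕ) : eo M u ≤ 4 * ns u * Fr (3 / 4) := by
  cases u with
  | none => simp [eo, ns]
  | some k =>
    show 4 * Fr (3 / 4) - (if 53 / 1000 ≤ |(k : ℝ) / M - 3 / 4| then 17 / 1000 else 0) ≤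
      4 * 1 * Fr (3 / 4)
    split_ifs <;> linarith

theorem ReduceN_nA {m : ℕ} (hm : 1 ≤ m) (i : Fin (m + 1)) : nA m i = 1 ∨ nA m i = 2 := by
  have h := nA_pos m hm i
  unfold nA at h ⊢
  by_cases h1 : i = 0
  · by_cases h2 : i = Fin.last m
    · rw [if_pos h1, if_pos h2] at h
      norm_num at h
    · rw [if_pos h1, if_neg h2]
      norm_num
  · by_cases h2 : i = Fin.last m
    · rw [if_neg h1, if_pos h2]
      norm_num
    · rw [if_neg h1, if_neg h2]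
      norm_num

theorem ReduceN_ext_mem {m : ℕ} (t : Fin m → ℕ) (p : ℕ → Prop) (h : ∀ j, p (t j))
    (i : Fin (m + 2)) : ∀ k ∈ ext t i, p k := by
  refine Fin.cases ?_ (fun i => ?_) i
  · intro k hk
    rw [ext_zero] at hk
    simp at hk
  · refine Fin.lastCases ?_ (fun i => ?_) i
    · intro k hk
      rw [ext_last_succ] at hk
      simp at hk
    · intro k hk
      rw [ext_mid] at hk
      simp at hk
      rw [← hk]
      exact h i

theorem ReduceN_ne_none {m : ℕ} (hm : 1 ≤ m) (t : Fin m → ℕ) (i : Fin (m + 1)) :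
    ext t i.castSucc ≠ none ∨ ext t i.succ ≠ none := by
  by_contra hcon
  push Not at hcon
  have h1 := ns_ext t i
  rw [hcon.1, hcon.2, ns_none] at h1
  have h2 := nA_pos m hm i
  linarith

/-- All the estimates for one region. -/
theorem ReduceN_region (r : ℤ) (c : ℝ) (hc : c = 1 ∨ c = 2) (hr : 10 * c ≤ |(r : ℝ)|) (n : ℕ)
    (hn : 2 ≤ n) (Y : ℝ) (hY : 0 < Y) (hY' : Y ≤ 3 / 10 * c / (r : ℝ) ^ 2) :
    ∃ C : ℝ, 0 < C ∧ ∃ D : ℕ, ∀ M k1 k2 l1 l2 : ℕ, Win n M k1 k2 l1 l2 → ∀ u u' : Option ℕ,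
    (u ≠ none ∨ u' ≠ none) →
    ns u + ns u' = c → (∀ t ∈ u, k1 ≤ t ∧ t ≤ k2) → (∀ t ∈ u', k1 ≤ t ∧ t ≤ k2) →
    es M u * es M u' * ‖RSo r n M u u'‖ ≤
      C * (M : ℝ) ^ D * Real.exp (M * (4 * c * Fr (3 / 4))) ∧
    es M u * es M u' * ‖-(Th0 n M * c1 n M ^ r * M *
      FLo r n M (u.map fun k => ((yk n M k : ℝ) : ℂ)) (u'.map fun k => ((yk n M k : ℝ) : ℂ))
        (rho n M l2) Y)‖ ≤
      C * (M : ℝ) ^ D * Real.exp (M * (4 * c * Fr (3 / 4))) ∧
    es M u * es M u' * ‖RSo r n M u u' - -(Th0 n M * c1 n M ^ r * M *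
      FLo r n M (u.map fun k => ((yk n M k : ℝ) : ℂ)) (u'.map fun k => ((yk n M k : ℝ) : ℂ))
        (rho n M l2) Y)‖ ≤
      Real.exp (-(M * (20 / 1000))) *
        (C * (M : ℝ) ^ D * Real.exp (M * (4 * c * Fr (3 / 4)))) := by
  have hc1 : 1 ≤ c := by rcases hc with h | h <;> rw [h] <;> norm_num
  have hr0 : r ≠ 0 := by
    rintro rfl
    rw [Int.cast_zero, abs_zero] at hr
    linarith
  obtain ⟨C1, hC1, D1, h1⟩ := RSo_bound r hr0 n hn
  obtain ⟨C2, hC2, D2, h2⟩ := RSo_PP r hr0 n hn Y hY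
  obtain ⟨C3, hC3, D3, h3⟩ := PPo_FLo r c hc hr n hn Y hY hY'
  refine ⟨C1 + C2 + C3, by positivity, D1 + D2 + D3 + 1, ?_⟩
  intro M k1 k2 l1 l2 hwin u u' huu hns hu hu'
  obtain ⟨f1, f2, f3, f4, f5, f6, f7⟩ := win_facts n M k1 k2 l1 l2 hn hwin
  have hM : 2 ≤ M := by have := hwin.big; omega
  have hM1 : (1 : ℝ) ≤ M := by exact_mod_cast (by omega : 1 ≤ M)
  have b1 := h1 M hM u u' huu (fun t ht => by have := (hu t ht).2; omega)
    (fun t ht => by have := (hu' t ht).2; omega)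
  have b2 := h2 M k1 k2 l1 l2 hwin u u' huu hu hu'
  have b3 := h3 M k1 k2 l1 l2 hwin u u' hns hu hu'
  obtain ⟨w, hw⟩ : ∃ w, w = es M u * es M u' := ⟨_, rfl⟩
  have hw0 : 0 ≤ w := by
    rw [hw]; exact mul_nonneg (ReduceN_es_nonneg M u) (ReduceN_es_nonneg M u')
  obtain ⟨R, hR⟩ : ∃ R, R = RSo r n M u u' := ⟨_, rfl⟩
  obtain ⟨P, hP⟩ : ∃ P, P = PPo r n M (u.map fun k => ((yk n M k : ℝ) : ℂ))
    (u'.map fun k => ((yk n M k : ℝ) : ℂ)) (rho n M l2) Y := ⟨_, rfl⟩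
  obtain ⟨F, hF⟩ : ∃ F, F = FLo r n M (u.map fun k => ((yk n M k : ℝ) : ℂ))
    (u'.map fun k => ((yk n M k : ℝ) : ℂ)) (rho n M l2) Y := ⟨_, rfl⟩
  obtain ⟨E, hE⟩ : ∃ E, E = Real.exp (M * (4 * c * Fr (3 / 4))) := ⟨_, rfl⟩
  obtain ⟨d, hd⟩ : ∃ d, d = Real.exp (-((M : ℝ) * (20 / 1000))) := ⟨_, rfl⟩
  have hE0 : 0 < E := by rw [hE]; exact Real.exp_pos _
  have hd0 : 0 < d := by rw [hd]; exact Real.exp_pos _
  have hd1 : d ≤ 1 := by
    rw [hd, Real.exp_le_one_iff]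
    have : 0 ≤ (M : ℝ) * (20 / 1000) := by positivity
    linarith
  rw [← hw, ← hR, ← hF, ← hE, ← hd]
  rw [← hw, ← hR] at b1
  rw [← hw, ← hR, ← hP] at b2
  rw [← hw, ← hP, ← hF] at b3
  -- the bound of the entry
  have b1' : w * ‖R‖ ≤ C1 * (M : ℝ) ^ D1 * E := by
    refine ReduceN_mono (by omega : 1 ≤ M) hC1.le le_rfl le_rfl (Real.exp_pos _).le ?_ b1
    rw [hE]
    apply Real.exp_le_exp.2
    apply mul_le_mul_of_nonneg_left _ (by linarith)
    have e1 := ReduceN_eo_le M u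
    have e2 := ReduceN_eo_le M u'
    calc eo M u + eo M u' ≤ 4 * ns u * Fr (3 / 4) + 4 * ns u' * Fr (3 / 4) := add_le_add e1 e2
      _ = 4 * (ns u + ns u') * Fr (3 / 4) := by ring
      _ = _ := by rw [hns]
  have hEd : Real.exp (M * (4 * c * Fr (3 / 4) - 20 / 1000)) = d * E := by
    rw [hE, hd, ← Real.exp_add]
    congr 1
    ring
  have b2' : w * ‖R + Th0 n M * c1 n M ^ r * M * P‖ ≤ C2 * (M : ℝ) ^ D2 * (d * E) := by
    refine ReduceN_mono (by omega : 1 ≤ M) hC2.le le_rfl le_rfl (Real.exp_pos _).le ?_ b2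
    rw [← hEd]
    apply Real.exp_le_exp.2
    apply mul_le_mul_of_nonneg_left _ (by linarith)
    rw [hns]
    linarith
  rw [hEd] at b3
  have hnorm : ‖Th0 n M * c1 n M ^ r * (M : ℂ)‖ = M := by
    rw [norm_mul, norm_mul, ReduceN_norm_Th0, norm_zpow, norm_c1, one_zpow, one_mul, one_mul,
      Complex.norm_natCast]
  have b4 : w * ‖R - -(Th0 n M * c1 n M ^ r * M * F)‖ ≤
      C2 * (M : ℝ) ^ D2 * (d * E) + M * (C3 * (M : ℝ) ^ D3 * (d * E)) := by
    have e : R - -(Th0 n M * c1 n M ^ r * M * F) = (R + Th0 n M * c1 n M ^ r * M * P) -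
        Th0 n M * c1 n M ^ r * M * (P - F) := by ring
    rw [e]
    calc w * ‖(R + Th0 n M * c1 n M ^ r * M * P) - Th0 n M * c1 n M ^ r * M * (P - F)‖
        ≤ w * (‖R + Th0 n M * c1 n M ^ r * M * P‖ + ‖Th0 n M * c1 n M ^ r * M * (P - F)‖) :=
          mul_le_mul_of_nonneg_left (norm_sub_le _ _) hw0
      _ = w * ‖R + Th0 n M * c1 n M ^ r * M * P‖ + M * (w * ‖P - F‖) := by
          rw [norm_mul, hnorm]; ring
      _ ≤ _ := add_le_add b2' (mul_le_mul_of_nonneg_left b3 (by linarith))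
  have b5 : C2 * (M : ℝ) ^ D2 * (d * E) + M * (C3 * (M : ℝ) ^ D3 * (d * E)) ≤
      (C2 + C3) * (M : ℝ) ^ (D1 + D2 + D3 + 1) * (d * E) := by
    have g1 : (M : ℝ) ^ D2 ≤ (M : ℝ) ^ (D1 + D2 + D3 + 1) :=
      pow_le_pow_right₀ hM1 (by omega)
    have g2 : (M : ℝ) * (M : ℝ) ^ D3 ≤ (M : ℝ) ^ (D1 + D2 + D3 + 1) := by
      rw [← pow_succ']
      exact pow_le_pow_right₀ hM1 (by omega)
    have hdE : 0 ≤ d * E := by positivity
    calc C2 * (M : ℝ) ^ D2 * (d * E) + M * (C3 * (M : ℝ) ^ D3 * (d * E))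
        = C2 * (M : ℝ) ^ D2 * (d * E) + C3 * ((M : ℝ) * (M : ℝ) ^ D3) * (d * E) := by ring
      _ ≤ C2 * (M : ℝ) ^ (D1 + D2 + D3 + 1) * (d * E) +
          C3 * (M : ℝ) ^ (D1 + D2 + D3 + 1) * (d * E) := by gcongr
      _ = _ := by ring
  have b6 : w * ‖R - -(Th0 n M * c1 n M ^ r * M * F)‖ ≤
      (C2 + C3) * (M : ℝ) ^ (D1 + D2 + D3 + 1) * (d * E) := b4.trans b5
  have hMp : (0 : ℝ) < (M : ℝ) ^ (D1 + D2 + D3 + 1) := by positivity
  have b7 : w * ‖R‖ ≤ C1 * (M : ℝ) ^ (D1 + D2 + D3 + 1) * E :=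
    ReduceN_mono (by omega : 1 ≤ M) hC1.le le_rfl (by omega) hE0.le le_rfl b1'
  refine ⟨?_, ?_, ?_⟩
  · refine b7.trans ?_
    gcongr
    linarith
  · have e : -(Th0 n M * c1 n M ^ r * M * F) = R - (R - -(Th0 n M * c1 n M ^ r * M * F)) := by
      ring
    rw [e]
    calc w * ‖R - (R - -(Th0 n M * c1 n M ^ r * M * F))‖
        ≤ w * (‖R‖ + ‖R - -(Th0 n M * c1 n M ^ r * M * F)‖) :=
          mul_le_mul_of_nonneg_left (norm_sub_le _ _) hw0
      _ = w * ‖R‖ + w * ‖R - -(Th0 n M * c1 n M ^ r * M * F)‖ := by ring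
      _ ≤ C1 * (M : ℝ) ^ (D1 + D2 + D3 + 1) * E +
          (C2 + C3) * (M : ℝ) ^ (D1 + D2 + D3 + 1) * (d * E) := add_le_add b7 b6
      _ ≤ C1 * (M : ℝ) ^ (D1 + D2 + D3 + 1) * E +
          (C2 + C3) * (M : ℝ) ^ (D1 + D2 + D3 + 1) * (1 * E) := by gcongr
      _ = _ := by ring
  · refine b6.trans ?_
    calc (C2 + C3) * (M : ℝ) ^ (D1 + D2 + D3 + 1) * (d * E)
        ≤ (C1 + C2 + C3) * (M : ℝ) ^ (D1 + D2 + D3 + 1) * (d * E) := by
          gcongr
          linarith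
      _ = _ := by ring

theorem ReduceN_zpow_sum {ι : Type*} [DecidableEq ι] (s : Finset ι) (c : ℂ) (hc : c ≠ 0)
    (f : ι → ℤ) : ∏ i ∈ s, c ^ (f i) = c ^ (∑ i ∈ s, f i) := by
  induction s using Finset.induction_on with
  | empty => simp
  | insert k s hk ih => rw [Finset.prod_insert hk, Finset.sum_insert hk, ih, zpow_add₀ hc]

theorem ReduceN_sum_nA (m : ℕ) : ∑ i, nA m i = 2 * m := by
  have h := sum_nA (m := m) (fun _ => (1 : ℝ))
  simp only [mul_one] at h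
  rw [h, Finset.sum_const, Finset.card_univ, Fintype.card_fin, nsmul_eq_mul]
  ring

theorem ReduceN_prodX (m : ℕ) (K M F : ℝ) :
    ∏ i : Fin (m + 1), (K * Real.exp (M * (4 * nA m i * F))) =
      K ^ (m + 1) * Real.exp (M * (8 * m * F)) := by
  rw [Finset.prod_mul_distrib, Finset.prod_const, Finset.card_univ, Fintype.card_fin,
    ← Real.exp_sum]
  congr 2
  have h := ReduceN_sum_nA m
  calc ∑ i, M * (4 * nA m i * F) = 4 * M * F * ∑ i, nA m i := by
        rw [Finset.mul_sum]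
        exact Finset.sum_congr rfl (fun i _ => by ring)
    _ = _ := by rw [h]; ring

/-- The total exponent if one of the vertices is outside of the window. -/
theorem ReduceN_out {m : ℕ} (M : ℕ) (t : Fin m → ℕ) (j0 : Fin m)
    (h : 53 / 1000 ≤ |(t j0 : ℝ) / M - 3 / 4|) :
    ∑ i : Fin (m + 1), (eo M (ext t i.castSucc) + eo M (ext t i.succ)) ≤
      8 * m * Fr (3 / 4) - 34 / 1000 := by
  rw [sum_slots t (fun _ u => eo M u) (fun _ => rfl)]
  calc ∑ j : Fin m, (eo M (some (t j)) + eo M (some (t j)))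
      ≤ ∑ j : Fin m, (8 * Fr (3 / 4) - if j = j0 then 34 / 1000 else 0) := by
        refine Finset.sum_le_sum (fun j _ => ?_)
        by_cases hj : j = j0
        · subst hj
          have e : eo M (some (t j)) = 4 * Fr (3 / 4) - 17 / 1000 := by
            show 4 * Fr (3 / 4) - (if 53 / 1000 ≤ |(t j : ℝ) / M - 3 / 4| then 17 / 1000 else 0) = _
            rw [if_pos h]
          rw [if_pos rfl, e]
          linarith
        · rw [if_neg hj]
          have := ReduceN_eo_le M (some (t j))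
          rw [ns_some] at this
          linarith
    _ = _ := by
        rw [Finset.sum_sub_distrib, Finset.sum_const, Finset.card_univ, Fintype.card_fin,
          nsmul_eq_mul, Finset.sum_ite_eq' Finset.univ j0 (fun _ => (34 / 1000 : ℝ)),
          if_pos (Finset.mem_univ _)]
        ring

theorem JC_main {m : ℕ} (r : Fin (m + 1) → ℤ) (y : Fin m → ℂ) (v : Fin (m + 1) → ℂ)
    (hc : CritN r y v) (n g : ℕ) (hn : 2 ≤ n) (hg : 1 ≤ g) (hgn : g ≤ n - 1) :
    ∃ C : ℝ, 0 < C ∧ ∃ D M0 : ℕ, ∀ M k1 k2 l1 l2 : ℕ, M0 ≤ M → Win n M k1 k2 l1 l2 →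
    ‖JC r n g M - (-(Th0 n M * M)) ^ (m + 1) * c1 n M ^ (∑ i, r i) *
      ((M : ℂ) ^ m * MI r n g M (fun j => (y j).im) (fun i => (v i).im)
      ((k1 + bt n) / M - 1 / 2) ((k2 + 1 + bt n) / M - 1 / 2) (rho n M l2))‖ ≤
      C * (M : ℝ) ^ D * Real.exp (M * ((VN r y v).re - 1 / 500)) := by
  have hm := hc.hm
  have hH := H_lowerN r y v hc
  obtain ⟨-, hl2, -⟩ := crit_locN r y v hc
  obtain ⟨H, hHd⟩ : ∃ H, H = (VN r y v).re := ⟨_, rfl⟩
  rw [← hHd] at hH ⊢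
  have hr0 : ∀ i, r i ≠ 0 := fun i h0 => by
    have h1 := hc.hr i
    have h2 := nA_pos m hm i
    rw [h0, Int.cast_zero, abs_zero] at h1
    linarith
  choose C1 hC1 D1 h1 using fun i => ReduceN_region (r i) (nA m i) (ReduceN_nA hm i) (hc.hr i)
    n hn (v i).im (hc.imv i) (hl2 i).2.2
  choose C2 hC2 D2 h2 using fun i => RSo_bound (r i) (hr0 i) n hn
  obtain ⟨C3, hC3, D3, M0, hF⟩ := FL_mainN r y v hc n g hn hg hgn
  rw [← hHd] at hF
  obtain ⟨C, hCd⟩ : ∃ C, C = ∑ i, (C1 i + C2 i) := ⟨_, rfl⟩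
  obtain ⟨D, hDd⟩ : ∃ D, D = ∑ i, (D1 i + D2 i) := ⟨_, rfl⟩
  have hCi : ∀ i, C1 i + C2 i ≤ C := fun i => by
    rw [hCd]
    exact Finset.single_le_sum (f := fun i => C1 i + C2 i)
      (fun j _ => (add_pos (hC1 j) (hC2 j)).le) (Finset.mem_univ i)
  have hDi : ∀ i, D1 i + D2 i ≤ D := fun i => by
    rw [hDd]
    exact Finset.single_le_sum (f := fun i => D1 i + D2 i)
      (fun j _ => Nat.zero_le _) (Finset.mem_univ i)
  have hCi1 : ∀ i, C1 i ≤ C := fun i => by have := hCi i; have := hC2 i; linarith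
  have hCi2 : ∀ i, C2 i ≤ C := fun i => by have := hCi i; have := hC1 i; linarith
  have hC : 0 < C := (hC1 0).trans_le (hCi1 0)
  obtain ⟨A, hAd⟩ : ∃ A : ℝ, A = ((2 : ℝ) ^ (2 * n - 4)) ^ m * C ^ (m + 1) := ⟨_, rfl⟩
  have hA : 0 < A := by rw [hAd]; positivity
  refine ⟨(m + 2) * A + C3, by positivity, m + (m + 1) + D * (m + 1) + D3, M0,
    fun M k1 k2 l1 l2 hM0 hwin => ?_⟩
  obtain ⟨f1, f2, f3, f4, f5, f6, f7⟩ := win_facts n M k1 k2 l1 l2 hn hwin
  have hM : 2 ≤ M := by have := hwin.big; omega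
  have hM1 : (1 : ℝ) ≤ M := by exact_mod_cast (by omega : 1 ≤ M)
  have hM00 : (0 : ℝ) < M := by linarith
  obtain ⟨E, hE⟩ : ∃ E, E = Real.exp (M * (H - 1 / 500)) := ⟨_, rfl⟩
  have hE0 : 0 < E := by rw [hE]; exact Real.exp_pos _
  have hFm := hF M k1 k2 l1 l2 hM0 hwin
  rw [← hE] at hFm ⊢
  obtain ⟨K, hK⟩ : ∃ K : ℝ, K = C * (M : ℝ) ^ D := ⟨_, rfl⟩
  have hK0 : 0 < K := by rw [hK]; positivity
  have hAK : ((2 : ℝ) ^ (2 * n - 4)) ^ m * K ^ (m + 1) = A * (M : ℝ) ^ (D * (m + 1)) := by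
    rw [hK, hAd, mul_pow, pow_mul (M : ℝ) D (m + 1)]
    ring
  have hc0 : c1 n M ≠ 0 := by
    intro h
    have := norm_c1 n M
    rw [h, norm_zero] at this
    exact zero_ne_one this
  obtain ⟨R, hR⟩ : ∃ R, R = Fintype.piFinset (fun _ : Fin m => Finset.range (M + 2 - n)) :=
    ⟨_, rfl⟩
  obtain ⟨W, hW⟩ : ∃ W, W = Fintype.piFinset (fun _ : Fin m => Finset.Icc k1 k2) := ⟨_, rfl⟩
  have hsub : W ⊆ R := by
    intro t ht
    rw [hW, Fintype.mem_piFinset] at ht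
    rw [hR, Fintype.mem_piFinset]
    intro j
    have := ht j
    rw [Finset.mem_Icc] at this
    rw [Finset.mem_range]
    omega
  have hcardR : (R.card : ℝ) ≤ (M : ℝ) ^ m := by
    rw [hR, Fintype.card_piFinset]
    simp only [Finset.card_range, Finset.prod_const, Finset.card_univ, Fintype.card_fin]
    push_cast
    exact pow_le_pow_left₀ (Nat.cast_nonneg _)
      (by exact_mod_cast (by omega : M + 2 - n ≤ M)) m
  have hcardW : (W.card : ℝ) ≤ (M : ℝ) ^ m :=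
    le_trans (by exact_mod_cast Finset.card_le_card hsub) hcardR
  have hcardD : ((R \ W).card : ℝ) ≤ (M : ℝ) ^ m :=
    le_trans (by exact_mod_cast Finset.card_le_card Finset.sdiff_subset) hcardR
  -- terms outside of the window
  have hout : ∀ t ∈ R \ W, ‖(∏ j, Cc n g M (yk n M (t j))) *
      ∏ i, RSo (r i) n M (ext t i.castSucc) (ext t i.succ)‖ ≤
        A * (M : ℝ) ^ (D * (m + 1)) * E := by
    intro t ht
    rw [Finset.mem_sdiff, hR, hW, Fintype.mem_piFinset, Fintype.mem_piFinset] at ht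
    obtain ⟨ht1, ht2⟩ := ht
    push Not at ht2
    obtain ⟨j0, hj0⟩ := ht2
    rw [Finset.mem_Icc] at hj0
    have h53 := f4 (t j0) (by omega)
    have htn : ∀ j, t j + n ≤ M + 1 := fun j => by
      have := ht1 j
      rw [Finset.mem_range] at this
      omega
    have hb : ∀ i : Fin (m + 1), es M (ext t i.castSucc) * es M (ext t i.succ) *
        ‖RSo (r i) n M (ext t i.castSucc) (ext t i.succ)‖ ≤
        K * Real.exp (M * (eo M (ext t i.castSucc) + eo M (ext t i.succ))) := by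
      intro i
      rw [hK]
      exact ReduceN_mono (by omega : 1 ≤ M) (hC2 i).le (hCi2 i)
        (le_trans (Nat.le_add_left _ _) (hDi i)) (Real.exp_pos _).le le_rfl
        (h2 i M hM _ _ (ReduceN_ne_none hm t i)
          (ReduceN_ext_mem t (fun k => k + n ≤ M + 1) htn _)
          (ReduceN_ext_mem t (fun k => k + n ≤ M + 1) htn _))
    have hp := ReduceN_prod_le Finset.univ
      (fun i : Fin (m + 1) => RSo (r i) n M (ext t i.castSucc) (ext t i.succ))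
      (fun i => es M (ext t i.castSucc) * es M (ext t i.succ))
      (fun i => K * Real.exp (M * (eo M (ext t i.castSucc) + eo M (ext t i.succ))))
      (fun i => mul_nonneg (ReduceN_es_nonneg M _) (ReduceN_es_nonneg M _)) hb
    have hX : ∏ i : Fin (m + 1),
        (K * Real.exp (M * (eo M (ext t i.castSucc) + eo M (ext t i.succ)))) ≤
        K ^ (m + 1) * E := by
      rw [Finset.prod_mul_distrib, Finset.prod_const, Finset.card_univ, Fintype.card_fin,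
        ← Real.exp_sum, ← Finset.mul_sum, hE]
      refine mul_le_mul_of_nonneg_left (Real.exp_le_exp.2 ?_) (by positivity)
      refine mul_le_mul_of_nonneg_left ?_ hM00.le
      have := ReduceN_out M t j0 h53
      linarith
    have hWt := ReduceN_W n g M hn hg hgn t htn
    rw [norm_mul]
    calc ‖∏ j, Cc n g M (yk n M (t j))‖ *
          ‖∏ i, RSo (r i) n M (ext t i.castSucc) (ext t i.succ)‖
        ≤ ((2 ^ (2 * n - 4)) ^ m *
            ∏ i : Fin (m + 1), (es M (ext t i.castSucc) * es M (ext t i.succ))) *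
          ‖∏ i, RSo (r i) n M (ext t i.castSucc) (ext t i.succ)‖ :=
          mul_le_mul_of_nonneg_right hWt (norm_nonneg _)
      _ = (2 ^ (2 * n - 4)) ^ m *
            ((∏ i : Fin (m + 1), (es M (ext t i.castSucc) * es M (ext t i.succ))) *
          ‖∏ i, RSo (r i) n M (ext t i.castSucc) (ext t i.succ)‖) := by ring
      _ ≤ (2 ^ (2 * n - 4)) ^ m * (K ^ (m + 1) * E) :=
          mul_le_mul_of_nonneg_left (hp.trans hX) (by positivity)
      _ = _ := by rw [← mul_assoc, hAK]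
  -- terms inside the window
  obtain ⟨pref, hpref⟩ : ∃ pref, pref = (-(Th0 n M * M)) ^ (m + 1) * c1 n M ^ (∑ i, r i) :=
    ⟨_, rfl⟩
  have hin : ∀ t ∈ W, ‖(∏ j, Cc n g M (yk n M (t j))) *
      (∏ i, RSo (r i) n M (ext t i.castSucc) (ext t i.succ)) -
      pref * ((∏ j, Cc n g M (yk n M (t j))) *
        ∏ i, FLo (r i) n M (ext (fun j => ((yk n M (t j) : ℝ) : ℂ)) i.castSucc)
          (ext (fun j => ((yk n M (t j) : ℝ) : ℂ)) i.succ) (rho n M l2) (v i).im)‖ ≤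
        (m + 1) * (A * (M : ℝ) ^ (D * (m + 1)) * E) := by
    intro t ht
    rw [hW, Fintype.mem_piFinset] at ht
    have htk : ∀ j, k1 ≤ t j ∧ t j ≤ k2 := fun j => by
      have := ht j
      rwa [Finset.mem_Icc] at this
    have htn : ∀ j, t j + n ≤ M + 1 := fun j => by have := (htk j).2; omega
    obtain ⟨a, ha⟩ : ∃ a : Fin (m + 1) → ℂ,
        a = fun i => RSo (r i) n M (ext t i.castSucc) (ext t i.succ) := ⟨_, rfl⟩
    obtain ⟨b, hb⟩ : ∃ b : Fin (m + 1) → ℂ, b = fun i => -(Th0 n M * c1 n M ^ (r i) * M *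
        FLo (r i) n M ((ext t i.castSucc).map fun k => ((yk n M k : ℝ) : ℂ))
          ((ext t i.succ).map fun k => ((yk n M k : ℝ) : ℂ)) (rho n M l2) (v i).im) := ⟨_, rfl⟩
    have hreg : ∀ i : Fin (m + 1),
        es M (ext t i.castSucc) * es M (ext t i.succ) * ‖a i‖ ≤
          K * Real.exp (M * (4 * nA m i * Fr (3 / 4))) ∧
        es M (ext t i.castSucc) * es M (ext t i.succ) * ‖b i‖ ≤
          K * Real.exp (M * (4 * nA m i * Fr (3 / 4))) ∧
        es M (ext t i.castSucc) * es M (ext t i.succ) * ‖a i - b i‖ ≤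
          Real.exp (-(M * (20 / 1000))) * (K * Real.exp (M * (4 * nA m i * Fr (3 / 4)))) := by
      intro i
      obtain ⟨e1, e2, e3⟩ := h1 i M k1 k2 l1 l2 hwin (ext t i.castSucc) (ext t i.succ)
        (ReduceN_ne_none hm t i) (ns_ext t i)
        (ReduceN_ext_mem t (fun k => k1 ≤ k ∧ k ≤ k2) htk _)
        (ReduceN_ext_mem t (fun k => k1 ≤ k ∧ k ≤ k2) htk _)
      have hDi1 : D1 i ≤ D := le_trans (Nat.le_add_right _ _) (hDi i)
      have e4 : C1 i * (M : ℝ) ^ D1 i * Real.exp (M * (4 * nA m i * Fr (3 / 4))) ≤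
          K * Real.exp (M * (4 * nA m i * Fr (3 / 4))) := by
        rw [hK]
        exact ReduceN_mono (by omega : 1 ≤ M) (hC1 i).le (hCi1 i) hDi1 (Real.exp_pos _).le
          le_rfl le_rfl
      rw [ha, hb]
      exact ⟨e1.trans e4, e2.trans e4,
        e3.trans (mul_le_mul_of_nonneg_left e4 (Real.exp_pos _).le)⟩
    have hd := ReduceN_prod_diff Finset.univ a b
      (fun i => es M (ext t i.castSucc) * es M (ext t i.succ))
      (fun i => K * Real.exp (M * (4 * nA m i * Fr (3 / 4))))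
      (Real.exp (-((M : ℝ) * (20 / 1000))))
      (fun i => mul_nonneg (ReduceN_es_nonneg M _) (ReduceN_es_nonneg M _))
      (fun i => (hreg i).1) (fun i => (hreg i).2.1) (fun i => (hreg i).2.2)
    rw [ReduceN_prodX, Finset.card_univ, Fintype.card_fin] at hd
    have hb2 : ∏ i, b i = pref *
        ∏ i, FLo (r i) n M (ext (fun j => ((yk n M (t j) : ℝ) : ℂ)) i.castSucc)
          (ext (fun j => ((yk n M (t j) : ℝ) : ℂ)) i.succ) (rho n M l2) (v i).im := by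
      rw [hpref, hb, ← ReduceN_zpow_sum Finset.univ (c1 n M) hc0 r]
      have e : (-(Th0 n M * (M : ℂ))) ^ (m + 1) = ∏ _i : Fin (m + 1), (-(Th0 n M * (M : ℂ))) := by
        rw [Finset.prod_const, Finset.card_univ, Fintype.card_fin]
      rw [e, ← Finset.prod_mul_distrib, ← Finset.prod_mul_distrib]
      refine Finset.prod_congr rfl (fun i _ => ?_)
      beta_reduce
      rw [← ext_map t (fun k => ((yk n M k : ℝ) : ℂ)) i.castSucc,
        ← ext_map t (fun k => ((yk n M k : ℝ) : ℂ)) i.succ]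
      ring
    have hexp : Real.exp (-((M : ℝ) * (20 / 1000))) *
        (K ^ (m + 1) * Real.exp (M * (8 * m * Fr (3 / 4)))) ≤ K ^ (m + 1) * E := by
      have e : Real.exp (-((M : ℝ) * (20 / 1000))) * Real.exp (M * (8 * m * Fr (3 / 4))) ≤ E := by
        rw [← Real.exp_add, hE]
        apply Real.exp_le_exp.2
        have e2 : -((M : ℝ) * (20 / 1000)) + M * (8 * m * Fr (3 / 4)) =
            M * (8 * m * Fr (3 / 4) - 20 / 1000) := by ring
        rw [e2]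
        refine mul_le_mul_of_nonneg_left ?_ hM00.le
        linarith
      calc _ = K ^ (m + 1) * (Real.exp (-((M : ℝ) * (20 / 1000))) *
            Real.exp (M * (8 * m * Fr (3 / 4)))) := by ring
        _ ≤ _ := mul_le_mul_of_nonneg_left e (by positivity)
    have hWt := ReduceN_W n g M hn hg hgn t htn
    have hsplit : (∏ j, Cc n g M (yk n M (t j))) *
      (∏ i, RSo (r i) n M (ext t i.castSucc) (ext t i.succ)) -
      pref * ((∏ j, Cc n g M (yk n M (t j))) *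
        ∏ i, FLo (r i) n M (ext (fun j => ((yk n M (t j) : ℝ) : ℂ)) i.castSucc)
          (ext (fun j => ((yk n M (t j) : ℝ) : ℂ)) i.succ) (rho n M l2) (v i).im) =
        (∏ j, Cc n g M (yk n M (t j))) * (∏ i, a i - ∏ i, b i) := by
      rw [hb2, ha]
      ring
    rw [hsplit, norm_mul]
    calc ‖∏ j, Cc n g M (yk n M (t j))‖ * ‖∏ i, a i - ∏ i, b i‖
        ≤ ((2 ^ (2 * n - 4)) ^ m *
            ∏ i : Fin (m + 1), (es M (ext t i.castSucc) * es M (ext t i.succ))) *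
          ‖∏ i, a i - ∏ i, b i‖ :=
          mul_le_mul_of_nonneg_right hWt (norm_nonneg _)
      _ = (2 ^ (2 * n - 4)) ^ m *
            ((∏ i : Fin (m + 1), (es M (ext t i.castSucc) * es M (ext t i.succ))) *
          ‖∏ i, a i - ∏ i, b i‖) := by ring
      _ ≤ (2 ^ (2 * n - 4)) ^ m * (((m + 1 : ℕ) : ℝ) * (K ^ (m + 1) * E)) := by
          refine mul_le_mul_of_nonneg_left (hd.trans ?_) (by positivity)
          exact mul_le_mul_of_nonneg_left hexp (Nat.cast_nonneg _)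
      _ = (m + 1) * (((2 ^ (2 * n - 4)) ^ m * K ^ (m + 1)) * E) := by push_cast; ring
      _ = _ := by rw [hAK]
  obtain ⟨MM, hMM⟩ : ∃ MM, MM = MI r n g M (fun j => (y j).im) (fun i => (v i).im)
      ((k1 + bt n) / M - 1 / 2) ((k2 + 1 + bt n) / M - 1 / 2) (rho n M l2) := ⟨_, rfl⟩
  rw [← hMM, ← hW] at hFm
  rw [← hMM, ← hpref]
  have hsplit : JC r n g M - pref * ((M : ℂ) ^ m * MM) =
      ∑ t ∈ R \ W, (∏ j, Cc n g M (yk n M (t j))) *
        (∏ i, RSo (r i) n M (ext t i.castSucc) (ext t i.succ)) +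
      ∑ t ∈ W, ((∏ j, Cc n g M (yk n M (t j))) *
        (∏ i, RSo (r i) n M (ext t i.castSucc) (ext t i.succ)) -
        pref * ((∏ j, Cc n g M (yk n M (t j))) *
        ∏ i, FLo (r i) n M (ext (fun j => ((yk n M (t j) : ℝ) : ℂ)) i.castSucc)
          (ext (fun j => ((yk n M (t j) : ℝ) : ℂ)) i.succ) (rho n M l2) (v i).im)) +
      pref * (∑ t ∈ W, (∏ j, Cc n g M (yk n M (t j))) *
        (∏ i, FLo (r i) n M (ext (fun j => ((yk n M (t j) : ℝ) : ℂ)) i.castSucc)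
          (ext (fun j => ((yk n M (t j) : ℝ) : ℂ)) i.succ) (rho n M l2) (v i).im) -
        (M : ℂ) ^ m * MM) := by
    unfold JC
    rw [← hR, ← Finset.sum_sdiff hsub, Finset.sum_sub_distrib, ← Finset.mul_sum]
    ring
  rw [hsplit]
  have hprefn : ‖pref‖ = (M : ℝ) ^ (m + 1) := by
    rw [hpref, norm_mul, norm_pow, norm_neg, norm_mul, ReduceN_norm_Th0, norm_zpow, norm_c1,
      one_zpow, one_mul, mul_one, Complex.norm_natCast]
  have hpow : ∀ a : ℕ, a ≤ m + (m + 1) + D * (m + 1) + D3 →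
      (M : ℝ) ^ a ≤ (M : ℝ) ^ (m + (m + 1) + D * (m + 1) + D3) := fun a h =>
    pow_le_pow_right₀ hM1 h
  have t1 : ‖∑ t ∈ R \ W, (∏ j, Cc n g M (yk n M (t j))) *
        (∏ i, RSo (r i) n M (ext t i.castSucc) (ext t i.succ))‖ ≤
      A * (M : ℝ) ^ (m + (m + 1) + D * (m + 1) + D3) * E := by
    calc _ ≤ ∑ t ∈ R \ W, A * (M : ℝ) ^ (D * (m + 1)) * E := norm_sum_le_of_le _ hout
      _ = ((R \ W).card : ℝ) * (A * (M : ℝ) ^ (D * (m + 1)) * E) := by
          rw [Finset.sum_const, nsmul_eq_mul]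
      _ ≤ (M : ℝ) ^ m * (A * (M : ℝ) ^ (D * (m + 1)) * E) :=
          mul_le_mul_of_nonneg_right hcardD (by positivity)
      _ = A * (M : ℝ) ^ (m + D * (m + 1)) * E := by rw [pow_add]; ring
      _ ≤ _ := by
          have := hpow (m + D * (m + 1)) (by omega)
          gcongr
  have t2 : ‖∑ t ∈ W, ((∏ j, Cc n g M (yk n M (t j))) *
        (∏ i, RSo (r i) n M (ext t i.castSucc) (ext t i.succ)) -
        pref * ((∏ j, Cc n g M (yk n M (t j))) *
        ∏ i, FLo (r i) n M (ext (fun j => ((yk n M (t j) : ℝ) : ℂ)) i.castSucc)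
          (ext (fun j => ((yk n M (t j) : ℝ) : ℂ)) i.succ) (rho n M l2) (v i).im))‖ ≤
      (m + 1) * A * (M : ℝ) ^ (m + (m + 1) + D * (m + 1) + D3) * E := by
    calc _ ≤ ∑ t ∈ W, (m + 1) * (A * (M : ℝ) ^ (D * (m + 1)) * E) := norm_sum_le_of_le _ hin
      _ = (W.card : ℝ) * ((m + 1) * (A * (M : ℝ) ^ (D * (m + 1)) * E)) := by
          rw [Finset.sum_const, nsmul_eq_mul]
      _ ≤ (M : ℝ) ^ m * ((m + 1) * (A * (M : ℝ) ^ (D * (m + 1)) * E)) :=
          mul_le_mul_of_nonneg_right hcardW (by positivity)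
      _ = (m + 1) * A * (M : ℝ) ^ (m + D * (m + 1)) * E := by rw [pow_add]; ring
      _ ≤ _ := by
          have := hpow (m + D * (m + 1)) (by omega)
          gcongr
  have t3 : ‖pref * (∑ t ∈ W, (∏ j, Cc n g M (yk n M (t j))) *
        (∏ i, FLo (r i) n M (ext (fun j => ((yk n M (t j) : ℝ) : ℂ)) i.castSucc)
          (ext (fun j => ((yk n M (t j) : ℝ) : ℂ)) i.succ) (rho n M l2) (v i).im) -
        (M : ℂ) ^ m * MM)‖ ≤
      C3 * (M : ℝ) ^ (m + (m + 1) + D * (m + 1) + D3) * E := by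
    rw [norm_mul, hprefn]
    calc _ ≤ (M : ℝ) ^ (m + 1) * (C3 * (M : ℝ) ^ D3 * E) :=
          mul_le_mul_of_nonneg_left hFm (by positivity)
      _ = C3 * (M : ℝ) ^ (m + 1 + D3) * E := by rw [pow_add _ (m + 1) D3]; ring
      _ ≤ _ := by
          have := hpow (m + 1 + D3) (by omega)
          gcongr
  calc _ ≤ A * (M : ℝ) ^ (m + (m + 1) + D * (m + 1) + D3) * E +
        (m + 1) * A * (M : ℝ) ^ (m + (m + 1) + D * (m + 1) + D3) * E +
        C3 * (M : ℝ) ^ (m + (m + 1) + D * (m + 1) + D3) * E :=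
        (norm_add_le _ _).trans (add_le_add ((norm_add_le _ _).trans (add_le_add t1 t2)) t3)
    _ = _ := by ring

end Pool.Agent.H63.VC4
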