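import Pool.Agent.H63.VC4.Defs
import Pool.Agent.H63.VC3.Conc

/-! # Concavity -/

namespace Pool.Agent.H63.VC4

open Pool.Agent.H63.VC Pool.Agent.H63.VC3 Complex
open scoped BigOperators

theorem ConcN_abs {m : ℕ} {r : Fin (m + 1) → ℤ} {y : Fin m → ℂ} {v : Fin (m + 1) → ℂ}
    (hc : CritN r y v) (i : Fin (m + 1)) : 10 ≤ |(r i : ℝ)| := by
  have h1 := hc.hr i
  have h2 := nA_pos m hc.hm i
  linarith

theorem ConcN_sq {m : ℕ} {r : Fin (m + 1) → ℤ} {y : Fin m → ℂ} {v : Fin (m + 1) → ℂ}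
    (hc : CritN r y v) (i : Fin (m + 1)) : 100 * nA m i ≤ (r i : ℝ) ^ 2 := by
  have h1 := hc.hr i
  have h2 := nA_pos m hc.hm i
  have h3 := ConcN_abs hc i
  rw [← sq_abs]
  nlinarith

theorem ConcN_ne {m : ℕ} {r : Fin (m + 1) → ℤ} {y : Fin m → ℂ} {v : Fin (m + 1) → ℂ}
    (hc : CritN r y v) (i : Fin (m + 1)) : (r i : ℝ) ≠ 0 := by
  intro h0
  have := ConcN_abs hc i
  rw [h0, abs_zero] at this
  norm_num at this

theorem ConcN_half {m : ℕ} {r : Fin (m + 1) → ℤ} {y : Fin m → ℂ} {v : Fin (m + 1) → ℂ}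
    (hc : CritN r y v) (i : Fin (m + 1)) : |-(1 / (2 * (r i : ℝ)))| ≤ 1 / 20 := by
  rw [abs_neg, abs_div, abs_one, abs_mul, abs_two]
  apply one_div_le_one_div_of_le (by norm_num)
  linarith [ConcN_abs hc i]

theorem ConcN_div {m : ℕ} {r : Fin (m + 1) → ℤ} {y : Fin m → ℂ} {v : Fin (m + 1) → ℂ}
    (hc : CritN r y v) (i : Fin (m + 1)) : 3 / 10 * nA m i / (r i : ℝ) ^ 2 ≤ 3 / 1000 := by
  have h1 := ConcN_sq hc i
  have h2 := nA_pos m hc.hm i
  rw [div_le_iff₀ (by linarith)]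
  linarith

theorem ConcN_sum {m : ℕ} {r : Fin (m + 1) → ℤ} {y : Fin m → ℂ} {v : Fin (m + 1) → ℂ}
    (hc : CritN r y v) :
    ∑ j : Fin m, (1 / (r j.castSucc : ℝ) ^ 2 + 1 / (r j.succ : ℝ) ^ 2) ≤ 1 / 50 := by
  have h := sum_nA (m := m) (fun i => 1 / (r i : ℝ) ^ 2)
  rw [← h]
  refine le_trans (le_of_eq (Finset.sum_congr rfl fun i _ => ?_)) hc.hs
  ring

theorem crit_locN {m : ℕ} (r : Fin (m + 1) → ℤ) (y : Fin m → ℂ) (v : Fin (m + 1) → ℂ)
    (hc : CritN r y v) :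
    (∀ j, |(y j).re - 1 / 4| ≤ 6 / 1000 ∧ |(y j).im| ≤ 6 / 1000) ∧
    (∀ i, |(v i).re| ≤ 53 / 1000 ∧ (v i).im ≤ 3 / 1000 ∧
      (v i).im ≤ 3 / 10 * nA m i / (r i : ℝ) ^ 2) ∧
    ∑ j, (y j).im ^ 2 ≤ 1 / 10000 := by
  have hsum := ConcN_sum hc
  have hpos : ∀ j : Fin m, 0 ≤ 1 / (r j.castSucc : ℝ) ^ 2 + 1 / (r j.succ : ℝ) ^ 2 :=
    fun j => by positivity
  have hone : ∀ j : Fin m, 1 / (r j.castSucc : ℝ) ^ 2 + 1 / (r j.succ : ℝ) ^ 2 ≤ 1 / 50 :=
    fun j => (Finset.single_le_sum (f := fun j : Fin m =>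
      1 / (r j.castSucc : ℝ) ^ 2 + 1 / (r j.succ : ℝ) ^ 2)
      (fun j _ => hpos j) (Finset.mem_univ j)).trans hsum
  have e : (1 / 4 : ℂ) = ((1 / 4 : ℝ) : ℂ) := by push_cast; rfl
  have him : ∀ j : Fin m, |(y j).im| ≤
      3 / 10 * (1 / (r j.castSucc : ℝ) ^ 2 + 1 / (r j.succ : ℝ) ^ 2) := by
    intro j
    have h2 := abs_im_le_norm (y j - 1 / 4)
    have hy := hc.bdy j
    rw [e] at h2 hy
    rw [sub_im, ofReal_im, sub_zero] at h2
    exact h2.trans hy
  have him' : ∀ j : Fin m, |(y j).im| ≤ 6 / 1000 := fun j => by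
    linarith [him j, hone j]
  refine ⟨fun j => ⟨?_, him' j⟩, fun i => ?_, ?_⟩
  · have h1 := abs_re_le_norm (y j - 1 / 4)
    have hy := hc.bdy j
    rw [e] at h1 hy
    rw [sub_re, ofReal_re] at h1
    linarith [hone j]
  · have e' : (1 / (2 * (r i : ℂ))) = ((1 / (2 * (r i : ℝ)) : ℝ) : ℂ) := by push_cast; rfl
    have h1 := abs_re_le_norm (v i + 1 / (2 * r i))
    have h2 := abs_im_le_norm (v i + 1 / (2 * r i))
    have hv := hc.bdv i
    rw [e'] at h1 h2 hv
    rw [add_re, ofReal_re] at h1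
    rw [add_im, ofReal_im, add_zero] at h2
    have h3 := ConcN_half hc i
    have h4 := ConcN_div hc i
    rw [abs_neg] at h3
    have h5 := abs_le.1 h3
    have h6 := abs_le.1 (h1.trans (hv.trans h4))
    refine ⟨abs_le.2 ⟨by linarith [h5.1, h6.1, h5.2, h6.2],
      by linarith [h5.1, h6.1, h5.2, h6.2]⟩, ?_, ?_⟩
    · exact (le_abs_self _).trans (h2.trans (hv.trans h4))
    · exact (le_abs_self _).trans (h2.trans hv)
  · have hj : ∀ j : Fin m, (y j).im ^ 2 ≤ 6 / 1000 * (3 / 10 *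
        (1 / (r j.castSucc : ℝ) ^ 2 + 1 / (r j.succ : ℝ) ^ 2)) := by
      intro j
      rw [← sq_abs, sq]
      exact mul_le_mul (him' j) (him j) (abs_nonneg _) (by norm_num)
    calc ∑ j, (y j).im ^ 2 ≤ ∑ j : Fin m, 6 / 1000 * (3 / 10 *
        (1 / (r j.castSucc : ℝ) ^ 2 + 1 / (r j.succ : ℝ) ^ 2)) :=
          Finset.sum_le_sum fun j _ => hj j
      _ = 6 / 1000 * (3 / 10 * ∑ j : Fin m,
          (1 / (r j.castSucc : ℝ) ^ 2 + 1 / (r j.succ : ℝ) ^ 2)) := by
          rw [← Finset.mul_sum, ← Finset.mul_sum]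
      _ ≤ 6 / 1000 * (3 / 10 * (1 / 50)) := by
          have := mul_le_mul_of_nonneg_left hsum (by norm_num : (0:ℝ) ≤ 3 / 10)
          exact mul_le_mul_of_nonneg_left this (by norm_num)
      _ ≤ 1 / 10000 := by norm_num

theorem ConcN_re (s t : ℝ) : ((s : ℂ) + t * I).re = s := by simp

theorem ConcN_im (s t : ℝ) : ((s : ℂ) + t * I).im = t := by simp

theorem ConcN_slot (y v : ℂ) (x a : ℝ) (h1 : |y.re - 1 / 4| ≤ 6 / 1000)
    (h2 : |y.im| ≤ 6 / 1000) (h3 : |v.re| ≤ 53 / 1000) (h4 : v.im ≤ 3 / 1000) (h5 : 0 < v.im)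
    (hx : |x - 1 / 4| ≤ 55 / 1000) (ha : |a| ≤ 15 / 100) :
    (po (some ((x : ℂ) + y.im * I)) (a + v.im * I)).re ≤ (po (some y) v).re +
      (a - v.re) * (dpo (some y) v).re - (x - y.re) * (hh (y - v) + hh (y + v)).re -
      1 / 5 * (a - v.re) ^ 2 := by
  obtain ⟨l1a, l1b⟩ := abs_le.1 h1
  obtain ⟨l2a, l2b⟩ := abs_le.1 h2
  obtain ⟨l3a, l3b⟩ := abs_le.1 h3
  obtain ⟨hxa, hxb⟩ := abs_le.1 hx
  obtain ⟨haa, hab⟩ := abs_le.1 ha
  have c1 := ff_horiz_left (y - v) ((x - y.re) - (a - v.re)) (by rw [sub_re]; linarith)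
    (by rw [sub_re]; linarith) (by rw [sub_re]; linarith) (by rw [sub_re]; linarith)
    (by rw [sub_im, abs_le]; constructor <;> linarith)
  have c2 := ff_horiz_left (y + v) ((x - y.re) + (a - v.re)) (by rw [add_re]; linarith)
    (by rw [add_re]; linarith) (by rw [add_re]; linarith) (by rw [add_re]; linarith)
    (by rw [add_im, abs_le]; constructor <;> linarith)
  have ey : y = (y.re : ℂ) + y.im * I := (re_add_im y).symm
  have ev : v = (v.re : ℂ) + v.im * I := (re_add_im v).symm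
  have e1 : y - v + ((x - y.re - (a - v.re) : ℝ) : ℂ) = x + y.im * I - (a + v.im * I) := by
    push_cast
    linear_combination ey - ev
  have e2 : y + v + ((x - y.re + (a - v.re) : ℝ) : ℂ) = x + y.im * I + (a + v.im * I) := by
    push_cast
    linear_combination ey + ev
  rw [e1] at c1
  rw [e2] at c2
  simp only [po, dpo, sub_re, add_re, neg_re]
  have hsq : 0 ≤ (x - y.re) ^ 2 := sq_nonneg _
  linarith

theorem ConcN_vertex (y : ℂ) (x : ℝ) (h1 : |y.re - 1 / 4| ≤ 6 / 1000)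
    (h2 : |y.im| ≤ 6 / 1000) (hx : |x - 1 / 4| ≤ 55 / 1000) :
    (4 * ff ((x : ℂ) + y.im * I + 1 / 2)).re ≤ (4 * ff (y + 1 / 2)).re +
      (x - y.re) * (4 * hh (y + 1 / 2)).re - 1 / 10 * (x - y.re) ^ 2 := by
  obtain ⟨l1a, l1b⟩ := abs_le.1 h1
  obtain ⟨l2a, l2b⟩ := abs_le.1 h2
  obtain ⟨hxa, hxb⟩ := abs_le.1 hx
  have eh : (1 / 2 : ℂ) = ((1 / 2 : ℝ) : ℂ) := by push_cast; rfl
  have rh : (y + 1 / 2).re = y.re + 1 / 2 := by rw [eh, add_re, ofReal_re]
  have ih : (y + 1 / 2).im = y.im := by rw [eh, add_im, ofReal_im, add_zero]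
  have c0 := ff_horiz_right (y + 1 / 2) (x - y.re) (by rw [rh]; linarith) (by rw [rh]; linarith)
    (by rw [rh]; linarith) (by rw [rh]; linarith) (by rw [ih, abs_le]; constructor <;> linarith)
  have ey : y = (y.re : ℂ) + y.im * I := (re_add_im y).symm
  have e0 : y + 1 / 2 + ((x - y.re : ℝ) : ℂ) = x + y.im * I + 1 / 2 := by
    push_cast
    linear_combination ey
  rw [e0] at c0
  have r4 : ∀ z : ℂ, (4 * z).re = 4 * z.re := fun z => by
    simp only [mul_re, re_ofNat, im_ofNat, zero_mul, sub_zero]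
  rw [r4, r4, r4]
  have hsq : 0 ≤ (x - y.re) ^ 2 := sq_nonneg _
  linarith

theorem ConcN_VN_re {m : ℕ} (r : Fin (m + 1) → ℤ) (y : Fin m → ℂ) (v : Fin (m + 1) → ℂ) :
    (VN r y v).re = ∑ j, (4 * ff (y j + 1 / 2)).re +
      ∑ i, (-(2 * Real.pi * (2 * r i * (v i).re * (v i).im + (v i).im)) +
        (po (ext y i.castSucc) (v i)).re + (po (ext y i.succ) (v i)).re) := by
  unfold VN WN
  rw [add_re, re_sum, re_sum]
  congr 1
  refine Finset.sum_congr rfl fun i _ => ?_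
  rw [add_re, add_re, Conc_phase]

theorem concN {m : ℕ} (r : Fin (m + 1) → ℤ) (y : Fin m → ℂ) (v : Fin (m + 1) → ℂ)
    (hc : CritN r y v) (x : Fin m → ℝ) (a : Fin (m + 1) → ℝ)
    (hx : ∀ j, |x j - 1 / 4| ≤ 55 / 1000) (ha : ∀ i, |a i| ≤ 15 / 100) :
    (VN r (fun j => x j + (y j).im * I) (fun i => a i + (v i).im * I)).re ≤ (VN r y v).re -
      1 / 10 * (∑ j, (x j - (y j).re) ^ 2 + ∑ i, (a i - (v i).re) ^ 2) := by
  obtain ⟨hy, hv, -⟩ := crit_locN r y v hc
  -- the linear terms in `y`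
  let D : Fin (m + 1) → Option (Fin m) → ℝ := fun i u =>
    match u with
    | none => 0
    | some j => (x j - (y j).re) * (hh (y j - v i) + hh (y j + v i)).re
  have hslot : ∀ (i : Fin (m + 1)) (u : Option (Fin m)),
      (po (u.map fun j => (x j : ℂ) + (y j).im * I) (a i + (v i).im * I)).re ≤
        (po (u.map y) (v i)).re + (a i - (v i).re) * (dpo (u.map y) (v i)).re - D i u -
        1 / 5 * ns u * (a i - (v i).re) ^ 2 := by
    intro i u
    cases u with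
    | none => simp [po, dpo, ns, D]
    | some j =>
      have h := ConcN_slot (y j) (v i) (x j) (a i) (hy j).1 (hy j).2 (hv i).1 (hv i).2.1
        (hc.imv i) (hx j) (ha i)
      simp only [Option.map_some, ns, mul_one]
      exact h
  have hX : ∀ k : Fin (m + 2), ext (fun j => (x j : ℂ) + (y j).im * I) k =
      (ext (fun j : Fin m => j) k).map fun j => (x j : ℂ) + (y j).im * I := fun k =>
    ext_map (fun j : Fin m => j) (fun j => (x j : ℂ) + (y j).im * I) k
  have hY : ∀ k : Fin (m + 2), ext y k = (ext (fun j : Fin m => j) k).map y := fun k =>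
    ext_map (fun j : Fin m => j) y k
  have hreg : ∀ i : Fin (m + 1),
      (-(2 * Real.pi * (2 * r i * a i * (v i).im + (v i).im)) +
        (po (ext (fun j => (x j : ℂ) + (y j).im * I) i.castSucc) (a i + (v i).im * I)).re +
        (po (ext (fun j => (x j : ℂ) + (y j).im * I) i.succ) (a i + (v i).im * I)).re) ≤
      (-(2 * Real.pi * (2 * r i * (v i).re * (v i).im + (v i).im)) +
        (po (ext y i.castSucc) (v i)).re + (po (ext y i.succ) (v i)).re) -
      (D i (ext (fun j : Fin m => j) i.castSucc) + D i (ext (fun j : Fin m => j) i.succ)) -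
      1 / 10 * (a i - (v i).re) ^ 2 := by
    intro i
    have h1 := hslot i (ext (fun j : Fin m => j) i.castSucc)
    have h2 := hslot i (ext (fun j : Fin m => j) i.succ)
    rw [← hX, ← hY] at h1 h2
    have hns := ns_ext (fun j : Fin m => j) i
    have hnA := nA_pos m hc.hm i
    have k2 := congrArg Complex.re (hc.ev i)
    rw [add_re, add_re, Conc_lin, zero_re] at k2
    have k2' := congrArg (fun s => (a i - (v i).re) * s) k2
    have hsq : 0 ≤ (a i - (v i).re) ^ 2 := sq_nonneg _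
    have h3 : (a i - (v i).re) ^ 2 ≤ (ns (ext (fun j : Fin m => j) i.castSucc) +
        ns (ext (fun j : Fin m => j) i.succ)) * (a i - (v i).re) ^ 2 := by
      rw [hns]; nlinarith
    linarith
  have hsumD : ∑ i : Fin (m + 1), (D i (ext (fun j : Fin m => j) i.castSucc) +
      D i (ext (fun j : Fin m => j) i.succ)) =
      ∑ j, (x j - (y j).re) * (4 * hh (y j + 1 / 2)).re := by
    rw [sum_slots (fun j : Fin m => j) D (fun i => rfl)]
    refine Finset.sum_congr rfl fun j _ => ?_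
    rw [hc.ey j]
    simp only [D, add_re]
    ring
  have hver : ∑ j, (4 * ff ((x j : ℂ) + (y j).im * I + 1 / 2)).re ≤
      ∑ j, (4 * ff (y j + 1 / 2)).re + ∑ j, (x j - (y j).re) * (4 * hh (y j + 1 / 2)).re -
      1 / 10 * ∑ j, (x j - (y j).re) ^ 2 := by
    rw [Finset.mul_sum, ← Finset.sum_add_distrib, ← Finset.sum_sub_distrib]
    exact Finset.sum_le_sum fun j _ => ConcN_vertex (y j) (x j) (hy j).1 (hy j).2 (hx j)
  have hregs := Finset.sum_le_sum fun i (_ : i ∈ (Finset.univ : Finset (Fin (m + 1)))) => hreg i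
  rw [Finset.sum_sub_distrib, Finset.sum_sub_distrib, hsumD, ← Finset.mul_sum] at hregs
  rw [ConcN_VN_re, ConcN_VN_re]
  simp only [ConcN_re, ConcN_im]
  linarith

theorem H_lowerN {m : ℕ} (r : Fin (m + 1) → ℤ) (y : Fin m → ℂ) (v : Fin (m + 1) → ℂ)
    (hc : CritN r y v) : 8 * m * Fr (3 / 4) - 1667 / 100000 ≤ (VN r y v).re := by
  obtain ⟨hy, hv, -⟩ := crit_locN r y v hc
  have h := concN r y v hc (fun _ => 1 / 4) (fun i => -(1 / (2 * (r i : ℝ))))
    (fun j => by norm_num) (fun i => (ConcN_half hc i).trans (by norm_num))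
  have hq : 0 ≤ 1 / 10 * (∑ j, ((fun _ => (1 : ℝ) / 4) j - (y j).re) ^ 2 +
      ∑ i, ((fun i => -(1 / (2 * (r i : ℝ)))) i - (v i).re) ^ 2) := by positivity
  refine le_trans ?_ (le_trans h (by linarith))
  rw [ConcN_VN_re]
  simp only [ConcN_re, ConcN_im]
  -- vertices
  have hver : ∀ j : Fin m, 4 * Fr (3 / 4) ≤
      (4 * ff (((1 / 4 : ℝ) : ℂ) + (y j).im * I + 1 / 2)).re := by
    intro j
    have g0 := (ff_vert_right (3 / 4) (y j).im (by norm_num) (by norm_num)).1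
    have e0 : (((3 / 4 : ℝ)) : ℂ) + (y j).im * I = ((1 / 4 : ℝ) : ℂ) + (y j).im * I + 1 / 2 := by
      push_cast; ring
    rw [e0] at g0
    have r4 : ∀ z : ℂ, (4 * z).re = 4 * z.re := fun z => by
      simp only [mul_re, re_ofNat, im_ofNat, zero_mul, sub_zero]
    rw [r4]
    linarith
  -- slots
  have hslot : ∀ (i : Fin (m + 1)) (u : Option (Fin m)),
      ns u * (2 * Fr (3 / 4) - 53 / 200 * Real.pi * (1 / (r i : ℝ) ^ 2)) ≤
      (po (u.map fun j => ((1 / 4 : ℝ) : ℂ) + (y j).im * I)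
        ((-(1 / (2 * (r i : ℝ))) : ℝ) + (v i).im * I)).re := by
    intro i u
    cases u with
    | none => simp [po, ns]
    | some j =>
      obtain ⟨b, hb⟩ : ∃ b, b = -(1 / (2 * (r i : ℝ))) := ⟨_, rfl⟩
      have s1 := ConcN_half hc i
      have hne := ConcN_ne hc i
      have hb2 : b ^ 2 = 1 / 4 * (1 / (r i : ℝ) ^ 2) := by rw [hb]; field_simp; norm_num
      rw [← hb] at s1 ⊢
      obtain ⟨a1, a2⟩ := abs_le.1 s1
      have g1 := (ff_vert_left (1 / 4 - b) ((y j).im - (v i).im) (by linarith) (by linarith)).2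
      have g2 := (ff_vert_left (1 / 4 + b) ((y j).im + (v i).im) (by linarith) (by linarith)).2
      have f1 := Fr_quarter b s1
      have e1 : ((1 / 4 - b : ℝ) : ℂ) + ((y j).im - (v i).im : ℝ) * I =
          ((1 / 4 : ℝ) : ℂ) + (y j).im * I - (b + (v i).im * I) := by
        push_cast; ring
      have e2 : ((1 / 4 + b : ℝ) : ℂ) + ((y j).im + (v i).im : ℝ) * I =
          ((1 / 4 : ℝ) : ℂ) + (y j).im * I + (b + (v i).im * I) := by
        push_cast; ring
      rw [e1] at g1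
      rw [e2] at g2
      rw [hb2] at f1
      simp only [Option.map_some, ns, one_mul, po, sub_re, neg_re]
      linarith
  have hX : ∀ k : Fin (m + 2), ext (fun j => ((1 / 4 : ℝ) : ℂ) + (y j).im * I) k =
      (ext (fun j : Fin m => j) k).map fun j => ((1 / 4 : ℝ) : ℂ) + (y j).im * I := fun k =>
    ext_map (fun j : Fin m => j) (fun j => ((1 / 4 : ℝ) : ℂ) + (y j).im * I) k
  have hreg : ∀ i : Fin (m + 1),
      nA m i * (2 * Fr (3 / 4) - 53 / 200 * Real.pi * (1 / (r i : ℝ) ^ 2)) ≤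
      (-(2 * Real.pi * (2 * r i * -(1 / (2 * (r i : ℝ))) * (v i).im + (v i).im)) +
        (po (ext (fun j => ((1 / 4 : ℝ) : ℂ) + (y j).im * I) i.castSucc)
          ((-(1 / (2 * (r i : ℝ))) : ℝ) + (v i).im * I)).re +
        (po (ext (fun j => ((1 / 4 : ℝ) : ℂ) + (y j).im * I) i.succ)
          ((-(1 / (2 * (r i : ℝ))) : ℝ) + (v i).im * I)).re) := by
    intro i
    have h1 := hslot i (ext (fun j : Fin m => j) i.castSucc)
    have h2 := hslot i (ext (fun j : Fin m => j) i.succ)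
    rw [← hX] at h1 h2
    have hns := ns_ext (fun j : Fin m => j) i
    have hne := ConcN_ne hc i
    have hph : 2 * (r i : ℝ) * -(1 / (2 * (r i : ℝ))) = -1 := by field_simp
    rw [hph, ← hns]
    linarith
  have hsum1 := Finset.sum_le_sum fun j (_ : j ∈ (Finset.univ : Finset (Fin m))) => hver j
  have hsum2 := Finset.sum_le_sum fun i (_ : i ∈ (Finset.univ : Finset (Fin (m + 1)))) => hreg i
  rw [Finset.sum_const, Finset.card_univ, Fintype.card_fin, nsmul_eq_mul] at hsum1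
  have hA : ∑ i : Fin (m + 1), nA m i * (2 * Fr (3 / 4) - 53 / 200 * Real.pi *
      (1 / (r i : ℝ) ^ 2)) = 4 * m * Fr (3 / 4) -
      53 / 200 * Real.pi * ∑ i, nA m i / (r i : ℝ) ^ 2 := by
    have h1 := sum_nA (m := m) (fun _ => (1 : ℝ))
    have h2 : ∑ i : Fin (m + 1), nA m i = 2 * m := by
      simp only [mul_one] at h1
      rw [h1, Finset.sum_const, Finset.card_univ, Fintype.card_fin, nsmul_eq_mul]
      ring
    calc ∑ i : Fin (m + 1), nA m i * (2 * Fr (3 / 4) - 53 / 200 * Real.pi *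
        (1 / (r i : ℝ) ^ 2)) = ∑ i : Fin (m + 1), (nA m i * (2 * Fr (3 / 4)) -
          53 / 200 * Real.pi * (nA m i / (r i : ℝ) ^ 2)) :=
          Finset.sum_congr rfl fun i _ => by ring
      _ = _ := by
          rw [Finset.sum_sub_distrib, ← Finset.sum_mul, ← Finset.mul_sum, h2]
          ring
  rw [hA] at hsum2
  have hpi := Real.pi_lt_d4
  have hpi0 := Real.pi_pos
  have hS0 : 0 ≤ ∑ i, nA m i / (r i : ℝ) ^ 2 :=
    Finset.sum_nonneg fun i _ => div_nonneg (nA_nonneg m i) (sq_nonneg _)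
  have hsm : 53 / 200 * Real.pi * ∑ i, nA m i / (r i : ℝ) ^ 2 ≤ 1667 / 100000 := by
    calc 53 / 200 * Real.pi * ∑ i, nA m i / (r i : ℝ) ^ 2 ≤ 53 / 200 * 3.1416 * (1 / 50) := by
          apply mul_le_mul
          · linarith
          · exact hc.hs
          · exact hS0
          · norm_num
      _ ≤ 1667 / 100000 := by norm_num
  linarith

end Pool.Agent.H63.VC4
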