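import Pool.Agent.H63.VC4.Hybrid
import Pool.Agent.H63.VC4.KBN
import Pool.Agent.H63.VC4.UpperN
import Pool.Agent.H63.VC4.ConcN
import Pool.Agent.H63.VC3.WinFacts

/-! # The sums over the vertices -/

namespace Pool.Agent.H63.VC4

open Pool.Agent.H63.VC Pool.Agent.H63.VC3 Complex
open scoped BigOperators

/-! ### Integrals over boxes -/

open MeasureTheory in
/-- Fubini for the box. -/
lemma FLmainN_fubini {m p : ℕ} (y1 y2 ρ : ℝ) (G : (Fin m → ℝ) × (Fin p → ℝ) → ℂ)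
    (hG : IntegrableOn G ((Set.pi Set.univ (fun _ : Fin m => Set.Ioc y1 y2)) ×ˢ
      (Set.pi Set.univ (fun _ : Fin p => Set.Ioc (-ρ) ρ)))) :
    ∫ z in (Set.pi Set.univ (Sum.elim (fun _ => Set.Ioc y1 y2) (fun _ => Set.Ioc (-ρ) ρ)) :
      Set (Fin m ⊕ Fin p → ℝ)), G (fun j => z (Sum.inl j), fun i => z (Sum.inr i)) =
    ∫ a in Set.pi Set.univ (fun _ : Fin p => Set.Ioc (-ρ) ρ),
      ∫ x in Set.pi Set.univ (fun _ : Fin m => Set.Ioc y1 y2), G (x, a) := by
  have h1 := volume_measurePreserving_sumPiEquivProdPi (fun _ : Fin m ⊕ Fin p => ℝ)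
  have h2 := h1.setIntegral_preimage_emb (MeasurableEquiv.measurableEmbedding _) G
    ((Set.pi Set.univ (fun _ : Fin m => Set.Ioc y1 y2)) ×ˢ
      (Set.pi Set.univ (fun _ : Fin p => Set.Ioc (-ρ) ρ)))
  have h3 : (MeasurableEquiv.sumPiEquivProdPi (fun _ : Fin m ⊕ Fin p => ℝ)) ⁻¹'
      ((Set.pi Set.univ (fun _ : Fin m => Set.Ioc y1 y2)) ×ˢ
      (Set.pi Set.univ (fun _ : Fin p => Set.Ioc (-ρ) ρ))) =
      Set.pi Set.univ (Sum.elim (fun _ => Set.Ioc y1 y2) (fun _ => Set.Ioc (-ρ) ρ)) := by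
    ext z
    simp only [Set.mem_preimage, Set.mem_prod, Set.mem_univ_pi, Sum.forall, Sum.elim_inl,
      Sum.elim_inr]
    rfl
  rw [h3] at h2
  refine Eq.trans ?_ (h2.trans ?_)
  · rfl
  · rw [IntegrableOn, Measure.volume_eq_prod, ← Measure.prod_restrict] at hG
    rw [Measure.volume_eq_prod, ← Measure.prod_restrict]
    exact integral_prod_symm _ hG

open MeasureTheory in
lemma FLmainN_fubini_int {m p : ℕ} (y1 y2 ρ : ℝ) (G : (Fin m → ℝ) × (Fin p → ℝ) → ℂ)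
    (hG : IntegrableOn G ((Set.pi Set.univ (fun _ : Fin m => Set.Ioc y1 y2)) ×ˢ
      (Set.pi Set.univ (fun _ : Fin p => Set.Ioc (-ρ) ρ)))) :
    IntegrableOn (fun a => ∫ x in Set.pi Set.univ (fun _ : Fin m => Set.Ioc y1 y2), G (x, a))
      (Set.pi Set.univ (fun _ : Fin p => Set.Ioc (-ρ) ρ)) := by
  rw [IntegrableOn, Measure.volume_eq_prod, ← Measure.prod_restrict] at hG
  exact hG.integral_prod_right

open MeasureTheory in
/-- A product of integrals. -/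
lemma FLmainN_prod {p : ℕ} (ρ : ℝ) (hρ : 0 ≤ ρ) (f : Fin p → ℝ → ℂ) :
    ∏ i, ∫ a in (-ρ)..ρ, f i a =
      ∫ a in Set.pi Set.univ (fun _ : Fin p => Set.Ioc (-ρ) ρ), ∏ i, f i (a i) := by
  have h1 := integral_fintype_prod_eq_prod (ι := Fin p) (𝕜 := ℂ) f
    (μ := fun _ => (volume : Measure ℝ).restrict (Set.Ioc (-ρ) ρ))
  rw [volume_pi, Measure.restrict_pi_pi, h1]
  refine Finset.prod_congr rfl fun i _ => ?_
  rw [intervalIntegral.integral_of_le (by linarith)]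

open MeasureTheory in
lemma FLmainN_prod_int {p : ℕ} (ρ : ℝ) (f : Fin p → ℝ → ℂ)
    (hf : ∀ i, ContinuousOn (f i) (Set.Icc (-ρ) ρ)) :
    IntegrableOn (fun a : Fin p → ℝ => ∏ i, f i (a i))
      (Set.pi Set.univ (fun _ : Fin p => Set.Ioc (-ρ) ρ)) := by
  rw [IntegrableOn, volume_pi, Measure.restrict_pi_pi]
  exact Integrable.fintype_prod fun i => ((hf i).integrableOn_Icc).mono_set Set.Ioc_subset_Icc_self

open MeasureTheory in
/-- The difference of a sum and of an integral. -/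
lemma FLmainN_diff {m p : ℕ} (y1 y2 ρ : ℝ) (hρ : 0 ≤ ρ) (hρ1 : 2 * ρ ≤ 1)
    (T : Finset (Fin m → ℕ)) (c : (Fin m → ℕ) → ℂ) (f : (Fin m → ℕ) → Fin p → ℝ → ℂ)
    (hf : ∀ t ∈ T, ∀ i, ContinuousOn (f t i) (Set.Icc (-ρ) ρ))
    (G : (Fin m → ℝ) × (Fin p → ℝ) → ℂ)
    (hG : ContinuousOn G ((Set.pi Set.univ (fun _ : Fin m => Set.Icc y1 y2)) ×ˢ
      (Set.pi Set.univ (fun _ : Fin p => Set.Icc (-ρ) ρ)))) (q : ℂ) (E : ℝ) (hE0 : 0 ≤ E)
    (hE : ∀ a : Fin p → ℝ, (∀ i, -ρ ≤ a i ∧ a i ≤ ρ) → ‖∑ t ∈ T, c t * ∏ i, f t i (a i) -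
      q * ∫ x in Set.pi Set.univ (fun _ : Fin m => Set.Ioc y1 y2), G (x, a)‖ ≤ E) :
    ‖∑ t ∈ T, c t * ∏ i, (∫ a in (-ρ)..ρ, f t i a) -
      q * ∫ z in (Set.pi Set.univ (Sum.elim (fun _ => Set.Ioc y1 y2) (fun _ => Set.Ioc (-ρ) ρ)) :
      Set (Fin m ⊕ Fin p → ℝ)), G (fun j => z (Sum.inl j), fun i => z (Sum.inr i))‖ ≤ E := by
  have hGi : IntegrableOn G ((Set.pi Set.univ (fun _ : Fin m => Set.Ioc y1 y2)) ×ˢ
      (Set.pi Set.univ (fun _ : Fin p => Set.Ioc (-ρ) ρ))) := by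
    refine (hG.integrableOn_compact ?_).mono_set ?_
    · exact (isCompact_univ_pi fun _ => isCompact_Icc).prod
        (isCompact_univ_pi fun _ => isCompact_Icc)
    · exact Set.prod_mono (Set.pi_mono fun _ _ => Set.Ioc_subset_Icc_self)
        (Set.pi_mono fun _ _ => Set.Ioc_subset_Icc_self)
  rw [FLmainN_fubini y1 y2 ρ G hGi]
  simp only [FLmainN_prod ρ hρ]
  have h1 : ∀ t ∈ T, IntegrableOn (fun a : Fin p → ℝ => c t * ∏ i, f t i (a i))
      (Set.pi Set.univ (fun _ : Fin p => Set.Ioc (-ρ) ρ)) := fun t ht =>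
    (FLmainN_prod_int ρ (f t) (hf t ht)).const_mul (c t)
  have h2 : IntegrableOn (fun a => q * ∫ x in Set.pi Set.univ (fun _ : Fin m => Set.Ioc y1 y2),
      G (x, a)) (Set.pi Set.univ (fun _ : Fin p => Set.Ioc (-ρ) ρ)) :=
    (FLmainN_fubini_int y1 y2 ρ G hGi).const_mul q
  have h3 : ∑ t ∈ T, c t * (∫ a in Set.pi Set.univ (fun _ : Fin p => Set.Ioc (-ρ) ρ),
      ∏ i, f t i (a i)) - q * (∫ a in Set.pi Set.univ (fun _ : Fin p => Set.Ioc (-ρ) ρ),
      ∫ x in Set.pi Set.univ (fun _ : Fin m => Set.Ioc y1 y2), G (x, a)) =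
      ∫ a in Set.pi Set.univ (fun _ : Fin p => Set.Ioc (-ρ) ρ),
        (∑ t ∈ T, c t * ∏ i, f t i (a i) -
        q * ∫ x in Set.pi Set.univ (fun _ : Fin m => Set.Ioc y1 y2), G (x, a)) := by
    rw [integral_sub (integrable_finsetSum T h1) h2, integral_finsetSum T h1]
    simp only [integral_const_mul]
  rw [h3]
  have hvol : volume (Set.pi Set.univ (fun _ : Fin p => Set.Ioc (-ρ) ρ)) < ⊤ := by
    rw [Real.volume_pi_Ioc]
    exact ENNReal.prod_lt_top fun _ _ => ENNReal.ofReal_lt_top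
  refine (norm_setIntegral_le_of_norm_le_const hvol fun a ha => hE a fun i => ?_).trans ?_
  · have := (Set.mem_univ_pi.1 ha) i
    exact ⟨this.1.le, this.2⟩
  · rw [Measure.real, Real.volume_pi_Ioc_toReal (fun _ => by simp only; linarith)]
    have h4 : ∏ i : Fin p, (ρ - -ρ) ≤ 1 :=
      Finset.prod_le_one (fun _ _ => by linarith) fun _ _ => by linarith
    calc E * ∏ i : Fin p, (ρ - -ρ) ≤ E * 1 := mul_le_mul_of_nonneg_left h4 hE0
      _ = E := mul_one E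

/-! ### Slots -/

lemma FLmainN_ext_mem {α : Type*} {m : ℕ} (f : Fin m → α) (i : Fin (m + 2)) (y : α)
    (h : y ∈ ext f i) : ∃ j, y = f j := by
  revert h
  refine Fin.cases ?_ (fun i => ?_) i
  · rw [ext_zero]
    intro h
    simp at h
  · refine Fin.lastCases ?_ (fun i => ?_) i
    · rw [ext_last_succ]
      intro h
      simp at h
    · rw [ext_mid]
      intro h
      exact ⟨i, (Option.some.inj h).symm⟩

lemma FLmainN_okS1 (y v : ℂ) (hy : 195 / 1000 ≤ y.re ∧ y.re ≤ 305 / 1000)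
    (hv : |v.re| ≤ 15 / 100) : 0 < (y - v).re ∧ (y - v).re < 1 ∧ 0 < (y + v).re ∧
      (y + v).re < 1 := by
  rw [abs_le] at hv
  rw [sub_re, add_re]
  refine ⟨by linarith, by linarith, by linarith, by linarith⟩

lemma FLmainN_okS {m : ℕ} (y : Fin m → ℂ) (v : ℂ)
    (hy : ∀ j, 195 / 1000 ≤ (y j).re ∧ (y j).re ≤ 305 / 1000) (hv : |v.re| ≤ 15 / 100)
    (i : Fin (m + 2)) : okS v (ext y i) := by
  intro y' hy'
  obtain ⟨j, rfl⟩ := FLmainN_ext_mem y i y' hy'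
  exact FLmainN_okS1 _ _ (hy j) hv

lemma FLmainN_ww_ne (n M : ℕ) (hM : 0 < M) (v : ℂ) (hv : 0 < v.im) : ww n M v ≠ 1 := by
  intro h
  have h1 := norm_ww n M v
  rw [h, norm_one] at h1
  have h2 : Real.exp (-(2 * Real.pi * M * v.im)) < 1 := by
    rw [Real.exp_lt_one_iff]
    have : (0 : ℝ) < M := by exact_mod_cast hM
    have := Real.pi_pos
    have : 0 < 2 * Real.pi * M * v.im := by positivity
    linarith
  linarith

lemma FLmainN_re (a b : ℝ) : ((a : ℂ) + b * I).re = a := by simp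

lemma FLmainN_im (a b : ℝ) : ((a : ℂ) + b * I).im = b := by simp

/-- The estimate for fixed real parts of the variables of the regions. -/
lemma FLmainN_core {m : ℕ} (hm : 1 ≤ m) (r : Fin (m + 1) → ℤ)
    (hr : ∀ i, 10 * nA m i ≤ |(r i : ℝ)|) (hs : ∑ i, nA m i / (r i : ℝ) ^ 2 ≤ 1 / 50)
    (n g M k1 k2 : ℕ) (hg : 1 ≤ g) (hgn : g ≤ n - 1) (hbig : 1000 * (n + 1) ≤ M)
    (hM100 : 100 ≤ M) (hk : k1 ≤ k2) (Y0 : Fin m → ℝ) (Y1 : Fin (m + 1) → ℝ)
    (hY0 : ∀ j, |Y0 j| ≤ 1 / 100) (hY0s : ∑ j, Y0 j ^ 2 ≤ 1 / 10000) (hY1 : ∀ i, 0 < Y1 i)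
    (hY1' : ∀ i, Y1 i ≤ 3 / 10 * nA m i / (r i : ℝ) ^ 2) (C H : ℝ) (hC : 0 < C)
    (hB : ∀ (y : Fin m → ℂ) (a : Fin (m + 1) → ℝ),
      (∀ j, |(y j).re - 1 / 4| ≤ 55 / 1000 ∧ |(y j).im| ≤ 1 / 50) → (∀ i, |a i| ≤ 15 / 100) →
      ‖GI r n g M y (fun i => a i + Y1 i * I)‖ ≤ C * ((M : ℝ) ^ (2 * m) / (M : ℝ) ^ (m + 1)) *
        Real.exp (M * (VN r y (fun i => a i + Y1 i * I)).re))
    (hH : 8 * m * Fr (3 / 4) - 1667 / 100000 ≤ H) (y1 y2 : ℝ)
    (hy1 : y1 = (k1 + bt n) / M - 1 / 2)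
    (hy2 : y2 = (k2 + 1 + bt n) / M - 1 / 2) (a1 : 1 / 4 - 55 / 1000 ≤ y1)
    (a2 : y1 ≤ 1 / 4 - 54 / 1000) (a3 : 1 / 4 + 54 / 1000 ≤ y2) (a4 : y2 ≤ 1 / 4 + 55 / 1000)
    (a : Fin (m + 1) → ℝ) (ha : ∀ i, |a i| ≤ 15 / 100) :
    ‖∑ t ∈ Fintype.piFinset (fun _ : Fin m => Finset.Icc k1 k2),
        GI r n g M (fun j => yk n M (t j)) (fun i => a i + Y1 i * I) -
      (M : ℂ) ^ m * ∫ x in Set.pi Set.univ (fun _ : Fin m => Set.Ioc y1 y2),
        GI r n g M (fun j => x j + Y0 j * I) (fun i => a i + Y1 i * I)‖ ≤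
      m * C * (M : ℝ) ^ (3 * m) * Real.exp (M * (H - 1 / 500)) := by
  have hMpos : 0 < M := by omega
  have hMr : (100 : ℝ) ≤ M := by exact_mod_cast hM100
  have hMr0 : (0 : ℝ) < M := by linarith only [hMr]
  have hπ3 : 3.14 < Real.pi := Real.pi_gt_d2
  have hy12 : y1 ≤ y2 := by linarith
  obtain ⟨K, hK⟩ : ∃ K : ℝ, K = (M : ℝ) ^ (2 * m) / (M : ℝ) ^ (m + 1) := ⟨_, rfl⟩
  have hK0 : 0 < K := by rw [hK]; positivity
  have hKle : K ≤ (M : ℝ) ^ (2 * m) := by
    rw [hK]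
    exact div_le_self (by positivity) (one_le_pow₀ (by linarith))
  obtain ⟨A, hA⟩ : ∃ A : ℝ, A = C * K * Real.exp (M * (H - 1 / 500)) := ⟨_, rfl⟩
  obtain ⟨B, hBd⟩ : ∃ B : ℝ, B = C * K * Real.exp (M * (8 * m * Fr (3 / 4) + 12 / 1000)) :=
    ⟨_, rfl⟩
  have hA0 : 0 < A := by rw [hA]; positivity
  have hB0 : 0 < B := by rw [hBd]; positivity
  rw [← hK] at hB
  -- the bound of the potential
  have hsum : ∀ (z : Fin m → ℂ) (j : Fin m), (∀ i, i ≠ j → |(z i).im| ≤ |Y0 i|) →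
      |(z j).im| ≤ 1 / 100 → ∑ i, (z i).im ^ 2 ≤ 2 / 10000 := by
    intro z j h1 h2
    have e1 : ∀ i, (z i).im ^ 2 ≤ Y0 i ^ 2 + (if i = j then (1 / 10000 : ℝ) else 0) := by
      intro i
      by_cases hij : i = j
      · subst hij
        rw [if_pos rfl]
        have e2 := abs_le.1 h2
        nlinarith only [e2]
      · rw [if_neg hij, add_zero]
        exact sq_le_sq.2 (h1 i hij)
    calc ∑ i, (z i).im ^ 2 ≤ ∑ i, (Y0 i ^ 2 + (if i = j then (1 / 10000 : ℝ) else 0)) :=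
        Finset.sum_le_sum fun i _ => e1 i
      _ = ∑ i, Y0 i ^ 2 + 1 / 10000 := by
        rw [Finset.sum_add_distrib, Finset.sum_ite_eq' Finset.univ j, if_pos (Finset.mem_univ j)]
      _ ≤ 2 / 10000 := by linarith
  have hVN : ∀ (z : Fin m → ℂ) (j : Fin m), (∀ i, y1 ≤ (z i).re ∧ (z i).re ≤ y2) →
      (∀ i, i ≠ j → |(z i).im| ≤ |Y0 i|) → |(z j).im| ≤ 1 / 100 →
      (VN r z (fun i => a i + Y1 i * I)).re ≤
        8 * m * Fr (3 / 4) - 4 * Real.pi * ((z j).re - 1 / 4) ^ 2 + 12 / 1000 := by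
    intro z j h1 h2 h3
    have him : ∀ i, |(z i).im| ≤ 1 / 100 := by
      intro i
      by_cases hij : i = j
      · rw [hij]; exact h3
      · exact (h2 i hij).trans (hY0 i)
    have e1 := flat_upperN hm r hr hs (fun i => (z i).re) (fun i => (z i).im) a Y1
      (fun i => by
        have := h1 i
        rw [abs_le]; constructor <;> linarith only [a1, this, a4]) him (hsum z j h2 h3) ha
      (fun i => (hY1 i).le) hY1'
    have e2 : (fun i => (((z i).re : ℝ) : ℂ) + (((z i).im : ℝ) : ℂ) * I) = z :=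
      funext fun i => re_add_im (z i)
    simp only [e2] at e1
    have e3 : ((z j).re - 1 / 4) ^ 2 ≤ ∑ i, ((z i).re - 1 / 4) ^ 2 :=
      Finset.single_le_sum (f := fun i => ((z i).re - 1 / 4) ^ 2) (fun i _ => sq_nonneg _)
        (Finset.mem_univ j)
    have e4 : 4 * Real.pi * ((z j).re - 1 / 4) ^ 2 ≤
        4 * Real.pi * ∑ i, ((z i).re - 1 / 4) ^ 2 :=
      mul_le_mul_of_nonneg_left e3 (by positivity)
    linarith only [e1, e4]
  have hGb : ∀ (z : Fin m → ℂ) (j : Fin m), (∀ i, y1 ≤ (z i).re ∧ (z i).re ≤ y2) →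
      (∀ i, i ≠ j → |(z i).im| ≤ |Y0 i|) → |(z j).im| ≤ 1 / 100 →
      ‖GI r n g M z (fun i => a i + Y1 i * I)‖ ≤ C * K *
        Real.exp (M * (8 * m * Fr (3 / 4) - 4 * Real.pi * ((z j).re - 1 / 4) ^ 2 +
          12 / 1000)) := by
    intro z j h1 h2 h3
    refine (hB z a (fun i => ⟨?_, ?_⟩) ha).trans ?_
    · have := h1 i
      rw [abs_le]; constructor <;> linarith
    · by_cases hij : i = j
      · rw [hij]; linarith only [h3]
      · have := (h2 i hij).trans (hY0 i)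
        linarith only [this]
    · have e1 := hVN z j h1 h2 h3
      gcongr
  have hyb := hybrid (fun z => GI r n g M z (fun i => a i + Y1 i * I)) n M k1 k2 (1 / 100) A B Y0
    hMpos hk (by norm_num) (by norm_num) hY0 (by
      have : 2 * 3.14 * (1 / 100) * 100 ≤ 2 * Real.pi * (1 / 100) * M := by gcongr
      linarith only [this]) y1 y2 hy1 hy2 (by linarith) hA0.le hB0.le
    (by
      intro z j h1 h2 h3
      have hz : ∀ i, 195 / 1000 ≤ (z i).re ∧ (z i).re ≤ 305 / 1000 := by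
        intro i
        have := h1 i
        constructor <;> linarith
      have hv : ∀ i, |((a i : ℂ) + Y1 i * I).re| ≤ 15 / 100 := by
        intro i
        rw [FLmainN_re]
        exact ha i
      constructor
      · have e1 := GI_continuousAt r n g M hg hgn hbig z (fun i => a i + Y1 i * I)
          (fun i => by
            have := hz i
            constructor <;> linarith only [this])
          (fun i => ⟨FLmainN_okS z _ hz (hv i) _, FLmainN_okS z _ hz (hv i) _⟩)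
          (fun i => FLmainN_ww_ne n M hMpos _ (by rw [FLmainN_im]; exact hY1 i))
        exact ContinuousAt.comp (f := fun z : Fin m → ℂ =>
          ((z, fun i => a i + Y1 i * I) : (Fin m → ℂ) × (Fin (m + 1) → ℂ)))
          (g := fun z : (Fin m → ℂ) × (Fin (m + 1) → ℂ) => GI r n g M z.1 z.2) e1
          (continuousAt_id.prodMk continuousAt_const)
      · refine GI_update_differentiable r n g M hg hgn hbig z _ j ?_ ?_ ?_
        · have := hz j
          constructor <;> linarith only [this]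
        · intro y' hy'
          rw [Option.mem_some_iff] at hy'
          rw [← hy']
          exact FLmainN_okS1 _ _ (hz j) (hv _)
        · intro y' hy'
          rw [Option.mem_some_iff] at hy'
          rw [← hy']
          exact FLmainN_okS1 _ _ (hz j) (hv _))
    (by
      intro z j h1 h2 h3 h4
      refine (hGb z j h1 h2 h3).trans ?_
      rw [hA]
      have e1 : (54 / 1000) ^ 2 ≤ ((z j).re - 1 / 4) ^ 2 := by
        rcases h4 with h4 | h4
        · rw [h4]; nlinarith only [a2]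
        · rw [h4]; nlinarith only [a3]
      have e2 : 4 * 3.14 * (54 / 1000) ^ 2 ≤ 4 * Real.pi * ((z j).re - 1 / 4) ^ 2 := by
        gcongr
      norm_num at e2
      gcongr
      linarith only [hH, e2])
    (by
      intro z j h1 h2 h3
      refine (hGb z j h1 h2 h3.le).trans ?_
      rw [hBd]
      have e2 : 0 ≤ 4 * Real.pi * ((z j).re - 1 / 4) ^ 2 := by positivity
      gcongr
      linarith only [e2])
  refine hyb.trans ?_
  have hBA : Real.exp (-(2 * Real.pi * (1 / 100) * M)) * B ≤ A := by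
    rw [hBd, hA, mul_left_comm, ← Real.exp_add]
    gcongr
    have e2 : 2 * 3.14 * (1 / 100) * M ≤ 2 * Real.pi * (1 / 100) * M := by gcongr
    nlinarith only [hH, e2]
  have h5 : 8 * (1 / 100) * A + 4 * (y2 - y1) * Real.exp (-(2 * Real.pi * (1 / 100) * M)) * B ≤
      A := by
    have e1 : y2 - y1 ≤ 11 / 100 := by linarith only [a1, a4]
    have e2 : 4 * (y2 - y1) * Real.exp (-(2 * Real.pi * (1 / 100) * M)) * B ≤
        4 * (11 / 100) * A := by
      calc 4 * (y2 - y1) * Real.exp (-(2 * Real.pi * (1 / 100) * M)) * B =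
          4 * (y2 - y1) * (Real.exp (-(2 * Real.pi * (1 / 100) * M)) * B) := by ring
        _ ≤ 4 * (11 / 100) * A := by
          have : 0 ≤ 4 * (y2 - y1) := by linarith only [a2, a3]
          gcongr
    linarith only [hA0, e2]
  calc (m : ℝ) * (M : ℝ) ^ m * (8 * (1 / 100) * A + 4 * (y2 - y1) *
        Real.exp (-(2 * Real.pi * (1 / 100) * M)) * B) ≤ (m : ℝ) * (M : ℝ) ^ m * A := by gcongr
    _ = (m : ℝ) * C * ((M : ℝ) ^ m * K) * Real.exp (M * (H - 1 / 500)) := by rw [hA]; ring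
    _ ≤ (m : ℝ) * C * ((M : ℝ) ^ m * (M : ℝ) ^ (2 * m)) * Real.exp (M * (H - 1 / 500)) := by
      gcongr
    _ = _ := by
      rw [← pow_add]
      congr 3
      ring

theorem FL_mainN {m : ℕ} (r : Fin (m + 1) → ℤ) (y : Fin m → ℂ) (v : Fin (m + 1) → ℂ)
    (hc : CritN r y v) (n g : ℕ) (hn : 2 ≤ n) (hg : 1 ≤ g) (hgn : g ≤ n - 1) :
    ∃ C : ℝ, 0 < C ∧ ∃ D M0 : ℕ, ∀ M k1 k2 l1 l2 : ℕ, M0 ≤ M → Win n M k1 k2 l1 l2 →
    ‖∑ t ∈ Fintype.piFinset (fun _ : Fin m => Finset.Icc k1 k2),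
        (∏ j, Cc n g M (yk n M (t j))) *
        ∏ i, FLo (r i) n M (ext (fun j => ((yk n M (t j) : ℝ) : ℂ)) i.castSucc)
          (ext (fun j => ((yk n M (t j) : ℝ) : ℂ)) i.succ) (rho n M l2) (v i).im -
      (M : ℂ) ^ m * MI r n g M (fun j => (y j).im) (fun i => (v i).im)
      ((k1 + bt n) / M - 1 / 2) ((k2 + 1 + bt n) / M - 1 / 2) (rho n M l2)‖ ≤
      C * (M : ℝ) ^ D * Real.exp (M * ((VN r y v).re - 1 / 500)) := by
  obtain ⟨hl1, hl2, hl3⟩ := crit_locN r y v hc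
  have hH := H_lowerN r y v hc
  obtain ⟨C, hC, M0, hB⟩ := GI_bound r n g hg hgn (fun i => (v i).im) (fun i => ⟨hc.imv i, by
    have := (hl2 i).2.1
    linarith only [this]⟩)
  have hm : 1 ≤ m := hc.hm
  have hm0 : (0 : ℝ) < m := by exact_mod_cast hm
  refine ⟨m * C, by positivity, 3 * m, M0 + 100, ?_⟩
  intro M k1 k2 l1 l2 hM0 hw
  have hM100 : 100 ≤ M := by omega
  have hMpos : 0 < M := by omega
  obtain ⟨-, -, hkk, -, -, hρ1, hρ2⟩ := win_facts n M k1 k2 l1 l2 hn hw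
  obtain ⟨ρ, hρ⟩ : ∃ ρ, ρ = rho n M l2 := ⟨_, rfl⟩
  obtain ⟨y1, hy1⟩ : ∃ y1 : ℝ, y1 = (k1 + bt n) / M - 1 / 2 := ⟨_, rfl⟩
  obtain ⟨y2, hy2⟩ : ∃ y2 : ℝ, y2 = (k2 + 1 + bt n) / M - 1 / 2 := ⟨_, rfl⟩
  have a1 : 1 / 4 - 55 / 1000 ≤ y1 := by rw [hy1]; exact hw.a1
  have a2 : y1 ≤ 1 / 4 - 54 / 1000 := by rw [hy1]; exact hw.a2
  have a3 : 1 / 4 + 54 / 1000 ≤ y2 := by rw [hy2]; exact hw.a3
  have a4 : y2 ≤ 1 / 4 + 55 / 1000 := by rw [hy2]; exact hw.a4
  rw [← hy1, ← hy2, ← hρ]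
  rw [← hρ] at hρ1 hρ2
  have hykm : ∀ t ∈ Fintype.piFinset (fun _ : Fin m => Finset.Icc k1 k2), ∀ j,
      195 / 1000 ≤ yk n M (t j) ∧ yk n M (t j) ≤ 305 / 1000 := by
    intro t ht j
    have h0 := Fintype.mem_piFinset.1 ht j
    rw [Finset.mem_Icc] at h0
    have h1 := (hkk (t j) h0.1 h0.2).1
    rw [abs_le] at h1
    constructor <;> linarith only [h1.1, h1.2]
  refine FLmainN_diff y1 y2 ρ (by linarith) (by linarith)
    (Fintype.piFinset (fun _ : Fin m => Finset.Icc k1 k2))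
    (fun t => ∏ j, Cc n g M (yk n M (t j)))
    (fun t i a => KR (r i) n M (ext (fun j => ((yk n M (t j) : ℝ) : ℂ)) i.castSucc)
      (ext (fun j => ((yk n M (t j) : ℝ) : ℂ)) i.succ) (a + (v i).im * I) *
      om n M (a + (v i).im * I)) ?_
    (fun q => GI r n g M (fun j => q.1 j + (y j).im * I) (fun i => q.2 i + (v i).im * I)) ?_
    ((M : ℂ) ^ m) _ (by positivity) ?_
  · intro t ht i a ha
    have hare : |((a : ℂ) + (v i).im * I).re| ≤ 15 / 100 := by
      rw [FLmainN_re, abs_le]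
      constructor <;> linarith [ha.1, ha.2]
    have h1 := KR_continuousAt (r i) n M hMpos
      (ext (fun j => ((yk n M (t j) : ℝ) : ℂ)) i.castSucc)
      (ext (fun j => ((yk n M (t j) : ℝ) : ℂ)) i.succ) (a + (v i).im * I)
      (FLmainN_okS _ _ (fun j => by rw [ofReal_re]; exact hykm t ht j) hare _)
      (FLmainN_okS _ _ (fun j => by rw [ofReal_re]; exact hykm t ht j) hare _)
    have h2 := om_continuousAt n M (a + (v i).im * I) (FLmainN_ww_ne n M hMpos _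
      (by rw [FLmainN_im]; exact hc.imv i))
    have h3 : ContinuousAt (fun a : ℝ => (a : ℂ) + (v i).im * I) a := by fun_prop
    exact ((ContinuousAt.comp (f := fun a : ℝ => (a : ℂ) + (v i).im * I) h1 h3).mul
      (ContinuousAt.comp (f := fun a : ℝ => (a : ℂ) + (v i).im * I) h2 h3)).continuousWithinAt
  · intro q hq
    have hq1 : ∀ j, 195 / 1000 ≤ ((q.1 j : ℂ) + (y j).im * I).re ∧
        ((q.1 j : ℂ) + (y j).im * I).re ≤ 305 / 1000 := by
      intro j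
      have := Set.mem_univ_pi.1 hq.1 j
      rw [FLmainN_re]
      constructor <;> linarith only [a1, this.1, a4, this.2]
    have hq2 : ∀ i, |((q.2 i : ℂ) + (v i).im * I).re| ≤ 15 / 100 := by
      intro i
      have := Set.mem_univ_pi.1 hq.2 i
      rw [FLmainN_re, abs_le]
      constructor <;> linarith [this.1, this.2]
    have e1 := GI_continuousAt r n g M hg hgn hw.big (fun j => q.1 j + (y j).im * I)
      (fun i => q.2 i + (v i).im * I)
      (fun j => by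
        have := hq1 j
        constructor <;> linarith)
      (fun i => ⟨FLmainN_okS _ _ hq1 (hq2 i) _, FLmainN_okS _ _ hq1 (hq2 i) _⟩)
      (fun i => FLmainN_ww_ne n M hMpos _ (by rw [FLmainN_im]; exact hc.imv i))
    refine ContinuousAt.continuousWithinAt ?_
    refine ContinuousAt.comp (f := fun q : (Fin m → ℝ) × (Fin (m + 1) → ℝ) =>
      ((fun j => q.1 j + (y j).im * I, fun i => q.2 i + (v i).im * I) :
        (Fin m → ℂ) × (Fin (m + 1) → ℂ)))
      (g := fun z : (Fin m → ℂ) × (Fin (m + 1) → ℂ) => GI r n g M z.1 z.2) e1 ?_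
    fun_prop
  · intro a ha
    have h1 := FLmainN_core hm r hc.hr hc.hs n g M k1 k2 hg hgn hw.big hM100 hw.hk
      (fun j => (y j).im) (fun i => (v i).im) (fun j => by
        have := (hl1 j).2
        linarith only [this]) hl3 hc.imv (fun i => (hl2 i).2.2) C (VN r y v).re hC (hB M (by omega)) hH
      y1 y2 hy1 hy2 a1 a2 a3 a4 a (fun i => by
        have := ha i
        rw [abs_le]
        constructor <;> linarith only [hρ2, this.1, this.2])
    exact h1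

end Pool.Agent.H63.VC4
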