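import Pool.Agent.H63.VC3.Defs

/-! # Powers of triangular matrices -/

namespace Pool.Agent.H63.VC4

open Pool.Agent.H63.VC Pool.Agent.H63.VC3 Complex
open scoped BigOperators

/-- Lower triangular matrices. -/
def Low {N : ℕ} (X : Matrix (Fin (N + 1)) (Fin (N + 1)) ℂ) : Prop := ∀ k j, k < j → X k j = 0

/-- The transpose of a lower triangular matrix, twisted by weights. -/
noncomputable def tw {N : ℕ} (w : ℕ → ℂ) (X : Matrix (Fin (N + 1)) (Fin (N + 1)) ℂ) :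
    Matrix (Fin (N + 1)) (Fin (N + 1)) ℂ :=
  fun j k => (∏ i ∈ Finset.Ico (j : ℕ) k, w i) * X k j

theorem Tri_low_iff {N : ℕ} (X : Matrix (Fin (N + 1)) (Fin (N + 1)) ℂ) :
    Low X ↔ X.BlockTriangular OrderDual.toDual :=
  ⟨fun h i j hij => h i j (OrderDual.toDual_lt_toDual.1 hij),
    fun h k j hkj => h (OrderDual.toDual_lt_toDual.2 hkj)⟩

theorem Tri_low_one {N : ℕ} : Low (1 : Matrix (Fin (N + 1)) (Fin (N + 1)) ℂ) :=
  fun k j h => Matrix.one_apply_ne h.ne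

theorem Tri_low_mul {N : ℕ} {X Y : Matrix (Fin (N + 1)) (Fin (N + 1)) ℂ} (hX : Low X) (hY : Low Y) :
    Low (X * Y) := by
  rw [Tri_low_iff] at *
  exact hX.mul hY

theorem Tri_low_pow {N : ℕ} {X : Matrix (Fin (N + 1)) (Fin (N + 1)) ℂ} (hX : Low X) (n : ℕ) :
    Low (X ^ n) := by
  induction n with
  | zero => rw [pow_zero]; exact Tri_low_one
  | succ n ih => rw [pow_succ]; exact Tri_low_mul ih hX

theorem isUnit_det_of_low {N : ℕ} (X : Matrix (Fin (N + 1)) (Fin (N + 1)) ℂ) (hX : Low X)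
    (hd : ∀ k, X k k ≠ 0) : IsUnit X.det := by
  rw [Matrix.det_of_lowerTriangular X ((Tri_low_iff X).1 hX), isUnit_iff_ne_zero]
  exact Finset.prod_ne_zero_iff.2 fun k _ => hd k

theorem Tri_low_inv {N : ℕ} {X : Matrix (Fin (N + 1)) (Fin (N + 1)) ℂ} (hX : Low X)
    (hu : IsUnit X.det) : Low X⁻¹ := by
  haveI := X.invertibleOfIsUnitDet hu
  rw [Tri_low_iff] at *
  exact Matrix.blockTriangular_inv_of_blockTriangular hX

theorem Tri_unit_pow {N : ℕ} {X : Matrix (Fin (N + 1)) (Fin (N + 1)) ℂ}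
    (hu : IsUnit X.det) (n : ℕ) : IsUnit (X ^ n).det := by
  rw [Matrix.det_pow]
  exact hu.pow n

theorem low_zpow {N : ℕ} (X : Matrix (Fin (N + 1)) (Fin (N + 1)) ℂ) (hX : Low X)
    (hd : ∀ k, X k k ≠ 0) (r : ℤ) : Low (X ^ r) := by
  have hu := isUnit_det_of_low X hX hd
  rcases Int.eq_nat_or_neg r with ⟨n, h | h⟩
  · rw [h, zpow_natCast]
    exact Tri_low_pow hX n
  · rw [h, Matrix.zpow_neg_natCast]
    exact Tri_low_inv (Tri_low_pow hX n) (Tri_unit_pow hu n)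

theorem Tri_tw_one {N : ℕ} (w : ℕ → ℂ) :
    tw w (1 : Matrix (Fin (N + 1)) (Fin (N + 1)) ℂ) = 1 := by
  ext j k
  unfold tw
  by_cases h : j = k
  · subst h
    simp
  · rw [Matrix.one_apply_ne h, Matrix.one_apply_ne (Ne.symm h), mul_zero]

theorem Tri_tw_mul {N : ℕ} (w : ℕ → ℂ) {X Y : Matrix (Fin (N + 1)) (Fin (N + 1)) ℂ} (hX : Low X)
    (hY : Low Y) : tw w (X * Y) = tw w Y * tw w X := by
  ext j k
  rw [Matrix.mul_apply]
  unfold tw
  rw [Matrix.mul_apply, Finset.mul_sum]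
  refine Finset.sum_congr rfl fun l _ => ?_
  rcases lt_or_ge k l with h | h
  · rw [hX k l h]; ring
  rcases lt_or_ge l j with h' | h'
  · rw [hY l j h']; ring
  rw [← Finset.prod_Ico_consecutive w (show (j : ℕ) ≤ l from h') (show (l : ℕ) ≤ k from h)]
  ring

theorem Tri_tw_pow {N : ℕ} (w : ℕ → ℂ) {X : Matrix (Fin (N + 1)) (Fin (N + 1)) ℂ} (hX : Low X)
    (n : ℕ) : tw w X ^ n = tw w (X ^ n) := by
  induction n with
  | zero => rw [pow_zero, pow_zero, Tri_tw_one]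
  | succ n ih => rw [pow_succ, ih, ← Tri_tw_mul w hX (Tri_low_pow hX n), ← pow_succ']

theorem Tri_tw_inv {N : ℕ} (w : ℕ → ℂ) {X : Matrix (Fin (N + 1)) (Fin (N + 1)) ℂ} (hX : Low X)
    (hu : IsUnit X.det) : (tw w X)⁻¹ = tw w X⁻¹ := by
  apply Matrix.inv_eq_left_inv
  rw [← Tri_tw_mul w hX (Tri_low_inv hX hu), Matrix.mul_nonsing_inv X hu, Tri_tw_one]

theorem tw_zpow {N : ℕ} (w : ℕ → ℂ) (X : Matrix (Fin (N + 1)) (Fin (N + 1)) ℂ) (hX : Low X)
    (hd : ∀ k, X k k ≠ 0) (r : ℤ) : tw w X ^ r = tw w (X ^ r) := by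
  have hu := isUnit_det_of_low X hX hd
  rcases Int.eq_nat_or_neg r with ⟨n, h | h⟩
  · rw [h, zpow_natCast, zpow_natCast]
    exact Tri_tw_pow w hX n
  · rw [h, Matrix.zpow_neg_natCast, Matrix.zpow_neg_natCast, Tri_tw_pow w hX n]
    exact Tri_tw_inv w (Tri_low_pow hX n) (Tri_unit_pow hu n)

end Pool.Agent.H63.VC4
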