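import Pool.Agent.H63.VC4.Defs
import Pool.Agent.H63.VC4.Tri

/-! # Powers of the twist matrix -/

namespace Pool.Agent.H63.VC4

open Pool.Agent.H63.VC Pool.Agent.H63.VC3 Complex
open scoped BigOperators

/-- The diagonal matrix relating inverse twists with twists. -/
noncomputable def eN (A x : ℂ) (k : ℕ) : ℂ :=
  (-1) ^ k * ((A ^ 2)⁻¹) ^ k * ((x ^ 2)⁻¹) ^ (k * (k - 1) / 2)

theorem Bmat_low (N : ℕ) (A x : ℂ) : Low (Bmat N A x) := by
  intro k j hkj
  unfold Bmat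
  rw [Bailey_qbin_eq_zero _ (show (k : ℕ) < j from hkj), zero_mul]

theorem Bmat_diag (N : ℕ) (A x : ℂ) (hA : A ≠ 0) (hx : x ≠ 0) (k : Fin (N + 1)) :
    Bmat N A x k k ≠ 0 := by
  unfold Bmat
  rw [Bailey_qbin_self, one_mul]
  exact mul_ne_zero (pow_ne_zero _ (pow_ne_zero _ hA)) (pow_ne_zero _ (pow_ne_zero _ hx))

theorem Bpow_low_pow {N : ℕ} {X : Matrix (Fin (N + 1)) (Fin (N + 1)) ℂ} (hX : Low X) (p : ℕ) :
    Low (X ^ p) := by
  induction p with
  | zero =>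
    intro k j hkj
    rw [pow_zero, Matrix.one_apply_ne hkj.ne]
  | succ p ih =>
    intro k j hkj
    rw [pow_succ', Matrix.mul_apply]
    refine Finset.sum_eq_zero fun l _ => ?_
    rcases lt_or_ge k l with h | h
    · rw [hX k l h, zero_mul]
    · rw [ih l j (h.trans_lt hkj), mul_zero]

/-- Sums over `Fin (N + 1)` of a function that vanishes outside `[j, k]`. -/
theorem Bpow_sum {N : ℕ} (f : ℕ → ℂ) (k j : Fin (N + 1)) (hjk : j ≤ k)
    (h1 : ∀ l : ℕ, l < j → f l = 0) (h2 : ∀ l : ℕ, (k : ℕ) < l → f l = 0) :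
    ∑ l : Fin (N + 1), f l = ∑ i ∈ Finset.range ((k : ℕ) - j + 1), f (j + i) := by
  have hj : (j : ℕ) ≤ k := hjk
  have hk : (k : ℕ) < N + 1 := k.2
  rw [Fin.sum_univ_eq_sum_range f (N + 1)]
  have e1 : ∑ i ∈ Finset.range ((k : ℕ) - j + 1), f (j + i) = ∑ l ∈ Finset.Ico (j : ℕ) (k + 1), f l := by
    rw [Finset.sum_Ico_eq_sum_range]
    congr 2
    omega
  rw [e1]
  symm
  refine Finset.sum_subset ?_ ?_
  · intro l hl
    rw [Finset.mem_Ico] at hl
    rw [Finset.mem_range]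
    omega
  · intro l _ hl
    rw [Finset.mem_Ico] at hl
    rcases lt_or_ge l (j : ℕ) with h | h
    · exact h1 l h
    · exact h2 l (by omega)

theorem Bpow_exp (a q : ℂ) (j i : ℕ) :
    a ^ (j + i) * q ^ ((j + i) * ((j + i) - 1)) =
      a ^ j * q ^ (j * (j - 1)) * ((a * q ^ (2 * j)) ^ i * q ^ (i * (i - 1))) := by
  have e : (j + i) * ((j + i) - 1) = j * (j - 1) + 2 * j * i + i * (i - 1) := by
    rcases Nat.eq_zero_or_pos j with rfl | hj
    · simp
    rcases Nat.eq_zero_or_pos i with rfl | hi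
    · simp
    obtain ⟨j, rfl⟩ : ∃ s, j = s + 1 := ⟨j - 1, by omega⟩
    obtain ⟨i, rfl⟩ : ∃ s, i = s + 1 := ⟨i - 1, by omega⟩
    have : j + 1 + (i + 1) - 1 = j + i + 1 := by omega
    rw [this, Nat.add_sub_cancel, Nat.add_sub_cancel]
    ring
  rw [e, mul_pow, ← pow_mul, pow_add, pow_add, pow_add]
  ring

theorem Bmat_pow (N : ℕ) (A x : ℂ) (p : ℕ) (k j : Fin (N + 1)) (hjk : j ≤ k) :
    (Bmat N A x ^ p) k j = qbin (x ^ 2) k j *
      ((A ^ 2) ^ (j : ℕ) * (x ^ 2) ^ ((j : ℕ) * ((j : ℕ) - 1))) ^ p *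
      twistCoeff (A ^ 2 * (x ^ 2) ^ (2 * (j : ℕ))) (x ^ 2) p ((k : ℕ) - j) := by
  induction p generalizing k with
  | zero =>
    rw [pow_zero, pow_zero, mul_one, Matrix.one_apply]
    simp only [twistCoeff]
    by_cases h : k = j
    · subst h
      simp [Bailey_qbin_self]
    · have h' : (k : ℕ) - j ≠ 0 := by
        have h1 : (j : ℕ) ≤ k := hjk
        have h2 : (k : ℕ) ≠ j := fun e => h (Fin.ext e)
        omega
      simp [h, h']
  | succ p ih =>
    set a := A ^ 2 with ha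
    set q := x ^ 2 with hq
    have hlow := Bpow_low_pow (Bmat_low N A x) p
    let f : ℕ → ℂ := fun l => if (j : ℕ) ≤ l then qbin q k l * (a ^ l * q ^ (l * (l - 1))) *
      (qbin q l j * (a ^ (j : ℕ) * q ^ ((j : ℕ) * ((j : ℕ) - 1))) ^ p *
        twistCoeff (a * q ^ (2 * (j : ℕ))) q p (l - j)) else 0
    rw [pow_succ', Matrix.mul_apply]
    have e1 : ∀ l : Fin (N + 1), Bmat N A x k l * (Bmat N A x ^ p) l j = f l := by
      intro l
      by_cases hl : j ≤ l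
      · rw [ih l hl]
        have hl' : (j : ℕ) ≤ l := hl
        simp only [f, if_pos hl']
        rfl
      · rw [hlow l j (not_le.1 hl), mul_zero]
        have hl' : ¬ (j : ℕ) ≤ l := hl
        simp only [f, if_neg hl']
    rw [Finset.sum_congr rfl (fun l _ => e1 l), Bpow_sum f k j hjk]
    · simp only [twistCoeff]
      rw [Finset.mul_sum]
      refine Finset.sum_congr rfl fun i _ => ?_
      have hji : (j : ℕ) ≤ j + i := Nat.le_add_right _ _
      simp only [f, if_pos hji]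
      rw [Bpow_exp a q j i, Nat.add_sub_cancel_left]
      have h := Bailey_mul q k j i
      rw [pow_succ]
      linear_combination (a ^ (j : ℕ) * q ^ ((j : ℕ) * ((j : ℕ) - 1)) *
        ((a * q ^ (2 * (j : ℕ))) ^ i * q ^ (i * (i - 1))) *
        (a ^ (j : ℕ) * q ^ ((j : ℕ) * ((j : ℕ) - 1))) ^ p *
        twistCoeff (a * q ^ (2 * (j : ℕ))) q p i) * h
    · intro l hl
      simp only [f, if_neg (not_le.2 hl)]
    · intro l hl
      simp only [f]
      rw [Bailey_qbin_eq_zero q hl]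
      simp

theorem Bpow_qbin_inv (q : ℂ) (hq : q ≠ 0) : ∀ l j : ℕ, j ≤ l →
    qbin q⁻¹ l j * q ^ (j * (l - j)) = qbin q l j
  | l, 0, _ => by simp [Bailey_qbin_zero]
  | 0, j + 1, h => by omega
  | l + 1, j + 1, h => by
    have h1 := Bpow_qbin_inv q hq l j (by omega)
    rw [Bailey_qbin_succ, qbin_succ' q l j (by omega)]
    have e0 : l + 1 - (j + 1) = l - j := by omega
    rw [e0, ← h1]
    rcases Nat.lt_or_ge l (j + 1) with h3 | h3
    · have hlj : l = j := by omega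
      subst hlj
      rw [Bailey_qbin_eq_zero q⁻¹ (Nat.lt_succ_self l), Bailey_qbin_eq_zero q (Nat.lt_succ_self l)]
      simp
    · have h2 := Bpow_qbin_inv q hq l (j + 1) h3
      rw [← h2]
      obtain ⟨r, rfl⟩ : ∃ r, l = j + 1 + r := ⟨l - (j + 1), by omega⟩
      have e1 : j + 1 + r - j = r + 1 := by omega
      have e2 : j + 1 + r - (j + 1) = r := by omega
      rw [e1, e2]
      have e3 : (q⁻¹) ^ (j + 1) * q ^ (j + 1) = 1 := by
        rw [← mul_pow, inv_mul_cancel₀ hq, one_pow]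
      have e4 : q ^ ((j + 1) * (r + 1)) = q ^ ((j + 1) * r) * q ^ (j + 1) := by
        rw [← pow_add]; congr 1
      have e5 : q ^ ((j + 1) * (r + 1)) = q ^ (r + 1) * q ^ (j * (r + 1)) := by
        rw [← pow_add]; congr 1; ring
      rw [add_mul, e5]
      rw [← e5]
      linear_combination (qbin q⁻¹ (j + 1 + r) j) * e5 + (q⁻¹ ^ (j + 1) * qbin q⁻¹ (j + 1 + r) (j + 1)) * e4
        + (qbin q⁻¹ (j + 1 + r) (j + 1) * q ^ ((j + 1) * r)) * e3

theorem Bpow_tri (i : ℕ) : (i + 1) * (i + 1 - 1) / 2 = i * (i - 1) / 2 + i := by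
  rcases Nat.eq_zero_or_pos i with rfl | hi
  · simp
  · obtain ⟨i, rfl⟩ : ∃ s, i = s + 1 := ⟨i - 1, by omega⟩
    rw [Nat.add_sub_cancel, Nat.add_sub_cancel]
    have : (i + 1 + 1) * (i + 1) = (i + 1) * i + 2 * (i + 1) := by ring
    rw [this]
    omega

theorem Bpow_alt (q : ℂ) (K : ℕ) : ∑ i ∈ Finset.range (K + 1 + 1),
    (-1 : ℂ) ^ i * q ^ (i * (i - 1) / 2) * qbin q (K + 1) i = 0 := by
  rw [Finset.sum_range_succ']
  have h : ∀ i, (-1 : ℂ) ^ (i + 1) * q ^ ((i + 1) * (i + 1 - 1) / 2) * qbin q (K + 1) (i + 1) =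
      (-1 : ℂ) ^ (i + 1) * q ^ ((i + 1) * (i + 1 - 1) / 2) * q ^ (i + 1) * qbin q K (i + 1) -
      (-1 : ℂ) ^ i * q ^ (i * (i - 1) / 2) * q ^ i * qbin q K i := by
    intro i
    rw [Bailey_qbin_succ, Bpow_tri, pow_add q, pow_succ (-1 : ℂ)]
    ring
  rw [Finset.sum_congr rfl (fun i _ => h i), Finset.sum_range_sub
    (fun i => (-1 : ℂ) ^ i * q ^ (i * (i - 1) / 2) * q ^ i * qbin q K i)]
  rw [Bailey_qbin_eq_zero q (Nat.lt_succ_self K), Bailey_qbin_zero, Bailey_qbin_zero]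
  simp

theorem Bpow_eN_ne (A x : ℂ) (hA : A ≠ 0) (hx : x ≠ 0) (k : ℕ) : eN A x k ≠ 0 := by
  unfold eN
  refine mul_ne_zero (mul_ne_zero (pow_ne_zero _ (by norm_num)) (pow_ne_zero _ ?_))
    (pow_ne_zero _ ?_)
  · exact inv_ne_zero (pow_ne_zero _ hA)
  · exact inv_ne_zero (pow_ne_zero _ hx)

theorem Bpow_tri_add (j i : ℕ) :
    (j + i) * (j + i - 1) / 2 = j * (j - 1) / 2 + i * (i - 1) / 2 + j * i := by
  induction i with
  | zero => simp
  | succ i ih =>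
    have e : j + (i + 1) = j + i + 1 := by ring
    rw [e, Bpow_tri, Bpow_tri, ih]
    ring

/-- The key computation. -/
theorem Bpow_inv (N : ℕ) (A x : ℂ) (hA : A ≠ 0) (hx : x ≠ 0) (k j : Fin (N + 1)) :
    ∑ l : Fin (N + 1), Bmat N A x k l * (eN A x l / eN A x j * Bmat N A⁻¹ x⁻¹ l j) =
      if k = j then 1 else 0 := by
  set a := A ^ 2 with ha
  set q := x ^ 2 with hq
  have ha0 : a ≠ 0 := pow_ne_zero _ hA
  have hq0 : q ≠ 0 := pow_ne_zero _ hx
  have hex : ∀ l, eN A x l ≠ 0 := Bpow_eN_ne A x hA hx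
  have hax : (A⁻¹) ^ 2 = a⁻¹ := by rw [inv_pow]
  have hqx : (x⁻¹) ^ 2 = q⁻¹ := by rw [inv_pow]
  let f : ℕ → ℂ := fun l => qbin q k l * (a ^ l * q ^ (l * (l - 1))) *
    (eN A x l / eN A x j * (qbin q⁻¹ l j * ((a⁻¹) ^ (j : ℕ) * (q⁻¹) ^ ((j : ℕ) * ((j : ℕ) - 1)))))
  have e1 : ∀ l : Fin (N + 1), Bmat N A x k l * (eN A x l / eN A x j * Bmat N A⁻¹ x⁻¹ l j) = f l := by
    intro l
    simp only [f, Bmat, hax, hqx]
    rfl
  rw [Finset.sum_congr rfl (fun l _ => e1 l)]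
  rcases lt_or_ge k j with hkj | hjk
  · rw [if_neg hkj.ne]
    refine Finset.sum_eq_zero fun l _ => ?_
    simp only [f]
    rcases lt_or_ge (k : ℕ) l with h | h
    · rw [Bailey_qbin_eq_zero q h]; simp
    · have hkj' : (k : ℕ) < j := hkj
      rw [Bailey_qbin_eq_zero q⁻¹ (lt_of_le_of_lt h hkj')]; simp
  · rw [Bpow_sum f k j hjk]
    · have e2 : ∀ i, f (j + i) = qbin q k j *
          ((-1 : ℂ) ^ i * q ^ (i * (i - 1) / 2) * qbin q ((k : ℕ) - j) i) := by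
        intro i
        have h1 := Bpow_qbin_inv q hq0 (j + i) j (Nat.le_add_right _ _)
        have h2 := Bailey_mul q k j i
        rw [Nat.add_sub_cancel_left] at h1
        simp only [f]
        have e3 : a ^ ((j : ℕ) + i) * q ^ (((j : ℕ) + i) * ((j : ℕ) + i - 1)) * eN A x ((j : ℕ) + i) =
            (-1 : ℂ) ^ ((j : ℕ) + i) * q ^ (((j : ℕ) + i) * ((j : ℕ) + i - 1) / 2) := by
          unfold eN
          rw [← ha, ← hq]
          have hev : ((j : ℕ) + i) * ((j : ℕ) + i - 1) =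
              ((j : ℕ) + i) * ((j : ℕ) + i - 1) / 2 + ((j : ℕ) + i) * ((j : ℕ) + i - 1) / 2 := by
            have := Nat.even_mul_pred_self ((j : ℕ) + i)
            obtain ⟨r, hr⟩ := this
            omega
          set s := ((j : ℕ) + i) * ((j : ℕ) + i - 1) / 2 with hs
          rw [hev, pow_add q]
          have h5 : a ^ ((j : ℕ) + i) * (a⁻¹) ^ ((j : ℕ) + i) = 1 := by
            rw [← mul_pow, mul_inv_cancel₀ ha0, one_pow]
          have h6 : q ^ s * (q⁻¹) ^ s = 1 := by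
            rw [← mul_pow, mul_inv_cancel₀ hq0, one_pow]
          linear_combination ((-1 : ℂ) ^ ((j : ℕ) + i) * q ^ s * (q ^ s * (q⁻¹) ^ s)) * h5 +
            ((-1 : ℂ) ^ ((j : ℕ) + i) * q ^ s) * h6
        have e4 : (eN A x j)⁻¹ * ((a⁻¹) ^ (j : ℕ) * (q⁻¹) ^ ((j : ℕ) * ((j : ℕ) - 1))) =
            (-1 : ℂ) ^ (j : ℕ) * (q⁻¹) ^ ((j : ℕ) * ((j : ℕ) - 1) / 2) := by
          rw [inv_mul_eq_iff_eq_mul₀ (hex j)]
          unfold eN
          rw [← ha, ← hq]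
          have hev : (j : ℕ) * ((j : ℕ) - 1) =
              (j : ℕ) * ((j : ℕ) - 1) / 2 + (j : ℕ) * ((j : ℕ) - 1) / 2 := by
            have := Nat.even_mul_pred_self (j : ℕ)
            obtain ⟨r, hr⟩ := this
            omega
          set s := (j : ℕ) * ((j : ℕ) - 1) / 2 with hs
          rw [hev, pow_add]
          have h7 : (-1 : ℂ) ^ (j : ℕ) * (-1) ^ (j : ℕ) = 1 := by
            rw [← mul_pow]; norm_num
          linear_combination (-((a⁻¹) ^ (j : ℕ) * ((q⁻¹) ^ s * (q⁻¹) ^ s))) * h7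
        have e5 : q ^ (((j : ℕ) + i) * ((j : ℕ) + i - 1) / 2) * (q⁻¹) ^ ((j : ℕ) * ((j : ℕ) - 1) / 2) =
            q ^ (i * (i - 1) / 2) * q ^ ((j : ℕ) * i) := by
          rw [Bpow_tri_add, pow_add, pow_add]
          have h6 : q ^ ((j : ℕ) * ((j : ℕ) - 1) / 2) * (q⁻¹) ^ ((j : ℕ) * ((j : ℕ) - 1) / 2) = 1 := by
            rw [← mul_pow, mul_inv_cancel₀ hq0, one_pow]
          linear_combination (q ^ (i * (i - 1) / 2) * q ^ ((j : ℕ) * i)) * h6
        have e6 : (-1 : ℂ) ^ ((j : ℕ) + i) * (-1) ^ (j : ℕ) = (-1) ^ i := by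
          rw [pow_add]
          have h7 : (-1 : ℂ) ^ (j : ℕ) * (-1) ^ (j : ℕ) = 1 := by
            rw [← mul_pow]; norm_num
          linear_combination ((-1 : ℂ) ^ i) * h7
        calc qbin q k ((j : ℕ) + i) * (a ^ ((j : ℕ) + i) * q ^ (((j : ℕ) + i) * ((j : ℕ) + i - 1))) *
              (eN A x ((j : ℕ) + i) / eN A x j * (qbin q⁻¹ ((j : ℕ) + i) j *
                ((a⁻¹) ^ (j : ℕ) * (q⁻¹) ^ ((j : ℕ) * ((j : ℕ) - 1)))))
            = qbin q k ((j : ℕ) + i) * (a ^ ((j : ℕ) + i) * q ^ (((j : ℕ) + i) * ((j : ℕ) + i - 1)) *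
                eN A x ((j : ℕ) + i)) * qbin q⁻¹ ((j : ℕ) + i) j * ((eN A x j)⁻¹ *
                ((a⁻¹) ^ (j : ℕ) * (q⁻¹) ^ ((j : ℕ) * ((j : ℕ) - 1)))) := by
              rw [div_eq_mul_inv]; ring
          _ = qbin q k ((j : ℕ) + i) * qbin q⁻¹ ((j : ℕ) + i) j *
                ((-1 : ℂ) ^ ((j : ℕ) + i) * (-1) ^ (j : ℕ)) *
                (q ^ (((j : ℕ) + i) * ((j : ℕ) + i - 1) / 2) *
                  (q⁻¹) ^ ((j : ℕ) * ((j : ℕ) - 1) / 2)) := by
              rw [e3, e4]; ring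
          _ = (-1) ^ i * q ^ (i * (i - 1) / 2) *
                (qbin q k ((j : ℕ) + i) * (qbin q⁻¹ ((j : ℕ) + i) j * q ^ ((j : ℕ) * i))) := by
              rw [e5, e6]; ring
          _ = _ := by rw [h1, h2]; ring
      rw [Finset.sum_congr rfl (fun i _ => e2 i), ← Finset.mul_sum]
      by_cases hkj : k = j
      · subst hkj
        simp [Bailey_qbin_self]
      · rw [if_neg hkj]
        have h1 : (j : ℕ) ≤ k := hjk
        have h2 : (k : ℕ) ≠ j := fun e => hkj (Fin.ext e)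
        obtain ⟨K, hK⟩ : ∃ K, (k : ℕ) - j = K + 1 := ⟨(k : ℕ) - j - 1, by omega⟩
        rw [hK, Bpow_alt, mul_zero]
    · intro l hl
      simp only [f]
      rw [Bailey_qbin_eq_zero q⁻¹ hl]; simp
    · intro l hl
      simp only [f]
      rw [Bailey_qbin_eq_zero q hl]; simp

theorem Bmat_neg (N : ℕ) (A x : ℂ) (hA : A ≠ 0) (hx : x ≠ 0) (p : ℕ) (k j : Fin (N + 1)) :
    (Bmat N A x ^ (-(p : ℤ))) k j = eN A x k / eN A x j * (Bmat N A⁻¹ x⁻¹ ^ p) k j := by
  have hex : ∀ l, eN A x l ≠ 0 := Bpow_eN_ne A x hA hx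
  let E : Matrix (Fin (N + 1)) (Fin (N + 1)) ℂ := Matrix.diagonal (fun k => eN A x k)
  let Ei : Matrix (Fin (N + 1)) (Fin (N + 1)) ℂ := Matrix.diagonal (fun k => (eN A x k)⁻¹)
  have hEi : Ei * E = 1 := by
    simp only [E, Ei, Matrix.diagonal_mul_diagonal]
    rw [← Matrix.diagonal_one]
    congr 1
    funext k
    exact inv_mul_cancel₀ (hex k)
  have hE : E * Ei = 1 := by
    simp only [E, Ei, Matrix.diagonal_mul_diagonal]
    rw [← Matrix.diagonal_one]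
    congr 1
    funext k
    exact mul_inv_cancel₀ (hex k)
  have hent : ∀ (X : Matrix (Fin (N + 1)) (Fin (N + 1)) ℂ) (k j : Fin (N + 1)),
      (E * X * Ei) k j = eN A x k / eN A x j * X k j := by
    intro X k j
    simp only [E, Ei]
    rw [Matrix.mul_diagonal, Matrix.diagonal_mul, div_eq_mul_inv]
    ring
  have hinv : (Bmat N A x)⁻¹ = E * Bmat N A⁻¹ x⁻¹ * Ei := by
    refine Matrix.inv_eq_right_inv ?_
    ext k j
    rw [Matrix.mul_apply, Matrix.one_apply, ← Bpow_inv N A x hA hx k j]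
    refine Finset.sum_congr rfl fun l _ => ?_
    rw [hent]
  have hpow : ∀ p : ℕ, (E * Bmat N A⁻¹ x⁻¹ * Ei) ^ p = E * Bmat N A⁻¹ x⁻¹ ^ p * Ei := by
    intro p
    induction p with
    | zero => simp [hE]
    | succ p ih =>
      rw [pow_succ, ih, pow_succ]
      calc E * Bmat N A⁻¹ x⁻¹ ^ p * Ei * (E * Bmat N A⁻¹ x⁻¹ * Ei)
          = E * Bmat N A⁻¹ x⁻¹ ^ p * (Ei * E) * Bmat N A⁻¹ x⁻¹ * Ei := by
            simp only [Matrix.mul_assoc]
        _ = _ := by rw [hEi]; simp only [Matrix.mul_assoc, Matrix.mul_one]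
  rw [Matrix.zpow_neg_natCast, ← Matrix.inv_pow', hinv, hpow, hent]

end Pool.Agent.H63.VC4
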