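import Pool.Agent.H63.VC3.Knots
import Pool.Agent.H63.VC4.Bpow

/-! # Checks of the definitions -/

namespace Pool.Agent.H63.VC4

open Pool.Agent.H63.VC Pool.Agent.H63.VC3 Complex

theorem Bmat_one (A x : ℂ) : Bmat 1 A x = !![1, 0; 1, A ^ 2] := by
  ext i j
  fin_cases i <;> fin_cases j <;> simp [Bmat, qbin]

theorem Cmat_one (A x : ℂ) (hx : x - x⁻¹ ≠ 0) :
    Cmat 1 A x = !![1, -(A ^ 2 * (cb (A * x) * cb (A * x⁻¹))); 0, A ^ 2] := by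
  ext i j
  fin_cases i <;> fin_cases j <;> simp [Cmat, Bmat, qbin, facC, cb, hx]

theorem zpow_neg_one_eq (X Y : Matrix (Fin 2) (Fin 2) ℂ) (h : X * Y = 1) :
    X ^ (-1 : ℤ) = Y := by
  rw [Matrix.zpow_neg_one]
  exact Matrix.inv_eq_right_inv h

/-- The Jones polynomial of `8_12`. -/
theorem jones_8_12 (x : ℂ) (hx : x ≠ 0) (hx2 : x ^ 2 ≠ 1) : suChain [1, -1, 1, -1] 2 1 x =
    (x ^ 2) ^ (-4 : ℤ) - 2 * (x ^ 2) ^ (-3 : ℤ) + 4 * (x ^ 2) ^ (-2 : ℤ) - 5 * (x ^ 2) ^ (-1 : ℤ) + 5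
      - 5 * x ^ 2 + 4 * (x ^ 2) ^ 2 - 2 * (x ^ 2) ^ 3 + (x ^ 2) ^ 4 := by
  have h1 : x - x⁻¹ ≠ 0 := by
    intro h
    apply hx2
    field_simp at h
    linear_combination h
  have hA : (x ^ 2) ^ 2 ≠ 0 := pow_ne_zero _ (pow_ne_zero _ hx)
  have hB : Bmat 1 (x ^ 2) x ^ (-1 : ℤ) = !![1, 0; -((x ^ 2) ^ 2)⁻¹, ((x ^ 2) ^ 2)⁻¹] := by
    apply zpow_neg_one_eq
    rw [Bmat_one]
    ext i j
    fin_cases i <;> fin_cases j <;> simp [Matrix.mul_apply, Fin.sum_univ_two, hx]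
  have e : suChain [1, -1, 1, -1] 2 1 x = (Cmat 1 (x ^ 2) x ^ (1 : ℤ) * Bmat 1 (x ^ 2) x ^ (-1 : ℤ) *
    (Cmat 1 (x ^ 2) x ^ (1 : ℤ) * Bmat 1 (x ^ 2) x ^ (-1 : ℤ) * 1) :
      Matrix (Fin (1 + 1)) (Fin (1 + 1)) ℂ) 0 0 := rfl
  rw [e, zpow_one, hB, Cmat_one _ _ h1, mul_one]
  simp only [cb, Matrix.mul_apply, Fin.sum_univ_succ, Fin.sum_univ_zero]
  simp
  field_simp
  ring

/-- The Jones polynomial of `7_7`. -/
theorem jones_7_7 (x : ℂ) (hx : x ≠ 0) (hx2 : x ^ 2 ≠ 1) : suChain [1, -1, -1, 1] 2 1 x =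
    -(x ^ 2) ^ (-3 : ℤ) + 3 * (x ^ 2) ^ (-2 : ℤ) - 3 * (x ^ 2) ^ (-1 : ℤ) + 4
      - 4 * x ^ 2 + 3 * (x ^ 2) ^ 2 - 2 * (x ^ 2) ^ 3 + (x ^ 2) ^ 4 := by
  have h1 : x - x⁻¹ ≠ 0 := by
    intro h
    apply hx2
    field_simp at h
    linear_combination h
  have hA : (x ^ 2) ^ 2 ≠ 0 := pow_ne_zero _ (pow_ne_zero _ hx)
  have hB : Bmat 1 (x ^ 2) x ^ (-1 : ℤ) = !![1, 0; -((x ^ 2) ^ 2)⁻¹, ((x ^ 2) ^ 2)⁻¹] := by
    apply zpow_neg_one_eq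
    rw [Bmat_one]
    ext i j
    fin_cases i <;> fin_cases j <;> simp [Matrix.mul_apply, Fin.sum_univ_two, hx]
  have hC : Cmat 1 (x ^ 2) x ^ (-1 : ℤ) =
      !![1, cb (x ^ 2 * x) * cb (x ^ 2 * x⁻¹); 0, ((x ^ 2) ^ 2)⁻¹] := by
    apply zpow_neg_one_eq
    rw [Cmat_one _ _ h1]
    ext i j
    fin_cases i <;> fin_cases j <;> simp [Matrix.mul_apply, Fin.sum_univ_two, hx]
    field_simp
    ring
  have e : suChain [1, -1, -1, 1] 2 1 x = (Cmat 1 (x ^ 2) x ^ (1 : ℤ) * Bmat 1 (x ^ 2) x ^ (-1 : ℤ) *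
    (Cmat 1 (x ^ 2) x ^ (-1 : ℤ) * Bmat 1 (x ^ 2) x ^ (1 : ℤ) * 1) :
      Matrix (Fin (1 + 1)) (Fin (1 + 1)) ℂ) 0 0 := rfl
  rw [e, hB, hC, zpow_one, zpow_one, Cmat_one _ _ h1, Bmat_one, mul_one]
  simp only [cb, Matrix.mul_apply, Fin.sum_univ_succ, Fin.sum_univ_zero]
  simp
  field_simp
  ring

theorem Bmat_pow_zero (N : ℕ) (A x : ℂ) (p : ℕ) (k : Fin (N + 1)) :
    (Bmat N A x ^ p) k 0 = twistCoeff (A ^ 2) (x ^ 2) p k := by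
  rw [Bmat_pow N A x p k 0 (Fin.zero_le k)]
  simp [qbin]

theorem Bmat_neg_zero (N : ℕ) (A x : ℂ) (hA : A ≠ 0) (hx : x ≠ 0) (p : ℕ) (k : Fin (N + 1)) :
    (Bmat N A x ^ (-(p : ℤ))) k 0 = eN A x k * twistCoeff (A⁻¹ ^ 2) (x⁻¹ ^ 2) p k := by
  rw [Bmat_neg N A x hA hx p k 0, Bmat_pow_zero]
  simp [eN]

theorem prod_facC (N : ℕ) (A x : ℂ) (k : ℕ) : ∏ i ∈ Finset.Ico 0 k, facC N A x i =
    (∏ i ∈ Finset.range k, (cb (x ^ ((N : ℤ) - i)) / cb (x ^ ((i : ℤ) + 1))) *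
      (cb (A * x ^ ((N : ℤ) + i)) * cb (A * x ^ ((i : ℤ) - 1)))) *
    ((-1) ^ k * A ^ (2 * k) * x ^ (k * (k - 1))) := by
  rw [← Finset.range_eq_Ico]
  have h : ∀ i ∈ Finset.range k, facC N A x i =
      ((cb (x ^ ((N : ℤ) - i)) / cb (x ^ ((i : ℤ) + 1))) *
      (cb (A * x ^ ((N : ℤ) + i)) * cb (A * x ^ ((i : ℤ) - 1)))) * (-(A ^ 2 * x ^ (2 * i))) := by
    intro i _
    unfold facC
    rw [← pow_mul x 2 i]
    ring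
  rw [Finset.prod_congr rfl h, Finset.prod_mul_distrib]
  congr 1
  clear h
  induction k with
  | zero => simp
  | succ k ih =>
    rw [Finset.prod_range_succ, ih]
    rcases k with _ | k
    · simp
    · have e : (k + 1 + 1) * (k + 1 + 1 - 1) = (k + 1) * (k + 1 - 1) + 2 * (k + 1) := by
        simp only [Nat.add_sub_cancel]; ring
      rw [e, pow_add x]
      ring

/-- Two twist regions: the double twist knots. -/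
theorem suChain_two (p : ℕ) (r : ℤ) (n N : ℕ) (x : ℂ) (hx : x ≠ 0) :
    suChain [(p : ℤ), r] n N x = suK p r n N x := by
  have hA : x ^ n ≠ 0 := pow_ne_zero _ hx
  have e : suChain [(p : ℤ), r] n N x =
      ((Cmat N (x ^ n) x ^ (p : ℤ) * Bmat N (x ^ n) x ^ r * 1) :
        Matrix (Fin (N + 1)) (Fin (N + 1)) ℂ) 0 0 := rfl
  rw [e, mul_one, Matrix.mul_apply]
  unfold suK homflyK
  rw [Finset.sum_range]
  refine Finset.sum_congr rfl fun k _ => ?_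
  have hC : Cmat N (x ^ n) x ^ (p : ℤ) = tw (facC N (x ^ n) x) (Bmat N (x ^ n) x ^ (p : ℤ)) := by
    rw [← tw_zpow _ _ (Bmat_low N _ _) (Bmat_diag N _ _ hA hx)]
    rfl
  rw [hC]
  have h1 : tw (facC N (x ^ n) x) (Bmat N (x ^ n) x ^ (p : ℤ)) 0 k =
      (∏ i ∈ Finset.Ico 0 (k : ℕ), facC N (x ^ n) x i) * (Bmat N (x ^ n) x ^ (p : ℤ)) k 0 := rfl
  rw [h1, prod_facC, zpow_natCast, Bmat_pow_zero]
  unfold twistFactor
  rcases le_or_gt 0 r with h | h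
  · obtain ⟨q, rfl⟩ := Int.eq_ofNat_of_zero_le h
    rw [if_pos h, Int.toNat_natCast, zpow_natCast, Bmat_pow_zero]
    ring
  · obtain ⟨q, hq⟩ := Int.eq_ofNat_of_zero_le (by omega : 0 ≤ -r)
    obtain rfl : r = -(q : ℤ) := by omega
    rw [if_neg (by omega), neg_neg, Int.toNat_natCast, Bmat_neg_zero _ _ _ hA hx]
    unfold eN
    have h2 : ((x ^ n) ^ (2 * (k : ℕ))) * (((x ^ n) ^ 2)⁻¹) ^ (k : ℕ) = 1 := by
      rw [pow_mul, ← mul_pow, mul_inv_cancel₀ (pow_ne_zero _ hA), one_pow]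
    have h3 : (x ^ ((k : ℕ) * ((k : ℕ) - 1))) * (((x ^ 2)⁻¹) ^ ((k : ℕ) * ((k : ℕ) - 1) / 2)) = 1 := by
      have hev : 2 * ((k : ℕ) * ((k : ℕ) - 1) / 2) = (k : ℕ) * ((k : ℕ) - 1) :=
        Nat.mul_div_cancel' (Nat.even_mul_pred_self _).two_dvd
      conv_lhs => rw [← hev]
      rw [pow_mul, Nat.mul_div_cancel_left _ (by norm_num), ← mul_pow,
        mul_inv_cancel₀ (pow_ne_zero _ hx), one_pow]
    have h4 : ((-1 : ℂ) ^ (k : ℕ)) * (-1) ^ (k : ℕ) = 1 := by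
      rw [← mul_pow]; norm_num
    set P := ∏ i ∈ Finset.range (k : ℕ), (cb (x ^ ((N : ℤ) - i)) / cb (x ^ ((i : ℤ) + 1))) *
      (cb (x ^ n * x ^ ((N : ℤ) + i)) * cb (x ^ n * x ^ ((i : ℤ) - 1)))
    set T1 := twistCoeff ((x ^ n) ^ 2) (x ^ 2) p k
    set T2 := twistCoeff ((x ^ n)⁻¹ ^ 2) (x⁻¹ ^ 2) q k
    set a := (x ^ n) ^ (2 * (k : ℕ))
    set c := (((x ^ n) ^ 2)⁻¹) ^ (k : ℕ)
    set b := x ^ ((k : ℕ) * ((k : ℕ) - 1))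
    set d := ((x ^ 2)⁻¹) ^ ((k : ℕ) * ((k : ℕ) - 1) / 2)
    linear_combination (P * T1 * T2) * (h4 * (a * c * b * d) + h2 * (b * d) + h3)

end Pool.Agent.H63.VC4
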