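import Pool.Agent.H63.VC3.SWsame
import Pool.Agent.H63.VC4.GeoDefs

/-! # Critical angle structures maximize the volume -/

namespace Pool.Agent.H63.VC4

open Pool.Agent.H63.VC Pool.Agent.H63.VC3 Complex
open scoped BigOperators

/-- argument and logarithm data of a shape -/
def SWgen_ok (z : ℂ) : Prop := z ≠ 0 ∧ 0 ≤ arg z ∧ arg z < Real.pi

theorem SWgen_ok_one : SWgen_ok 1 := by
  refine ⟨one_ne_zero, ?_, ?_⟩
  · rw [arg_one]
  · rw [arg_one]; exact Real.pi_pos

theorem SWgen_ok_im (z : ℂ) (h : 0 < z.im) : SWgen_ok z := by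
  have h1 := swtan_arg z h
  refine ⟨?_, h1.1.le, h1.2⟩
  rintro rfl
  simp at h

theorem SWgen_arg_inv (z : ℂ) (h : SWgen_ok z) :
    arg ((starRingEnd ℂ) z)⁻¹ = arg z := by
  have hpi := Real.pi_pos
  rw [arg_inv, arg_conj, if_neg h.2.2.ne]
  rw [if_neg (by linarith [h.2.1])]
  ring

theorem SWgen_shT (a : List ℕ) (sh : ℕ → ℂ) (i : ℕ) (h : SWgen_ok (sh i)) :
    shT a sh i ≠ 0 ∧ arg (shT a sh i) = arg (sh i) := by
  unfold shT
  split_ifs
  · refine ⟨inv_ne_zero ?_, SWgen_arg_inv _ h⟩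
    rw [Ne, map_eq_zero]
    exact h.1
  · exact ⟨h.1, rfl⟩

/-- the relation of the arguments at a layer which is not a hinge -/
theorem SWgen_non (A T V : ℂ) (hA : A ≠ 0) (hA1 : 0 < arg A) (hA2 : arg A < Real.pi)
    (hT : SWgen_ok T) (hV : SWgen_ok V) (h : A ^ 2 * T * V = 1) :
    2 * arg A = 2 * Real.pi - arg T - arg V := by
  have hprod : A * A * (T * V) = 1 := by
    rw [← h]; ring
  have hang : ((arg A + arg A + (arg T + arg V) : ℝ) : Real.Angle) = 0 := by
    rw [Real.Angle.coe_add, Real.Angle.coe_add, Real.Angle.coe_add,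
      ← arg_mul_coe_angle hA hA, ← arg_mul_coe_angle hT.1 hV.1,
      ← arg_mul_coe_angle (mul_ne_zero hA hA) (mul_ne_zero hT.1 hV.1), hprod,
      arg_one, Real.Angle.coe_zero]
  rw [Real.Angle.coe_eq_zero_iff] at hang
  obtain ⟨n, hn⟩ := hang
  rw [zsmul_eq_mul] at hn
  have hpi := Real.pi_pos
  have h1 := hT.2.1
  have h2 := hT.2.2
  have h3 := hV.2.1
  have h4 := hV.2.2
  have hn1 : (0 : ℝ) < n := by
    by_contra hcon
    push Not at hcon
    nlinarith
  have hn2 : (n : ℝ) < 2 := by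
    by_contra hcon
    push Not at hcon
    nlinarith
  have hn3 : n = 1 := by
    have a1 : 0 < n := by exact_mod_cast hn1
    have a2 : n < 2 := by exact_mod_cast hn2
    omega
  rw [hn3] at hn
  push_cast at hn
  linarith

/-- the relation of the arguments at a hinge -/
theorem SWgen_hin (u T V : ℂ) (hu : 0 < u.im) (hT : SWgen_ok T) (hV : SWgen_ok V)
    (h : (1 - u⁻¹) ^ 2 * u * T * (starRingEnd ℂ) V = -1) :
    2 * arg (1 - u⁻¹) = Real.pi - arg u - arg T + arg V := by
  have htet := tet_angles u hu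
  have hpi := Real.pi_pos
  have hu0 : u ≠ 0 := (SWgen_ok_im u hu).1
  have hA : 1 - u⁻¹ ≠ 0 := by
    intro h0
    rw [h0] at h
    norm_num at h
  set A : ℂ := 1 - u⁻¹ with hAdef
  have hVn : 0 < ‖V‖ := norm_pos_iff.2 hV.1
  have hVV : (starRingEnd ℂ) V * V = ((‖V‖ ^ 2 : ℝ) : ℂ) := by
    rw [mul_comm, Complex.mul_conj, Complex.normSq_eq_norm_sq]
  have hprod : A * A * (u * T) = ((((‖V‖ ^ 2)⁻¹ : ℝ)) : ℂ) * (-1 * V) := by
    have hc : ((‖V‖ ^ 2 : ℝ) : ℂ) ≠ 0 := by
      rw [Ne, ofReal_eq_zero]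
      positivity
    rw [ofReal_inv]
    field_simp
    rw [← hVV]
    linear_combination V * h
  have hang : ((arg A + arg A + (arg u + arg T) : ℝ) : Real.Angle)
      = ((Real.pi + arg V : ℝ) : Real.Angle) := by
    rw [Real.Angle.coe_add, Real.Angle.coe_add, Real.Angle.coe_add, Real.Angle.coe_add,
      ← arg_mul_coe_angle hA hA, ← arg_mul_coe_angle hu0 hT.1,
      ← arg_mul_coe_angle (mul_ne_zero hA hA) (mul_ne_zero hu0 hT.1), hprod,
      Complex.arg_real_mul _ (by positivity), arg_mul_coe_angle (by norm_num) hV.1, arg_neg_one]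
  rw [Real.Angle.angle_eq_iff_two_pi_dvd_sub] at hang
  obtain ⟨n, hn⟩ := hang
  have h1 := hT.2.1
  have h2 := hT.2.2
  have h3 := hV.2.1
  have h4 := hV.2.2
  have t1 := htet.1
  have t2 := htet.2.1
  have t3 := htet.2.2.1
  have t4 := htet.2.2.2.1
  -- `2 γ + α + arg T - π - arg V = 2 π n`
  have hn1 : (-1 : ℝ) < n := by
    by_contra hcon
    push Not at hcon
    nlinarith
  have hn2 : (n : ℝ) < 1 := by
    by_contra hcon
    push Not at hcon
    nlinarith
  have hn3 : n = 0 := by
    have a1 : -1 < n := by exact_mod_cast hn1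
    have a2 : n < 1 := by exact_mod_cast hn2
    omega
  rw [hn3] at hn
  push_cast at hn
  linarith

/-- the sign of a layer -/
noncomputable def SWgen_l (a : List ℕ) (sh : ℕ → ℂ) (i : ℕ) : ℝ := Real.log ‖shT a sh i‖

theorem SWgen_l_hinge (a : List ℕ) (sh : ℕ → ℂ) (i : ℕ) (h : IsHinge a i) :
    SWgen_l a sh i = -Real.log ‖sh i‖ := by
  unfold SWgen_l shT
  rw [if_pos h, norm_inv, Real.log_inv, Complex.norm_conj]

theorem SWgen_l_non (a : List ℕ) (sh : ℕ → ℂ) (i : ℕ) (h : ¬IsHinge a i) :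
    SWgen_l a sh i = Real.log ‖sh i‖ := by
  unfold SWgen_l shT
  rw [if_neg h]

theorem SWgen_l_one (a : List ℕ) (sh : ℕ → ℂ) (i : ℕ) (h : sh i = 1) :
    SWgen_l a sh i = 0 := by
  unfold SWgen_l shT
  split_ifs <;> simp [h]

theorem sw_shapes (a : List ℕ) (sh : ℕ → ℂ) (hs : 4 ≤ a.sum) (h0 : sh 0 = 1)
    (h1 : sh (a.sum - 2) = 1)
    (hpos : ∀ i ∈ Finset.Icc 1 (a.sum - 3), 0 < (sh i).im)
    (hnon : ∀ i ∈ Finset.Icc 1 (a.sum - 3), ¬IsHinge a i →
      (1 - (sh i)⁻¹) ^ 2 * shT a sh (i - 1) * sh (i + 1) = 1)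
    (hhin : ∀ i ∈ Finset.Icc 1 (a.sum - 3), IsHinge a i →
      (1 - (sh i)⁻¹) ^ 2 * sh i * shT a sh (i - 1) * (starRingEnd ℂ) (sh (i + 1)) = -1) :
    IsGreatest (structureVolumes a)
      (2 * ∑ i ∈ Finset.Icc 1 (a.sum - 3), blochWigner (sh i)) := by
  have hpi := Real.pi_pos
  have hok : ∀ i, i ≤ a.sum - 2 → SWgen_ok (sh i) := by
    intro i hi
    rcases Nat.eq_zero_or_pos i with h | h
    · rw [h, h0]; exact SWgen_ok_one
    · rcases hi.eq_or_lt with h2 | h2
      · rw [h2, h1]; exact SWgen_ok_one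
      · exact SWgen_ok_im _ (hpos i (Finset.mem_Icc.2 ⟨h, by omega⟩))
  set w : ℕ → ℝ := fun i => Real.pi - arg (sh i) with hw
  have hw0 : w 0 = Real.pi := by simp only [hw]; rw [h0, arg_one, sub_zero]
  have hwl : w (a.sum - 2) = Real.pi := by simp only [hw]; rw [h1, arg_one, sub_zero]
  apply SWsame_master a w sh (fun w' i => (Real.log ‖sh (i + 1)‖ * (w' i - w i)
    - SWgen_l a sh i * (w' (i + 1) - w (i + 1))) / 2) hw0 hwl
  · intro i hi1 hi2
    have hmem : i ∈ Finset.Icc 1 (a.sum - 3) := Finset.mem_Icc.2 ⟨hi1, hi2⟩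
    have hu := hpos i hmem
    have htet := tet_angles _ hu
    have hZ : angZ w i = arg (sh i) := by
      unfold angZ
      simp only [hw]
      ring
    have hT := SWgen_shT a sh (i - 1) (hok (i - 1) (by omega))
    have hokT : SWgen_ok (shT a sh (i - 1)) := by
      have := hok (i - 1) (by omega)
      exact ⟨hT.1, by rw [hT.2]; exact this.2.1, by rw [hT.2]; exact this.2.2⟩
    have hokV := hok (i + 1) (by omega)
    have hu0 : sh i ≠ 0 := (SWgen_ok_im _ hu).1
    have hA : 1 - (sh i)⁻¹ ≠ 0 := by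
      intro h
      have := htet.2.2.1
      rw [h, arg_zero] at this
      exact lt_irrefl _ this
    have hnu : ‖sh i‖ ≠ 0 := norm_ne_zero_iff.2 hu0
    have hnA : ‖1 - (sh i)⁻¹‖ ≠ 0 := norm_ne_zero_iff.2 hA
    have hnT : ‖shT a sh (i - 1)‖ ≠ 0 := norm_ne_zero_iff.2 hT.1
    have hnV : ‖sh (i + 1)‖ ≠ 0 := norm_ne_zero_iff.2 hokV.1
    have hlog1 : Real.log ‖1 - sh i‖ = Real.log ‖sh i‖ + Real.log ‖1 - (sh i)⁻¹‖ := by
      rw [← Real.log_mul hnu hnA, ← norm_mul]
      have : sh i * (1 - (sh i)⁻¹) = -(1 - sh i) := by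
        rw [mul_sub, mul_inv_cancel₀ hu0]
        ring
      rw [this, norm_neg]
    have e1 : i - 1 + 1 = i := by omega
    refine ⟨hu, hZ, Or.inl ?_⟩
    by_cases hh : IsHinge a i
    · have hrel := hhin i hmem hh
      have harg := SWgen_hin _ _ _ hu hokT hokV hrel
      rw [hT.2] at harg
      have hnorm := congrArg (fun z => Real.log ‖z‖) hrel
      simp only [norm_mul, norm_pow, norm_neg, norm_one, Real.log_one, Complex.norm_conj] at hnorm
      rw [Real.log_mul (by positivity) hnV, Real.log_mul (by positivity) hnT,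
        Real.log_mul (by positivity) hnu, Real.log_pow] at hnorm
      push_cast at hnorm
      constructor
      · unfold angX
        rw [if_pos hh]
        simp only [hw]
        linarith
      · intro w' _ _
        have hY : angY a w' i - angY a w i
            = ((w' (i + 1) - w (i + 1)) + (w' i - w i) - (w' (i - 1) - w (i - 1))) / 2 := by
          unfold angY
          rw [if_pos hh, if_pos hh]
          ring
        have hZ' : angZ w' i - angZ w i = -(w' i - w i) := by
          unfold angZ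
          ring
        simp only [e1]
        rw [hY, hZ', hlog1, SWgen_l_hinge a sh i hh]
        have hl : SWgen_l a sh (i - 1) = Real.log ‖shT a sh (i - 1)‖ := rfl
        rw [hl]
        linear_combination ((w' i - w i) / 2) * hnorm
    · have hrel := hnon i hmem hh
      have harg := SWgen_non _ _ _ hA htet.2.2.1 (by linarith [htet.1, htet.2.1, htet.2.2.2.1])
        hokT hokV hrel
      rw [hT.2] at harg
      have hnorm := congrArg (fun z => Real.log ‖z‖) hrel
      simp only [norm_mul, norm_pow, norm_one, Real.log_one] at hnorm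
      rw [Real.log_mul (by positivity) hnV, Real.log_mul (by positivity) hnT,
        Real.log_pow] at hnorm
      push_cast at hnorm
      constructor
      · unfold angX
        rw [if_neg hh]
        simp only [hw]
        linarith
      · intro w' _ _
        have hY : angY a w' i - angY a w i
            = (w' i - w i) - ((w' (i - 1) - w (i - 1)) + (w' (i + 1) - w (i + 1))) / 2 := by
          unfold angY
          rw [if_neg hh, if_neg hh]
          ring
        have hZ' : angZ w' i - angZ w i = -(w' i - w i) := by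
          unfold angZ
          ring
        simp only [e1]
        rw [hY, hZ', hlog1, SWgen_l_non a sh i hh]
        have hl : SWgen_l a sh (i - 1) = Real.log ‖shT a sh (i - 1)‖ := rfl
        rw [hl]
        linear_combination ((w' i - w i) / 2) * hnorm
  · intro w' hw'0 _
    rw [SWgen_l_one a sh 0 h0, hw'0, hw0]
    ring
  · intro w' _ hw'l
    have e2 : a.sum - 3 + 1 = a.sum - 2 := by omega
    simp only [e2]
    rw [h1, hw'l, hwl, norm_one, Real.log_one]
    ring

end Pool.Agent.H63.VC4
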