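import Pool.Agent.H63.VC3.SumK

/-! # Multiple sums as multiple integrals -/

namespace Pool.Agent.H63.VC4

open Pool.Agent.H63.VC Pool.Agent.H63.VC3 Complex
open scoped BigOperators

theorem Hybrid_sum {m : ℕ} (s : Finset ℕ) (f : (Fin (m + 1) → ℕ) → ℂ) :
    ∑ t ∈ Fintype.piFinset (fun _ : Fin (m + 1) => s), f t =
      ∑ t0 ∈ s, ∑ t ∈ Fintype.piFinset (fun _ : Fin m => s), f (Fin.cons t0 t) := by
  rw [← Finset.sum_product']
  symm
  refine Finset.sum_bij' (fun p _ => Fin.cons (α := fun _ => ℕ) p.1 p.2)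
    (fun t _ => (t 0, Fin.tail t)) ?_ ?_ ?_ ?_ ?_
  · rintro ⟨a, t⟩ hp
    rw [Finset.mem_product, Fintype.mem_piFinset] at hp
    rw [Fintype.mem_piFinset]
    intro i
    refine Fin.cases ?_ (fun j => ?_) i
    · exact hp.1
    · exact hp.2 j
  · intro t ht
    rw [Fintype.mem_piFinset] at ht
    rw [Finset.mem_product, Fintype.mem_piFinset]
    exact ⟨ht 0, fun j => ht j.succ⟩
  · rintro ⟨a, t⟩ _
    simp
  · intro t _
    simp
  · rintro ⟨a, t⟩ _
    rfl

theorem Hybrid_cons_continuous {m : ℕ} :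
    Continuous (fun p : ℝ × (Fin m → ℝ) => (Fin.cons p.1 p.2 : Fin (m + 1) → ℝ)) := by
  refine continuous_pi fun i => ?_
  refine Fin.cases ?_ (fun j => ?_) i
  · simpa using continuous_fst
  · simp only [Fin.cons_succ]
    exact (continuous_apply j).comp continuous_snd

theorem Hybrid_int {m : ℕ} (f : (Fin (m + 1) → ℝ) → ℂ) (a b : ℝ)
    (hf : MeasureTheory.IntegrableOn f (Set.pi Set.univ (fun _ => Set.Ioc a b))) :
    MeasureTheory.IntegrableOn (fun x' : Fin m → ℝ => ∫ x0 in Set.Ioc a b, f (Fin.cons x0 x'))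
      (Set.pi Set.univ (fun _ => Set.Ioc a b)) ∧
    ∫ x in Set.pi Set.univ (fun _ : Fin (m + 1) => Set.Ioc a b), f x =
      ∫ x' in Set.pi Set.univ (fun _ : Fin m => Set.Ioc a b), ∫ x0 in Set.Ioc a b,
        f (Fin.cons x0 x') := by
  set e : ℝ × (Fin m → ℝ) ≃ᵐ (Fin (m + 1) → ℝ) :=
    (MeasurableEquiv.piFinSuccAbove (fun _ : Fin (m + 1) => ℝ) 0).symm with he
  have hmp : MeasureTheory.MeasurePreserving e :=
    (MeasureTheory.volume_preserving_piFinSuccAbove (fun _ : Fin (m + 1) => ℝ) 0).symm _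
  have hev : ∀ p : ℝ × (Fin m → ℝ), e p = Fin.cons p.1 p.2 := by
    intro p
    rw [he]
    ext i
    refine Fin.cases ?_ (fun j => ?_) i
    · simp [MeasurableEquiv.piFinSuccAbove]
    · simp [MeasurableEquiv.piFinSuccAbove]
  have hpre : e ⁻¹' (Set.pi Set.univ (fun _ : Fin (m + 1) => Set.Ioc a b)) =
      Set.Ioc a b ×ˢ Set.pi Set.univ (fun _ : Fin m => Set.Ioc a b) := by
    ext p
    rw [Set.mem_preimage, hev, Set.mem_prod, Set.mem_univ_pi, Set.mem_univ_pi]
    constructor
    · intro h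
      exact ⟨by simpa using h 0, fun j => by simpa using h j.succ⟩
    · rintro ⟨h1, h2⟩ i
      refine Fin.cases ?_ (fun j => ?_) i
      · simpa using h1
      · simpa using h2 j
  have hint : MeasureTheory.IntegrableOn (fun p : ℝ × (Fin m → ℝ) => f (Fin.cons p.1 p.2))
      (Set.Ioc a b ×ˢ Set.pi Set.univ (fun _ : Fin m => Set.Ioc a b)) := by
    have h1 := (hmp.integrableOn_comp_preimage e.measurableEmbedding (f := f)
      (s := Set.pi Set.univ (fun _ : Fin (m + 1) => Set.Ioc a b))).2 hf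
    rw [hpre] at h1
    refine h1.congr ?_
    exact Filter.Eventually.of_forall fun p => by simp [Function.comp, hev]
  have hint' : MeasureTheory.Integrable (fun p : ℝ × (Fin m → ℝ) => f (Fin.cons p.1 p.2))
      ((MeasureTheory.volume.restrict (Set.Ioc a b)).prod
        (MeasureTheory.volume.restrict (Set.pi Set.univ (fun _ : Fin m => Set.Ioc a b)))) := by
    rw [MeasureTheory.Measure.prod_restrict]
    exact hint
  refine ⟨hint'.integral_prod_right, ?_⟩
  rw [← hmp.setIntegral_preimage_emb e.measurableEmbedding, hpre]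
  have h2 := MeasureTheory.integral_prod_symm _ hint'
  rw [← h2, MeasureTheory.Measure.prod_restrict]
  simp only [hev]
  rfl

theorem Hybrid_integrable {m : ℕ} (F : (Fin m → ℂ) → ℂ) (y1 y2 : ℝ) (Y : Fin m → ℝ)
    (h : ∀ x : Fin m → ℝ, (∀ i, x i ∈ Set.Icc y1 y2) → ContinuousAt F (fun j => x j + Y j * I)) :
    MeasureTheory.IntegrableOn (fun x : Fin m → ℝ => F (fun j => x j + Y j * I))
      (Set.pi Set.univ (fun _ => Set.Ioc y1 y2)) := by
  have hc : ContinuousOn (fun x : Fin m → ℝ => F (fun j => x j + Y j * I))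
      (Set.pi Set.univ (fun _ => Set.Icc y1 y2)) := by
    intro x hx
    rw [Set.mem_univ_pi] at hx
    have hg : Continuous (fun x : Fin m → ℝ => (fun j => (x j : ℂ) + Y j * I)) := by
      refine continuous_pi fun j => ?_
      exact (Complex.continuous_ofReal.comp (continuous_apply j)).add continuous_const
    exact ((h x hx).comp (f := fun x : Fin m → ℝ => (fun j => (x j : ℂ) + Y j * I))
      hg.continuousAt).continuousWithinAt
  have hK : IsCompact (Set.pi Set.univ (fun _ : Fin m => Set.Icc y1 y2)) :=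
    isCompact_univ_pi fun _ => isCompact_Icc
  exact (hc.integrableOn_compact hK).mono_set
    (Set.pi_mono fun _ _ => Set.Ioc_subset_Icc_self)

theorem Hybrid_update {m : ℕ} (a : ℂ) (z : Fin m → ℂ) (j : Fin m) (w : ℂ) :
    Function.update (Fin.cons a z : Fin (m + 1) → ℂ) j.succ w =
      Fin.cons a (Function.update z j w) := by
  rw [Fin.cons_update]

theorem Hybrid_continuousAt {m : ℕ} (F : (Fin (m + 1) → ℂ) → ℂ) (a : ℂ) (z : Fin m → ℂ)
    (h : ContinuousAt F (Fin.cons a z)) : ContinuousAt (fun z' : Fin m → ℂ => F (Fin.cons a z')) z := by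
  have hg : Continuous (fun z' : Fin m → ℂ => (Fin.cons a z' : Fin (m + 1) → ℂ)) := by
    refine continuous_pi fun i => ?_
    refine Fin.cases ?_ (fun j => ?_) i
    · simpa using continuous_const
    · simp only [Fin.cons_succ]
      exact continuous_apply j
  exact ContinuousAt.comp (f := fun z' : Fin m → ℂ => (Fin.cons a z' : Fin (m + 1) → ℂ)) h
    hg.continuousAt

theorem hybrid {m : ℕ} (F : (Fin m → ℂ) → ℂ) (n M k1 k2 : ℕ) (η A B : ℝ) (Y : Fin m → ℝ)
    (hM : 0 < M) (hk : k1 ≤ k2) (hη : 0 < η) (hη' : η ≤ 1) (hY : ∀ j, |Y j| ≤ η)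
    (hM' : 1 ≤ 2 * Real.pi * η * M) (y1 y2 : ℝ) (hy1 : y1 = (k1 + bt n) / M - 1 / 2)
    (hy2 : y2 = (k2 + 1 + bt n) / M - 1 / 2) (hy : y2 - y1 ≤ 1) (hA0 : 0 ≤ A) (hB0 : 0 ≤ B)
    (hF : ∀ (z : Fin m → ℂ) (j : Fin m), (∀ i, y1 ≤ (z i).re ∧ (z i).re ≤ y2) →
      (∀ i, i ≠ j → |(z i).im| ≤ |Y i|) → |(z j).im| ≤ η →
      ContinuousAt F z ∧ DifferentiableAt ℂ (fun w => F (Function.update z j w)) (z j))
    (hA : ∀ (z : Fin m → ℂ) (j : Fin m), (∀ i, y1 ≤ (z i).re ∧ (z i).re ≤ y2) →
      (∀ i, i ≠ j → |(z i).im| ≤ |Y i|) → |(z j).im| ≤ η →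
      ((z j).re = y1 ∨ (z j).re = y2) → ‖F z‖ ≤ A)
    (hB : ∀ (z : Fin m → ℂ) (j : Fin m), (∀ i, y1 ≤ (z i).re ∧ (z i).re ≤ y2) →
      (∀ i, i ≠ j → |(z i).im| ≤ |Y i|) → |(z j).im| = η → ‖F z‖ ≤ B) :
    ‖∑ t ∈ Fintype.piFinset (fun _ : Fin m => Finset.Icc k1 k2), F (fun j => yk n M (t j)) -
      (M : ℂ) ^ m * ∫ x in Set.pi Set.univ (fun _ : Fin m => Set.Ioc y1 y2),
        F (fun j => x j + Y j * I)‖ ≤
      m * (M : ℝ) ^ m * (8 * η * A + 4 * (y2 - y1) * Real.exp (-(2 * Real.pi * η * M)) * B) := by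
  have hM0 : (0 : ℝ) < M := by exact_mod_cast hM
  have hd12 : y2 - y1 = (k2 + 1 - k1) / M := by rw [hy1, hy2]; ring
  have hk' : (k1 : ℝ) ≤ k2 := by exact_mod_cast hk
  have hy12 : y1 ≤ y2 := by
    have : 0 ≤ ((k2 : ℝ) + 1 - k1) / M := div_nonneg (by linarith) hM0.le
    linarith
  set E : ℝ := 8 * η * A + 4 * (y2 - y1) * Real.exp (-(2 * Real.pi * η * M)) * B with hE
  have hE0 : 0 ≤ E := by
    have h1 : 0 ≤ y2 - y1 := by linarith
    have h2 : 0 ≤ Real.exp (-(2 * Real.pi * η * M)) := (Real.exp_pos _).le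
    positivity
  induction m with
  | zero =>
    have h1 : Fintype.piFinset (fun _ : Fin 0 => Finset.Icc k1 k2) = Finset.univ := by
      ext t
      simp
    have h2 : Set.pi Set.univ (fun _ : Fin 0 => Set.Ioc y1 y2) = Set.univ := by
      ext t
      simp
    rw [h1, h2]
    have h3 : ∀ z : Fin 0 → ℂ, F z = F 0 := fun z => congrArg F (Subsingleton.elim _ _)
    simp only [h3]
    have h4 : MeasureTheory.volume.real (Set.univ : Set (Fin 0 → ℝ)) = 1 := by
      simp [MeasureTheory.Measure.real, MeasureTheory.volume_pi]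
    simp [h4]
  | succ m ih =>
    have hyk : ∀ t ∈ Finset.Icc k1 k2, y1 ≤ yk n M t ∧ yk n M t ≤ y2 := by
      intro t ht
      rw [Finset.mem_Icc] at ht
      have h1 : (k1 : ℝ) ≤ t := by exact_mod_cast ht.1
      have h2 : (t : ℝ) ≤ k2 := by exact_mod_cast ht.2
      unfold yk
      rw [hy1, hy2]
      constructor
      · have := div_le_div_of_nonneg_right (show (k1 : ℝ) + bt n ≤ t + bt n + 1 / 2 by linarith)
          hM0.le
        linarith
      · have := div_le_div_of_nonneg_right
          (show (t : ℝ) + bt n + 1 / 2 ≤ k2 + 1 + bt n by linarith) hM0.le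
        linarith
    -- the points
    have hyks : ∀ (t0 : ℕ) (t : Fin m → ℕ),
        (fun j : Fin (m + 1) => ((yk n M ((Fin.cons t0 t : Fin (m + 1) → ℕ) j) : ℝ) : ℂ)) =
          Fin.cons ((yk n M t0 : ℝ) : ℂ) (fun j => ((yk n M (t j) : ℝ) : ℂ)) := by
      intro t0 t
      ext i
      refine Fin.cases ?_ (fun j => ?_) i
      · simp
      · simp
    have hxs : ∀ (x0 : ℝ) (x : Fin m → ℝ),
        (fun j : Fin (m + 1) => (((Fin.cons x0 x : Fin (m + 1) → ℝ) j : ℝ) : ℂ) + Y j * I) =
          Fin.cons ((x0 : ℂ) + Y 0 * I) (fun j => ((x j : ℝ) : ℂ) + Y j.succ * I) := by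
      intro t0 t
      ext i
      refine Fin.cases ?_ (fun j => ?_) i
      · simp
      · simp
    -- Step A
    have hstepA : ∀ t0 ∈ Finset.Icc k1 k2,
        ‖∑ t ∈ Fintype.piFinset (fun _ : Fin m => Finset.Icc k1 k2),
            F (Fin.cons ((yk n M t0 : ℝ) : ℂ) (fun j => ((yk n M (t j) : ℝ) : ℂ))) -
          (M : ℂ) ^ m * ∫ x in Set.pi Set.univ (fun _ : Fin m => Set.Ioc y1 y2),
            F (Fin.cons ((yk n M t0 : ℝ) : ℂ) (fun j => (x j : ℂ) + Y j.succ * I))‖ ≤
          m * (M : ℝ) ^ m * E := by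
      intro t0 ht0
      obtain ⟨hp1, hp2⟩ := hyk t0 ht0
      refine ih (fun z' => F (Fin.cons ((yk n M t0 : ℝ) : ℂ) z')) (fun j => Y j.succ)
        (fun j => hY j.succ) ?_ ?_ ?_
      · intro z j h1 h2 h3
        have h4 := hF (Fin.cons ((yk n M t0 : ℝ) : ℂ) z) j.succ ?_ ?_ ?_
        · refine ⟨Hybrid_continuousAt F _ z h4.1, ?_⟩
          have h5 := h4.2
          simp only [Hybrid_update, Fin.cons_succ] at h5
          exact h5
        · intro i
          refine Fin.cases ?_ (fun i => ?_) i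
          · simpa using ⟨hp1, hp2⟩
          · simpa using h1 i
        · intro i
          refine Fin.cases ?_ (fun i => ?_) i
          · intro _
            simp
          · intro hi
            simpa using h2 i (fun h => hi (by rw [h]))
        · simpa using h3
      · intro z j h1 h2 h3 h6
        refine hA (Fin.cons ((yk n M t0 : ℝ) : ℂ) z) j.succ ?_ ?_ ?_ ?_
        · intro i
          refine Fin.cases ?_ (fun i => ?_) i
          · simpa using ⟨hp1, hp2⟩
          · simpa using h1 i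
        · intro i
          refine Fin.cases ?_ (fun i => ?_) i
          · intro _
            simp
          · intro hi
            simpa using h2 i (fun h => hi (by rw [h]))
        · simpa using h3
        · simpa using h6
      · intro z j h1 h2 h3
        refine hB (Fin.cons ((yk n M t0 : ℝ) : ℂ) z) j.succ ?_ ?_ ?_
        · intro i
          refine Fin.cases ?_ (fun i => ?_) i
          · simpa using ⟨hp1, hp2⟩
          · simpa using h1 i
        · intro i
          refine Fin.cases ?_ (fun i => ?_) i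
          · intro _
            simp
          · intro hi
            simpa using h2 i (fun h => hi (by rw [h]))
        · simpa using h3
    -- the number of values
    have hcard : ((Finset.Icc k1 k2).card : ℝ) ≤ M := by
      rw [Nat.card_Icc]
      have h1 : ((k2 + 1 - k1 : ℕ) : ℝ) = k2 + 1 - k1 := by
        rw [Nat.cast_sub (by omega)]; push_cast; ring
      rw [h1]
      have h2 : ((k2 : ℝ) + 1 - k1) / M ≤ 1 := by rw [← hd12]; exact hy
      rwa [div_le_one hM0] at h2
    -- Step B
    have hstepB : ‖∑ t0 ∈ Finset.Icc k1 k2,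
        ∑ t ∈ Fintype.piFinset (fun _ : Fin m => Finset.Icc k1 k2),
            F (Fin.cons ((yk n M t0 : ℝ) : ℂ) (fun j => ((yk n M (t j) : ℝ) : ℂ))) -
          (M : ℂ) ^ m * ∑ t0 ∈ Finset.Icc k1 k2,
            ∫ x in Set.pi Set.univ (fun _ : Fin m => Set.Ioc y1 y2),
            F (Fin.cons ((yk n M t0 : ℝ) : ℂ) (fun j => (x j : ℂ) + Y j.succ * I))‖ ≤
          M * (m * (M : ℝ) ^ m * E) := by
      rw [Finset.mul_sum, ← Finset.sum_sub_distrib]
      refine (norm_sum_le _ _).trans ((Finset.sum_le_sum hstepA).trans ?_)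
      rw [Finset.sum_const, nsmul_eq_mul]
      exact mul_le_mul_of_nonneg_right hcard (by positivity)
    -- Step C
    have hintt : ∀ t0 ∈ Finset.Icc k1 k2, MeasureTheory.IntegrableOn (fun x : Fin m → ℝ =>
        F (Fin.cons ((yk n M t0 : ℝ) : ℂ) (fun j => (x j : ℂ) + Y j.succ * I)))
        (Set.pi Set.univ (fun _ : Fin m => Set.Ioc y1 y2)) := by
      intro t0 ht0
      obtain ⟨hp1, hp2⟩ := hyk t0 ht0
      refine Hybrid_integrable (fun z' => F (Fin.cons ((yk n M t0 : ℝ) : ℂ) z')) y1 y2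
        (fun j => Y j.succ) ?_
      intro x hx
      refine Hybrid_continuousAt F _ _ (hF _ 0 ?_ ?_ ?_).1
      · intro i
        refine Fin.cases ?_ (fun i => ?_) i
        · simpa using ⟨hp1, hp2⟩
        · simpa using hx i
      · intro i
        refine Fin.cases ?_ (fun i => ?_) i
        · intro h
          exact absurd rfl h
        · intro _
          simp
      · simpa using hη.le
    have hstepC : ∑ t0 ∈ Finset.Icc k1 k2,
        ∫ x in Set.pi Set.univ (fun _ : Fin m => Set.Ioc y1 y2),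
          F (Fin.cons ((yk n M t0 : ℝ) : ℂ) (fun j => (x j : ℂ) + Y j.succ * I)) =
        ∫ x in Set.pi Set.univ (fun _ : Fin m => Set.Ioc y1 y2), ∑ t0 ∈ Finset.Icc k1 k2,
          F (Fin.cons ((yk n M t0 : ℝ) : ℂ) (fun j => (x j : ℂ) + Y j.succ * I)) :=
      (MeasureTheory.integral_finsetSum _ hintt).symm
    -- Step D
    have hintF : MeasureTheory.IntegrableOn (fun x : Fin (m + 1) → ℝ => F (fun j => x j + Y j * I))
        (Set.pi Set.univ (fun _ => Set.Ioc y1 y2)) := by
      refine Hybrid_integrable F y1 y2 Y ?_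
      intro x hx
      refine (hF _ 0 ?_ ?_ ?_).1
      · intro i
        simpa using hx i
      · intro i _
        simp
      · simpa using hY 0
    obtain ⟨hfub1, hfub2⟩ := Hybrid_int _ y1 y2 hintF
    simp only [hxs] at hfub1 hfub2
    have hstepD : ∀ x : Fin m → ℝ, (∀ i, x i ∈ Set.Ioc y1 y2) →
        ‖∑ t0 ∈ Finset.Icc k1 k2,
          F (Fin.cons ((yk n M t0 : ℝ) : ℂ) (fun j => (x j : ℂ) + Y j.succ * I)) -
          M * ∫ x0 in Set.Ioc y1 y2,
            F (Fin.cons ((x0 : ℂ) + Y 0 * I) (fun j => (x j : ℂ) + Y j.succ * I))‖ ≤ M * E := by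
      intro x hx
      have hup : ∀ w w' : ℂ, Function.update
          (Fin.cons w (fun j => (x j : ℂ) + Y j.succ * I) : Fin (m + 1) → ℂ) 0 w' =
          Fin.cons w' (fun j => (x j : ℂ) + Y j.succ * I) := fun w w' => Fin.update_cons_zero _ _ _
      have h1 := sum_k (fun w => F (Fin.cons w (fun j => (x j : ℂ) + Y j.succ * I))) n M k1 k2 η
        (Y 0) A B hM hk hη (hY 0) hM' y1 y2 hy1 hy2 ?_ ?_ ?_
      · rw [intervalIntegral.integral_of_le hy12] at h1
        exact h1
      · intro w hw1 hw2 hw3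
        have h4 := (hF (Fin.cons w (fun j => (x j : ℂ) + Y j.succ * I)) 0 ?_ ?_ ?_).2
        · simp only [hup, Fin.cons_zero] at h4
          exact h4
        · intro i
          refine Fin.cases ?_ (fun i => ?_) i
          · simpa using ⟨hw1, hw2⟩
          · simpa using ⟨(hx i).1.le, (hx i).2⟩
        · intro i
          refine Fin.cases ?_ (fun i => ?_) i
          · intro h
            exact absurd rfl h
          · intro _
            simp
        · simpa using hw3
      · intro w hw1 hw3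
        refine hA (Fin.cons w (fun j => (x j : ℂ) + Y j.succ * I)) 0 ?_ ?_ ?_ ?_
        · intro i
          refine Fin.cases ?_ (fun i => ?_) i
          · rcases hw1 with hw | hw
            · simpa [hw] using hy12
            · simpa [hw] using hy12
          · simpa using ⟨(hx i).1.le, (hx i).2⟩
        · intro i
          refine Fin.cases ?_ (fun i => ?_) i
          · intro h
            exact absurd rfl h
          · intro _
            simp
        · simpa using hw3
        · simpa using hw1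
      · intro w hw1 hw2 hw3
        refine hB (Fin.cons w (fun j => (x j : ℂ) + Y j.succ * I)) 0 ?_ ?_ ?_
        · intro i
          refine Fin.cases ?_ (fun i => ?_) i
          · simpa using ⟨hw1, hw2⟩
          · simpa using ⟨(hx i).1.le, (hx i).2⟩
        · intro i
          refine Fin.cases ?_ (fun i => ?_) i
          · intro h
            exact absurd rfl h
          · intro _
            simp
        · simpa using hw3
    have hbox : MeasureTheory.volume (Set.pi Set.univ (fun _ : Fin m => Set.Ioc y1 y2)) < ⊤ := by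
      rw [Real.volume_pi_Ioc]
      exact ENNReal.prod_lt_top fun _ _ => ENNReal.ofReal_lt_top
    have hbox' : MeasureTheory.volume.real (Set.pi Set.univ (fun _ : Fin m => Set.Ioc y1 y2)) ≤ 1 := by
      unfold MeasureTheory.Measure.real
      rw [Real.volume_pi_Ioc_toReal (fun _ => hy12)]
      rw [Finset.prod_const]
      exact pow_le_one₀ (by linarith) hy
    have hmeas : MeasurableSet (Set.pi Set.univ (fun _ : Fin m => Set.Ioc y1 y2)) :=
      MeasurableSet.univ_pi fun _ => measurableSet_Ioc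
    have hstepE : ‖(∫ x in Set.pi Set.univ (fun _ : Fin m => Set.Ioc y1 y2),
          ∑ t0 ∈ Finset.Icc k1 k2,
          F (Fin.cons ((yk n M t0 : ℝ) : ℂ) (fun j => (x j : ℂ) + Y j.succ * I))) -
        M * ∫ x in Set.pi Set.univ (fun _ : Fin m => Set.Ioc y1 y2), ∫ x0 in Set.Ioc y1 y2,
          F (Fin.cons ((x0 : ℂ) + Y 0 * I) (fun j => (x j : ℂ) + Y j.succ * I))‖ ≤ M * E := by
      rw [← MeasureTheory.integral_const_mul, ← MeasureTheory.integral_sub
        (MeasureTheory.integrable_finsetSum _ hintt) (hfub1.const_mul _)]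
      refine (MeasureTheory.norm_setIntegral_le_of_norm_le_const hbox (C := M * E) ?_).trans ?_
      · intro x hx
        exact hstepD x (fun i => hx i trivial)
      · calc M * E * _ ≤ M * E * 1 := mul_le_mul_of_nonneg_left hbox' (by positivity)
          _ = M * E := mul_one _
    -- conclusion
    rw [Hybrid_sum]
    simp only [hyks]
    rw [hfub2]
    have key : ∀ (S1 S2 J : ℂ), S1 - (M : ℂ) ^ (m + 1) * J =
        (S1 - (M : ℂ) ^ m * S2) + (M : ℂ) ^ m * (S2 - M * J) := by
      intro S1 S2 J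
      ring
    rw [key _ (∫ x in Set.pi Set.univ (fun _ : Fin m => Set.Ioc y1 y2), ∑ t0 ∈ Finset.Icc k1 k2,
          F (Fin.cons ((yk n M t0 : ℝ) : ℂ) (fun j => (x j : ℂ) + Y j.succ * I)))]
    rw [← hstepC]
    refine (norm_add_le _ _).trans ?_
    rw [norm_mul, norm_pow, Complex.norm_natCast]
    rw [← hstepC] at hstepE
    calc _ ≤ M * (m * (M : ℝ) ^ m * E) + (M : ℝ) ^ m * (M * E) :=
          add_le_add hstepB (mul_le_mul_of_nonneg_left hstepE (by positivity))
      _ = _ := by push_cast; ring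

end Pool.Agent.H63.VC4
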