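import Pool.Agent.H63.VC4.Bpow
import Pool.Agent.H63.VC3.NNterms
import Pool.Agent.H63.VC.Vec

/-! # Powers of the twist matrix at the root of unity -/

namespace Pool.Agent.H63.VC4

open Pool.Agent.H63.VC Pool.Agent.H63.VC3 Complex
open scoped BigOperators

/-- `1 - ζ^m = -i · 2 sin (π m / M) e^{i π m / M}`. -/
theorem Brt_one_sub (M m : ℕ) : 1 - rt M ^ m = -I * exp (Real.pi * I / M * m) * (sg M m : ℂ) := by
  unfold rt sg
  rw [← Complex.exp_nat_mul]
  have e1 : (m : ℂ) * (2 * Real.pi * I / (M : ℂ))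
      = ((Real.pi * (m : ℝ) / (M : ℝ) : ℝ) : ℂ) * Complex.I
        + ((Real.pi * (m : ℝ) / (M : ℝ) : ℝ) : ℂ) * Complex.I := by
    push_cast; ring
  have e1' : (Real.pi : ℂ) * I / M * m = ((Real.pi * (m : ℝ) / (M : ℝ) : ℝ) : ℂ) * Complex.I := by
    push_cast; ring
  rw [e1, e1']
  set θ : ℝ := Real.pi * (m : ℝ) / (M : ℝ) with hθ
  rw [Complex.exp_add]
  have e3 : ((2 * Real.sin θ : ℝ) : ℂ) = (Complex.exp (-(θ * I)) - Complex.exp (θ * I)) * I := by
    push_cast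
    rw [Complex.two_sin, neg_mul]
  rw [e3]
  have h2 : Complex.exp (θ * I) * Complex.exp (-(θ * I)) = 1 := by
    rw [← Complex.exp_add, add_neg_cancel, Complex.exp_zero]
  linear_combination (-1 : ℂ) * h2 + (Complex.exp (θ * I) * Complex.exp (-(θ * I)) -
    Complex.exp (θ * I) ^ 2) * Complex.I_sq

theorem Brt_prod (M k : ℕ) : ∏ i ∈ Finset.range k, (1 - rt M ^ (i + 1)) =
    (-I) ^ k * exp (Real.pi * I / M * (k * (k + 1) / 2)) * (S M k : ℂ) := by
  induction k with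
  | zero => simp [S_zero]
  | succ k ih =>
    rw [Finset.prod_range_succ, ih, Brt_one_sub, S_succ]
    have e : exp (Real.pi * I / M * (((k + 1 : ℕ) : ℂ) * (((k + 1 : ℕ) : ℂ) + 1) / 2)) =
        exp (Real.pi * I / M * (k * (k + 1) / 2)) * exp (Real.pi * I / M * ((k + 1 : ℕ) : ℂ)) := by
      rw [← Complex.exp_add]
      congr 1
      push_cast
      ring
    rw [e, pow_succ]
    push_cast
    ring

theorem qbin_rt (M k j : ℕ) (hjk : j ≤ k) (hk : k < M) :
    qbin (rt M) k j = exp (Real.pi * I / M * (j * ((k : ℂ) - j))) *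
      (S M k / (S M j * S M (k - j))) := by
  have h := Small_qbin_prod (rt M) j (k - j)
  rw [Nat.add_sub_cancel' hjk, Brt_prod, Brt_prod, Brt_prod] at h
  have hSj : (S M j : ℂ) ≠ 0 := by exact_mod_cast (S_pos (show j < M by omega)).ne'
  have hSkj : (S M (k - j) : ℂ) ≠ 0 := by exact_mod_cast (S_pos (show k - j < M by omega)).ne'
  have hI : (-I) ^ k = (-I) ^ j * (-I) ^ (k - j) := by
    rw [← pow_add, Nat.add_sub_cancel' hjk]
  have hkj : (((k - j : ℕ)) : ℂ) = (k : ℂ) - j := by rw [Nat.cast_sub hjk]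
  have hE : exp (Real.pi * I / M * (k * (k + 1) / 2)) =
      exp (Real.pi * I / M * (j * ((k : ℂ) - j))) * (exp (Real.pi * I / M * (j * (j + 1) / 2)) *
        exp (Real.pi * I / M * (((k - j : ℕ) : ℂ) * (((k - j : ℕ) : ℂ) + 1) / 2))) := by
    rw [← Complex.exp_add, ← Complex.exp_add]
    congr 1
    rw [hkj]
    ring
  rw [hI, hE] at h
  have hne1 : (-I) ^ j * (-I) ^ (k - j) ≠ 0 := mul_ne_zero (pow_ne_zero _ (neg_ne_zero.2 I_ne_zero))
    (pow_ne_zero _ (neg_ne_zero.2 I_ne_zero))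
  have hne2 : exp (Real.pi * I / M * (j * (j + 1) / 2)) *
        exp (Real.pi * I / M * (((k - j : ℕ) : ℂ) * (((k - j : ℕ) : ℂ) + 1) / 2)) ≠ 0 :=
    mul_ne_zero (exp_ne_zero _) (exp_ne_zero _)
  set a1 := (-I) ^ j
  set a2 := (-I) ^ (k - j)
  set b1 := exp (Real.pi * I / M * (j * (j + 1) / 2))
  set b2 := exp (Real.pi * I / M * (((k - j : ℕ) : ℂ) * (((k - j : ℕ) : ℂ) + 1) / 2))
  set c := exp (Real.pi * I / M * (j * ((k : ℂ) - j)))
  rw [← mul_div_assoc, eq_div_iff (mul_ne_zero hSj hSkj)]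
  apply mul_left_cancel₀ (mul_ne_zero hne1 hne2)
  linear_combination h

theorem Brt_norm_aux (a : ℝ) : ‖exp (((a : ℝ) : ℂ) * I)‖ = 1 := Complex.norm_exp_ofReal_mul_I a

theorem norm_th (n M k : ℕ) : ‖th n M k‖ = 1 := by
  unfold th
  have e : (-(Real.pi * I / M) * ((k : ℂ) * (n - 1) + k * (k + 1) / 2)) =
      ((-(Real.pi / M) * ((k : ℝ) * (n - 1) + k * (k + 1) / 2) : ℝ) : ℂ) * I := by
    push_cast; ring
  rw [e, norm_mul, norm_mul, Brt_norm_aux, norm_pow, norm_pow, norm_neg, norm_one, Complex.norm_I]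
  simp

theorem norm_Th0 (n M : ℕ) : ‖Th0 n M‖ = 1 := by
  unfold Th0
  rw [norm_mul, norm_pow, norm_neg, norm_one, norm_neg, Complex.norm_I]
  simp

theorem Th0_sq (n M : ℕ) : Th0 n M ^ 2 = -1 := by
  unfold Th0
  rw [mul_pow, ← pow_mul, mul_comm (n + M) 2, pow_mul, neg_one_sq, one_pow, neg_sq, Complex.I_sq]
  ring

theorem Brt_conj_inv (z : ℂ) (hz : ‖z‖ = 1) : (starRingEnd ℂ) z = z⁻¹ := by
  rw [Complex.inv_def, Complex.normSq_eq_norm_sq, hz]; simp

theorem Brt_th_ne (n M k : ℕ) : th n M k ≠ 0 := by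
  intro h
  have := norm_th n M k
  rw [h, norm_zero] at this
  norm_num at this

theorem Brt_c1_ne (n M : ℕ) : c1 n M ≠ 0 := by
  intro h
  have := norm_c1 n M
  rw [h, norm_zero] at this
  norm_num at this

/-- `x^{j(k-j)} Θ = Θ₀ θ_k / θ_j` -/
theorem Brt_phase (n M j m : ℕ) :
    exp (Real.pi * I / M * (j * m)) * Th (n + 2 * j) M m * th n M j = Th0 n M * th n M (j + m) := by
  unfold Th th Th0
  have e1 : (-1 : ℂ) ^ (n + 2 * j + m + M) = (-1) ^ (n + M) * (-1) ^ m := by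
    rw [show n + 2 * j + m + M = (n + M) + m + 2 * j by ring, pow_add, pow_add, pow_mul (-1 : ℂ) 2]
    simp
  have e2 : exp (Real.pi * I / M * (j * m)) *
      exp (-(Real.pi * I / M) * (m * (((n + 2 * j : ℕ) : ℂ) - 1) + m * (m + 1) / 2)) *
      exp (-(Real.pi * I / M) * (j * (n - 1) + j * (j + 1) / 2)) =
      exp (-(Real.pi * I / M) * (((j + m : ℕ) : ℂ) * (n - 1) +
        ((j + m : ℕ) : ℂ) * (((j + m : ℕ) : ℂ) + 1) / 2)) := by
    rw [← Complex.exp_add, ← Complex.exp_add]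
    congr 1
    push_cast
    ring
  rw [e1, ← e2, pow_add (-1 : ℂ) j m, pow_add I j m]
  ring

/-- `c1(n)/c1(n+2j) = ζ^{nj + j(j-1)}` -/
theorem Brt_c1 (n M j : ℕ) : c1 n M = c1 (n + 2 * j) M * (rt M ^ n) ^ j * rt M ^ (j * (j - 1)) := by
  have hj : (((j * (j - 1) : ℕ)) : ℂ) = (j : ℂ) * (j - 1) := by
    rcases Nat.eq_zero_or_pos j with rfl | hj
    · simp
    · rw [Nat.cast_mul, Nat.cast_sub hj]; simp
  unfold c1 rt
  rw [← pow_mul, ← Complex.exp_nat_mul, ← Complex.exp_nat_mul]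
  have e1 : (-1 : ℂ) ^ (n + 2 * j + 1 + M) = (-1) ^ (n + 1 + M) := by
    rw [show n + 2 * j + 1 + M = (n + 1 + M) + 2 * j by ring, pow_add, pow_mul (-1 : ℂ) 2]
    simp
  rw [e1]
  have e2 : exp (-(2 * Real.pi * I / M) * (bt n : ℂ) ^ 2) =
      exp (-(2 * Real.pi * I / M) * (bt (n + 2 * j) : ℂ) ^ 2) *
      exp (((n * j : ℕ) : ℂ) * (2 * Real.pi * I / M)) *
      exp (((j * (j - 1) : ℕ) : ℂ) * (2 * Real.pi * I / M)) := by
    rw [← Complex.exp_add, ← Complex.exp_add]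
    congr 1
    rw [hj]
    unfold bt
    push_cast
    ring
  rw [e2]
  ring

/-- `eN = θ²` -/
theorem Brt_eN (n M k : ℕ) : eN (exp (Real.pi * I / M) ^ n) (exp (Real.pi * I / M)) k =
    th n M k ^ 2 := by
  have hx : exp (Real.pi * I / M) ^ 2 = rt M := by rw [← exp_nat_mul]; unfold rt; congr 1; push_cast; ring
  have hA : (exp (Real.pi * I / M) ^ n) ^ 2 = rt M ^ n := by
    rw [← pow_mul, mul_comm n 2, pow_mul, hx]
  unfold eN
  rw [hx, hA]
  have h2 : (((k * (k - 1) / 2 : ℕ) : ℂ)) * 2 = k * (k - 1) := by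
    have h3 : k * (k - 1) / 2 * 2 = k * (k - 1) :=
      Nat.div_mul_cancel (Nat.even_mul_pred_self k).two_dvd
    have h4 : (((k * (k - 1) / 2 * 2 : ℕ)) : ℂ) = ((k * (k - 1) : ℕ) : ℂ) := by rw [h3]
    have h5 : ((k * (k - 1) : ℕ) : ℂ) = k * (k - 1) := by
      rcases Nat.eq_zero_or_pos k with rfl | hk
      · simp
      · rw [Nat.cast_mul, Nat.cast_sub hk]; simp
    rw [h5, Nat.cast_mul] at h4
    exact h4
  have e1 : ((rt M ^ n)⁻¹) ^ k * ((rt M)⁻¹) ^ (k * (k - 1) / 2) =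
      exp (-(Real.pi * I / M) * (k * (n - 1) + k * (k + 1) / 2)) ^ 2 := by
    rw [← Complex.exp_nat_mul]
    unfold rt
    rw [← Complex.exp_nat_mul, ← Complex.exp_neg, ← Complex.exp_neg, ← Complex.exp_nat_mul,
      ← Complex.exp_nat_mul, ← Complex.exp_add]
    congr 1
    push_cast
    linear_combination (-(Real.pi * I / M)) * h2
  rw [mul_assoc, e1]
  unfold th
  have e3 : (I ^ k) ^ 2 = (-1 : ℂ) ^ k := by
    rw [← pow_mul, mul_comm, pow_mul, Complex.I_sq]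
  have e4 : ((-1 : ℂ) ^ k) ^ 2 = 1 := by
    rw [← pow_mul, mul_comm, pow_mul]; simp
  rw [mul_pow, mul_pow, e3, e4]
  ring

/-- The powers with positive exponents. -/
theorem Brt_pos (p : ℕ) (hp : 1 ≤ p) (N n M : ℕ) (hNM : N < M) (k j : Fin (N + 1)) (hjk : j ≤ k) :
    (Bmat N (exp (Real.pi * I / M) ^ n) (exp (Real.pi * I / M)) ^ p) k j =
      (th n M k * S M k) / (th n M j * S M j) * RG (p : ℤ) n M k j := by
  have hx : exp (Real.pi * I / M) ^ 2 = rt M := by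
    rw [← exp_nat_mul]; unfold rt; congr 1; push_cast; ring
  have hA : (exp (Real.pi * I / M) ^ n) ^ 2 = rt M ^ n := by
    rw [← pow_mul, mul_comm n 2, pow_mul, hx]
  have hjk' : (j : ℕ) ≤ (k : ℕ) := hjk
  have hkM : (k : ℕ) < M := by have := k.2; omega
  have hSk : (S M k : ℂ) ≠ 0 := by exact_mod_cast (S_pos hkM).ne'
  have hSj : (S M j : ℂ) ≠ 0 := by exact_mod_cast (S_pos (show (j : ℕ) < M by omega)).ne'
  have hSkj : (S M (k - j) : ℂ) ≠ 0 := by
    exact_mod_cast (S_pos (show (k : ℕ) - j < M by omega)).ne'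
  rw [Bmat_pow N _ _ p k j hjk, hx, hA, qbin_rt M k j hjk' hkM]
  unfold RG NN
  have hpi : (0 : ℤ) < (p : ℤ) := by omega
  rw [if_pos hpi, Int.toNat_natCast, zpow_natCast]
  have hph := Brt_phase n M j ((k : ℕ) - j)
  rw [Nat.add_sub_cancel' hjk'] at hph
  have hkj : (((k : ℕ) - (j : ℕ) : ℕ) : ℂ) = (k : ℂ) - j := by rw [Nat.cast_sub hjk']
  rw [hkj] at hph
  have hc := Brt_c1 n M j
  have hc0 := Brt_c1_ne (n + 2 * j) M
  have hc' : c1 n M / c1 (n + 2 * j) M = (rt M ^ n) ^ (j : ℕ) * rt M ^ ((j : ℕ) * ((j : ℕ) - 1)) := by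
    rw [div_eq_iff hc0, hc]; ring
  rw [hc']
  have hrt : rt M ^ n * rt M ^ (2 * (j : ℕ)) = rt M ^ (n + 2 * (j : ℕ)) := by rw [pow_add]
  rw [hrt]
  have hThc : (starRingEnd ℂ) (Th (n + 2 * j) M (k - j)) * Th (n + 2 * j) M (k - j) = 1 := by
    rw [mul_comm, Complex.mul_conj, Complex.normSq_eq_norm_sq, norm_Th]; simp
  have hthj := Brt_th_ne n M j
  set E := exp (Real.pi * I / M * (((j : ℕ) : ℂ) * (((k : ℕ) : ℂ) - ((j : ℕ) : ℂ))))
  set T := Th (n + 2 * j) M (k - j)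
  set tc := twistCoeff (rt M ^ (n + 2 * (j : ℕ))) (rt M) p ((k : ℕ) - j)
  set B := ((rt M ^ n) ^ (j : ℕ) * rt M ^ ((j : ℕ) * ((j : ℕ) - 1))) ^ p
  have hE : E = Th0 n M * th n M k / th n M j * (starRingEnd ℂ) T := by
    have h1 : E * T * th n M j = Th0 n M * th n M k := hph
    field_simp
    calc E * th n M j = (E * T * th n M j) * (starRingEnd ℂ) T := by
          linear_combination (-(E * th n M j)) * hThc
      _ = _ := by rw [h1]
  rw [hE]
  field_simp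

theorem Brt_conj_Bmat (N : ℕ) (A x : ℂ) (p : ℕ) (k j : Fin (N + 1)) :
    (Bmat N ((starRingEnd ℂ) A) ((starRingEnd ℂ) x) ^ p) k j =
      (starRingEnd ℂ) ((Bmat N A x ^ p) k j) := by
  have h1 : Bmat N ((starRingEnd ℂ) A) ((starRingEnd ℂ) x) = (starRingEnd ℂ).mapMatrix (Bmat N A x) := by
    ext a b
    rw [RingHom.mapMatrix_apply, Matrix.map_apply]
    unfold Bmat
    rw [map_mul, map_mul, map_pow, map_pow, map_pow, map_pow, ← map_pow (starRingEnd ℂ) x 2,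
      qbin_conj]
  rw [h1, ← map_pow, RingHom.mapMatrix_apply, Matrix.map_apply]

/-- The powers of the twist matrix. -/
theorem Brt (r : ℤ) (N n M : ℕ) (hn : 2 ≤ n) (hNM : N < M) (k j : Fin (N + 1)) (hjk : j ≤ k) :
    (Bmat N (exp (Real.pi * I / M) ^ n) (exp (Real.pi * I / M)) ^ r) k j =
      (th n M k * S M k) / (th n M j * S M j) * RG r n M k j := by
  have hjk' : (j : ℕ) ≤ (k : ℕ) := hjk
  have hkM : (k : ℕ) < M := by have := k.2; omega
  have hSk : (S M k : ℂ) ≠ 0 := by exact_mod_cast (S_pos hkM).ne'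
  have hSj : (S M j : ℂ) ≠ 0 := by exact_mod_cast (S_pos (show (j : ℕ) < M by omega)).ne'
  have hthk := Brt_th_ne n M k
  have hthj := Brt_th_ne n M j
  rcases lt_trichotomy r 0 with hr | hr | hr
  · -- negative
    obtain ⟨p, hp⟩ : ∃ p : ℕ, r = -(p : ℤ) := ⟨(-r).toNat, by omega⟩
    have hp1 : 1 ≤ p := by omega
    have hx0 : exp (Real.pi * I / M) ≠ 0 := exp_ne_zero _
    have hxn : ‖exp (Real.pi * I / M)‖ = 1 := by
      have e : (Real.pi * I / M : ℂ) = ((Real.pi / M : ℝ) : ℂ) * I := by push_cast; ring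
      rw [e, Complex.norm_exp_ofReal_mul_I]
    have hxc : (exp (Real.pi * I / M))⁻¹ = (starRingEnd ℂ) (exp (Real.pi * I / M)) :=
      (Brt_conj_inv _ hxn).symm
    have hAc : (exp (Real.pi * I / M) ^ n)⁻¹ = (starRingEnd ℂ) (exp (Real.pi * I / M) ^ n) := by
      rw [map_pow, ← hxc, inv_pow]
    rw [hp, Bmat_neg N _ _ (pow_ne_zero _ hx0) hx0 p k j, hxc, hAc, Brt_conj_Bmat,
      Brt_pos p hp1 N n M hNM k j hjk, Brt_eN, Brt_eN]
    have hck : (starRingEnd ℂ) (th n M k) = (th n M k)⁻¹ := Brt_conj_inv _ (norm_th n M k)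
    have hcj : (starRingEnd ℂ) (th n M j) = (th n M j)⁻¹ := Brt_conj_inv _ (norm_th n M j)
    have hT0 : (starRingEnd ℂ) (Th0 n M) = -Th0 n M := by
      unfold Th0
      rw [map_mul, map_pow, map_neg, map_neg, map_one, Complex.conj_I]
      ring
    have hcc : (starRingEnd ℂ) (c1 n M / c1 (n + 2 * j) M) = (c1 n M / c1 (n + 2 * j) M)⁻¹ := by
      apply Brt_conj_inv
      rw [norm_div, norm_c1, norm_c1, div_one]
    have hRG : (starRingEnd ℂ) (RG (p : ℤ) n M k j) = RG (-(p : ℤ)) n M k j := by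
      unfold RG NN
      rw [if_pos (show (0 : ℤ) < (p : ℤ) by omega), if_neg (show ¬ (0 : ℤ) < -(p : ℤ) by omega),
        neg_neg, Int.toNat_natCast, zpow_natCast, zpow_neg, zpow_natCast]
      rw [map_div₀, map_mul, map_mul, map_mul, hT0, map_pow, hcc, Complex.conj_conj,
        Complex.conj_ofReal, inv_pow]
      ring
    rw [map_mul, map_div₀, map_mul, map_mul, Complex.conj_ofReal, Complex.conj_ofReal, hck, hcj,
      hRG]
    field_simp
  · -- zero
    subst hr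
    rw [zpow_zero]
    unfold RG NN
    rw [if_neg (lt_irrefl _), zpow_zero, neg_zero, Int.toNat_zero]
    rcases eq_or_ne j k with hjk2 | hjk2
    · subst hjk2
      rw [Matrix.one_apply_eq, Nat.sub_self]
      have h0 : twistCoeff (rt M ^ (n + 2 * (j : ℕ))) (rt M) 0 0 = 1 := rfl
      rw [h0, map_one, S_zero]
      have hT : Th (n + 2 * j) M 0 = Th0 n M := by
        unfold Th Th0
        have e1 : (-1 : ℂ) ^ (n + 2 * (j : ℕ) + 0 + M) = (-1) ^ (n + M) := by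
          rw [show n + 2 * (j : ℕ) + 0 + M = (n + M) + 2 * (j : ℕ) by ring, pow_add,
            pow_mul (-1 : ℂ) 2]
          simp
        rw [e1]
        simp
      rw [hT, div_self (mul_ne_zero hthj hSj)]
      have := Th0_sq n M
      push_cast
      linear_combination this
    · rw [Matrix.one_apply_ne (Ne.symm hjk2)]
      have hne : (k : ℕ) - j ≠ 0 := by
        have : (j : ℕ) ≠ k := fun h => hjk2 (Fin.ext h)
        omega
      have h0 : twistCoeff (rt M ^ (n + 2 * (j : ℕ))) (rt M) 0 ((k : ℕ) - j) = 0 := by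
        show (if (k : ℕ) - j = 0 then (1 : ℂ) else 0) = 0
        rw [if_neg hne]
      rw [h0, map_zero]
      ring
  · obtain ⟨p, hp⟩ : ∃ p : ℕ, r = (p : ℤ) := ⟨r.toNat, by omega⟩
    rw [hp, zpow_natCast]
    exact Brt_pos p (by omega) N n M hNM k j hjk

end Pool.Agent.H63.VC4
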