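import Pool.Agent.H63.VC4.GeoDefs

/-! # The hinges of the Conway notation -/

namespace Pool.Agent.H63.VC4

open Pool.Agent.H63.VC Pool.Agent.H63.VC3 Complex
open scoped BigOperators

/-- Proper partial sums. -/
def HingeIdx_PS (L : List ℕ) (s : ℕ) : Prop := ∃ j, 1 ≤ j ∧ j < L.length ∧ s = (L.take j).sum

theorem HingeIdx_PS_cons (x : ℕ) (L : List ℕ) (hL : L ≠ []) (s : ℕ) :
    HingeIdx_PS (x :: L) s ↔ s = x ∨ ∃ t, HingeIdx_PS L t ∧ s = x + t := by
  constructor
  · rintro ⟨j, h1, h2, h3⟩
    obtain ⟨j, rfl⟩ : ∃ j', j = j' + 1 := ⟨j - 1, by omega⟩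
    rcases Nat.eq_zero_or_pos j with rfl | hj
    · left; simpa using h3
    · right
      refine ⟨(L.take j).sum, ⟨j, hj, by simpa using h2, rfl⟩, by simpa using h3⟩
  · rintro (rfl | ⟨t, ⟨j, h1, h2, rfl⟩, rfl⟩)
    · refine ⟨1, le_refl _, ?_, by simp⟩
      have := List.length_pos_iff.mpr hL
      simp only [List.length_cons]; omega
    · exact ⟨j + 1, by omega, by simpa using h2, by simp⟩

theorem HingeIdx_PS_one (x s : ℕ) : ¬ HingeIdx_PS [x] s := by
  rintro ⟨j, h1, h2, -⟩
  simp at h2; omega

theorem HingeIdx_ne (d : ℕ) (L : List ℤ) (hL : L ≠ []) : conwayAux d L ≠ [] := by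
  match L, hL with
  | [a], _ => simp [conwayAux]
  | a :: b :: l, _ => rw [conwayAux]; split_ifs <;> simp

theorem HingeIdx_range (r : ℕ → ℤ) (R : ℕ) :
    (List.range (R + 1)).map r = r 0 :: (List.range R).map (fun i => r (i + 1)) := by
  rw [List.range_succ_eq_map, List.map_cons, List.map_map]; rfl

theorem HingeIdx_oo (r : ℕ → ℤ) (i : ℕ) :
    oo r (i + 1) = oo r 1 + oo (fun i => r (i + 1)) i := by
  induction i with
  | zero => simp [oo]
  | succ i ih =>
    have e1 : oo r (i + 1 + 1) = oo r (i + 1) +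
      (2 * (r (i + 1)).natAbs - if 0 < r (i + 1) * r (i + 1 + 1) then 1 else 0) := rfl
    have e2 : oo (fun i => r (i + 1)) (i + 1) = oo (fun i => r (i + 1)) i +
      (2 * (r (i + 1)).natAbs - if 0 < r (i + 1) * r (i + 1 + 1) then 1 else 0) := rfl
    rw [e1, e2, ih]; omega

theorem HingeIdx_step (d : ℕ) (r : ℕ → ℤ) (R : ℕ) :
    conwayAux d ((List.range (R + 2)).map r) =
      if 0 < r 0 * r 1 then (2 * (r 0).natAbs - d - 1) :: 1 ::
        conwayAux 1 ((List.range (R + 1)).map (fun i => r (i + 1)))
      else (2 * (r 0).natAbs - d) :: conwayAux 0 ((List.range (R + 1)).map (fun i => r (i + 1))) := by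
  rw [HingeIdx_range, HingeIdx_range, conwayAux]

theorem HingeIdx_sum (R : ℕ) : ∀ (r : ℕ → ℤ) (d : ℕ), d ≤ 1 →
    (∀ i, i < R + 1 → 2 ≤ (r i).natAbs) →
    (conwayAux d ((List.range (R + 1)).map r)).sum + d = oo r R + 2 * (r R).natAbs := by
  induction R with
  | zero =>
    intro r d hd hr
    have := hr 0 (by omega)
    simp [conwayAux, oo]
    omega
  | succ R ih =>
    intro r d hd hr
    have h0 := hr 0 (by omega)
    have i0 := ih (fun i => r (i + 1)) 0 (by omega) (fun i hi => hr (i + 1) (by omega))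
    have i1 := ih (fun i => r (i + 1)) 1 (by omega) (fun i hi => hr (i + 1) (by omega))
    rw [HingeIdx_step, HingeIdx_oo]
    have e : oo r 1 = 2 * (r 0).natAbs - if 0 < r 0 * r 1 then 1 else 0 := by simp [oo]
    rw [e]
    split_ifs with hc
    · simp only [List.sum_cons]
      omega
    · simp only [List.sum_cons]
      omega

theorem HingeIdx_main (R : ℕ) : ∀ (r : ℕ → ℤ) (d : ℕ), d ≤ 1 →
    (∀ i, i < R + 1 → 2 ≤ (r i).natAbs) → ∀ s,
    (HingeIdx_PS (conwayAux d ((List.range (R + 1)).map r)) s ↔
      ∃ i, i < R ∧ (s + d = oo r (i + 1) ∨ (s + d = oo r (i + 1) + 1 ∧ 0 < r i * r (i + 1)))) := by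
  induction R with
  | zero =>
    intro r d hd hr s
    simp only [List.range_succ, List.range_zero, List.map_append, List.map_nil, List.map_cons,
      List.nil_append, conwayAux]
    constructor
    · intro h; exact absurd h (HingeIdx_PS_one _ _)
    · rintro ⟨i, hi, -⟩; omega
  | succ R ih =>
    intro r d hd hr s
    have h0 := hr 0 (by omega)
    have hne : (List.range (R + 1)).map (fun i => r (i + 1)) ≠ [] := by
      rw [HingeIdx_range]; simp
    have e : oo r 1 = 2 * (r 0).natAbs - if 0 < r 0 * r 1 then 1 else 0 := by simp [oo]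
    rw [HingeIdx_step]
    split_ifs with hc
    · rw [if_pos hc] at e
      have ih' := ih (fun i => r (i + 1)) 1 (by omega) (fun i hi => hr (i + 1) (by omega))
      rw [HingeIdx_PS_cons _ _ (by simp)]
      constructor
      · rintro (rfl | ⟨t, ht, rfl⟩)
        · refine ⟨0, by omega, Or.inl ?_⟩
          rw [zero_add, e]; omega
        · rw [HingeIdx_PS_cons _ _ (HingeIdx_ne _ _ hne)] at ht
          rcases ht with rfl | ⟨t, ht, rfl⟩
          · refine ⟨0, by omega, Or.inr ⟨?_, hc⟩⟩
            rw [zero_add, e]; omega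
          · rw [ih'] at ht
            obtain ⟨i, hi, h⟩ := ht
            refine ⟨i + 1, by omega, ?_⟩
            rw [HingeIdx_oo r (i + 1), e]
            rcases h with h | ⟨h, h'⟩
            · left; omega
            · right; exact ⟨by omega, h'⟩
      · rintro ⟨i, hi, h⟩
        rcases i with _ | i
        · rw [zero_add, e] at h
          rcases h with h | ⟨h, -⟩
          · left; omega
          · right
            exact ⟨1, (HingeIdx_PS_cons _ _ (HingeIdx_ne _ _ hne) _).2 (Or.inl rfl), by omega⟩
        · right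
          have h2 : 2 ≤ oo (fun i => r (i + 1)) (i + 1) := by
            rw [HingeIdx_oo]
            have : oo (fun i => r (i + 1)) 1 = 2 * (r 1).natAbs - if 0 < r 1 * r 2 then 1 else 0 := by
              simp [oo]
            have := hr 1 (by omega)
            split_ifs at * <;> omega
          rw [HingeIdx_oo r (i + 1), e] at h
          refine ⟨1 + (s + d - (2 * (r 0).natAbs - 1) - 1), ?_, ?_⟩
          · rw [HingeIdx_PS_cons _ _ (HingeIdx_ne _ _ hne)]
            refine Or.inr ⟨_, ?_, rfl⟩
            rw [ih']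
            refine ⟨i, by omega, ?_⟩
            rcases h with h | ⟨h, h'⟩
            · left; omega
            · right; exact ⟨by omega, h'⟩
          · rcases h with h | ⟨h, h'⟩ <;> omega
    · rw [if_neg hc] at e
      have ih' := ih (fun i => r (i + 1)) 0 (by omega) (fun i hi => hr (i + 1) (by omega))
      rw [HingeIdx_PS_cons _ _ (HingeIdx_ne _ _ hne)]
      constructor
      · rintro (rfl | ⟨t, ht, rfl⟩)
        · refine ⟨0, by omega, Or.inl ?_⟩
          rw [zero_add, e]; omega
        · rw [ih'] at ht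
          obtain ⟨i, hi, h⟩ := ht
          refine ⟨i + 1, by omega, ?_⟩
          rw [HingeIdx_oo r (i + 1), e]
          rcases h with h | ⟨h, h'⟩
          · left; omega
          · right; exact ⟨by omega, h'⟩
      · rintro ⟨i, hi, h⟩
        rcases i with _ | i
        · rw [zero_add, e] at h
          rcases h with h | ⟨-, h⟩
          · left; omega
          · exact absurd h hc
        · right
          rw [HingeIdx_oo r (i + 1), e] at h
          refine ⟨s + d - 2 * (r 0).natAbs, ?_, ?_⟩
          · rw [ih']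
            refine ⟨i, by omega, ?_⟩
            rcases h with h | ⟨h, h'⟩
            · left; omega
            · right; exact ⟨by omega, h'⟩
          · rcases h with h | ⟨h, h'⟩ <;> omega

theorem conway_sum (r : ℕ → ℤ) (R : ℕ) (hr : ∀ i, i < R + 1 → 2 ≤ (r i).natAbs) :
    (conway ((List.range (R + 1)).map r)).sum = oo r R + 2 * (r R).natAbs := by
  have := HingeIdx_sum R r 0 (by omega) hr
  simpa [conway] using this

theorem hinge_iff (r : ℕ → ℤ) (R : ℕ) (hr : ∀ i, i < R + 1 → 2 ≤ (r i).natAbs) (h : ℕ) :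
    IsHinge (conway ((List.range (R + 1)).map r)) h ↔
      ∃ i, i < R ∧ (h + 1 = oo r (i + 1) ∨ (h = oo r (i + 1) ∧ 0 < r i * r (i + 1))) := by
  have := HingeIdx_main R r 0 (by omega) hr (h + 1)
  simp only [add_zero, Nat.add_right_cancel_iff] at this
  exact this

end Pool.Agent.H63.VC4
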