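import Pool.Agent.H63.VC3.Five
import Pool.Agent.H63.VC4.HingeIdx
import Pool.Agent.H63.VC4.SWgen

/-! # The volume of the two-bridge knot from the shape parameters of the twist regions -/

namespace Pool.Agent.H63.VC4

open Pool.Agent.H63.VC Pool.Agent.H63.VC3 Complex
open scoped BigOperators

section ChainGeoAux

variable (r : ℕ → ℤ) (R : ℕ) (z : ℕ → ℕ → ℂ)

theorem ChainGeo_oo_succ (i : ℕ) :
    oo r (i + 1) = oo r i + (2 * (r i).natAbs - if 0 < r i * r (i + 1) then 1 else 0) := rfl

theorem ChainGeo_oo_same {i : ℕ} (h : 0 < r i * r (i + 1)) :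
    oo r (i + 1) = oo r i + (2 * (r i).natAbs - 1) := by
  rw [ChainGeo_oo_succ, if_pos h]

theorem ChainGeo_oo_opp {i : ℕ} (h : r i * r (i + 1) < 0) :
    oo r (i + 1) = oo r i + 2 * (r i).natAbs := by
  rw [ChainGeo_oo_succ, if_neg (by omega), Nat.sub_zero]

variable {r R}

theorem ChainGeo_oo_step (hr : ∀ i, i < R + 1 → 2 ≤ (r i).natAbs) {i : ℕ} (hi : i ≤ R) :
    oo r i + (2 * (r i).natAbs - 1) ≤ oo r (i + 1) := by
  rw [ChainGeo_oo_succ]
  have := hr i (by omega)
  split_ifs <;> omega

theorem ChainGeo_oo_mono (hr : ∀ i, i < R + 1 → 2 ≤ (r i).natAbs) {i j : ℕ} (hij : i ≤ j)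
    (hj : j ≤ R + 1) : oo r i ≤ oo r j := by
  induction j with
  | zero =>
    have : i = 0 := by omega
    rw [this]
  | succ j ih =>
    rcases Nat.lt_or_ge i (j + 1) with h | h
    · have h1 := ih (by omega) (by omega)
      have h2 := ChainGeo_oo_step hr (i := j) (by omega)
      omega
    · have : i = j + 1 := by omega
      rw [this]

theorem ChainGeo_oo_strict (hr : ∀ i, i < R + 1 → 2 ≤ (r i).natAbs) {i j : ℕ} (hij : i < j)
    (hj : j ≤ R + 1) : oo r i + 3 ≤ oo r j := by
  have h1 := ChainGeo_oo_step hr (i := i) (by omega)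
  have h2 := ChainGeo_oo_mono hr (i := i + 1) (j := j) hij hj
  have := hr i (by omega)
  omega

variable (r R)

/-- The region of a layer. -/
def ChainGeo_reg (idx : ℕ) : ℕ := Nat.findGreatest (fun i => oo r i ≤ idx) R

variable {r R}

theorem ChainGeo_reg_eq (hr : ∀ i, i < R + 1 → 2 ≤ (r i).natAbs) {i k idx : ℕ} (hi : i ≤ R)
    (hk : 1 ≤ k) (hidx : idx + 1 = oo r i + k) (h2 : i < R → oo r i + k ≤ oo r (i + 1)) :
    ChainGeo_reg r R idx = i := by
  unfold ChainGeo_reg
  rw [Nat.findGreatest_eq_iff]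
  refine ⟨hi, fun _ => by omega, fun n hn hnR h3 => ?_⟩
  have h4 := ChainGeo_oo_mono hr (i := i + 1) (j := n) hn (by omega)
  have h5 := h2 (by omega)
  omega

variable (r R)

/-- The shape parameters of the layers. -/
noncomputable def ChainGeo_sh (idx : ℕ) : ℂ :=
  if 0 < ChainGeo_reg r R idx ∧ idx + 1 - oo r (ChainGeo_reg r R idx) = 1 ∧
      0 < r (ChainGeo_reg r R idx - 1) * r (ChainGeo_reg r R idx) then
    ((starRingEnd ℂ) (z (ChainGeo_reg r R idx) 1))⁻¹
  else z (ChainGeo_reg r R idx) (idx + 1 - oo r (ChainGeo_reg r R idx))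

variable {r R}

theorem ChainGeo_sh_gen (hr : ∀ i, i < R + 1 → 2 ≤ (r i).natAbs) {i k idx : ℕ} (hi : i ≤ R)
    (hk : 1 ≤ k) (hidx : idx + 1 = oo r i + k) (h2 : i < R → oo r i + k ≤ oo r (i + 1))
    (hsp : ¬(0 < i ∧ k = 1 ∧ 0 < r (i - 1) * r i)) :
    ChainGeo_sh r R z idx = z i k := by
  have h := ChainGeo_reg_eq hr hi hk hidx h2
  have e : idx + 1 - oo r i = k := by omega
  unfold ChainGeo_sh
  rw [h, e, if_neg hsp]

theorem ChainGeo_sh_spec (hr : ∀ i, i < R + 1 → 2 ≤ (r i).natAbs) {i idx : ℕ} (hi : i < R)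
    (hidx : idx = oo r (i + 1)) (hs : 0 < r i * r (i + 1)) :
    ChainGeo_sh r R z idx = ((starRingEnd ℂ) (z (i + 1) 1))⁻¹ := by
  have h := ChainGeo_reg_eq hr (i := i + 1) (k := 1) (idx := idx) hi le_rfl (by omega)
    (fun h => by
      have := ChainGeo_oo_strict hr (i := i + 1) (j := i + 1 + 1) (by omega) (by omega)
      omega)
  have e : idx + 1 - oo r (i + 1) = 1 := by omega
  unfold ChainGeo_sh
  rw [h, e, if_pos ⟨by omega, rfl, by simpa using hs⟩]

/-- Every layer is a layer of a region. -/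
theorem ChainGeo_dec {idx : ℕ}
    (hidx : idx + 2 ≤ oo r R + 2 * (r R).natAbs) :
    ∃ i k, i ≤ R ∧ 1 ≤ k ∧ idx + 1 = oo r i + k ∧ (i < R → oo r i + k ≤ oo r (i + 1)) ∧
      (i = R → k ≤ 2 * (r R).natAbs - 1) := by
  have h0 : oo r 0 ≤ idx := Nat.zero_le _
  have h1 : oo r (ChainGeo_reg r R idx) ≤ idx :=
    Nat.findGreatest_spec (P := fun i => oo r i ≤ idx) (Nat.zero_le R) h0
  have h2 : ChainGeo_reg r R idx ≤ R := Nat.findGreatest_le R
  refine ⟨ChainGeo_reg r R idx, idx + 1 - oo r (ChainGeo_reg r R idx), h2, by omega, by omega,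
    fun hlt => ?_, fun he => ?_⟩
  · have h3 : ¬oo r (ChainGeo_reg r R idx + 1) ≤ idx :=
      Nat.findGreatest_is_greatest (P := fun i => oo r i ≤ idx) (n := R)
        (k := ChainGeo_reg r R idx + 1) (Nat.lt_succ_self _) hlt
    omega
  · rw [he] at h1 ⊢
    omega

theorem ChainGeo_hinge (hr : ∀ i, i < R + 1 → 2 ≤ (r i).natAbs) {i k idx : ℕ} (hi : i ≤ R)
    (hk : 1 ≤ k) (hidx : idx + 1 = oo r i + k) (h2 : i < R → oo r i + k ≤ oo r (i + 1)) :
    IsHinge (conway ((List.range (R + 1)).map r)) idx ↔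
      (i < R ∧ oo r i + k = oo r (i + 1)) ∨ (0 < i ∧ k = 1 ∧ 0 < r (i - 1) * r i) := by
  rw [hinge_iff r R hr]
  constructor
  · rintro ⟨i', hi', h | ⟨h, hs⟩⟩
    · left
      rcases Nat.lt_trichotomy i i' with hlt | heq | hgt
      · have h3 := ChainGeo_oo_strict hr (i := i + 1) (j := i' + 1) (by omega) (by omega)
        have h4 := h2 (by omega)
        omega
      · rw [heq] at hidx ⊢
        exact ⟨hi', by omega⟩
      · have h3 := ChainGeo_oo_mono hr (i := i' + 1) (j := i) (by omega) (by omega)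
        omega
    · right
      rcases Nat.lt_trichotomy i (i' + 1) with hlt | heq | hgt
      · have h3 := ChainGeo_oo_mono hr (i := i + 1) (j := i' + 1) (by omega) (by omega)
        have h4 := h2 (by omega)
        omega
      · rw [heq] at hidx ⊢
        exact ⟨by omega, by omega, by simpa using hs⟩
      · have h3 := ChainGeo_oo_strict hr (i := i' + 1) (j := i) (by omega) (by omega)
        omega
  · rintro (⟨h, h3⟩ | ⟨h, h3, hs⟩)
    · exact ⟨i, h, Or.inl (by omega)⟩
    · obtain ⟨i', rfl⟩ : ∃ i', i = i' + 1 := ⟨i - 1, by omega⟩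
      exact ⟨i', by omega, Or.inr ⟨by omega, by simpa using hs⟩⟩

/-- The previous layer in the same region. -/
theorem ChainGeo_shT (hr : ∀ i, i < R + 1 → 2 ≤ (r i).natAbs) {i k idx : ℕ} (hi : i ≤ R)
    (hk : 2 ≤ k) (hidx : idx + 1 = oo r i + k) (h2 : i < R → oo r i + k ≤ oo r (i + 1)) :
    shT (conway ((List.range (R + 1)).map r)) (ChainGeo_sh r R z) (idx - 1) = z i (k - 1) := by
  have hidx' : idx - 1 + 1 = oo r i + (k - 1) := by omega
  have h2' : i < R → oo r i + (k - 1) ≤ oo r (i + 1) := fun h => by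
    have := h2 h
    omega
  have hh := ChainGeo_hinge hr hi (by omega) hidx' h2'
  unfold shT
  by_cases hsp : 0 < i ∧ k - 1 = 1 ∧ 0 < r (i - 1) * r i
  · rw [if_pos (hh.2 (Or.inr hsp))]
    obtain ⟨h3, h4, hs⟩ := hsp
    obtain ⟨i', rfl⟩ : ∃ i', i = i' + 1 := ⟨i - 1, by omega⟩
    rw [ChainGeo_sh_spec z hr (i := i') (by omega) (by omega) (by simpa using hs), h4, map_inv₀,
      inv_inv, Complex.conj_conj]
  · rw [if_neg (fun h => by
      rcases hh.1 h with ⟨h3, h4⟩ | h3
      · have := h2 h3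
        omega
      · exact hsp h3)]
    exact ChainGeo_sh_gen z hr hi (by omega) hidx' h2' hsp

/-- The last layer of the previous region. -/
theorem ChainGeo_shT' (hr : ∀ i, i < R + 1 → 2 ≤ (r i).natAbs) {i k idx : ℕ} (hi : i < R)
    (hidx : idx = oo r (i + 1)) (hk : 2 ≤ k) (h2 : oo r (i + 1) = oo r i + k) :
    shT (conway ((List.range (R + 1)).map r)) (ChainGeo_sh r R z) (idx - 1) =
      ((starRingEnd ℂ) (z i k))⁻¹ := by
  have hidx' : idx - 1 + 1 = oo r i + k := by omega
  have hh := ChainGeo_hinge hr (i := i) (k := k) (idx := idx - 1) (by omega) (by omega) hidx'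
    (fun _ => by omega)
  unfold shT
  rw [if_pos (hh.2 (Or.inl ⟨hi, by omega⟩)), ChainGeo_sh_gen z hr (i := i) (k := k) (by omega)
    (by omega) hidx' (fun _ => by omega) (fun h => by omega)]

theorem ChainGeo_bw (w : ℂ) : blochWigner ((starRingEnd ℂ) w)⁻¹ = blochWigner w := by
  rw [SWpath_inv, bw_conj, neg_neg]

/-- The Bloch-Wigner function of the shape parameters. -/
theorem ChainGeo_bw_sh (hr : ∀ i, i < R + 1 → 2 ≤ (r i).natAbs) {i k idx : ℕ} (hi : i ≤ R)
    (hk : 1 ≤ k) (hidx : idx + 1 = oo r i + k) (h2 : i < R → oo r i + k ≤ oo r (i + 1)) :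
    blochWigner (ChainGeo_sh r R z idx) = blochWigner (z i k) := by
  by_cases hsp : 0 < i ∧ k = 1 ∧ 0 < r (i - 1) * r i
  · obtain ⟨h3, h4, hs⟩ := hsp
    obtain ⟨i', rfl⟩ : ∃ i', i = i' + 1 := ⟨i - 1, by omega⟩
    rw [ChainGeo_sh_spec z hr (i := i') (by omega) (by omega) (by simpa using hs), h4,
      ChainGeo_bw]
  · rw [ChainGeo_sh_gen z hr hi hk hidx h2 hsp]

theorem ChainGeo_sum_Icc (f : ℕ → ℝ) (K : ℕ) :
    ∑ k ∈ Finset.Icc 1 K, f k = ∑ j ∈ Finset.range K, f (j + 1) := by
  induction K with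
  | zero => simp
  | succ K ih => rw [Finset.sum_Icc_succ_top (by omega), ih, Finset.sum_range_succ]

theorem ChainGeo_sum_block (hr : ∀ i, i < R + 1 → 2 ≤ (r i).natAbs) {i K : ℕ} (hi : i ≤ R)
    (h2 : i < R → oo r i + K ≤ oo r (i + 1)) :
    ∑ idx ∈ Finset.Ico (oo r i) (oo r i + K), blochWigner (ChainGeo_sh r R z idx) =
      ∑ k ∈ Finset.Icc 1 K, blochWigner (z i k) := by
  rw [Finset.sum_Ico_eq_sum_range, Nat.add_sub_cancel_left, ChainGeo_sum_Icc]
  refine Finset.sum_congr rfl fun j hj => ?_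
  rw [Finset.mem_range] at hj
  exact ChainGeo_bw_sh z hr hi (by omega) (by omega) (fun h => by
    have := h2 h
    omega)

theorem ChainGeo_sum_pre (hr : ∀ i, i < R + 1 → 2 ≤ (r i).natAbs)
    (hr0 : ∀ i, i < R → r i * r (i + 1) ≠ 0) (j : ℕ) (hj : j ≤ R) :
    ∑ idx ∈ Finset.range (oo r j), blochWigner (ChainGeo_sh r R z idx) =
      ∑ i ∈ Finset.range j, (∑ k ∈ Finset.Icc 1 (2 * (r i).natAbs - 1), blochWigner (z i k) +
        if r i * r (i + 1) < 0 then blochWigner (z i (2 * (r i).natAbs)) else 0) := by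
  induction j with
  | zero => simp [oo]
  | succ j ih =>
    have hle := ChainGeo_oo_mono hr (i := j) (j := j + 1) (by omega) (by omega)
    rw [Finset.sum_range_succ, ← ih (by omega), Finset.range_eq_Ico,
      ← Finset.sum_Ico_consecutive _ (Nat.zero_le (oo r j)) hle, Finset.range_eq_Ico]
    congr 1
    have hpj := hr j (by omega)
    rcases lt_or_gt_of_ne (hr0 j (by omega)) with h | h
    · rw [if_pos h, ChainGeo_oo_opp r h, ChainGeo_sum_block z hr (by omega)
        (fun _ => (ChainGeo_oo_opp r h).ge)]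
      obtain ⟨q, hq⟩ : ∃ q, 2 * (r j).natAbs = q + 1 := ⟨2 * (r j).natAbs - 1, by omega⟩
      rw [hq, Finset.sum_Icc_succ_top (by omega), Nat.add_sub_cancel]
    · rw [if_neg (not_lt.2 h.le), add_zero, ChainGeo_oo_same r h, ChainGeo_sum_block z hr (by omega)
        (fun _ => (ChainGeo_oo_same r h).ge)]

end ChainGeoAux

theorem chain_geo (r : ℕ → ℤ) (R : ℕ) (hR : 1 ≤ R) (hr : ∀ i, i < R + 1 → 2 ≤ (r i).natAbs)
    (hr0 : ∀ i, i < R → r i * r (i + 1) ≠ 0) (z : ℕ → ℕ → ℂ)
    (hpos : ∀ i k, i < R + 1 → 1 ≤ k → k ≤ 2 * (r i).natAbs - 1 → ¬(i = 0 ∧ k = 1) →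
      ¬(i = R ∧ k = 2 * (r i).natAbs - 1) → 0 < (z i k).im)
    (h0 : z 0 1 = 1) (h1 : z R (2 * (r R).natAbs - 1) = 1)
    (hfan : ∀ i k, i < R + 1 → 1 ≤ k → k ≤ 2 * (r i).natAbs - 1 → ¬(i = 0 ∧ k = 1) →
      ¬(i = R ∧ k = 2 * (r i).natAbs - 1) →
      (1 - (z i k)⁻¹) ^ 2 * z i (k - 1) * z i (k + 1) = 1)
    (hopp : ∀ i, i < R → r i * r (i + 1) < 0 → 0 < (z i (2 * (r i).natAbs)).im ∧
      z (i + 1) 0 * (starRingEnd ℂ) (z i (2 * (r i).natAbs)) = 1 ∧
      (1 - z i (2 * (r i).natAbs)) ^ 2 * z i (2 * (r i).natAbs - 1) *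
        (starRingEnd ℂ) (z (i + 1) 1) = -z i (2 * (r i).natAbs))
    (hsame : ∀ i, i < R → 0 < r i * r (i + 1) →
      z (i + 1) 0 * z i (2 * (r i).natAbs) = 1 ∧
      z i (2 * (r i).natAbs - 1) = -(z i (2 * (r i).natAbs) * z (i + 1) 1)) :
    IsGreatest (structureVolumes (conway ((List.range (R + 1)).map r)))
      (2 * ∑ i ∈ Finset.range (R + 1), ∑ k ∈ Finset.Icc 1 (2 * (r i).natAbs - 1),
          blochWigner (z i k) +
        2 * ∑ i ∈ Finset.range R, if r i * r (i + 1) < 0 then
          blochWigner (z i (2 * (r i).natAbs)) else 0) := by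
  have hsum := conway_sum r R hr
  have hpR := hr R (by omega)
  have hooR : 3 ≤ oo r R := by
    have := ChainGeo_oo_strict hr (i := 0) (j := R) (by omega) (by omega)
    omega
  set a := conway ((List.range (R + 1)).map r) with ha
  set sh := ChainGeo_sh r R z with hsh
  -- the first and the last layer
  have hsh0 : sh 0 = 1 := by
    rw [← h0]
    exact ChainGeo_sh_gen z hr (i := 0) (k := 1) (by omega) le_rfl (by simp [oo])
      (fun _ => by
        have := ChainGeo_oo_strict hr (i := 0) (j := 0 + 1) (by omega) (by omega)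
        omega) (fun h => by omega)
  have hsh1 : sh (a.sum - 2) = 1 := by
    rw [← h1]
    exact ChainGeo_sh_gen z hr (i := R) (k := 2 * (r R).natAbs - 1) le_rfl (by omega) (by omega)
      (fun h => by omega) (fun h => by omega)
  -- the value
  have hval : ∑ idx ∈ Finset.Icc 1 (a.sum - 3), blochWigner (sh idx) =
      ∑ i ∈ Finset.range (R + 1), ∑ k ∈ Finset.Icc 1 (2 * (r i).natAbs - 1),
          blochWigner (z i k) +
        ∑ i ∈ Finset.range R, if r i * r (i + 1) < 0 then
          blochWigner (z i (2 * (r i).natAbs)) else 0 := by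
    have hD1 : blochWigner 1 = 0 := by
      have := blochWigner_real 1
      rwa [Complex.ofReal_one] at this
    have e1 : ∑ idx ∈ Finset.range (oo r R + (2 * (r R).natAbs - 1)), blochWigner (sh idx) =
        ∑ idx ∈ Finset.Icc 1 (a.sum - 3), blochWigner (sh idx) := by
      obtain ⟨q, hq⟩ : ∃ q, oo r R + (2 * (r R).natAbs - 1) = q + 1 + 1 :=
        ⟨oo r R + (2 * (r R).natAbs - 1) - 2, by omega⟩
      have e3 : a.sum - 2 = q + 1 := by omega
      have e4 : a.sum - 3 = q := by omega
      rw [hq, Finset.sum_range_succ, Finset.sum_range_succ', ← e3, hsh1, hsh0, hD1, add_zero,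
        add_zero, e4, ChainGeo_sum_Icc]
    have e2 : ∑ idx ∈ Finset.range (oo r R + (2 * (r R).natAbs - 1)), blochWigner (sh idx) =
        ∑ idx ∈ Finset.range (oo r R), blochWigner (sh idx) +
          ∑ k ∈ Finset.Icc 1 (2 * (r R).natAbs - 1), blochWigner (z R k) := by
      rw [Finset.range_eq_Ico, ← Finset.sum_Ico_consecutive _ (Nat.zero_le (oo r R))
        (Nat.le_add_right _ _), ChainGeo_sum_block z hr le_rfl (fun h => by omega),
        Finset.range_eq_Ico]
    rw [← e1, e2, ChainGeo_sum_pre z hr hr0 R le_rfl, Finset.sum_add_distrib,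
      Finset.sum_range_succ]
    ring
  have hgoal := sw_shapes a sh (by omega) hsh0 hsh1 ?_ ?_ ?_
  · rw [hval, mul_add] at hgoal
    exact hgoal
  · -- positivity
    intro idx hidx
    rw [Finset.mem_Icc] at hidx
    obtain ⟨i, k, hi, hk, hik, hlt, heq⟩ := ChainGeo_dec (r := r) (R := R) (idx := idx) (by omega)
    have hpi := hr i (by omega)
    by_cases hsp : 0 < i ∧ k = 1 ∧ 0 < r (i - 1) * r i
    · obtain ⟨h3, h4, hs⟩ := hsp
      obtain ⟨i', rfl⟩ : ∃ i', i = i' + 1 := ⟨i - 1, by omega⟩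
      rw [hsh, ChainGeo_sh_spec z hr (i := i') (by omega) (by omega) (by simpa using hs)]
      have h5 := hpos (i' + 1) 1 (by omega) le_rfl (by omega) (by omega) (by omega)
      rw [Complex.inv_im, Complex.conj_im, neg_neg]
      refine div_pos h5 (Complex.normSq_pos.2 fun h6 => ?_)
      rw [map_eq_zero] at h6
      rw [h6] at h5
      simp at h5
    · rw [hsh, ChainGeo_sh_gen z hr hi hk hik hlt hsp]
      have hi0 : ¬(i = 0 ∧ k = 1) := by
        rintro ⟨rfl, rfl⟩
        have : oo r 0 = 0 := rfl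
        omega
      rcases Nat.lt_or_ge (2 * (r i).natAbs - 1) k with h5 | h5
      · have hiR : i < R := by
          rcases Nat.lt_or_ge i R with h | h
          · exact h
          · have : i = R := by omega
            subst this
            have := heq rfl
            omega
        have h6 := hlt hiR
        rcases lt_or_gt_of_ne (hr0 i hiR) with h | h
        · have h7 := ChainGeo_oo_opp r h
          have h8 : k = 2 * (r i).natAbs := by omega
          rw [h8]
          exact (hopp i hiR h).1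
        · have h7 := ChainGeo_oo_same r h
          omega
      · refine hpos i k (by omega) hk h5 hi0 ?_
        rintro ⟨rfl, rfl⟩
        omega
  · -- non-hinges
    intro idx hidx hnh
    rw [Finset.mem_Icc] at hidx
    obtain ⟨i, k, hi, hk, hik, hlt, heq⟩ := ChainGeo_dec (r := r) (R := R) (idx := idx) (by omega)
    have hpi := hr i (by omega)
    rw [ChainGeo_hinge hr hi hk hik hlt, not_or] at hnh
    obtain ⟨hn1, hn2⟩ := hnh
    have hlt' : i < R → oo r i + (k + 1) ≤ oo r (i + 1) := fun h => by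
      have := hlt h
      have h3 : oo r i + k ≠ oo r (i + 1) := fun h4 => hn1 ⟨h, h4⟩
      omega
    rw [hsh, ChainGeo_sh_gen z hr hi hk hik hlt hn2,
      ChainGeo_sh_gen z hr (k := k + 1) (idx := idx + 1) hi (by omega) (by omega) hlt'
        (fun h => by omega)]
    have hi0 : ¬(i = 0 ∧ k = 1) := by
      rintro ⟨rfl, rfl⟩
      have : oo r 0 = 0 := rfl
      omega
    have hkle : k ≤ 2 * (r i).natAbs - 1 := by
      rcases Nat.lt_or_ge i R with h | h
      · have h3 := hlt' h
        rw [ChainGeo_oo_succ] at h3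
        omega
      · have : i = R := by omega
        subst this
        exact heq rfl
    have hiR : ¬(i = R ∧ k = 2 * (r i).natAbs - 1) := by
      rintro ⟨rfl, rfl⟩
      omega
    have hf := hfan i k (by omega) hk hkle hi0 hiR
    rcases Nat.lt_or_ge 1 k with h2k | h2k
    · rw [ChainGeo_shT z hr hi h2k hik hlt]
      exact hf
    · have hk1 : k = 1 := by omega
      subst hk1
      have hi' : 0 < i := by omega
      obtain ⟨j, rfl⟩ : ∃ j, i = j + 1 := ⟨i - 1, by omega⟩
      have hopp' : r j * r (j + 1) < 0 := by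
        rcases lt_or_gt_of_ne (hr0 j (by omega)) with h | h
        · exact h
        · exact absurd ⟨by omega, rfl, by simpa using h⟩ hn2
      have hpj := hr j (by omega)
      rw [ChainGeo_shT' z hr (i := j) (k := 2 * (r j).natAbs) (by omega) (by omega) (by omega)
        (ChainGeo_oo_opp r hopp')]
      rw [← eq_inv_of_mul_eq_one_left (hopp j (by omega) hopp').2.1]
      exact hf
  · -- hinges
    intro idx hidx hh
    rw [Finset.mem_Icc] at hidx
    obtain ⟨i, k, hi, hk, hik, hlt, heq⟩ := ChainGeo_dec (r := r) (R := R) (idx := idx) (by omega)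
    have hpi := hr i (by omega)
    rw [ChainGeo_hinge hr hi hk hik hlt] at hh
    rcases hh with ⟨hiR, hke⟩ | ⟨hi0, rfl, hs⟩
    · have hzne : z (i + 1) 1 ≠ 0 := by
        intro h6
        have hp1 := hr (i + 1) (by omega)
        have h5 := hpos (i + 1) 1 (by omega) le_rfl (by omega) (by omega) (by omega)
        rw [h6] at h5
        simp at h5
      rcases lt_or_gt_of_ne (hr0 i hiR) with h | h
      · -- opposite signs
        have h7 := ChainGeo_oo_opp r h
        have h8 : k = 2 * (r i).natAbs := by omega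
        rw [hsh, ChainGeo_sh_gen z hr hi hk hik hlt (by omega),
          ChainGeo_shT z hr hi (by omega) hik hlt,
          ChainGeo_sh_gen z hr (i := i + 1) (k := 1) (idx := idx + 1) (by omega) le_rfl (by omega)
            (fun _ => by
              have := ChainGeo_oo_strict hr (i := i + 1) (j := i + 1 + 1) (by omega) (by omega)
              omega)
            (fun h => by
              have h9 := h.2.2
              rw [Nat.add_sub_cancel] at h9
              omega), h8]
        obtain ⟨g1, g2, g3⟩ := hopp i hiR h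
        have hU : z i (2 * (r i).natAbs) ≠ 0 := by
          intro h6
          rw [h6] at g1
          simp at g1
        field_simp
        linear_combination g3
      · -- equal signs, the last layer of the region
        have h7 := ChainGeo_oo_same r h
        have h8 : k = 2 * (r i).natAbs - 1 := by omega
        rw [hsh, ChainGeo_sh_gen z hr hi hk hik hlt (by omega),
          ChainGeo_shT z hr hi (by omega) hik hlt,
          ChainGeo_sh_spec z hr (i := i) (idx := idx + 1) hiR (by omega) h, map_inv₀,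
          Complex.conj_conj]
        have hf := hfan i k (by omega) hk (by omega) (by omega) (by omega)
        obtain ⟨g1, g2⟩ := hsame i hiR h
        have e : k + 1 = 2 * (r i).natAbs := by omega
        rw [← h8, ← e] at g2
        rw [e] at g2 hf
        have g3 : z i k * (z (i + 1) 1)⁻¹ = -z i (2 * (r i).natAbs) := by
          rw [g2]
          field_simp
        linear_combination (1 - (z i k)⁻¹) ^ 2 * z i (k - 1) * g3 - hf
    · -- equal signs, the first layer of the region
      obtain ⟨j, rfl⟩ : ∃ j, i = j + 1 := ⟨i - 1, by omega⟩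
      rw [Nat.add_sub_cancel] at hs
      have hpj := hr j (by omega)
      rw [hsh, ChainGeo_sh_spec z hr (i := j) (by omega) (by omega) hs,
        ChainGeo_shT' z hr (i := j) (k := 2 * (r j).natAbs - 1) (by omega) (by omega) (by omega)
          (ChainGeo_oo_same r hs),
        ChainGeo_sh_gen z hr (i := j + 1) (k := 2) (idx := idx + 1) (by omega) (by omega)
          (by omega) (fun h => by
            have := ChainGeo_oo_strict hr (i := j + 1) (j := j + 1 + 1) (by omega) (by omega)
            omega) (fun h => by omega)]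
      have hf := hfan (j + 1) 1 (by omega) le_rfl (by omega) (by omega) (by omega)
      obtain ⟨g1, g2⟩ := hsame j (by omega) hs
      have hz1 : z (j + 1) 1 ≠ 0 := by
        intro h6
        have h5 := hpos (j + 1) 1 (by omega) le_rfl (by omega) (by omega) (by omega)
        rw [h6] at h5
        simp at h5
      have hU : z j (2 * (r j).natAbs) ≠ 0 := right_ne_zero_of_mul_eq_one g1
      have hU0 : z (j + 1) 0 = (z j (2 * (r j).natAbs))⁻¹ := eq_inv_of_mul_eq_one_left g1
      have key : (1 - z (j + 1) 1) ^ 2 * (z (j + 1) 1)⁻¹ * (z j (2 * (r j).natAbs - 1))⁻¹ *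
          z (j + 1) 2 = -1 := by
        rw [g2]
        rw [show (1 : ℕ) - 1 = 0 from rfl, show (1 : ℕ) + 1 = 2 from rfl, hU0] at hf
        field_simp at hf ⊢
        linear_combination -hf
      have key' := congrArg (starRingEnd ℂ) key
      simp only [map_mul, map_pow, map_sub, map_one, map_neg, map_inv₀] at key'
      rw [inv_inv]
      exact key'

end Pool.Agent.H63.VC4
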