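import Pool.Agent.H63.VC4.Brt

/-! # The duality of the normalized twist matrices -/

namespace Pool.Agent.H63.VC4

open Pool.Agent.H63.VC Pool.Agent.H63.VC3 Complex
open scoped BigOperators

theorem Dual_cast_pred (j : ℕ) : ((j * (j - 1) : ℕ) : ℂ) = (j : ℂ) * ((j : ℂ) - 1) := by
  rcases j with _ | j
  · simp
  · push_cast
    simp

theorem Dual_submatrix_pow {N : ℕ} (X : Matrix (Fin (N + 1)) (Fin (N + 1)) ℂ)
    (e : Fin (N + 1) ≃ Fin (N + 1)) (p : ℕ) : (X.submatrix e e) ^ p = (X ^ p).submatrix e e := by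
  induction p with
  | zero => simp
  | succ p ih => rw [pow_succ, ih, pow_succ, Matrix.submatrix_mul_equiv]

theorem Dual_submatrix_zpow {N : ℕ} (X : Matrix (Fin (N + 1)) (Fin (N + 1)) ℂ)
    (e : Fin (N + 1) ≃ Fin (N + 1)) (r : ℤ) : (X.submatrix e e) ^ r = (X ^ r).submatrix e e := by
  obtain ⟨p, rfl | rfl⟩ := Int.eq_nat_or_neg r
  · rw [zpow_natCast, zpow_natCast, Dual_submatrix_pow]
  · rw [Matrix.zpow_neg_natCast, Matrix.zpow_neg_natCast, Dual_submatrix_pow,
      Matrix.inv_submatrix_equiv]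

/-- The phases. -/
theorem Dual_phase (n M N k j a b : ℕ) (hM : 0 < M) (hN : N + n = M + 1) (ha : a + k = N)
    (hb : b + j = N) :
    th n M k * th n M a * (exp (Real.pi * I / M * (a * ((b : ℂ) - a))) *
      (((exp (Real.pi * I / M) ^ n) ^ 2) ^ a *
        (exp (Real.pi * I / M) ^ 2) ^ (a * (a - 1)))) =
    th n M j * th n M b * (exp (Real.pi * I / M * (j * ((k : ℂ) - j))) *
      (((exp (Real.pi * I / M) ^ n) ^ 2) ^ j *
        (exp (Real.pi * I / M) ^ 2) ^ (j * (j - 1)))) := by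
  have hM' : (M : ℂ) ≠ 0 := by exact_mod_cast hM.ne'
  have hn : (n : ℂ) = M + 1 - N := by
    have : ((N + n : ℕ) : ℂ) = ((M + 1 : ℕ) : ℂ) := by rw [hN]
    push_cast at this
    linear_combination this
  have hac : (a : ℂ) = N - k := by
    have : ((a + k : ℕ) : ℂ) = (N : ℂ) := by rw [ha]
    push_cast at this
    linear_combination this
  have hbc : (b : ℂ) = N - j := by
    have : ((b + j : ℕ) : ℂ) = (N : ℂ) := by rw [hb]
    push_cast at this
    linear_combination this
  -- write every power as an exponential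
  have p1 : ∀ m : ℕ, ((exp (Real.pi * I / M) ^ n) ^ 2) ^ m =
      exp (Real.pi * I / M * (2 * n * m)) := by
    intro m
    rw [← pow_mul, ← pow_mul, ← Complex.exp_nat_mul]
    congr 1
    push_cast
    ring
  have p2 : ∀ m : ℕ, (exp (Real.pi * I / M) ^ 2) ^ (m * (m - 1)) =
      exp (Real.pi * I / M * (2 * (m * ((m : ℂ) - 1)))) := by
    intro m
    rw [← pow_mul, ← Complex.exp_nat_mul]
    congr 1
    rw [Nat.cast_mul, Dual_cast_pred]
    push_cast
    ring
  have hth : ∀ u v : ℕ, u + v = N → th n M u * th n M v = (-1) ^ N * I ^ N *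
      exp (-(Real.pi * I / M) * (u * (n - 1) + u * (u + 1) / 2) +
        -(Real.pi * I / M) * (v * (n - 1) + v * (v + 1) / 2)) := by
    intro u v huv
    unfold th
    rw [Complex.exp_add, ← huv, pow_add, pow_add]
    ring
  rw [hth k a (by omega), hth j b (by omega), p1, p1, p2, p2]
  have key : exp (-(Real.pi * I / M) * (k * (n - 1) + k * (k + 1) / 2) +
        -(Real.pi * I / M) * (a * (n - 1) + a * (a + 1) / 2)) *
      (exp (Real.pi * I / M * (a * ((b : ℂ) - a))) *
        (exp (Real.pi * I / M * (2 * n * a)) *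
          exp (Real.pi * I / M * (2 * (a * ((a : ℂ) - 1)))))) =
      exp (-(Real.pi * I / M) * (j * (n - 1) + j * (j + 1) / 2) +
        -(Real.pi * I / M) * (b * (n - 1) + b * (b + 1) / 2)) *
      (exp (Real.pi * I / M * (j * ((k : ℂ) - j))) *
        (exp (Real.pi * I / M * (2 * n * j)) *
          exp (Real.pi * I / M * (2 * (j * ((j : ℂ) - 1)))))) := by
    simp only [← Complex.exp_add]
    rw [Complex.exp_eq_exp_iff_exists_int]
    refine ⟨(N : ℤ) - k - j, ?_⟩
    rw [hac, hbc, hn]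
    push_cast
    field_simp
    ring
  calc (-1) ^ N * I ^ N * exp (-(Real.pi * I / M) * (k * (n - 1) + k * (k + 1) / 2) +
        -(Real.pi * I / M) * (a * (n - 1) + a * (a + 1) / 2)) *
      (exp (Real.pi * I / M * (a * ((b : ℂ) - a))) *
        (exp (Real.pi * I / M * (2 * n * a)) *
          exp (Real.pi * I / M * (2 * (a * ((a : ℂ) - 1)))))) =
      (-1) ^ N * I ^ N * (exp (-(Real.pi * I / M) * (k * (n - 1) + k * (k + 1) / 2) +
        -(Real.pi * I / M) * (a * (n - 1) + a * (a + 1) / 2)) *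
      (exp (Real.pi * I / M * (a * ((b : ℂ) - a))) *
        (exp (Real.pi * I / M * (2 * n * a)) *
          exp (Real.pi * I / M * (2 * (a * ((a : ℂ) - 1))))))) := by ring
    _ = _ := by
      rw [key]
      ring

theorem Dual_th_ne (n M k : ℕ) : th n M k ≠ 0 := by
  have h := norm_th n M k
  intro h0
  rw [h0, norm_zero] at h
  exact zero_ne_one h

theorem Dual_one (n M N : ℕ) (hM : 2 ≤ M) (hn : 2 ≤ n) (hN : N + n = M + 1)
    (k j : Fin (N + 1)) :
    (th n M k * S M k * (th n M (Fin.rev k) * S M (Fin.rev k))) *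
      Bmat N (exp (Real.pi * I / M) ^ n) (exp (Real.pi * I / M)) (Fin.rev j) (Fin.rev k) =
    Bmat N (exp (Real.pi * I / M) ^ n) (exp (Real.pi * I / M)) k j *
      (th n M j * S M j * (th n M (Fin.rev j) * S M (Fin.rev j))) := by
  rcases lt_or_ge k j with h | h
  · rw [Bmat_low N _ _ k j h, Bmat_low N _ _ (Fin.rev j) (Fin.rev k) (Fin.rev_lt_rev.2 h)]
    ring
  · obtain ⟨k, hk⟩ := k
    obtain ⟨j, hj⟩ := j
    have hjk : j ≤ k := h
    have e1 : ((Fin.rev ⟨k, hk⟩ : Fin (N + 1)) : ℕ) = N - k := by rw [Fin.val_rev]; simp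
    have e2 : ((Fin.rev ⟨j, hj⟩ : Fin (N + 1)) : ℕ) = N - j := by rw [Fin.val_rev]; simp
    unfold Bmat
    rw [e1, e2]
    show th n M k * S M k * (th n M (N - k) * S M (N - k)) *
      (qbin (exp (Real.pi * I / M) ^ 2) (N - j) (N - k) *
        (((exp (Real.pi * I / M) ^ n) ^ 2) ^ (N - k) *
          (exp (Real.pi * I / M) ^ 2) ^ ((N - k) * ((N - k) - 1)))) =
      qbin (exp (Real.pi * I / M) ^ 2) k j *
        (((exp (Real.pi * I / M) ^ n) ^ 2) ^ j *
          (exp (Real.pi * I / M) ^ 2) ^ (j * (j - 1))) *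
      (th n M j * S M j * (th n M (N - j) * S M (N - j)))
    have hrt : exp (Real.pi * I / M) ^ 2 = rt M := by
      unfold rt
      rw [← Complex.exp_nat_mul]
      congr 1
      push_cast
      ring
    have q1 := qbin_rt M (N - j) (N - k) (by omega) (by omega)
    have q2 := qbin_rt M k j hjk (by omega)
    rw [← hrt] at q1 q2
    rw [q1, q2]
    have e3 : N - j - (N - k) = k - j := by omega
    rw [e3]
    have s1 : ((S M (N - k) : ℝ) : ℂ) ≠ 0 := by exact_mod_cast (S_pos (by omega)).ne'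
    have s2 : ((S M (k - j) : ℝ) : ℂ) ≠ 0 := by exact_mod_cast (S_pos (by omega)).ne'
    have s3 : ((S M j : ℝ) : ℂ) ≠ 0 := by exact_mod_cast (S_pos (by omega)).ne'
    have hph := Dual_phase n M N k j (N - k) (N - j) (by omega) hN (by omega) (by omega)
    have l1 : th n M k * S M k * (th n M (N - k) * S M (N - k)) *
        (exp (Real.pi * I / M * (((N - k : ℕ) : ℂ) * (((N - j : ℕ) : ℂ) - ((N - k : ℕ) : ℂ)))) *
          (S M (N - j) / (S M (N - k) * S M (k - j))) *
        (((exp (Real.pi * I / M) ^ n) ^ 2) ^ (N - k) *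
          (exp (Real.pi * I / M) ^ 2) ^ ((N - k) * ((N - k) - 1)))) =
        (S M k * S M (N - j) / S M (k - j)) * (th n M k * th n M (N - k) *
        (exp (Real.pi * I / M * (((N - k : ℕ) : ℂ) * (((N - j : ℕ) : ℂ) - ((N - k : ℕ) : ℂ)))) *
        (((exp (Real.pi * I / M) ^ n) ^ 2) ^ (N - k) *
          (exp (Real.pi * I / M) ^ 2) ^ ((N - k) * ((N - k) - 1))))) := by
      field_simp
    have l2 : exp (Real.pi * I / M * ((j : ℂ) * ((k : ℂ) - j))) *
          (S M k / (S M j * S M (k - j))) *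
        (((exp (Real.pi * I / M) ^ n) ^ 2) ^ j *
          (exp (Real.pi * I / M) ^ 2) ^ (j * (j - 1))) *
        (th n M j * S M j * (th n M (N - j) * S M (N - j))) =
        (S M k * S M (N - j) / S M (k - j)) * (th n M j * th n M (N - j) *
        (exp (Real.pi * I / M * ((j : ℂ) * ((k : ℂ) - j))) *
        (((exp (Real.pi * I / M) ^ n) ^ 2) ^ j *
          (exp (Real.pi * I / M) ^ 2) ^ (j * (j - 1))))) := by
      field_simp
    rw [l1, l2, hph]

theorem RG_dual (r : ℤ) (n M k j : ℕ) (hn : 2 ≤ n) (hM : 2 ≤ M) (hjk : j ≤ k)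
    (hk : k + n ≤ M + 1) : RG r n M k j = RG r n M (M + 1 - n - j) (M + 1 - n - k) := by
  obtain ⟨N, hN⟩ : ∃ N, N + n = M + 1 := ⟨M + 1 - n, by omega⟩
  have hN' : M + 1 - n = N := by omega
  rw [hN']
  have hNM : N < M := by omega
  set B := Bmat N (exp (Real.pi * I / M) ^ n) (exp (Real.pi * I / M)) with hB
  set H : Matrix (Fin (N + 1)) (Fin (N + 1)) ℂ := Matrix.diagonal
    (fun k => th n M k * S M k * (th n M (Fin.rev k) * S M (Fin.rev k))) with hH
  set B' := (B.submatrix Fin.revPerm Fin.revPerm).transpose with hB'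
  have hdiag : ∀ k, B k k ≠ 0 := fun k =>
    Bmat_diag N _ _ (pow_ne_zero _ (exp_ne_zero _)) (exp_ne_zero _) k
  have hdet : IsUnit B.det := isUnit_det_of_low B (Bmat_low N _ _) hdiag
  have hdet' : IsUnit B'.det := by
    rw [hB', Matrix.det_transpose, Matrix.det_submatrix_equiv_self]
    exact hdet
  have hsemi : SemiconjBy H B' B := by
    show H * B' = B * H
    ext k j
    rw [hH, Matrix.diagonal_mul, Matrix.mul_diagonal, hB']
    exact Dual_one n M N hM hn hN k j
  have hr := (Matrix.SemiconjBy.zpow_right hdet' hdet hsemi r)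
  have hr' : H * B' ^ r = B ^ r * H := hr
  have hB'r : B' ^ r = ((B ^ r).submatrix Fin.revPerm Fin.revPerm).transpose := by
    rw [hB', ← Matrix.transpose_zpow, Dual_submatrix_zpow]
  rw [hB'r] at hr'
  have hkN : k < N + 1 := by omega
  have hjN : j < N + 1 := by omega
  have hentry := congrFun (congrFun hr' ⟨k, hkN⟩) ⟨j, hjN⟩
  rw [hH, Matrix.diagonal_mul, Matrix.mul_diagonal] at hentry
  have hent2 : th n M k * S M k * (th n M (N - k) * S M (N - k)) *
      (B ^ r) (Fin.rev ⟨j, hjN⟩) (Fin.rev ⟨k, hkN⟩) = (B ^ r) ⟨k, hkN⟩ ⟨j, hjN⟩ *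
      (th n M j * S M j * (th n M (N - j) * S M (N - j))) := by
    have e1 : ((Fin.rev ⟨k, hkN⟩ : Fin (N + 1)) : ℕ) = N - k := by rw [Fin.val_rev]; simp
    have e2 : ((Fin.rev ⟨j, hjN⟩ : Fin (N + 1)) : ℕ) = N - j := by rw [Fin.val_rev]; simp
    rw [← e1, ← e2]
    exact hentry
  have hle : (⟨j, hjN⟩ : Fin (N + 1)) ≤ ⟨k, hkN⟩ := hjk
  have b1 := Brt r N n M hn hNM ⟨k, hkN⟩ ⟨j, hjN⟩ hle
  have b2 := Brt r N n M hn hNM (Fin.rev ⟨j, hjN⟩) (Fin.rev ⟨k, hkN⟩) (Fin.rev_le_rev.2 hle)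
  have e1 : ((Fin.rev ⟨k, hkN⟩ : Fin (N + 1)) : ℕ) = N - k := by rw [Fin.val_rev]; simp
  have e2 : ((Fin.rev ⟨j, hjN⟩ : Fin (N + 1)) : ℕ) = N - j := by rw [Fin.val_rev]; simp
  rw [e1, e2] at b2
  rw [b1, b2] at hent2
  have s1 : ((S M k : ℝ) : ℂ) ≠ 0 := by exact_mod_cast (S_pos (by omega)).ne'
  have s2 : ((S M j : ℝ) : ℂ) ≠ 0 := by exact_mod_cast (S_pos (by omega)).ne'
  have s3 : ((S M (N - k) : ℝ) : ℂ) ≠ 0 := by exact_mod_cast (S_pos (by omega)).ne'
  have s4 : ((S M (N - j) : ℝ) : ℂ) ≠ 0 := by exact_mod_cast (S_pos (by omega)).ne'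
  have t1 := Dual_th_ne n M k
  have t2 := Dual_th_ne n M j
  have t3 := Dual_th_ne n M (N - k)
  have t4 := Dual_th_ne n M (N - j)
  have l1 : th n M k * S M k * (th n M (N - k) * S M (N - k)) *
      ((th n M (N - j) * S M (N - j)) / (th n M (N - k) * S M (N - k)) *
        RG r n M (N - j) (N - k)) =
      (th n M k * S M k * (th n M (N - j) * S M (N - j))) * RG r n M (N - j) (N - k) := by
    field_simp
  have l2 : (th n M k * S M k) / (th n M j * S M j) * RG r n M k j *
      (th n M j * S M j * (th n M (N - j) * S M (N - j))) =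
      (th n M k * S M k * (th n M (N - j) * S M (N - j))) * RG r n M k j := by
    field_simp
  have hent3 : th n M k * S M k * (th n M (N - k) * S M (N - k)) *
      ((th n M (N - j) * S M (N - j)) / (th n M (N - k) * S M (N - k)) *
        RG r n M (N - j) (N - k)) = (th n M k * S M k) / (th n M j * S M j) * RG r n M k j *
      (th n M j * S M j * (th n M (N - j) * S M (N - j))) := hent2
  rw [l1, l2] at hent3
  exact (mul_left_cancel₀ (mul_ne_zero (mul_ne_zero t1 s1) (mul_ne_zero t4 s4)) hent3).symm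

theorem RS_eq (r : ℤ) (n M t t' : ℕ) (hn : 2 ≤ n) (hM : 2 ≤ M) (ht : t + n ≤ M + 1)
    (ht' : t' + n ≤ M + 1) (h : M + 1 ≤ t + t' + n) :
    RS r n M t t' = RG r n M t (M + 1 - n - t') ∧ RS r n M t t' = RG r n M t' (M + 1 - n - t) := by
  unfold RS
  rw [if_pos h]
  rcases le_total t t' with h1 | h1
  · rw [min_eq_left h1, max_eq_right h1]
    refine ⟨rfl, ?_⟩
    rw [RG_dual r n M t (M + 1 - n - t') hn hM (by omega) ht]
    congr 1
    omega
  · rw [min_eq_right h1, max_eq_left h1]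
    refine ⟨?_, rfl⟩
    rw [RG_dual r n M t' (M + 1 - n - t) hn hM (by omega) ht']
    congr 1
    omega

end Pool.Agent.H63.VC4
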