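import Pool.Agent.H63.VC4.Defs
import Pool.Agent.H63.VC3.KAn

/-! # The weights of the chain -/

namespace Pool.Agent.H63.VC4

open Pool.Agent.H63.VC Pool.Agent.H63.VC3 Complex
open scoped BigOperators

theorem Fprod_th_succ (n M k : ℕ) :
    th n M (k + 1) = th n M k * (-I * exp (-(Real.pi * I / M) * (n + k))) := by
  unfold th
  have e : -(Real.pi * I / (M : ℂ)) * (((k + 1 : ℕ) : ℂ) * ((n : ℂ) - 1) +
      ((k + 1 : ℕ) : ℂ) * (((k + 1 : ℕ) : ℂ) + 1) / 2) =
      -(Real.pi * I / (M : ℂ)) * ((k : ℂ) * ((n : ℂ) - 1) + (k : ℂ) * ((k : ℂ) + 1) / 2) +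
      -(Real.pi * I / (M : ℂ)) * ((n : ℂ) + k) := by
    push_cast
    ring
  rw [e, exp_add, pow_succ, pow_succ]
  ring

theorem Fprod_th_ne (n M k : ℕ) : th n M k ≠ 0 := by
  unfold th
  refine mul_ne_zero (mul_ne_zero (pow_ne_zero _ (by norm_num)) (pow_ne_zero _ I_ne_zero))
    (exp_ne_zero _)

theorem T_pos (M n g k : ℕ) (hn : 2 ≤ n) (hg : 1 ≤ g) (hgn : g ≤ n - 1) (hM : n ≤ M)
    (hk : k + n ≤ M + 1) : 0 < T M n g k := by
  rw [T_eq M n g k hg hgn hn hk]
  have hS1 : 0 < S M (g - 1) := S_pos (by omega)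
  have hS2 : 0 < S M (n - g - 1) := S_pos (by omega)
  have hS3 : 0 < S M (n - 2) := S_pos (by omega)
  have hS4 : 0 < S M k := S_pos (by omega)
  have hS5 : 0 < S M (g - 1 + k) := S_pos (by omega)
  have hS6 : 0 < S M (n - g - 1 + k) := S_pos (by omega)
  have hS7 : 0 < S M (n - 2 + k) := S_pos (by omega)
  positivity

theorem facC_prod (N n g j k : ℕ) (hn : 2 ≤ n) (hg : 1 ≤ g) (hgn : g ≤ n - 1) (hjk : j ≤ k)
    (hk : k + n ≤ N + g + 1) :
    ∏ i ∈ Finset.Ico j k, facC N (exp (Real.pi * I / ((N + g : ℕ) : ℂ)) ^ n)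
      (exp (Real.pi * I / ((N + g : ℕ) : ℂ))) i =
      ((T (N + g) n g k / T (N + g) n g j : ℝ) : ℂ) * (th n (N + g) j / th n (N + g) k) ^ 2 := by
  have hTj : 0 < T (N + g) n g j ∨ N + g < n := by
    rcases le_or_gt n (N + g) with h | h
    · exact Or.inl (T_pos (N + g) n g j hn hg hgn h (by omega))
    · exact Or.inr h
  rcases hTj with hTj | hlt
  · induction k, hjk using Nat.le_induction with
    | base =>
      rw [Finset.Ico_self, Finset.prod_empty, div_self hTj.ne', div_self (Fprod_th_ne _ _ _)]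
      simp
    | succ k hjk ih =>
      rw [Finset.prod_Ico_succ_top hjk, ih (by omega), Fprod_th_succ]
      have hT : T (N + g) n g (k + 1) = T (N + g) n g k * fac (N + g) n g k := by
        unfold T
        rw [Finset.prod_range_succ]
      rw [hT]
      have hf : facC N (exp (Real.pi * I / ((N + g : ℕ) : ℂ)) ^ n)
          (exp (Real.pi * I / ((N + g : ℕ) : ℂ))) k =
          -(exp (Real.pi * I / ((N + g : ℕ) : ℂ) * (n + k)) ^ 2 *
            ((fac (N + g) n g k : ℝ) : ℂ)) := by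
        unfold facC
        rw [factor_eq n g N k hg hgn hn (by omega)]
        congr 2
        rw [← exp_nat_mul, ← exp_nat_mul, ← exp_nat_mul, ← exp_nat_mul, ← exp_nat_mul, ← exp_add]
        congr 1
        push_cast
        ring
      rw [hf]
      have he : exp (-(Real.pi * I / ((N + g : ℕ) : ℂ)) * (n + k)) =
          (exp (Real.pi * I / ((N + g : ℕ) : ℂ) * (n + k)))⁻¹ := by
        rw [← exp_neg]
        congr 1
        ring
      rw [he]
      have h0 := exp_ne_zero (Real.pi * I / ((N + g : ℕ) : ℂ) * (n + k))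
      have h1 := Fprod_th_ne n (N + g) k
      have hT0 : ((T (N + g) n g j : ℝ) : ℂ) ≠ 0 := by exact_mod_cast hTj.ne'
      have hI := I_ne_zero
      set X := exp (Real.pi * I / ((N + g : ℕ) : ℂ) * (n + k)) with hX
      push_cast
      have hII : I ^ 2 = -1 := I_sq
      have e1 : (th n (N + g) j / (th n (N + g) k * (-I * X⁻¹))) ^ 2 =
          -((th n (N + g) j / th n (N + g) k) ^ 2 * X ^ 2) := by
        have : (th n (N + g) k * (-I * X⁻¹)) ^ 2 = -(th n (N + g) k ^ 2 * (X ^ 2)⁻¹) := by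
          rw [mul_pow, mul_pow, neg_sq, hII, inv_pow]
          ring
        rw [div_pow, this, div_pow]
        field_simp
      rw [e1]
      ring
  · have hjk' : j = k := by omega
    subst hjk'
    rw [Finset.Ico_self, Finset.prod_empty, div_self (Fprod_th_ne _ _ _)]
    have hj : j = 0 := by omega
    subst hj
    have : T (N + g) n g 0 = 1 := by
      unfold T
      simp
    rw [this]
    simp

theorem facC_prod_zero (N n g j k : ℕ) (hn : 2 ≤ n) (hg : 1 ≤ g) (hgn : g ≤ n - 1)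
    (hj : j + n ≤ N + g + 1) (hk : N + g + 1 < k + n) (hkN : k ≤ N) :
    ∏ i ∈ Finset.Ico j k, facC N (exp (Real.pi * I / ((N + g : ℕ) : ℂ)) ^ n)
      (exp (Real.pi * I / ((N + g : ℕ) : ℂ))) i = 0 := by
  refine Finset.prod_eq_zero (i := N + g + 1 - n) ?_ ?_
  · rw [Finset.mem_Ico]
    omega
  · unfold facC
    have h : cb (exp (Real.pi * I / ((N + g : ℕ) : ℂ)) ^ n *
        exp (Real.pi * I / ((N + g : ℕ) : ℂ)) ^ (((N + g + 1 - n : ℕ) : ℤ) - 1)) = 0 := by
      rw [← zpow_natCast, ← zpow_add₀ (exp_ne_zero _), cb_exp]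
      have e : (n : ℤ) + (((N + g + 1 - n : ℕ) : ℤ) - 1) = ((N + g : ℕ) : ℤ) := by
        omega
      rw [e]
      have h2 : ((N + g : ℕ) : ℝ) ≠ 0 := by
        have : 0 < N + g := by omega
        exact_mod_cast this.ne'
      have h3 : Real.pi * (((N + g : ℕ) : ℤ) : ℝ) / ((N + g : ℕ) : ℝ) = Real.pi := by
        rw [Int.cast_natCast, mul_div_assoc, div_self h2, mul_one]
      rw [h3, Real.sin_pi]
      simp
    rw [h]
    ring

theorem Cc_dual (n g M t : ℕ) (hn : 2 ≤ n) (hg : 1 ≤ g) (hgn : g ≤ n - 1) (hM : n ≤ M)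
    (ht : t + n ≤ M + 1) :
    Cc n g M (yk n M t) * Cc n g M (yk n M (M + 1 - n - t)) = (M : ℂ) ^ 4 := by
  rw [Cc_yk n g M t hg hgn ht hn, Cc_yk n g M (M + 1 - n - t) hg hgn (by omega) hn]
  have key : ∀ a b : ℕ, a < M → b = M - 1 - a → (S M a : ℂ) * (S M b : ℂ) = M := by
    intro a b ha hb
    rw [hb]
    exact_mod_cast S_mul ha
  have h1 := key t (M + 1 - n - t + (n - 2)) (by omega) (by omega)
  have h2 := key (t + (g - 1)) (M + 1 - n - t + (n - g - 1)) (by omega) (by omega)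
  have h3 := key (t + (n - g - 1)) (M + 1 - n - t + (g - 1)) (by omega) (by omega)
  have h4 := key (t + (n - 2)) (M + 1 - n - t) (by omega) (by omega)
  calc _ = ((S M t : ℂ) * (S M (M + 1 - n - t + (n - 2)) : ℂ)) *
        ((S M (t + (g - 1)) : ℂ) * (S M (M + 1 - n - t + (n - g - 1)) : ℂ)) *
        ((S M (t + (n - g - 1)) : ℂ) * (S M (M + 1 - n - t + (g - 1)) : ℂ)) *
        ((S M (t + (n - 2)) : ℂ) * (S M (M + 1 - n - t) : ℂ)) := by ring
    _ = (M : ℂ) ^ 4 := by rw [h1, h2, h3, h4]; ring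

end Pool.Agent.H63.VC4
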