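import Pool.Agent.H63.VC3.StepDefs
import Pool.Agent.H63.VC4.Dual
import Pool.Agent.H63.VC4.Fprod

/-! # The invariant as a multiple sum -/

namespace Pool.Agent.H63.VC4

open Pool.Agent.H63.VC Pool.Agent.H63.VC3 Complex
open scoped BigOperators

/-! ### The multiple sum, recursively -/

/-- The chain sum starting at `s`, with `m` summation variables. -/
noncomputable def ChainSum_J (n g M : ℕ) : ℕ → (ℕ → ℤ) → ℕ → ℂ
  | 0, r, s => RS (r 0) n M s (M + 1 - n)
  | m + 1, r, s => ∑ t ∈ Finset.range (M + 2 - n), Cc n g M (yk n M t) * RS (r 0) n M s t *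
      ChainSum_J n g M m (fun i => r (i + 1)) t

/-- The points of the chain. -/
def ChainSum_pts {m : ℕ} (L s : ℕ) (t : Fin m → ℕ) : Fin (m + 2) → ℕ :=
  Fin.cons (α := fun _ => ℕ) s (Fin.snoc (α := fun _ => ℕ) t L)

theorem ChainSum_pts_zero {m : ℕ} (L s : ℕ) (t : Fin m → ℕ) : ChainSum_pts L s t 0 = s := rfl

theorem ChainSum_pts_succ {m : ℕ} (L s t0 : ℕ) (t : Fin m → ℕ) (i : Fin (m + 2)) :
    ChainSum_pts L s (Fin.cons (α := fun _ => ℕ) t0 t) i.succ = ChainSum_pts L t0 t i := by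
  unfold ChainSum_pts
  rw [Fin.cons_succ, ← Fin.cons_snoc_eq_snoc_cons]

theorem ChainSum_pts_last {m : ℕ} (L s : ℕ) (t : Fin m → ℕ) :
    ChainSum_pts L s t (Fin.last (m + 1)) = L := by
  unfold ChainSum_pts
  rw [← Fin.succ_last, Fin.cons_succ, Fin.snoc_last]

theorem ChainSum_ext {m : ℕ} (L : ℕ) (t : Fin m → ℕ) (i : Fin (m + 2)) :
    (ext t i).getD L = ChainSum_pts L L t i := by
  refine Fin.cases rfl (fun i => ?_) i
  refine Fin.lastCases ?_ (fun i => ?_) i
  · rw [ext_last_succ, Fin.succ_last, ChainSum_pts_last]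
    rfl
  · rw [ext_mid]
    unfold ChainSum_pts
    rw [Fin.cons_succ, Fin.snoc_castSucc]
    rfl

theorem ChainSum_piFinset {m : ℕ} (R : Finset ℕ) (F : (Fin (m + 1) → ℕ) → ℂ) :
    ∑ t ∈ Fintype.piFinset (fun _ : Fin (m + 1) => R), F t =
      ∑ t0 ∈ R, ∑ t ∈ Fintype.piFinset (fun _ : Fin m => R),
        F (Fin.cons (α := fun _ => ℕ) t0 t) := by
  rw [← Finset.sum_product']
  symm
  refine Finset.sum_nbij' (fun p => Fin.cons (α := fun _ => ℕ) p.1 p.2)
    (fun t => (t 0, Fin.tail t)) ?_ ?_ ?_ ?_ ?_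
  · rintro ⟨a, b⟩ h
    rw [Finset.mem_product] at h
    rw [Fintype.mem_piFinset]
    intro i
    refine Fin.cases ?_ (fun j => ?_) i
    · exact h.1
    · rw [Fin.cons_succ]
      exact Fintype.mem_piFinset.1 h.2 j
  · intro t h
    rw [Fintype.mem_piFinset] at h
    rw [Finset.mem_product, Fintype.mem_piFinset]
    exact ⟨h 0, fun j => h j.succ⟩
  · rintro ⟨a, b⟩ _
    simp
  · intro t _
    exact Fin.cons_self_tail t
  · rintro ⟨a, b⟩ _
    rfl

theorem ChainSum_JG (n g M : ℕ) (m : ℕ) : ∀ (r : ℕ → ℤ) (s : ℕ),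
    ∑ t ∈ Fintype.piFinset (fun _ : Fin m => Finset.range (M + 2 - n)),
      (∏ j, Cc n g M (yk n M (t j))) * ∏ i : Fin (m + 1), RS (r i) n M
        (ChainSum_pts (M + 1 - n) s t i.castSucc) (ChainSum_pts (M + 1 - n) s t i.succ) =
      ChainSum_J n g M m r s := by
  induction m with
  | zero =>
    intro r s
    rw [Fintype.piFinset_of_isEmpty, Finset.univ_unique, Finset.sum_singleton,
      Fin.prod_univ_zero, one_mul, Fin.prod_univ_one]
    rfl
  | succ m ih =>
    intro r s
    rw [ChainSum_piFinset]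
    show _ = ∑ t ∈ Finset.range (M + 2 - n), Cc n g M (yk n M t) * RS (r 0) n M s t *
      ChainSum_J n g M m (fun i => r (i + 1)) t
    refine Finset.sum_congr rfl fun t0 _ => ?_
    rw [← ih (fun i => r (i + 1)) t0, Finset.mul_sum]
    refine Finset.sum_congr rfl fun t _ => ?_
    rw [Fin.prod_univ_succ, Fin.prod_univ_succ]
    have e1 : ∀ i : Fin (m + 1), RS (r (i.succ : Fin (m + 2))) n M
        (ChainSum_pts (M + 1 - n) s (Fin.cons (α := fun _ => ℕ) t0 t) i.succ.castSucc)
        (ChainSum_pts (M + 1 - n) s (Fin.cons (α := fun _ => ℕ) t0 t) i.succ.succ) =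
        RS (r ((i : ℕ) + 1)) n M (ChainSum_pts (M + 1 - n) t0 t i.castSucc)
          (ChainSum_pts (M + 1 - n) t0 t i.succ) := by
      intro i
      rw [ChainSum_pts_succ, ← Fin.succ_castSucc, ChainSum_pts_succ, Fin.val_succ]
    rw [Finset.prod_congr rfl (fun i _ => e1 i)]
    have e2 : ChainSum_pts (M + 1 - n) s (Fin.cons (α := fun _ => ℕ) t0 t)
        (0 : Fin (m + 2)).castSucc = s := rfl
    have e3 : ChainSum_pts (M + 1 - n) s (Fin.cons (α := fun _ => ℕ) t0 t)
        (0 : Fin (m + 2)).succ = t0 := by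
      rw [ChainSum_pts_succ]
      rfl
    rw [e2, e3]
    have e4 : ∀ j : Fin m, Cc n g M (yk n M (Fin.cons (α := fun _ => ℕ) t0 t j.succ)) =
        Cc n g M (yk n M (t j)) := fun j => by rw [Fin.cons_succ]
    rw [Finset.prod_congr rfl (fun j _ => e4 j), Fin.cons_zero]
    rw [Fin.val_zero]
    ring

theorem ChainSum_JC (n g M m : ℕ) (r : ℕ → ℤ) :
    JC (m := m) (fun i => r i) n g M = ChainSum_J n g M m r (M + 1 - n) := by
  rw [← ChainSum_JG]
  unfold JC
  refine Finset.sum_congr rfl fun t _ => ?_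
  congr 1
  refine Finset.prod_congr rfl fun i _ => ?_
  unfold RSo
  rw [ChainSum_ext, ChainSum_ext]

/-! ### The entries of the matrices -/

section entries

variable (n g N : ℕ)

/-- the root of unity -/
noncomputable def ChainSum_x : ℂ := exp (Real.pi * I / ((N + g : ℕ) : ℂ))

theorem ChainSum_x_ne : ChainSum_x g N ≠ 0 := exp_ne_zero _

theorem ChainSum_diag (k : Fin (N + 1)) :
    Bmat N (ChainSum_x g N ^ n) (ChainSum_x g N) k k ≠ 0 :=
  Bmat_diag N _ _ (pow_ne_zero n (ChainSum_x_ne g N)) (ChainSum_x_ne g N) k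

theorem ChainSum_th_ne (M k : ℕ) : th n M k ≠ 0 := by
  intro h
  have := norm_th n M k
  rw [h, norm_zero] at this
  exact zero_ne_one this

/-- Entries of the powers of `B`. -/
theorem ChainSum_B (r : ℤ) (hn : 2 ≤ n) (hg : 1 ≤ g) (hN : n ≤ N) (k j : Fin (N + 1))
    (hk : (k : ℕ) + n ≤ N + g + 1) (hj : (j : ℕ) + n ≤ N + g + 1) :
    (Bmat N (ChainSum_x g N ^ n) (ChainSum_x g N) ^ r) k j =
      (th n (N + g) k * S (N + g) k) * RS r n (N + g) k (N + g + 1 - n - j) /
        (th n (N + g) j * S (N + g) j) := by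
  by_cases hjk : j ≤ k
  · have hjk' : (j : ℕ) ≤ k := hjk
    rw [ChainSum_x, Brt r N n (N + g) hn (by omega) k j hjk]
    have h1 := (RS_eq r n (N + g) k (N + g + 1 - n - j) hn (by omega) (by omega) (by omega)
      (by omega)).1
    rw [h1]
    have h2 : N + g + 1 - n - (N + g + 1 - n - (j : ℕ)) = j := by omega
    rw [h2]
    ring
  · rw [not_le] at hjk
    have hjk' : (k : ℕ) < j := hjk
    rw [low_zpow _ (Bmat_low N _ _) (ChainSum_diag n g N) r k j hjk]
    unfold RS
    rw [if_neg (by omega)]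
    simp

theorem ChainSum_B0 (r : ℤ) (k j : Fin (N + 1)) (hk : (k : ℕ) + n ≤ N + g + 1)
    (hj : N + g + 1 < (j : ℕ) + n) :
    (Bmat N (ChainSum_x g N ^ n) (ChainSum_x g N) ^ r) k j = 0 := by
  refine low_zpow _ (Bmat_low N _ _) (ChainSum_diag n g N) r k j ?_
  show (k : ℕ) < j
  omega

theorem ChainSum_Cpow (r : ℤ) (j k : Fin (N + 1)) :
    (Cmat N (ChainSum_x g N ^ n) (ChainSum_x g N) ^ r) j k =
      (∏ i ∈ Finset.Ico (j : ℕ) k, facC N (ChainSum_x g N ^ n) (ChainSum_x g N) i) *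
        (Bmat N (ChainSum_x g N ^ n) (ChainSum_x g N) ^ r) k j := by
  have h1 : Cmat N (ChainSum_x g N ^ n) (ChainSum_x g N) =
      tw (facC N (ChainSum_x g N ^ n) (ChainSum_x g N))
        (Bmat N (ChainSum_x g N ^ n) (ChainSum_x g N)) := rfl
  rw [h1, tw_zpow _ _ (Bmat_low N _ _) (ChainSum_diag n g N) r]
  rfl

/-- Entries of the powers of `C`. -/
theorem ChainSum_C (r : ℤ) (hn : 2 ≤ n) (hg : 1 ≤ g) (hgn : g ≤ n - 1) (hN : n ≤ N)
    (j k : Fin (N + 1)) (hj : (j : ℕ) + n ≤ N + g + 1) (hk : (k : ℕ) + n ≤ N + g + 1) :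
    ((T (N + g) n g j : ℂ) * S (N + g) j / th n (N + g) j) *
      (Cmat N (ChainSum_x g N ^ n) (ChainSum_x g N) ^ r) j k =
      (T (N + g) n g k : ℂ) * S (N + g) k / th n (N + g) k *
        RS r n (N + g) (N + g + 1 - n - j) k := by
  rw [ChainSum_Cpow]
  by_cases hjk : j ≤ k
  · have hjk' : (j : ℕ) ≤ k := hjk
    have h0 := facC_prod N n g j k hn hg hgn hjk' hk
    rw [← ChainSum_x] at h0
    rw [h0, ChainSum_B n g N r hn hg hN k j hk hj]
    have h1 := RS_eq r n (N + g) k (N + g + 1 - n - j) hn (by omega) (by omega) (by omega)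
      (by omega)
    have h2 := RS_eq r n (N + g) (N + g + 1 - n - j) k hn (by omega) (by omega) (by omega)
      (by omega)
    rw [h1.1, h2.2]
    have t1 : (T (N + g) n g j : ℂ) ≠ 0 := by
      exact_mod_cast (T_pos (N + g) n g j hn hg hgn (by omega) hj).ne'
    have t2 : (S (N + g) j : ℂ) ≠ 0 := by
      exact_mod_cast (S_pos (M := N + g) (k := j) (by omega)).ne'
    have t3 := ChainSum_th_ne n (N + g) j
    have t4 := ChainSum_th_ne n (N + g) k
    push_cast
    field_simp
  · rw [not_le] at hjk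
    have hjk' : (k : ℕ) < j := hjk
    rw [low_zpow _ (Bmat_low N _ _) (ChainSum_diag n g N) r k j hjk]
    unfold RS
    rw [if_neg (by omega)]
    simp

theorem ChainSum_C0 (r : ℤ) (hn : 2 ≤ n) (hg : 1 ≤ g) (hgn : g ≤ n - 1)
    (j k : Fin (N + 1)) (hj : (j : ℕ) + n ≤ N + g + 1) (hk : N + g + 1 < (k : ℕ) + n) :
    (Cmat N (ChainSum_x g N ^ n) (ChainSum_x g N) ^ r) j k = 0 := by
  rw [ChainSum_Cpow]
  have h0 := facC_prod_zero N n g j k hn hg hgn hj hk (by omega)
  rw [← ChainSum_x] at h0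
  rw [h0, zero_mul]

end entries

/-! ### The recursion -/

theorem ChainSum_fin_sum {N L : ℕ} (hL : L ≤ N) (F : ℕ → ℂ) (G : Fin (N + 1) → ℂ)
    (h1 : ∀ k : Fin (N + 1), (k : ℕ) ≤ L → G k = F k)
    (h2 : ∀ k : Fin (N + 1), L < (k : ℕ) → G k = 0) :
    ∑ k, G k = ∑ k ∈ Finset.range (L + 1), F k := by
  have e1 : ∀ k : Fin (N + 1), G k = if (k : ℕ) ≤ L then F k else 0 := by
    intro k
    split_ifs with h
    · exact h1 k h
    · exact h2 k (by omega)
  rw [Finset.sum_congr rfl (fun k _ => e1 k),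
    Fin.sum_univ_eq_sum_range (fun k => if k ≤ L then F k else 0) (N + 1)]
  rw [← Finset.sum_subset (Finset.range_subset_range.2 (by omega : L + 1 ≤ N + 1))]
  · refine Finset.sum_congr rfl fun k hk => ?_
    rw [Finset.mem_range] at hk
    rw [if_pos (by omega)]
  · intro k _ hk
    rw [Finset.mem_range] at hk
    rw [if_neg (by omega)]

/-- One step. -/
theorem ChainSum_step (n g N : ℕ) (a b : ℤ) (hn : 2 ≤ n) (hg : 1 ≤ g) (hgn : g ≤ n - 1)
    (hN : n ≤ N) (W : Fin (N + 1) → ℂ) (w : ℕ → ℂ) (hw : ∀ j : Fin (N + 1), W j = w j)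
    (s : ℕ) (hs : s + n ≤ N + g + 1) (j : Fin (N + 1)) (hj : (j : ℕ) = N + g + 1 - n - s) :
    ((T (N + g) n g j : ℂ) * S (N + g) j / th n (N + g) j) *
      ∑ j' : Fin (N + 1), (∑ k : Fin (N + 1),
        (Cmat N (ChainSum_x g N ^ n) (ChainSum_x g N) ^ a) j k *
          (Bmat N (ChainSum_x g N ^ n) (ChainSum_x g N) ^ b) k j') * W j' =
      ∑ t ∈ Finset.range (N + g + 2 - n), ∑ t' ∈ Finset.range (N + g + 2 - n),
        Cc n g (N + g) (yk n (N + g) t) / Dg n g (N + g) * RS a n (N + g) s t *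
          RS b n (N + g) t t' * (w (N + g + 1 - n - t') /
            (th n (N + g) (N + g + 1 - n - t') * S (N + g) (N + g + 1 - n - t'))) := by
  set L : ℕ := N + g + 1 - n with hL
  have hLN : L ≤ N := by omega
  have hL1 : N + g + 2 - n = L + 1 := by omega
  rw [hL1]
  have e0 : ∑ j' : Fin (N + 1), (∑ k : Fin (N + 1),
        (Cmat N (ChainSum_x g N ^ n) (ChainSum_x g N) ^ a) j k *
          (Bmat N (ChainSum_x g N ^ n) (ChainSum_x g N) ^ b) k j') * W j' =
      ∑ k : Fin (N + 1), (Cmat N (ChainSum_x g N ^ n) (ChainSum_x g N) ^ a) j k *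
        ∑ j' : Fin (N + 1), (Bmat N (ChainSum_x g N ^ n) (ChainSum_x g N) ^ b) k j' * W j' := by
    simp_rw [Finset.sum_mul, Finset.mul_sum]
    rw [Finset.sum_comm]
    refine Finset.sum_congr rfl fun k _ => Finset.sum_congr rfl fun j' _ => ?_
    ring
  rw [e0, Finset.mul_sum]
  have hjn : (j : ℕ) + n ≤ N + g + 1 := by omega
  refine ChainSum_fin_sum hLN (fun t => ∑ t' ∈ Finset.range (L + 1),
        Cc n g (N + g) (yk n (N + g) t) / Dg n g (N + g) * RS a n (N + g) s t *
          RS b n (N + g) t t' * (w (L - t') /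
            (th n (N + g) (L - t') * S (N + g) (L - t')))) _ ?_ ?_
  · intro k hk
    have hkn : (k : ℕ) + n ≤ N + g + 1 := by omega
    have e1 : ∑ j' : Fin (N + 1), (Bmat N (ChainSum_x g N ^ n) (ChainSum_x g N) ^ b) k j' * W j' =
        ∑ j' ∈ Finset.range (L + 1), (th n (N + g) k * S (N + g) k) *
          RS b n (N + g) k (L - j') / (th n (N + g) j' * S (N + g) j') * w j' := by
      refine ChainSum_fin_sum hLN (fun j' => (th n (N + g) k * S (N + g) k) *
          RS b n (N + g) k (L - j') / (th n (N + g) j' * S (N + g) j') * w j') _ ?_ ?_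
      · intro j' hj'
        show _ * W j' = _
        rw [ChainSum_B n g N b hn hg hN k j' hkn (by omega), hw]
      · intro j' hj'
        show _ * W j' = 0
        rw [ChainSum_B0 n g N b k j' hkn (by omega), zero_mul]
    have e2 : ∑ j' ∈ Finset.range (L + 1), (th n (N + g) k * S (N + g) k) *
          RS b n (N + g) k (L - j') / (th n (N + g) j' * S (N + g) j') * w j' =
        ∑ t' ∈ Finset.range (L + 1), (th n (N + g) k * S (N + g) k) *
          RS b n (N + g) k t' / (th n (N + g) (L - t') * S (N + g) (L - t')) * w (L - t') := by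
      rw [← Finset.sum_range_reflect]
      refine Finset.sum_congr rfl fun t' ht' => ?_
      rw [Finset.mem_range] at ht'
      have e3 : L + 1 - 1 - t' = L - t' := by omega
      have e4 : L - (L - t') = t' := by omega
      rw [e3, e4]
    rw [e1, e2, ← mul_assoc, ChainSum_C n g N a hn hg hgn hN j k hjn hkn]
    have e5 : N + g + 1 - n - (j : ℕ) = s := by omega
    rw [e5, Finset.mul_sum]
    refine Finset.sum_congr rfl fun t' _ => ?_
    have hT := T_Cc n g (N + g) k hg hgn hkn hn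
    have hDg : (Dg n g (N + g) : ℂ) = (S (N + g) (g - 1) : ℂ) * S (N + g) (n - g - 1) *
        S (N + g) (n - 2) := by
      unfold Dg
      push_cast
      rfl
    rw [hDg, ← hT]
    have t4 := ChainSum_th_ne n (N + g) k
    field_simp
  · intro k hk
    show _ * (_ * _) = 0
    rw [ChainSum_C0 n g N a hn hg hgn j k hjn (by omega), zero_mul, mul_zero]

theorem ChainSum_main (n g N : ℕ) (hn : 2 ≤ n) (hg : 1 ≤ g) (hgn : g ≤ n - 1) (hN : n ≤ N)
    (G : ℕ) : ∀ (r : ℕ → ℤ) (s : ℕ), s + n ≤ N + g + 1 → ∀ j : Fin (N + 1),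
      (j : ℕ) = N + g + 1 - n - s →
      ((T (N + g) n g j : ℂ) * S (N + g) j / th n (N + g) j) *
        chainMat N (ChainSum_x g N ^ n) (ChainSum_x g N) ((List.range (2 * G + 2)).map r) j 0 =
      ChainSum_J n g (N + g) (2 * G + 1) r s / (((N + g : ℕ) : ℂ) ^ (4 * G) * Dg n g (N + g)) := by
  have hS0 : S (N + g) 0 = 1 := by
    unfold S
    simp
  have hM0 : ((N + g : ℕ) : ℂ) ≠ 0 := by
    have : N + g ≠ 0 := by omega
    exact_mod_cast this
  have hth0 : th n (N + g) 0 = 1 := by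
    unfold th
    simp
  have hD1 : 0 < S (N + g) (g - 1) := S_pos (by omega)
  have hD2 : 0 < S (N + g) (n - g - 1) := S_pos (by omega)
  have hD3 : 0 < S (N + g) (n - 2) := S_pos (by omega)
  have hDg0 : (Dg n g (N + g) : ℂ) ≠ 0 := by
    have : Dg n g (N + g) ≠ 0 := by
      unfold Dg
      positivity
    exact_mod_cast this
  have hcol : ∀ (a b : ℤ) (l : List ℤ) (j : Fin (N + 1)),
      chainMat N (ChainSum_x g N ^ n) (ChainSum_x g N) (a :: b :: l) j 0 =
        ∑ j' : Fin (N + 1), (∑ k : Fin (N + 1),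
        (Cmat N (ChainSum_x g N ^ n) (ChainSum_x g N) ^ a) j k *
          (Bmat N (ChainSum_x g N ^ n) (ChainSum_x g N) ^ b) k j') *
          chainMat N (ChainSum_x g N ^ n) (ChainSum_x g N) l j' 0 := by
    intro a b l j
    show (Cmat N (ChainSum_x g N ^ n) (ChainSum_x g N) ^ a *
      Bmat N (ChainSum_x g N ^ n) (ChainSum_x g N) ^ b *
      chainMat N (ChainSum_x g N ^ n) (ChainSum_x g N) l) j 0 = _
    rw [Matrix.mul_apply]
    refine Finset.sum_congr rfl fun j' _ => ?_
    rw [Matrix.mul_apply]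
  induction G with
  | zero =>
    intro r s hs j hj
    have hl : (List.range (2 * 0 + 2)).map r = [r 0, r 1] := rfl
    rw [hl, hcol, ChainSum_step n g N (r 0) (r 1) hn hg hgn hN
      (fun j' => chainMat N (ChainSum_x g N ^ n) (ChainSum_x g N) [] j' 0)
      (fun j' => if j' = 0 then 1 else 0) ?_ s hs j hj]
    · show _ = (∑ t ∈ Finset.range (N + g + 2 - n), Cc n g (N + g) (yk n (N + g) t) *
        RS (r 0) n (N + g) s t * RS (r (0 + 1)) n (N + g) t (N + g + 1 - n)) / _
      rw [Finset.sum_div]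
      refine Finset.sum_congr rfl fun t ht => ?_
      rw [Finset.sum_eq_single (N + g + 1 - n)]
      · rw [Nat.sub_self, if_pos rfl, hth0, hS0]
        rw [mul_zero, pow_zero, one_mul, zero_add]
        push_cast
        ring
      · intro t' ht' hne
        rw [Finset.mem_range] at ht'
        rw [if_neg (by omega)]
        simp
      · intro h
        exact absurd (Finset.mem_range.2 (by omega)) h
    · intro j'
      show (1 : Matrix (Fin (N + 1)) (Fin (N + 1)) ℂ) j' 0 = if (j' : ℕ) = 0 then 1 else 0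
      rw [Matrix.one_apply]
      by_cases h : j' = 0
      · rw [if_pos h, h]
        rfl
      · rw [if_neg h, if_neg]
        intro h'
        exact h (Fin.ext h')
  | succ G ih =>
    intro r s hs j hj
    have hl : (List.range (2 * (G + 1) + 2)).map r =
        r 0 :: r 1 :: (List.range (2 * G + 2)).map (fun i => r (i + 2)) := by
      have : 2 * (G + 1) + 2 = (2 * G + 2) + 1 + 1 := by ring
      rw [this, List.range_succ_eq_map, List.map_cons, List.map_map, List.range_succ_eq_map,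
        List.map_cons, List.map_map]
      rfl
    rw [hl, hcol, ChainSum_step n g N (r 0) (r 1) hn hg hgn hN
      (fun j' => chainMat N (ChainSum_x g N ^ n) (ChainSum_x g N)
        ((List.range (2 * G + 2)).map (fun i => r (i + 2))) j' 0)
      (fun j' => if h : j' < N + 1 then chainMat N (ChainSum_x g N ^ n) (ChainSum_x g N)
        ((List.range (2 * G + 2)).map (fun i => r (i + 2))) ⟨j', h⟩ 0 else 0) ?_ s hs j hj]
    · have e1 : 2 * (G + 1) + 1 = (2 * G + 1) + 1 + 1 := by ring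
      rw [e1]
      show _ = (∑ t ∈ Finset.range (N + g + 2 - n), Cc n g (N + g) (yk n (N + g) t) *
        RS (r 0) n (N + g) s t * (∑ t' ∈ Finset.range (N + g + 2 - n),
          Cc n g (N + g) (yk n (N + g) t') * RS (r (0 + 1)) n (N + g) t t' *
          ChainSum_J n g (N + g) (2 * G + 1) (fun i => r (i + 1 + 1)) t')) / _
      rw [Finset.sum_div]
      refine Finset.sum_congr rfl fun t ht => ?_
      rw [Finset.mul_sum, Finset.sum_div]
      refine Finset.sum_congr rfl fun t' ht' => ?_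
      rw [Finset.mem_range] at ht ht'
      have hlt : N + g + 1 - n - t' < N + 1 := by omega
      rw [dif_pos hlt]
      have h1 := ih (fun i => r (i + 2)) t' (by omega) ⟨N + g + 1 - n - t', hlt⟩ rfl
      have t1 : (T (N + g) n g (N + g + 1 - n - t') : ℂ) ≠ 0 := by
        exact_mod_cast (T_pos (N + g) n g (N + g + 1 - n - t') hn hg hgn (by omega)
          (by omega)).ne'
      have t2 : (S (N + g) (N + g + 1 - n - t') : ℂ) ≠ 0 := by
        exact_mod_cast (S_pos (M := N + g) (k := N + g + 1 - n - t') (by omega)).ne'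
      have t3 := ChainSum_th_ne n (N + g) (N + g + 1 - n - t')
      have hT := T_Cc n g (N + g) (N + g + 1 - n - t') hg hgn (by omega) hn
      have hdual := Cc_dual n g (N + g) t' hn hg hgn (by omega) (by omega)
      have hDg : (Dg n g (N + g) : ℂ) = (S (N + g) (g - 1) : ℂ) * S (N + g) (n - g - 1) *
          S (N + g) (n - 2) := by
        unfold Dg
        push_cast
        rfl
      rw [← hDg] at hT
      have hT' : Cc n g (N + g) (yk n (N + g) (N + g + 1 - n - t')) =
          (T (N + g) n g (N + g + 1 - n - t') : ℂ) * (S (N + g) (N + g + 1 - n - t') : ℂ) ^ 2 *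
            Dg n g (N + g) := by
        rw [hT, div_mul_cancel₀ _ hDg0]
      rw [hT'] at hdual
      set X := chainMat N (ChainSum_x g N ^ n) (ChainSum_x g N)
        ((List.range (2 * G + 2)).map (fun i => r (i + 2))) ⟨N + g + 1 - n - t', hlt⟩ 0 with hX
      set tt : ℂ := (T (N + g) n g (N + g + 1 - n - t') : ℂ) with htt
      set ss : ℂ := (S (N + g) (N + g + 1 - n - t') : ℂ) with hss
      set hh' : ℂ := th n (N + g) (N + g + 1 - n - t') with hhh
      set JJ : ℂ := ChainSum_J n g (N + g) (2 * G + 1) (fun i => r (i + 2)) t' with hJJ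
      have h1' : tt * ss / hh' * X = JJ / (((N + g : ℕ) : ℂ) ^ (4 * G) * Dg n g (N + g)) := h1
      have hden : ((N + g : ℕ) : ℂ) ^ (4 * G) * Dg n g (N + g) ≠ 0 :=
        mul_ne_zero (pow_ne_zero _ hM0) hDg0
      have hXeq : X = JJ * hh' / (((N + g : ℕ) : ℂ) ^ (4 * G) * Dg n g (N + g) * (tt * ss)) := by
        rw [eq_div_iff (mul_ne_zero hden (mul_ne_zero t1 t2))]
        rw [eq_div_iff hden] at h1'
        have : tt * ss / hh' * X * hh' = tt * ss * X := by
          field_simp
        calc X * (((N + g : ℕ) : ℂ) ^ (4 * G) * Dg n g (N + g) * (tt * ss)) =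
            (tt * ss / hh' * X * (((N + g : ℕ) : ℂ) ^ (4 * G) * Dg n g (N + g))) * hh' := by
              rw [show tt * ss / hh' * X * (((N + g : ℕ) : ℂ) ^ (4 * G) * Dg n g (N + g)) * hh' =
                (tt * ss / hh' * X * hh') * (((N + g : ℕ) : ℂ) ^ (4 * G) * Dg n g (N + g)) by ring,
                this]
              ring
          _ = JJ * hh' := by rw [h1']
      rw [hXeq]
      have e2 : ((N + g : ℕ) : ℂ) ^ (4 * (G + 1)) =
          ((N + g : ℕ) : ℂ) ^ (4 * G) * ((N + g : ℕ) : ℂ) ^ 4 := by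
        rw [← pow_add]
        ring_nf
      rw [e2, ← hdual]
      have hcc : Cc n g (N + g) (yk n (N + g) t') ≠ 0 := by
        intro h0
        rw [h0, zero_mul] at hdual
        exact pow_ne_zero 4 hM0 hdual.symm
      rw [zero_add]
      field_simp
    · intro j'
      show _ = (if h : (j' : ℕ) < N + 1 then _ else 0)
      rw [dif_pos j'.2]

theorem chain_eq (G : ℕ) (r : ℕ → ℤ) (n g N : ℕ) (hn : 2 ≤ n) (hg : 1 ≤ g) (hgn : g ≤ n - 1)
    (hN : n ≤ N) :
    suChain ((List.range (2 * G + 2)).map r) n N (exp (Real.pi * I / ((N + g : ℕ) : ℂ))) =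
      JC (m := 2 * G + 1) (fun i => r i) n g (N + g) /
        (((N + g : ℕ) : ℂ) ^ (4 * G) * Dg n g (N + g)) := by
  rw [ChainSum_JC]
  have h := ChainSum_main n g N hn hg hgn hN G r (N + g + 1 - n) (by omega) 0 (by simp)
  have hS0 : S (N + g) 0 = 1 := by
    unfold S
    simp
  have hT0 : T (N + g) n g 0 = 1 := by
    unfold T
    simp
  have hth0 : th n (N + g) 0 = 1 := by
    unfold th
    simp
  rw [← h]
  show chainMat N (ChainSum_x g N ^ n) (ChainSum_x g N) ((List.range (2 * G + 2)).map r) 0 0 = _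
  rw [Fin.val_zero, hS0, hT0, hth0]
  push_cast
  ring

end Pool.Agent.H63.VC4
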