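import Pool.Agent.H63.VC4.Defs
import Pool.Agent.H63.VC3.CritA

/-! # Existence of the critical point: contraction -/

namespace Pool.Agent.H63.VC4

open Pool.Agent.H63.VC Pool.Agent.H63.VC3 Complex
open scoped BigOperators

theorem CritNA_ext_cases {m : ℕ} (i : Fin (m + 2)) :
    (∀ f : Fin m → ℂ, ext f i = none) ∨ ∃ j, ∀ f : Fin m → ℂ, ext f i = some (f j) := by
  refine Fin.cases (Or.inl fun f => rfl) (fun i => ?_) i
  refine Fin.lastCases (Or.inl fun f => ext_last_succ f) (fun i => Or.inr ⟨i, fun f => ?_⟩) i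
  exact ext_mid f i

theorem CritNA_dpo_some (y v : ℂ) : dpo (some y) v = CritA_D y v := rfl

theorem CritNA_dpo_none (v : ℂ) : dpo none v = 0 := rfl

theorem CritNA_dpo_bound {m : ℕ} (i : Fin (m + 2)) {y : Fin m → ℂ} {v : ℂ}
    (hy : ∀ j, ‖y j - 1 / 4‖ ≤ 16 / 1000) (hv : ‖v‖ ≤ 55 / 1000) :
    ‖dpo (ext y i) v‖ ≤ ns (ext y i) * (114 / 10 * ‖v‖) := by
  rcases CritNA_ext_cases i with h | ⟨j, h⟩
  · rw [h, CritNA_dpo_none, ns_none, norm_zero, zero_mul]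
  · rw [h, CritNA_dpo_some, ns_some, one_mul]
    exact CritA_D_bound (hy j) hv

theorem CritNA_dpo_lip {m : ℕ} (i : Fin (m + 2)) {y y' : Fin m → ℂ} {v v' : ℂ} {d : ℝ}
    (hy : ∀ j, ‖y j - 1 / 4‖ ≤ 16 / 1000) (hy' : ∀ j, ‖y' j - 1 / 4‖ ≤ 16 / 1000)
    (hv : ‖v‖ ≤ 55 / 1000) (hv' : ‖v'‖ ≤ 55 / 1000)
    (h1 : ∀ j, ‖y' j - y j‖ ≤ d) (h2 : ‖v' - v‖ ≤ d) :
    ‖dpo (ext y' i) v' - dpo (ext y i) v‖ ≤ ns (ext y i) * (16 * d) := by
  rcases CritNA_ext_cases i with h | ⟨j, h⟩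
  · rw [h, h, CritNA_dpo_none, CritNA_dpo_none, ns_none, sub_zero, norm_zero, zero_mul]
  · rw [h, h, CritNA_dpo_some, CritNA_dpo_some, ns_some, one_mul]
    exact CritA_lip_D (hy j) (hy' j) hv hv' (h1 j) h2

theorem CritNA_v_small {r : ℤ} {n : ℝ} (hn : 1 ≤ n) (hr : 10 * n ≤ |(r : ℝ)|) {v : ℂ}
    (hv : ‖v + 1 / (2 * r)‖ ≤ n / (2 * (r : ℝ) ^ 2)) :
    ‖v‖ ≤ 55 / 1000 ∧ ‖v‖ ≤ 55 / 100 / |(r : ℝ)| := by
  have hr' : (10 : ℝ) ≤ |(r : ℝ)| := by linarith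
  have hpos : 0 < |(r : ℝ)| := by linarith
  have e : v = (v + 1 / (2 * r)) - 1 / (2 * r) := by ring
  have n1 : ‖(1 : ℂ) / (2 * r)‖ = 1 / (2 * |(r : ℝ)|) := by
    rw [norm_div, norm_one, norm_mul, Complex.norm_intCast]
    norm_num
  have h1 : ‖v‖ ≤ n / (2 * (r : ℝ) ^ 2) + 1 / (2 * |(r : ℝ)|) := by
    conv_lhs => rw [e]
    refine (norm_sub_le _ _).trans ?_
    rw [n1]; linarith
  have h2 : n / (2 * (r : ℝ) ^ 2) + 1 / (2 * |(r : ℝ)|) ≤ 55 / 100 / |(r : ℝ)| := by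
    rw [← sq_abs (r : ℝ)]
    have : n / (2 * |(r : ℝ)| ^ 2) ≤ 5 / 100 / |(r : ℝ)| := by
      rw [div_le_div_iff₀ (by positivity) hpos]
      nlinarith
    have e3 : 1 / (2 * |(r : ℝ)|) = 50 / 100 / |(r : ℝ)| := by field_simp; norm_num
    have e4 : 55 / 100 / |(r : ℝ)| = 5 / 100 / |(r : ℝ)| + 50 / 100 / |(r : ℝ)| := by ring
    rw [e4, e3]
    linarith
  have h3 : 55 / 100 / |(r : ℝ)| ≤ 55 / 1000 := by
    rw [div_le_iff₀ hpos]; linarith
  exact ⟨h1.trans (h2.trans h3), h1.trans h2⟩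

/-- The new value of `y j`. -/
noncomputable def CritNA_Y {m : ℕ} (y : Fin m → ℂ) (v : Fin (m + 1) → ℂ) (j : Fin m) : ℂ :=
  CritA_A (y j) + (CritA_G (y j) (v j.castSucc) + CritA_G (y j) (v j.succ)) / (8 * Real.pi)

/-- The new value of `v i`. -/
noncomputable def CritNA_V {m : ℕ} (r : Fin (m + 1) → ℤ) (y : Fin m → ℂ) (v : Fin (m + 1) → ℂ)
    (i : Fin (m + 1)) : ℂ :=
  -(1 / (2 * (r i : ℂ))) - (dpo (ext y i.castSucc) (v i) + dpo (ext y i.succ) (v i)) /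
    (4 * Real.pi * I * r i)

/-- The contraction. -/
noncomputable def CritNA_Phi {m : ℕ} (r : Fin (m + 1) → ℤ)
    (p : (Fin m → ℂ) × (Fin (m + 1) → ℂ)) : (Fin m → ℂ) × (Fin (m + 1) → ℂ) :=
  (CritNA_Y p.1 p.2, CritNA_V r p.1 p.2)

/-- The domain. -/
def CritNA_dom {m : ℕ} (r : Fin (m + 1) → ℤ) : Set ((Fin m → ℂ) × (Fin (m + 1) → ℂ)) :=
  {p | (∀ j, ‖p.1 j - 1 / 4‖ ≤ 16 / 1000) ∧
    ∀ i, ‖p.2 i + 1 / (2 * r i)‖ ≤ nA m i / (2 * (r i : ℝ) ^ 2)}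

theorem CritNA_maps_v {m : ℕ} (hm : 1 ≤ m) (r : Fin (m + 1) → ℤ) (i : Fin (m + 1))
    (hr : 10 * nA m i ≤ |(r i : ℝ)|) {y : Fin m → ℂ} {v : Fin (m + 1) → ℂ}
    (hy : ∀ j, ‖y j - 1 / 4‖ ≤ 16 / 1000)
    (hv : ‖v i + 1 / (2 * r i)‖ ≤ nA m i / (2 * (r i : ℝ) ^ 2)) :
    ‖CritNA_V r y v i + 1 / (2 * r i)‖ ≤ nA m i / (2 * (r i : ℝ) ^ 2) := by
  have hn := nA_pos m hm i
  have hpos : 0 < |(r i : ℝ)| := by linarith
  obtain ⟨h1, h2⟩ := CritNA_v_small hn hr hv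
  have e : CritNA_V r y v i + 1 / (2 * r i) =
      -((dpo (ext y i.castSucc) (v i) + dpo (ext y i.succ) (v i)) / (4 * Real.pi * I * r i)) := by
    unfold CritNA_V
    ring
  rw [e, norm_neg, norm_div, CritA_den, ← sq_abs (r i : ℝ)]
  have h3 : ‖dpo (ext y i.castSucc) (v i) + dpo (ext y i.succ) (v i)‖ ≤
      nA m i * (114 / 10 * ‖v i‖) := by
    refine (norm_add_le _ _).trans ?_
    rw [← ns_ext y i, add_mul]
    exact add_le_add (CritNA_dpo_bound _ hy h1) (CritNA_dpo_bound _ hy h1)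
  have hp := Real.pi_gt_d2
  rw [div_le_div_iff₀ (by positivity) (by positivity)]
  have h4 : ‖v i‖ * |(r i : ℝ)| ≤ 55 / 100 := by
    rwa [le_div_iff₀ hpos] at h2
  have h5 : ‖dpo (ext y i.castSucc) (v i) + dpo (ext y i.succ) (v i)‖ * |(r i : ℝ)| ≤
      nA m i * (627 / 100) := by
    calc ‖dpo (ext y i.castSucc) (v i) + dpo (ext y i.succ) (v i)‖ * |(r i : ℝ)|
        ≤ nA m i * (114 / 10 * ‖v i‖) * |(r i : ℝ)| := by gcongr
      _ = nA m i * (114 / 10 * (‖v i‖ * |(r i : ℝ)|)) := by ring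
      _ ≤ nA m i * (114 / 10 * (55 / 100)) := by gcongr
      _ = nA m i * (627 / 100) := by norm_num
  calc ‖dpo (ext y i.castSucc) (v i) + dpo (ext y i.succ) (v i)‖ * (2 * |(r i : ℝ)| ^ 2)
      = 2 * |(r i : ℝ)| *
        (‖dpo (ext y i.castSucc) (v i) + dpo (ext y i.succ) (v i)‖ * |(r i : ℝ)|) := by ring
    _ ≤ 2 * |(r i : ℝ)| * (nA m i * (627 / 100)) := by gcongr
    _ = nA m i * (4 * (627 / 200) * |(r i : ℝ)|) := by ring
    _ ≤ nA m i * (4 * Real.pi * |(r i : ℝ)|) := by gcongr; linarith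

theorem CritNA_maps {m : ℕ} (hm : 1 ≤ m) (r : Fin (m + 1) → ℤ)
    (hr : ∀ i, 10 * nA m i ≤ |(r i : ℝ)|) :
    Set.MapsTo (CritNA_Phi r) (CritNA_dom r) (CritNA_dom r) := by
  rintro ⟨y, v⟩ ⟨hy, hv⟩
  simp only at hy hv
  refine ⟨fun j => ?_, fun i => CritNA_maps_v hm r i (hr i) hy (hv i)⟩
  have hv' := (CritNA_v_small (nA_pos m hm j.castSucc) (hr _) (hv j.castSucc)).1
  have hw' := (CritNA_v_small (nA_pos m hm j.succ) (hr _) (hv j.succ)).1
  have a1 := CritA_G_bound (hy j) hv'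
  have a2 := CritA_G_bound (hy j) hw'
  have a3 := CritA_A_lip (y := 1 / 4) (y' := y j) (by norm_num) (hy j)
  rw [CritA_A_quarter] at a3
  have b1 : ‖v j.castSucc‖ ^ 2 ≤ (55 / 1000) ^ 2 := by gcongr
  have b2 : ‖v j.succ‖ ^ 2 ≤ (55 / 1000) ^ 2 := by gcongr
  have hp := Real.pi_gt_d2
  have n8 : ‖(8 * Real.pi : ℂ)‖ = 8 * Real.pi := by
    rw [norm_mul, Complex.norm_real, Real.norm_of_nonneg Real.pi_pos.le]; norm_num
  show ‖CritA_A (y j) + (CritA_G (y j) (v j.castSucc) + CritA_G (y j) (v j.succ)) /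
    (8 * Real.pi) - 1 / 4‖ ≤ 16 / 1000
  have e : CritA_A (y j) + (CritA_G (y j) (v j.castSucc) + CritA_G (y j) (v j.succ)) /
      (8 * Real.pi) - 1 / 4 = (CritA_A (y j) - 1 / 4) +
      (CritA_G (y j) (v j.castSucc) + CritA_G (y j) (v j.succ)) / (8 * Real.pi) := by ring
  rw [e]
  refine (norm_add_le _ _).trans ?_
  rw [norm_div, n8]
  have c1 : ‖CritA_G (y j) (v j.castSucc) + CritA_G (y j) (v j.succ)‖ ≤ 3267 / 10000 := by
    refine (norm_add_le _ _).trans ?_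
    norm_num at b1 b2 ⊢
    linarith
  have c2 : ‖CritA_G (y j) (v j.castSucc) + CritA_G (y j) (v j.succ)‖ / (8 * Real.pi) ≤
      14 / 1000 := by
    rw [div_le_iff₀ (by positivity)]
    linarith
  have hyj := hy j
  linarith

theorem CritNA_lip_comp {m : ℕ} (hm : 1 ≤ m) (r : Fin (m + 1) → ℤ) (i : Fin (m + 1))
    (hr : 10 * nA m i ≤ |(r i : ℝ)|) {y y' : Fin m → ℂ} {v v' : Fin (m + 1) → ℂ} {d : ℝ}
    (hd : 0 ≤ d) (hy : ∀ j, ‖y j - 1 / 4‖ ≤ 16 / 1000) (hy' : ∀ j, ‖y' j - 1 / 4‖ ≤ 16 / 1000)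
    (hv : ‖v i‖ ≤ 55 / 1000) (hv' : ‖v' i‖ ≤ 55 / 1000)
    (h1 : ∀ j, ‖y' j - y j‖ ≤ d) (h2 : ‖v' i - v i‖ ≤ d) :
    ‖CritNA_V r y' v' i - CritNA_V r y v i‖ ≤ 7 / 10 * d := by
  have hn := nA_pos m hm i
  have hpos : 0 < |(r i : ℝ)| := by linarith
  have e : CritNA_V r y' v' i - CritNA_V r y v i =
      -(((dpo (ext y' i.castSucc) (v' i) - dpo (ext y i.castSucc) (v i)) +
        (dpo (ext y' i.succ) (v' i) - dpo (ext y i.succ) (v i))) / (4 * Real.pi * I * r i)) := by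
    unfold CritNA_V
    ring
  rw [e, norm_neg, norm_div, CritA_den]
  have hp := Real.pi_gt_d2
  have h3 : ‖(dpo (ext y' i.castSucc) (v' i) - dpo (ext y i.castSucc) (v i)) +
      (dpo (ext y' i.succ) (v' i) - dpo (ext y i.succ) (v i))‖ ≤ nA m i * (16 * d) := by
    refine (norm_add_le _ _).trans ?_
    rw [← ns_ext y i, add_mul]
    exact add_le_add (CritNA_dpo_lip _ hy hy' hv hv' h1 h2) (CritNA_dpo_lip _ hy hy' hv hv' h1 h2)
  rw [div_le_iff₀ (by positivity)]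
  refine h3.trans ?_
  have h4 : nA m i * 120 ≤ 4 * Real.pi * |(r i : ℝ)| := by nlinarith
  calc nA m i * (16 * d) ≤ 7 / 10 * d * (nA m i * 120) := by nlinarith
    _ ≤ 7 / 10 * d * (4 * Real.pi * |(r i : ℝ)|) := by gcongr

theorem CritNA_lip {m : ℕ} (hm : 1 ≤ m) (r : Fin (m + 1) → ℤ)
    (hr : ∀ i, 10 * nA m i ≤ |(r i : ℝ)|) :
    LipschitzOnWith (7 / 10) (CritNA_Phi r) (CritNA_dom r) := by
  apply LipschitzOnWith.of_dist_le_mul
  rintro ⟨y', v'⟩ ⟨hy', hv'⟩ ⟨y, v⟩ ⟨hy, hv⟩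
  simp only at hy hv hy' hv'
  have hv0 := fun i => (CritNA_v_small (nA_pos m hm i) (hr i) (hv i)).1
  have hv0' := fun i => (CritNA_v_small (nA_pos m hm i) (hr i) (hv' i)).1
  set d := dist (y', v') (y, v) with hd
  have hd0 : 0 ≤ d := dist_nonneg
  have d1 : ∀ j, ‖y' j - y j‖ ≤ d := by
    intro j
    rw [← dist_eq_norm, hd, Prod.dist_eq]
    exact (dist_le_pi_dist y' y j).trans (le_max_left _ _)
  have d2 : ∀ i, ‖v' i - v i‖ ≤ d := by
    intro i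
    rw [← dist_eq_norm, hd, Prod.dist_eq]
    exact (dist_le_pi_dist v' v i).trans (le_max_right _ _)
  have hK : ((7 / 10 : NNReal) : ℝ) = 7 / 10 := by norm_num
  rw [hK, Prod.dist_eq]
  refine max_le ?_ ?_
  · rw [dist_pi_le_iff (by positivity)]
    intro j
    rw [dist_eq_norm]
    show ‖CritA_A (y' j) + (CritA_G (y' j) (v' j.castSucc) + CritA_G (y' j) (v' j.succ)) /
        (8 * Real.pi) - (CritA_A (y j) + (CritA_G (y j) (v j.castSucc) +
        CritA_G (y j) (v j.succ)) / (8 * Real.pi))‖ ≤ 7 / 10 * d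
    have a1 := CritA_lip_G (hy j) (hy' j) (hv0 j.castSucc) (hv0' j.castSucc) (d1 j)
      (d2 j.castSucc)
    have a2 := CritA_lip_G (hy j) (hy' j) (hv0 j.succ) (hv0' j.succ) (d1 j) (d2 j.succ)
    have a3 := CritA_A_lip (hy j) (hy' j)
    have n8 : ‖(8 * Real.pi : ℂ)‖ = 8 * Real.pi := by
      rw [norm_mul, Complex.norm_real, Real.norm_of_nonneg Real.pi_pos.le]; norm_num
    have hp := Real.pi_gt_d2
    have e : CritA_A (y' j) + (CritA_G (y' j) (v' j.castSucc) + CritA_G (y' j) (v' j.succ)) /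
        (8 * Real.pi) - (CritA_A (y j) + (CritA_G (y j) (v j.castSucc) +
        CritA_G (y j) (v j.succ)) / (8 * Real.pi)) = (CritA_A (y' j) - CritA_A (y j)) +
        ((CritA_G (y' j) (v' j.castSucc) - CritA_G (y j) (v j.castSucc)) +
        (CritA_G (y' j) (v' j.succ) - CritA_G (y j) (v j.succ))) / (8 * Real.pi) := by ring
    rw [e]
    refine (norm_add_le _ _).trans ?_
    rw [norm_div, n8]
    have c1 : ‖(CritA_G (y' j) (v' j.castSucc) - CritA_G (y j) (v j.castSucc)) +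
        (CritA_G (y' j) (v' j.succ) - CritA_G (y j) (v j.succ))‖ ≤ 1584 / 100 * d := by
      refine (norm_add_le _ _).trans ?_
      linarith
    have c2 : ‖(CritA_G (y' j) (v' j.castSucc) - CritA_G (y j) (v j.castSucc)) +
        (CritA_G (y' j) (v' j.succ) - CritA_G (y j) (v j.succ))‖ / (8 * Real.pi) ≤
        64 / 100 * d := by
      rw [div_le_iff₀ (by positivity)]
      calc _ ≤ 1584 / 100 * d := c1
        _ ≤ 64 / 100 * d * 25 := by linarith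
        _ ≤ 64 / 100 * d * (8 * Real.pi) := by gcongr; linarith
    have d1j := d1 j
    linarith
  · rw [dist_pi_le_iff (by positivity)]
    intro i
    rw [dist_eq_norm]
    exact CritNA_lip_comp hm r i (hr i) hd0 hy hy' (hv0 i) (hv0' i) d1 (d2 i)

theorem CritNA_closed {m : ℕ} (r : Fin (m + 1) → ℤ) : IsClosed (CritNA_dom r) := by
  unfold CritNA_dom
  rw [Set.ofPred_and]
  refine IsClosed.inter ?_ ?_
  · simp only [Set.ofPred_forall]
    refine isClosed_iInter fun j => isClosed_le ?_ continuous_const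
    fun_prop
  · simp only [Set.ofPred_forall]
    refine isClosed_iInter fun i => isClosed_le ?_ continuous_const
    fun_prop

theorem critN_contraction {m : ℕ} (hm : 1 ≤ m) (r : Fin (m + 1) → ℤ)
    (hr : ∀ i, 10 * nA m i ≤ |(r i : ℝ)|) (hs : ∑ i, nA m i / (r i : ℝ) ^ 2 ≤ 1 / 50) :
    ∃ (y : Fin m → ℂ) (v : Fin (m + 1) → ℂ),
    (∀ j : Fin m, 4 * hh (y j + 1 / 2) =
      hh (y j - v j.castSucc) + hh (y j + v j.castSucc) + hh (y j - v j.succ) +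
        hh (y j + v j.succ)) ∧
    (∀ i, 2 * Real.pi * I * (2 * r i * v i + 1) + dpo (ext y i.castSucc) (v i) +
      dpo (ext y i.succ) (v i) = 0) ∧
    (∀ j, ‖y j - 1 / 4‖ ≤ 16 / 1000) ∧
    (∀ i, ‖v i + 1 / (2 * r i)‖ ≤ nA m i / (2 * (r i : ℝ) ^ 2)) := by
  have hmaps := CritNA_maps hm r hr
  have hlip := CritNA_lip hm r hr
  have hcontr : ContractingWith (7 / 10) (hmaps.restrict (CritNA_Phi r) _ _) := by
    refine ⟨?_, hlip.mapsToRestrict hmaps⟩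
    rw [div_lt_one (by norm_num)]; norm_num
  have hmem : ((fun _ => (1 / 4 : ℂ)), fun i => -(1 / (2 * (r i : ℂ)))) ∈ CritNA_dom r := by
    refine ⟨fun j => ?_, fun i => ?_⟩
    · norm_num
    · show ‖-(1 / (2 * (r i : ℂ))) + 1 / (2 * r i)‖ ≤ _
      rw [neg_add_cancel, norm_zero]
      have := nA_nonneg m i
      positivity
  obtain ⟨p, hp, hfix, -⟩ := hcontr.exists_fixedPoint' (CritNA_closed r).isComplete hmaps hmem
    (edist_ne_top _ _)
  obtain ⟨y, v⟩ := p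
  obtain ⟨hy, hv⟩ := hp
  have hr1 : ∀ i, (r i : ℂ) ≠ 0 := by
    intro i h
    have h0 : r i = 0 := by exact_mod_cast h
    have h1 := hr i
    have h2 := nA_pos m hm i
    rw [h0] at h1
    norm_num at h1
    linarith
  have hpi : (Real.pi : ℂ) ≠ 0 := by exact_mod_cast Real.pi_ne_zero
  have hI := Complex.I_ne_zero
  have e1 : ∀ j, CritA_A (y j) + (CritA_G (y j) (v j.castSucc) + CritA_G (y j) (v j.succ)) /
      (8 * Real.pi) = y j := fun j => congrFun (congrArg Prod.fst hfix) j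
  have e2 : ∀ i, -(1 / (2 * (r i : ℂ))) - (dpo (ext y i.castSucc) (v i) +
      dpo (ext y i.succ) (v i)) / (4 * Real.pi * I * r i) = v i :=
    fun i => congrFun (congrArg Prod.snd hfix) i
  refine ⟨y, v, fun j => ?_, fun i => ?_, hy, hv⟩
  · have e := e1 j
    unfold CritA_A CritA_G at e
    generalize hh (y j + 1 / 2) = H at e ⊢
    field_simp at e
    linear_combination (1 / 2 : ℂ) * e
  · have e := e2 i
    have hri := hr1 i
    generalize dpo (ext y i.castSucc) (v i) = A at e ⊢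
    generalize dpo (ext y i.succ) (v i) = B at e ⊢
    field_simp at e
    linear_combination (-1 / 2 : ℂ) * e

end Pool.Agent.H63.VC4
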