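import Pool.Agent.H63.VC3.Clausen
import Pool.Agent.H63.VC4.GeoDefs

/-! # Relations between the shape parameters -/

namespace Pool.Agent.H63.VC4

open Pool.Agent.H63.VC Pool.Agent.H63.VC3 Complex
open scoped BigOperators

theorem FanRel_mul (x a : ℂ) : sin (x - a) * sin (x + a) = sin x ^ 2 - sin a ^ 2 := by
  rw [Complex.sin_sub, Complex.sin_add]
  have h1 := Complex.sin_sq_add_cos_sq x
  have h2 := Complex.sin_sq_add_cos_sq a
  linear_combination sin x ^ 2 * h2 - sin a ^ 2 * h1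

theorem FanRel_cos (w y : ℂ) : cos (2 * Real.pi * w) - cos (2 * Real.pi * y) =
    2 * (sin (Real.pi * (y - w)) * sin (Real.pi * (y + w))) := by
  have e1 : (Real.pi : ℂ) * (y - w) = Real.pi * y - Real.pi * w := by ring
  have e2 : (Real.pi : ℂ) * (y + w) = Real.pi * y + Real.pi * w := by ring
  rw [e1, e2, FanRel_mul, show 2 * (Real.pi : ℂ) * w = 2 * (Real.pi * w) by ring,
    show 2 * (Real.pi : ℂ) * y = 2 * (Real.pi * y) by ring, Complex.cos_two_mul,
    Complex.cos_two_mul, Complex.cos_sq', Complex.cos_sq']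
  ring

theorem zK_fan (w β : ℂ) (k : ℕ) (hk : 1 ≤ k) (h : sin (Real.pi * w) ≠ 0)
    (h0 : sin (((k - 1 : ℕ) : ℂ) * (Real.pi * w) + β / 2) ≠ 0)
    (h1 : sin (k * (Real.pi * w) + β / 2) ≠ 0)
    (h2 : sin (((k + 1 : ℕ) : ℂ) * (Real.pi * w) + β / 2) ≠ 0) :
    (1 - (zK w β k)⁻¹) ^ 2 * zK w β (k - 1) * zK w β (k + 1) = 1 := by
  have e0 : ((k - 1 : ℕ) : ℂ) * (Real.pi * w) + β / 2 =
      (k * (Real.pi * w) + β / 2) - Real.pi * w := by
    rw [Nat.cast_sub hk]
    push_cast
    ring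
  have e2 : ((k + 1 : ℕ) : ℂ) * (Real.pi * w) + β / 2 =
      (k * (Real.pi * w) + β / 2) + Real.pi * w := by
    push_cast
    ring
  unfold zK
  rw [e0] at h0 ⊢
  rw [e2] at h2 ⊢
  have hm := FanRel_mul (k * (Real.pi * w) + β / 2) (Real.pi * w)
  generalize (k * (Real.pi * w) + β / 2 : ℂ) = x at *
  generalize (Real.pi * w : ℂ) = a at *
  have e3 : 1 - (sin a ^ 2 / sin x ^ 2)⁻¹ = -(sin (x - a) * sin (x + a)) / sin a ^ 2 := by
    rw [hm]
    field_simp
    ring
  rw [e3]
  field_simp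

theorem zK_symm (p : ℕ) (w : ℂ) (yl yr : Option ℂ) (h : Reg p w yl yr) (k : ℕ) (hk : k ≤ 2 * p) :
    zK w (bet w yl) k = zK w (bet w yr) (2 * p - k) ∧
    (sin (k * (Real.pi * w) + bet w yl / 2) = 0 ↔
      sin (((2 * p - k : ℕ) : ℂ) * (Real.pi * w) + bet w yr / 2) = 0) := by
  have e : ((2 * p - k : ℕ) : ℂ) * (Real.pi * w) + bet w yr / 2 =
      Real.pi - (k * (Real.pi * w) + bet w yl / 2) := by
    have := h.eq
    rw [Nat.cast_sub hk]
    push_cast
    linear_combination this / 2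
  have e2 : sin (((2 * p - k : ℕ) : ℂ) * (Real.pi * w) + bet w yr / 2) =
      sin (k * (Real.pi * w) + bet w yl / 2) := by
    rw [e, Complex.sin_pi_sub]
  refine ⟨?_, ?_⟩
  · unfold zK
    rw [e2]
  · rw [e2]

theorem FanRel_sin_sq (x : ℂ) :
    sin x ^ 2 * (4 * exp (2 * I * x)) = -(exp (2 * I * x) - 1) ^ 2 := by
  have h1 : exp (2 * I * x) = exp (x * I) ^ 2 := by
    rw [← Complex.exp_nat_mul]
    congr 1
    push_cast
    ring
  have h2 : exp (-x * I) * exp (x * I) = 1 := by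
    rw [← Complex.exp_add]
    simp
  rw [h1, Complex.sin]
  have h3 : (exp (-x * I) - exp (x * I)) * exp (x * I) = 1 - exp (x * I) ^ 2 := by
    linear_combination h2
  have h4 : ((exp (-x * I) - exp (x * I)) * I / 2) ^ 2 * (4 * exp (x * I) ^ 2) =
      ((exp (-x * I) - exp (x * I)) * exp (x * I)) ^ 2 * I ^ 2 := by ring
  rw [h4, h3, I_sq]
  ring

theorem FanRel_sin_zero {x : ℂ} (h : sin x = 0) : exp (2 * I * x) = 1 := by
  have h1 := FanRel_sin_sq x
  rw [h] at h1
  have h2 : (exp (2 * I * x) - 1) ^ 2 = 0 := by linear_combination h1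
  have h3 : exp (2 * I * x) - 1 = 0 := by simpa using h2
  linear_combination h3

/-- `q sin π(y+w) - sin π(y-w) = e^{iπ(y+w)} sin 2πw`. -/
theorem FanRel_q (w y : ℂ) :
    exp (2 * Real.pi * I * w) * sin (Real.pi * (y + w)) - sin (Real.pi * (y - w)) =
      exp (I * (Real.pi * (y + w))) * sin (2 * (Real.pi * w)) := by
  have e1 : exp (2 * Real.pi * I * w) = exp (Real.pi * w * I) ^ 2 := by
    rw [← Complex.exp_nat_mul]
    congr 1
    push_cast
    ring
  have e2 : exp (I * (Real.pi * (y + w))) = exp (Real.pi * y * I) * exp (Real.pi * w * I) := by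
    rw [← Complex.exp_add]
    congr 1
    ring
  have e3 : exp (Real.pi * (y + w) * I) = exp (Real.pi * y * I) * exp (Real.pi * w * I) := by
    rw [← Complex.exp_add]
    congr 1
    ring
  have e4 : exp (-(Real.pi * (y + w)) * I) =
      exp (-(Real.pi * y) * I) * exp (-(Real.pi * w) * I) := by
    rw [← Complex.exp_add]
    congr 1
    ring
  have e5 : exp (Real.pi * (y - w) * I) = exp (Real.pi * y * I) * exp (-(Real.pi * w) * I) := by
    rw [← Complex.exp_add]
    congr 1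
    ring
  have e6 : exp (-(Real.pi * (y - w)) * I) =
      exp (-(Real.pi * y) * I) * exp (Real.pi * w * I) := by
    rw [← Complex.exp_add]
    congr 1
    ring
  have e7 : exp (2 * (Real.pi * w) * I) = exp (Real.pi * w * I) ^ 2 := by
    rw [← Complex.exp_nat_mul]
    congr 1
    push_cast
    ring
  have e8 : exp (-(2 * (Real.pi * w)) * I) = exp (-(Real.pi * w) * I) ^ 2 := by
    rw [← Complex.exp_nat_mul]
    congr 1
    push_cast
    ring
  have h1 : exp (-(Real.pi * w) * I) * exp (Real.pi * w * I) = 1 := by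
    rw [← Complex.exp_add]
    simp
  rw [Complex.sin, Complex.sin, Complex.sin, e1, e2, e3, e4, e5, e6, e7, e8]
  generalize exp (Real.pi * y * I) = Y
  generalize exp (-(Real.pi * y) * I) = Y'
  generalize exp (Real.pi * w * I) = Q at *
  generalize exp (-(Real.pi * w) * I) = Q' at *
  linear_combination (Q * Y' - Q' * Y) * I / 2 * h1

theorem FanRel_bet (w y : ℂ) (h1 : 0 < (y + w).re) (h2 : (y + w).re < 1) (h3 : 0 < (y - w).re)
    (h4 : (y - w).re < 1) :
    exp (I * bet w (some y)) = sin (Real.pi * (y + w)) / sin (Real.pi * (y - w)) := by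
  have e1 : I * bet w (some y) = hh (y + w) - hh (y - w) := by
    show I * (-I * (hh (y + w) - hh (y - w))) = hh (y + w) - hh (y - w)
    linear_combination -(hh (y + w) - hh (y - w)) * I_sq
  rw [e1, Complex.exp_sub, hh_exp _ h1 h2, hh_exp _ h3 h4, mul_div_mul_left _ _ two_ne_zero]

theorem FanRel_sin_ne {z : ℂ} (h0 : 0 < z.re) (h1 : z.re < 1) : sin (Real.pi * z) ≠ 0 := by
  intro h
  have := hh_exp z h0 h1
  rw [h, mul_zero] at this
  exact Complex.exp_ne_zero _ this

theorem FanRel_loc {p : ℕ} {w y : ℂ} {yr : Option ℂ} (h : Reg p w (some y) yr) :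
    |y.re - 1 / 4| ≤ 6 / 1000 ∧ w.re < 1 / 10 := by
  constructor
  · have h1 := h.bdl y rfl
    have h2 := Complex.abs_re_le_norm (y - 1 / 4)
    have h3 : (y - 1 / 4).re = y.re - 1 / 4 := by simp
    rw [h3] at h2
    exact h2.trans h1
  · have h1 := h.re_lt
    have hp : (10 : ℝ) ≤ p := by exact_mod_cast h.hp
    have h2 : 2 / (4 * (p : ℝ) - 1) ≤ 1 / 10 := by
      rw [div_le_div_iff₀ (by linarith) (by norm_num)]
      linarith
    linarith

theorem bet_sin (p : ℕ) (w y : ℂ) (yr : Option ℂ) (h : Reg p w (some y) yr) :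
    sin (bet w (some y) / 2) ≠ 0 ∧ sin (Real.pi * w + bet w (some y) / 2) ≠ 0 ∧
    sin (Real.pi * w) ≠ 0 ∧ 1 + cos (2 * Real.pi * y) ≠ 0 ∧ 1 + cos (2 * Real.pi * w) ≠ 0 ∧
    cos (2 * Real.pi * w) - cos (2 * Real.pi * y) ≠ 0 ∧
    exp (I * bet w (some y)) = sin (Real.pi * (y + w)) / sin (Real.pi * (y - w)) := by
  obtain ⟨hy, hw⟩ := FanRel_loc h
  have hy' := abs_le.1 hy
  have hw0 := h.re_pos
  have hwi := h.im_pos
  have a1 : (y + w).re = y.re + w.re := Complex.add_re _ _
  have a2 : (y - w).re = y.re - w.re := Complex.sub_re _ _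
  have b1 : 0 < (y + w).re := by rw [a1]; linarith
  have b2 : (y + w).re < 1 := by rw [a1]; linarith
  have b3 : 0 < (y - w).re := by rw [a2]; linarith
  have b4 : (y - w).re < 1 := by rw [a2]; linarith
  have hE := FanRel_bet w y b1 b2 b3 b4
  have hs : sin (Real.pi * w) ≠ 0 := FanRel_sin_ne hw0 (by linarith)
  have hsp := FanRel_sin_ne b1 b2
  have hsm := FanRel_sin_ne b3 b4
  have hcy : cos (Real.pi * y) ≠ 0 := by
    have h1 : (1 / 2 - y).re = 1 / 2 - y.re := by simp
    have h2 : sin (Real.pi * (1 / 2 - y)) ≠ 0 :=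
      FanRel_sin_ne (by rw [h1]; linarith) (by rw [h1]; linarith)
    rwa [show (Real.pi : ℂ) * (1 / 2 - y) = Real.pi / 2 - Real.pi * y by ring,
      Complex.sin_pi_div_two_sub] at h2
  have hcw : cos (Real.pi * w) ≠ 0 := by
    have h1 : (1 / 2 - w).re = 1 / 2 - w.re := by simp
    have h2 : sin (Real.pi * (1 / 2 - w)) ≠ 0 :=
      FanRel_sin_ne (by rw [h1]; linarith) (by rw [h1]; linarith)
    rwa [show (Real.pi : ℂ) * (1 / 2 - w) = Real.pi / 2 - Real.pi * w by ring,
      Complex.sin_pi_div_two_sub] at h2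
  refine ⟨?_, ?_, hs, ?_, ?_, ?_, hE⟩
  · intro h0
    have h1 := FanRel_sin_zero h0
    rw [show 2 * I * (bet w (some y) / 2) = I * bet w (some y) by ring, hE,
      div_eq_iff hsm, one_mul] at h1
    have h2 : sin (Real.pi * (y + w)) - sin (Real.pi * (y - w)) =
        2 * (cos (Real.pi * y) * sin (Real.pi * w)) := by
      rw [mul_add, mul_sub, Complex.sin_add, Complex.sin_sub]
      ring
    rw [h1, sub_self] at h2
    exact mul_ne_zero two_ne_zero (mul_ne_zero hcy hs) h2.symm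
  · intro h0
    have h1 := FanRel_sin_zero h0
    rw [show 2 * I * (Real.pi * w + bet w (some y) / 2) =
      2 * Real.pi * I * w + I * bet w (some y) by ring, Complex.exp_add, hE,
      ← mul_div_assoc, div_eq_iff hsm, one_mul] at h1
    have h2 := FanRel_q w y
    rw [h1, sub_self, Complex.sin_two_mul] at h2
    exact mul_ne_zero (Complex.exp_ne_zero _) (mul_ne_zero (mul_ne_zero two_ne_zero hs) hcw)
      h2.symm
  · rw [show 2 * (Real.pi : ℂ) * y = 2 * (Real.pi * y) by ring, Complex.cos_two_mul]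
    have : (1 : ℂ) + (2 * cos (Real.pi * y) ^ 2 - 1) = 2 * cos (Real.pi * y) ^ 2 := by ring
    rw [this]
    exact mul_ne_zero two_ne_zero (pow_ne_zero 2 hcy)
  · rw [show 2 * (Real.pi : ℂ) * w = 2 * (Real.pi * w) by ring, Complex.cos_two_mul]
    have : (1 : ℂ) + (2 * cos (Real.pi * w) ^ 2 - 1) = 2 * cos (Real.pi * w) ^ 2 := by ring
    rw [this]
    exact mul_ne_zero two_ne_zero (pow_ne_zero 2 hcw)
  · rw [FanRel_cos]
    exact mul_ne_zero two_ne_zero (mul_ne_zero hsm hsp)

theorem zK_slot (p : ℕ) (w y : ℂ) (yr : Option ℂ) (h : Reg p w (some y) yr) :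
    zK w (bet w (some y)) 0 = Uo w y ∧ zK w (bet w (some y)) 1 = Vo w y := by
  obtain ⟨n1, n2, n3, n4, n5, n6, hE⟩ := bet_sin p w y yr h
  set β := bet w (some y) with hβ
  have hSS : cos (2 * Real.pi * w) - cos (2 * Real.pi * y) =
      2 * (sin (Real.pi * (y - w)) * sin (Real.pi * (y + w))) := FanRel_cos w y
  have hcy : 1 + cos (2 * Real.pi * y) = 2 * cos (Real.pi * y) ^ 2 := by
    rw [show 2 * (Real.pi : ℂ) * y = 2 * (Real.pi * y) by ring, Complex.cos_two_mul]
    ring
  have hcw : 1 + cos (2 * Real.pi * w) = 2 * cos (Real.pi * w) ^ 2 := by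
    rw [show 2 * (Real.pi : ℂ) * w = 2 * (Real.pi * w) by ring, Complex.cos_two_mul]
    ring
  have hd : sin (Real.pi * (y + w)) - sin (Real.pi * (y - w)) =
      2 * (cos (Real.pi * y) * sin (Real.pi * w)) := by
    rw [mul_add, mul_sub, Complex.sin_add, Complex.sin_sub]
    ring
  have hq := FanRel_q w y
  rw [hSS] at n6
  have nm : sin (Real.pi * (y - w)) ≠ 0 := fun h0 => n6 (by rw [h0]; ring)
  have np : sin (Real.pi * (y + w)) ≠ 0 := fun h0 => n6 (by rw [h0]; ring)
  set S := sin (Real.pi * (y + w)) with hS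
  set T := sin (Real.pi * (y - w)) with hT
  set a := sin (Real.pi * w) with ha
  have nc : cos (Real.pi * y) ≠ 0 := by
    intro h0
    rw [hcy, h0] at n4
    exact n4 (by ring)
  have ncw : cos (Real.pi * w) ≠ 0 := by
    intro h0
    rw [hcw, h0] at n5
    exact n5 (by ring)
  constructor
  · -- `sin² (β/2) = - cos² πy sin² πw / (S T)`
    have h1 := FanRel_sin_sq (β / 2)
    rw [show 2 * I * (β / 2) = I * β by ring, hE] at h1
    have h2 : sin (β / 2) ^ 2 * (S * T) = -(cos (Real.pi * y) ^ 2 * a ^ 2) := by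
      have h3 : sin (β / 2) ^ 2 * (4 * (S / T)) * T ^ 2 = -((S / T) - 1) ^ 2 * T ^ 2 := by
        rw [h1]
      have h4 : sin (β / 2) ^ 2 * (4 * (S / T)) * T ^ 2 = 4 * (sin (β / 2) ^ 2 * (S * T)) := by
        field_simp
      have h5 : -((S / T) - 1) ^ 2 * T ^ 2 = -(S - T) ^ 2 := by
        field_simp
      rw [h4, h5, hd] at h3
      linear_combination h3 / 4
    unfold zK Uo
    rw [hSS, hcy, ← ha, Nat.cast_zero, zero_mul, zero_add]
    rw [div_eq_div_iff (pow_ne_zero 2 n1) (mul_ne_zero two_ne_zero (pow_ne_zero 2 nc))]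
    linear_combination 2 * h2
  · have h1 := FanRel_sin_sq (Real.pi * w + β / 2)
    rw [show 2 * I * (Real.pi * w + β / 2) = 2 * Real.pi * I * w + I * β by ring,
      Complex.exp_add, hE] at h1
    set q := exp (2 * Real.pi * I * w) with hqd
    have hq0 : q ≠ 0 := Complex.exp_ne_zero _
    have hee : exp (I * (Real.pi * (y + w))) ^ 2 = exp (2 * Real.pi * I * y) * q := by
      rw [← Complex.exp_nat_mul, hqd, ← Complex.exp_add]
      congr 1
      push_cast
      ring
    have h2 : sin (Real.pi * w + β / 2) ^ 2 * (S * T) =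
        -(exp (2 * Real.pi * I * y) * (cos (Real.pi * w) ^ 2 * a ^ 2)) := by
      have h3 : sin (Real.pi * w + β / 2) ^ 2 * (4 * (q * (S / T))) * T ^ 2 =
          -(q * (S / T) - 1) ^ 2 * T ^ 2 := by
        rw [h1]
      have h4 : sin (Real.pi * w + β / 2) ^ 2 * (4 * (q * (S / T))) * T ^ 2 =
          4 * q * (sin (Real.pi * w + β / 2) ^ 2 * (S * T)) := by
        field_simp
      have h5 : -(q * (S / T) - 1) ^ 2 * T ^ 2 = -(q * S - T) ^ 2 := by
        field_simp
      rw [h4, h5, hq, mul_pow, hee, Complex.sin_two_mul, ← ha] at h3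
      have h6 : 4 * q * (sin (Real.pi * w + β / 2) ^ 2 * (S * T)) =
          4 * q * -(exp (2 * Real.pi * I * y) * (cos (Real.pi * w) ^ 2 * a ^ 2)) := by
        rw [h3]
        ring
      exact mul_left_cancel₀ (mul_ne_zero (by norm_num) hq0) h6
    have hey : exp (2 * Real.pi * I * y) * exp (-(2 * Real.pi * I * y)) = 1 := by
      rw [← Complex.exp_add, add_neg_cancel, Complex.exp_zero]
    unfold zK Vo
    rw [hSS, hcw, ← ha, Nat.cast_one, one_mul]
    rw [div_eq_div_iff (pow_ne_zero 2 n2) (mul_ne_zero two_ne_zero (pow_ne_zero 2 ncw))]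
    linear_combination 2 * exp (-(2 * Real.pi * I * y)) * h2 -
      2 * cos (Real.pi * w) ^ 2 * a ^ 2 * hey

end Pool.Agent.H63.VC4
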