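import Pool.Agent.H63.VC4.ConcN
import Pool.Agent.H63.VC3.Taylor2

/-! # The second order expansion at the critical point -/

namespace Pool.Agent.H63.VC4

open Pool.Agent.H63.VC Pool.Agent.H63.VC3 Complex Filter Topology
open scoped BigOperators

/-- The potential function on the integration domain. -/
noncomputable def phiN {m : ℕ} (r : Fin (m + 1) → ℤ) (y : Fin m → ℂ) (v : Fin (m + 1) → ℂ)
    (z : Fin m ⊕ Fin (m + 1) → ℝ) : ℂ :=
  VN r (zy (fun j => (y j).im) z) (zv (fun i => (v i).im) z)

/-- The critical point. -/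
noncomputable def pN {m : ℕ} (y : Fin m → ℂ) (v : Fin (m + 1) → ℂ) : Fin m ⊕ Fin (m + 1) → ℝ :=
  Sum.elim (fun j => (y j).re) (fun i => (v i).re)

/-- Linear forms. -/
def TaylorN_IsL {ι : Type*} [Fintype ι] (l : (ι → ℝ) → ℂ) : Prop :=
  ∃ L : ι → ℂ, ∀ ξ, l ξ = ∑ a, L a * ξ a

/-- Quadratic forms. -/
def TaylorN_IsQ {ι : Type*} [Fintype ι] (Q : (ι → ℝ) → ℂ) : Prop :=
  ∃ q : ι → ι → ℂ, (∀ a b, q a b = q b a) ∧ ∀ ξ, Q ξ = ∑ a, ∑ b, q a b * ξ a * ξ b

theorem TaylorN_eval {ι : Type*} [Fintype ι] [DecidableEq ι] (i : ι) :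
    TaylorN_IsL (fun ξ : ι → ℝ => (ξ i : ℂ)) := by
  refine ⟨Pi.single i 1, fun ξ => ?_⟩
  rw [Finset.sum_eq_single i]
  · simp
  · intro b _ hb
    simp [Pi.single_eq_of_ne hb]
  · intro h
    exact absurd (Finset.mem_univ i) h

theorem TaylorN_addL {ι : Type*} [Fintype ι] {l l' : (ι → ℝ) → ℂ} (h : TaylorN_IsL l)
    (h' : TaylorN_IsL l') : TaylorN_IsL (fun ξ => l ξ + l' ξ) := by
  obtain ⟨L, hL⟩ := h
  obtain ⟨L', hL'⟩ := h'
  refine ⟨fun a => L a + L' a, fun ξ => ?_⟩
  beta_reduce
  rw [hL, hL', ← Finset.sum_add_distrib]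
  exact Finset.sum_congr rfl fun a _ => by ring

theorem TaylorN_subL {ι : Type*} [Fintype ι] {l l' : (ι → ℝ) → ℂ} (h : TaylorN_IsL l)
    (h' : TaylorN_IsL l') : TaylorN_IsL (fun ξ => l ξ - l' ξ) := by
  obtain ⟨L, hL⟩ := h
  obtain ⟨L', hL'⟩ := h'
  refine ⟨fun a => L a - L' a, fun ξ => ?_⟩
  beta_reduce
  rw [hL, hL', ← Finset.sum_sub_distrib]
  exact Finset.sum_congr rfl fun a _ => by ring

theorem TaylorN_sq {ι : Type*} [Fintype ι] (c : ℂ) {l : (ι → ℝ) → ℂ} (h : TaylorN_IsL l) :
    TaylorN_IsQ (fun ξ => c * l ξ ^ 2) := by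
  obtain ⟨L, hL⟩ := h
  refine ⟨fun a b => c * (L a * L b), fun a b => by ring, fun ξ => ?_⟩
  beta_reduce
  rw [hL, sq, Finset.sum_mul_sum, Finset.mul_sum]
  refine Finset.sum_congr rfl fun a _ => ?_
  rw [Finset.mul_sum]
  exact Finset.sum_congr rfl fun b _ => by ring

theorem TaylorN_addQ {ι : Type*} [Fintype ι] {Q Q' : (ι → ℝ) → ℂ} (h : TaylorN_IsQ Q)
    (h' : TaylorN_IsQ Q') : TaylorN_IsQ (fun ξ => Q ξ + Q' ξ) := by
  obtain ⟨q, hs, hq⟩ := h
  obtain ⟨q', hs', hq'⟩ := h'
  refine ⟨fun a b => q a b + q' a b, fun a b => by beta_reduce; rw [hs, hs'], fun ξ => ?_⟩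
  beta_reduce
  rw [hq, hq', ← Finset.sum_add_distrib]
  refine Finset.sum_congr rfl fun a _ => ?_
  rw [← Finset.sum_add_distrib]
  exact Finset.sum_congr rfl fun b _ => by ring

theorem TaylorN_sumQ {ι κ : Type*} [Fintype ι] (s : Finset κ) {Q : κ → (ι → ℝ) → ℂ}
    (h : ∀ k, TaylorN_IsQ (Q k)) : TaylorN_IsQ (fun ξ => ∑ k ∈ s, Q k ξ) := by
  classical
  induction s using Finset.induction_on with
  | empty => exact ⟨fun _ _ => 0, fun _ _ => rfl, fun ξ => by simp⟩
  | insert k s hk ih =>
    have := TaylorN_addQ (h k) ih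
    simpa [Finset.sum_insert hk] using this

/-- The potential function as a sum over the vertices. -/
theorem TaylorN_VN {m : ℕ} (r : Fin (m + 1) → ℤ) (y : Fin m → ℂ) (v : Fin (m + 1) → ℂ) :
    VN r y v = ∑ j : Fin m, (4 * ff (y j + 1 / 2) - ff (y j - v j.castSucc) -
      ff (y j + v j.castSucc) - ff (y j - v j.succ) - ff (y j + v j.succ)) +
      ∑ i, 2 * Real.pi * I * (r i * v i ^ 2 + v i) := by
  have h1 : ∑ i, WN (r i) (ext y i.castSucc) (ext y i.succ) (v i) =
      ∑ i, 2 * Real.pi * I * (r i * v i ^ 2 + v i) +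
      ∑ i : Fin (m + 1), (po (ext y i.castSucc) (v i) + po (ext y i.succ) (v i)) := by
    rw [← Finset.sum_add_distrib]
    exact Finset.sum_congr rfl fun i _ => by unfold WN; ring
  rw [VN, h1, sum_slots y (fun i u => po u (v i)) (fun i => rfl)]
  have h2 : ∑ j : Fin m, (po (some (y j)) (v j.castSucc) + po (some (y j)) (v j.succ)) =
      ∑ j : Fin m, (- ff (y j - v j.castSucc) - ff (y j + v j.castSucc) - ff (y j - v j.succ) -
        ff (y j + v j.succ)) :=
    Finset.sum_congr rfl fun j _ => by simp only [po]; ring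
  rw [h2]
  have h3 : ∀ A B C : ℂ, A + (B + C) = (A + C) + B := fun A B C => by ring
  rw [h3, ← Finset.sum_add_distrib]
  congr 1
  exact Finset.sum_congr rfl fun j _ => by ring

/-- The critical equations tested against a direction. -/
theorem TaylorN_crit {m : ℕ} (r : Fin (m + 1) → ℤ) (y : Fin m → ℂ) (v : Fin (m + 1) → ℂ)
    (hc : CritN r y v) (x : Fin m → ℂ) (a : Fin (m + 1) → ℂ) :
    ∑ j : Fin m, (4 * (hh (y j + 1 / 2) * x j) -
      hh (y j - v j.castSucc) * (x j - a j.castSucc) -
      hh (y j + v j.castSucc) * (x j + a j.castSucc) -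
      hh (y j - v j.succ) * (x j - a j.succ) - hh (y j + v j.succ) * (x j + a j.succ)) +
      ∑ i, 2 * Real.pi * I * (2 * r i * v i + 1) * a i = 0 := by
  have h1 : ∑ i, a i * (2 * Real.pi * I * (2 * r i * v i + 1) + dpo (ext y i.castSucc) (v i) +
      dpo (ext y i.succ) (v i)) = 0 :=
    Finset.sum_eq_zero fun i _ => by rw [hc.ev, mul_zero]
  have h2 : ∑ i, a i * (2 * Real.pi * I * (2 * r i * v i + 1) + dpo (ext y i.castSucc) (v i) +
      dpo (ext y i.succ) (v i)) = ∑ i, 2 * Real.pi * I * (2 * r i * v i + 1) * a i +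
      ∑ i : Fin (m + 1), (a i * dpo (ext y i.castSucc) (v i) + a i * dpo (ext y i.succ) (v i)) := by
    rw [← Finset.sum_add_distrib]
    exact Finset.sum_congr rfl fun i _ => by ring
  rw [sum_slots y (fun i u => a i * dpo u (v i)) (fun i => by simp [dpo])] at h2
  rw [h2] at h1
  rw [add_comm, ← h1]
  congr 1
  refine Finset.sum_congr rfl fun j _ => ?_
  simp only [dpo]
  linear_combination x j * hc.ey j

theorem TaylorN_lin (z t : ℂ) (s : ℝ) : HasDerivAt (fun s : ℝ => z + s * t) t s := by
  have := Taylor2_comp (f := fun z => z) (f' := 1) (z := z) (t := t) (s := s)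
    (hasDerivAt_id _)
  simpa using this

theorem phiN_taylor {m : ℕ} (r : Fin (m + 1) → ℤ) (y : Fin m → ℂ) (v : Fin (m + 1) → ℂ)
    (hc : CritN r y v) : ∃ q : Fin m ⊕ Fin (m + 1) → Fin m ⊕ Fin (m + 1) → ℂ,
    (∀ a b, q a b = q b a) ∧
    (∀ ξ : Fin m ⊕ Fin (m + 1) → ℝ,
      1 / 10 * ∑ a, ξ a ^ 2 ≤ (∑ a, ∑ b, q a b * ξ a * ξ b).re) ∧
    ∀ ξ : Fin m ⊕ Fin (m + 1) → ℝ, Tendsto (fun M : ℕ =>
      (M : ℂ) * (phiN r y v (pN y v + (1 / Real.sqrt M) • ξ) - phiN r y v (pN y v))) atTop
      (𝓝 (-∑ a, ∑ b, q a b * ξ a * ξ b)) := by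
  obtain ⟨hly, hlv, -⟩ := crit_locN r y v hc
  have ly : ∀ j, -(6 / 1000) ≤ (y j).re - 1 / 4 ∧ (y j).re - 1 / 4 ≤ 6 / 1000 := fun j =>
    abs_le.1 (hly j).1
  have lv : ∀ i, -(53 / 1000) ≤ (v i).re ∧ (v i).re ≤ 53 / 1000 := fun i =>
    abs_le.1 (hlv i).1
  set F := Taylor2_F with hF
  -- the quadratic form
  let Q : (Fin m ⊕ Fin (m + 1) → ℝ) → ℂ := fun ξ =>
    ∑ j : Fin m, (-2 * F (y j + 1 / 2) * (ξ (Sum.inl j) : ℂ) ^ 2 +
      (1 / 2 * F (y j - v j.castSucc) * ((ξ (Sum.inl j) : ℂ) - ξ (Sum.inr j.castSucc)) ^ 2 +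
      (1 / 2 * F (y j + v j.castSucc) * ((ξ (Sum.inl j) : ℂ) + ξ (Sum.inr j.castSucc)) ^ 2 +
      (1 / 2 * F (y j - v j.succ) * ((ξ (Sum.inl j) : ℂ) - ξ (Sum.inr j.succ)) ^ 2 +
      1 / 2 * F (y j + v j.succ) * ((ξ (Sum.inl j) : ℂ) + ξ (Sum.inr j.succ)) ^ 2)))) +
    ∑ i : Fin (m + 1), -(2 * Real.pi * I * r i) * (ξ (Sum.inr i) : ℂ) ^ 2
  have hQ : TaylorN_IsQ Q := by
    refine TaylorN_addQ (TaylorN_sumQ _ fun j => ?_) (TaylorN_sumQ _ fun i => ?_)
    · refine TaylorN_addQ (TaylorN_sq _ (TaylorN_eval _)) (TaylorN_addQ (TaylorN_sq _ ?_)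
        (TaylorN_addQ (TaylorN_sq _ ?_) (TaylorN_addQ (TaylorN_sq _ ?_) (TaylorN_sq _ ?_))))
      · exact TaylorN_subL (TaylorN_eval _) (TaylorN_eval _)
      · exact TaylorN_addL (TaylorN_eval _) (TaylorN_eval _)
      · exact TaylorN_subL (TaylorN_eval _) (TaylorN_eval _)
      · exact TaylorN_addL (TaylorN_eval _) (TaylorN_eval _)
    · exact TaylorN_sq _ (TaylorN_eval _)
  have hphi : ∀ (ξ : Fin m ⊕ Fin (m + 1) → ℝ) (s : ℝ), phiN r y v (pN y v + s • ξ) =
      VN r (fun j => y j + s * ξ (Sum.inl j)) (fun i => v i + s * ξ (Sum.inr i)) := by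
    intro ξ s
    unfold phiN
    congr 1
    · funext j
      apply Complex.ext <;> simp [zy, pN]
    · funext i
      apply Complex.ext <;> simp [zv, pN]
  have hsm : ∀ ξ : Fin m ⊕ Fin (m + 1) → ℝ, ∀ᶠ s in 𝓝 (0 : ℝ), ∀ a, |s * ξ a| < 1 / 100 := by
    intro ξ
    rw [Filter.eventually_all]
    intro a
    have : Tendsto (fun s : ℝ => |s * ξ a|) (𝓝 0) (𝓝 (|0 * ξ a|)) := by
      apply Continuous.tendsto
      fun_prop
    rw [zero_mul, abs_zero] at this
    exact this.eventually (gt_mem_nhds (by norm_num))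
  -- the limit along a direction
  have main : ∀ ξ : Fin m ⊕ Fin (m + 1) → ℝ, Tendsto (fun s : ℝ =>
      (phiN r y v (pN y v + s • ξ) - phiN r y v (pN y v)) / (s : ℂ) ^ 2) (𝓝[≠] 0)
      (𝓝 (-Q ξ)) := by
    intro ξ
    set x : Fin m → ℂ := fun j => ξ (Sum.inl j) with hx
    set a : Fin (m + 1) → ℂ := fun i => ξ (Sum.inr i) with ha
    set Φ : ℝ → ℂ := fun s => VN r (fun j => y j + s * x j) (fun i => v i + s * a i) with hΦ
    set G : ℝ → ℂ := fun s => ∑ j : Fin m, (4 * (hh (y j + 1 / 2 + s * x j) * x j) -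
      hh (y j - v j.castSucc + s * (x j - a j.castSucc)) * (x j - a j.castSucc) -
      hh (y j + v j.castSucc + s * (x j + a j.castSucc)) * (x j + a j.castSucc) -
      hh (y j - v j.succ + s * (x j - a j.succ)) * (x j - a j.succ) -
      hh (y j + v j.succ + s * (x j + a j.succ)) * (x j + a j.succ)) +
      ∑ i, 2 * Real.pi * I * (2 * r i * (v i + s * a i) + 1) * a i with hG
    have hder : ∀ᶠ s in 𝓝 (0 : ℝ), HasDerivAt Φ (G s) s := by
      filter_upwards [hsm ξ] with s hs
      have e0 : Φ = fun s : ℝ => ∑ j : Fin m, (4 * ff (y j + 1 / 2 + s * x j) -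
          ff (y j - v j.castSucc + s * (x j - a j.castSucc)) -
          ff (y j + v j.castSucc + s * (x j + a j.castSucc)) -
          ff (y j - v j.succ + s * (x j - a j.succ)) -
          ff (y j + v j.succ + s * (x j + a j.succ))) +
          ∑ i, 2 * Real.pi * I * (r i * (v i + s * a i) ^ 2 + (v i + s * a i)) := by
        funext t
        simp only [hΦ]
        rw [TaylorN_VN]
        congr 1
        refine Finset.sum_congr rfl fun j _ => ?_
        have e1 : y j + t * x j + 1 / 2 = y j + 1 / 2 + t * x j := by ring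
        have e2 : y j + t * x j - (v j.castSucc + t * a j.castSucc) =
          y j - v j.castSucc + t * (x j - a j.castSucc) := by ring
        have e3 : y j + t * x j + (v j.castSucc + t * a j.castSucc) =
          y j + v j.castSucc + t * (x j + a j.castSucc) := by ring
        have e4 : y j + t * x j - (v j.succ + t * a j.succ) =
          y j - v j.succ + t * (x j - a j.succ) := by ring
        have e5 : y j + t * x j + (v j.succ + t * a j.succ) =
          y j + v j.succ + t * (x j + a j.succ) := by ring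
        rw [e1, e2, e3, e4, e5]
      rw [e0]
      refine HasDerivAt.add (HasDerivAt.fun_sum fun j _ => ?_) (HasDerivAt.fun_sum fun i _ => ?_)
      · have hx1 := abs_lt.1 (hs (Sum.inl j))
        have ha1 := abs_lt.1 (hs (Sum.inr j.castSucc))
        have ha2 := abs_lt.1 (hs (Sum.inr j.succ))
        have y1 := ly j
        have v1 := lv j.castSucc
        have v2 := lv j.succ
        have d1 := Taylor2_comp (s := s) (t := x j) (ff_hasDerivAt (y j + 1 / 2 + s * x j) (by
          simp [-one_div, hx]; linarith) (by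
          simp [-one_div, hx]; linarith))
        have d2 := Taylor2_comp (s := s) (t := x j - a j.castSucc)
          (ff_hasDerivAt (y j - v j.castSucc + s * (x j - a j.castSucc)) (by
          simp [-one_div, hx, ha]; linarith) (by
          simp [-one_div, hx, ha]; linarith))
        have d3 := Taylor2_comp (s := s) (t := x j + a j.castSucc)
          (ff_hasDerivAt (y j + v j.castSucc + s * (x j + a j.castSucc)) (by
          simp [-one_div, hx, ha]; linarith) (by
          simp [-one_div, hx, ha]; linarith))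
        have d4 := Taylor2_comp (s := s) (t := x j - a j.succ)
          (ff_hasDerivAt (y j - v j.succ + s * (x j - a j.succ)) (by
          simp [-one_div, hx, ha]; linarith) (by
          simp [-one_div, hx, ha]; linarith))
        have d5 := Taylor2_comp (s := s) (t := x j + a j.succ)
          (ff_hasDerivAt (y j + v j.succ + s * (x j + a j.succ)) (by
          simp [-one_div, hx, ha]; linarith) (by
          simp [-one_div, hx, ha]; linarith))
        exact ((((d1.const_mul 4).sub d2).sub d3).sub d4).sub d5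
      · have p1 := ((((TaylorN_lin (v i) (a i) s).pow 2).const_mul (r i : ℂ)).add
          (TaylorN_lin (v i) (a i) s)).const_mul (2 * Real.pi * I)
        refine p1.congr_deriv ?_
        push_cast
        ring
    have hG0 : G 0 = 0 := by
      simp only [hG, ofReal_zero, zero_mul, add_zero]
      exact TaylorN_crit r y v hc x a
    have hGd : HasDerivAt G (-2 * Q ξ) 0 := by
      have hQe : -2 * Q ξ = ∑ j : Fin m, (4 * (F (y j + 1 / 2) * x j * x j) -
          F (y j - v j.castSucc) * (x j - a j.castSucc) * (x j - a j.castSucc) -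
          F (y j + v j.castSucc) * (x j + a j.castSucc) * (x j + a j.castSucc) -
          F (y j - v j.succ) * (x j - a j.succ) * (x j - a j.succ) -
          F (y j + v j.succ) * (x j + a j.succ) * (x j + a j.succ)) +
          ∑ i, 2 * Real.pi * I * (2 * r i * a i) * a i := by
        simp only [Q]
        rw [mul_add, Finset.mul_sum, Finset.mul_sum]
        congr 1
        · refine Finset.sum_congr rfl fun j _ => ?_
          simp only [hx, ha]
          ring
        · refine Finset.sum_congr rfl fun i _ => ?_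
          simp only [ha]
          ring
      rw [hQe, hG]
      refine HasDerivAt.add (HasDerivAt.fun_sum fun j _ => ?_) (HasDerivAt.fun_sum fun i _ => ?_)
      · have y1 := ly j
        have v1 := lv j.castSucc
        have v2 := lv j.succ
        have k1 : HasDerivAt hh (F (y j + 1 / 2)) (y j + 1 / 2 + (0 : ℝ) * x j) := by
          have := hh_hasDerivAt (y j + 1 / 2) (by simp [-one_div]; linarith)
            (by simp [-one_div]; linarith)
          simpa [hF, Taylor2_F] using this
        have k2 : HasDerivAt hh (F (y j - v j.castSucc))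
            (y j - v j.castSucc + (0 : ℝ) * (x j - a j.castSucc)) := by
          have := hh_hasDerivAt (y j - v j.castSucc) (by simp; linarith)
            (by simp; linarith)
          simpa [hF, Taylor2_F] using this
        have k3 : HasDerivAt hh (F (y j + v j.castSucc))
            (y j + v j.castSucc + (0 : ℝ) * (x j + a j.castSucc)) := by
          have := hh_hasDerivAt (y j + v j.castSucc) (by simp; linarith)
            (by simp; linarith)
          simpa [hF, Taylor2_F] using this
        have k4 : HasDerivAt hh (F (y j - v j.succ))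
            (y j - v j.succ + (0 : ℝ) * (x j - a j.succ)) := by
          have := hh_hasDerivAt (y j - v j.succ) (by simp; linarith)
            (by simp; linarith)
          simpa [hF, Taylor2_F] using this
        have k5 : HasDerivAt hh (F (y j + v j.succ))
            (y j + v j.succ + (0 : ℝ) * (x j + a j.succ)) := by
          have := hh_hasDerivAt (y j + v j.succ) (by simp; linarith)
            (by simp; linarith)
          simpa [hF, Taylor2_F] using this
        have d1 := ((Taylor2_comp k1).mul_const (x j)).const_mul 4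
        have d2 := (Taylor2_comp k2).mul_const (x j - a j.castSucc)
        have d3 := (Taylor2_comp k3).mul_const (x j + a j.castSucc)
        have d4 := (Taylor2_comp k4).mul_const (x j - a j.succ)
        have d5 := (Taylor2_comp k5).mul_const (x j + a j.succ)
        exact (((d1.sub d2).sub d3).sub d4).sub d5
      · exact ((((TaylorN_lin (v i) (a i) 0).const_mul (2 * r i : ℂ)).add_const 1).const_mul
          (2 * Real.pi * I)).mul_const (a i)
    have hpe := Taylor2_peano hder hG0 hGd
    have e : (-2 * Q ξ) / 2 = -Q ξ := by ring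
    rw [e] at hpe
    refine hpe.congr ?_
    intro s
    rw [hphi]
    have h0 := hphi ξ 0
    rw [zero_smul, add_zero] at h0
    rw [h0]
  obtain ⟨q, hqs, hq⟩ := hQ
  refine ⟨q, hqs, ?_, ?_⟩
  · intro ξ
    rw [← hq]
    have hm := main ξ
    have hre := (Complex.continuous_re.tendsto _).comp hm
    have hle : ∀ᶠ s in 𝓝[≠] (0 : ℝ), (Complex.re ∘ fun s : ℝ =>
        (phiN r y v (pN y v + s • ξ) - phiN r y v (pN y v)) / (s : ℂ) ^ 2) s ≤
        -(1 / 10 * ∑ a, ξ a ^ 2) := by
      have hsm' := nhdsWithin_le_nhds (s := {0}ᶜ) (hsm ξ)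
      filter_upwards [hsm', self_mem_nhdsWithin] with s hs hs0
      have hs0' : s ≠ 0 := hs0
      have hcon := concN r y v hc (fun j => (y j).re + s * ξ (Sum.inl j))
        (fun i => (v i).re + s * ξ (Sum.inr i))
        (fun j => by
          have := ly j
          have h2 := abs_lt.1 (hs (Sum.inl j))
          rw [abs_le]; constructor <;> linarith)
        (fun i => by
          have := lv i
          have h2 := abs_lt.1 (hs (Sum.inr i))
          rw [abs_le]; constructor <;> linarith)
      have hp0 : phiN r y v (pN y v) = VN r y v := by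
        unfold phiN
        congr 1
        · funext j; apply Complex.ext <;> simp [zy, pN]
        · funext i; apply Complex.ext <;> simp [zv, pN]
      have hps : phiN r y v (pN y v + s • ξ) =
          VN r (fun j => (((y j).re + s * ξ (Sum.inl j) : ℝ) : ℂ) + (y j).im * I)
            (fun i => (((v i).re + s * ξ (Sum.inr i) : ℝ) : ℂ) + (v i).im * I) := by
        unfold phiN
        congr 1
      simp only [Function.comp]
      rw [hp0, hps]
      have hsq : ((s : ℂ) ^ 2) = ((s ^ 2 : ℝ) : ℂ) := by push_cast; rfl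
      rw [hsq, Complex.div_ofReal_re, Complex.sub_re]
      have hs2 : 0 < s ^ 2 := by positivity
      rw [div_le_iff₀ hs2]
      have hsum : ∑ j, ((y j).re + s * ξ (Sum.inl j) - (y j).re) ^ 2 +
          ∑ i, ((v i).re + s * ξ (Sum.inr i) - (v i).re) ^ 2 = s ^ 2 * ∑ a, ξ a ^ 2 := by
        rw [Fintype.sum_sum_type, mul_add, Finset.mul_sum, Finset.mul_sum]
        congr 1
        · exact Finset.sum_congr rfl fun j _ => by ring
        · exact Finset.sum_congr rfl fun j _ => by ring
      rw [hsum] at hcon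
      linarith [hcon]
    have hlim := le_of_tendsto hre hle
    simp only [Complex.neg_re] at hlim
    linarith
  · intro ξ
    rw [← hq]
    have hm := main ξ
    have hs : Tendsto (fun M : ℕ => 1 / Real.sqrt M) atTop (𝓝[≠] 0) := by
      rw [tendsto_nhdsWithin_iff]
      constructor
      · have h1 : Tendsto (fun M : ℕ => Real.sqrt (M : ℝ)) atTop atTop :=
          Real.tendsto_sqrt_atTop.comp tendsto_natCast_atTop_atTop
        have h2 := h1.inv_tendsto_atTop
        refine h2.congr ?_
        intro M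
        simp [one_div]
      · filter_upwards [eventually_gt_atTop 0] with M hM
        have : 0 < Real.sqrt (M : ℝ) := Real.sqrt_pos.mpr (by exact_mod_cast hM)
        simp only [Set.mem_compl_iff, Set.mem_singleton_iff]
        positivity
    refine (hm.comp hs).congr' ?_
    filter_upwards [eventually_gt_atTop 0] with M hM
    simp only [Function.comp]
    have hM' : (0 : ℝ) < M := by exact_mod_cast hM
    have e : (((1 / Real.sqrt M : ℝ) : ℂ)) ^ 2 = 1 / (M : ℂ) := by
      rw [← Complex.ofReal_pow, div_pow, one_pow, Real.sq_sqrt hM'.le]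
      push_cast
      rfl
    rw [e]
    have hMc : (M : ℂ) ≠ 0 := by exact_mod_cast hM.ne'
    field_simp

end Pool.Agent.H63.VC4
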