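import Pool.Agent.H63.VC3.StepDefs
import Pool.Agent.H63.VC4.GaussN
import Pool.Agent.H63.VC4.KBN
import Pool.Agent.H63.VC4.LaplaceN
import Pool.Agent.H63.VC4.TaylorN

/-! # The asymptotics of the main integral -/

namespace Pool.Agent.H63.VC4

open Pool.Agent.H63.VC Pool.Agent.H63.VC3 Complex Filter Topology
open scoped BigOperators

lemma MainN_ext_mem {α : Type*} {m : ℕ} (f : Fin m → α) (i : Fin (m + 2)) (a : α)
    (h : a ∈ ext f i) : ∃ j, a = f j := by
  revert h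
  refine Fin.cases ?_ (fun i => ?_) i
  · rw [ext_zero]
    intro h
    simp at h
  · refine Fin.lastCases ?_ (fun i => ?_) i
    · rw [ext_last_succ]
      intro h
      simp at h
    · rw [ext_mid]
      intro h
      exact ⟨i, (Option.mem_some_iff.1 h).symm⟩

lemma MainN_okS {m : ℕ} (y : Fin m → ℂ) (v : ℂ) (i : Fin (m + 2))
    (hy : ∀ j, |(y j).re - 1 / 4| ≤ 55 / 1000) (hv : |v.re| ≤ 15 / 100) : okS v (ext y i) := by
  intro w hw
  obtain ⟨j, rfl⟩ := MainN_ext_mem y i w hw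
  have h1 := abs_le.1 (hy j)
  have h2 := abs_le.1 hv
  rw [sub_re, add_re]
  refine ⟨by linarith, by linarith, by linarith, by linarith⟩

lemma MainN_ww_ne (n M : ℕ) (hM : 0 < M) (v : ℂ) (hv : 0 < v.im) : ww n M v ≠ 1 := by
  intro h
  have h1 := norm_ww n M v
  rw [h, norm_one] at h1
  have h2 : Real.exp (-(2 * Real.pi * M * v.im)) < 1 := by
    rw [Real.exp_lt_one_iff]
    have : (0 : ℝ) < M := by exact_mod_cast hM
    have := Real.pi_pos
    have : 0 < 2 * Real.pi * M * v.im := by positivity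
    linarith
  linarith

lemma MainN_mem {m : ℕ} {y1 y2 ρ : ℝ} {z : Fin m ⊕ Fin (m + 1) → ℝ} :
    z ∈ Bx m y1 y2 ρ ↔ (∀ j, y1 < z (Sum.inl j) ∧ z (Sum.inl j) ≤ y2) ∧
      ∀ i, -ρ < z (Sum.inr i) ∧ z (Sum.inr i) ≤ ρ := by
  unfold Bx
  rw [Set.mem_univ_pi]
  constructor
  · intro h
    exact ⟨fun j => h (Sum.inl j), fun i => h (Sum.inr i)⟩
  · rintro ⟨h1, h2⟩ (j | i)
    · exact h1 j
    · exact h2 i

lemma MainN_meas (m : ℕ) (y1 y2 ρ : ℝ) : MeasurableSet (Bx m y1 y2 ρ) := by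
  unfold Bx
  refine MeasurableSet.univ_pi fun i => ?_
  rcases i with j | i
  · exact measurableSet_Ioc
  · exact measurableSet_Ioc

lemma MainN_zy_re {m : ℕ} (Y0 : Fin m → ℝ) (z : Fin m ⊕ Fin (m + 1) → ℝ) (j : Fin m) :
    (zy Y0 z j).re = z (Sum.inl j) := by
  simp [zy]

lemma MainN_zy_im {m : ℕ} (Y0 : Fin m → ℝ) (z : Fin m ⊕ Fin (m + 1) → ℝ) (j : Fin m) :
    (zy Y0 z j).im = Y0 j := by
  simp [zy]

lemma MainN_zv_re {m : ℕ} (Y1 : Fin (m + 1) → ℝ) (z : Fin m ⊕ Fin (m + 1) → ℝ)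
    (i : Fin (m + 1)) : (zv Y1 z i).re = z (Sum.inr i) := by
  simp [zv]

lemma MainN_zv_im {m : ℕ} (Y1 : Fin (m + 1) → ℝ) (z : Fin m ⊕ Fin (m + 1) → ℝ)
    (i : Fin (m + 1)) : (zv Y1 z i).im = Y1 i := by
  simp [zv]

lemma MainN_cont {m : ℕ} (r : Fin (m + 1) → ℤ) (n g M : ℕ) (hg : 1 ≤ g) (hgn : g ≤ n - 1)
    (hM : 1000 * (n + 1) ≤ M) (Y0 : Fin m → ℝ) (Y1 : Fin (m + 1) → ℝ) (hY1 : ∀ i, 0 < Y1 i)
    (y1 y2 ρ : ℝ) (a1 : 1 / 4 - 55 / 1000 ≤ y1) (a4 : y2 ≤ 1 / 4 + 55 / 1000)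
    (hρ : ρ ≤ 150 / 1000) :
    ContinuousOn (fun z : Fin m ⊕ Fin (m + 1) → ℝ => GI r n g M (zy Y0 z) (zv Y1 z))
      (Bx m y1 y2 ρ) := by
  intro z hz
  apply ContinuousAt.continuousWithinAt
  obtain ⟨hz1, hz2⟩ := MainN_mem.1 hz
  have hMpos : 0 < M := by omega
  have hy : ∀ j, |(zy Y0 z j).re - 1 / 4| ≤ 55 / 1000 := by
    intro j
    rw [MainN_zy_re, abs_le]
    have := hz1 j
    constructor <;> linarith
  have hv : ∀ i, |(zv Y1 z i).re| ≤ 15 / 100 := by
    intro i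
    rw [MainN_zv_re, abs_le]
    have := hz2 i
    constructor <;> linarith
  have h1 := GI_continuousAt r n g M hg hgn hM (zy Y0 z) (zv Y1 z)
    (fun j => by
      have := abs_le.1 (hy j)
      constructor <;> linarith)
    (fun i => ⟨MainN_okS _ _ _ hy (hv i), MainN_okS _ _ _ hy (hv i)⟩)
    (fun i => MainN_ww_ne n M hMpos _ (by rw [MainN_zv_im]; exact hY1 i))
  have h2 : Continuous fun z : Fin m ⊕ Fin (m + 1) → ℝ => (zy Y0 z, zv Y1 z) := by
    refine Continuous.prodMk (continuous_pi fun j => ?_) (continuous_pi fun i => ?_)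
    · unfold zy
      fun_prop
    · unfold zv
      fun_prop
  exact ContinuousAt.comp (f := fun z : Fin m ⊕ Fin (m + 1) → ℝ => (zy Y0 z, zv Y1 z))
    (g := fun z : (Fin m → ℂ) × (Fin (m + 1) → ℂ) => GI r n g M z.1 z.2) h1 h2.continuousAt

theorem main_limN {m : ℕ} (hm : Even (m + 1)) (r : Fin (m + 1) → ℤ) (y : Fin m → ℂ)
    (v : Fin (m + 1) → ℂ) (hc : CritN r y v) (n g : ℕ) (hn : 2 ≤ n)
    (hg : 1 ≤ g) (hgn : g ≤ n - 1) (k1 k2 l1 l2 : ℕ → ℕ)
    (hw : ∀ᶠ M in atTop, Win n M (k1 M) (k2 M) (l1 M) (l2 M)) :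
    ∃ K : ℂ, K ≠ 0 ∧ Tendsto (fun M : ℕ => (((M : ℝ) ^ (m + 1 / 2 : ℝ) : ℝ) : ℂ) *
      ((M : ℂ) ^ (m + 1) / (M : ℂ) ^ (2 * m)) *
      exp (-M * VN r y v) * MI r n g M (fun j => (y j).im) (fun i => (v i).im)
      ((k1 M + bt n) / M - 1 / 2) ((k2 M + 1 + bt n) / M - 1 / 2) (rho n M (l2 M)))
      atTop (𝓝 K) := by
  obtain ⟨lY, lV, -⟩ := crit_locN r y v hc
  have hY1 : ∀ i, 0 < (v i).im ∧ (v i).im ≤ 1 / 50 := fun i =>
    ⟨hc.imv i, by linarith [(lV i).2.1]⟩
  obtain ⟨C, hC, M0, hGB⟩ := GI_bound r n g hg hgn (fun i => (v i).im) hY1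
  obtain ⟨q, hqs, hq, hT⟩ := phiN_taylor r y v hc
  have hre : ∀ j, |(y j).re - 1 / 4| ≤ 55 / 1000 := fun j => (lY j).1.trans (by norm_num)
  have hvr : ∀ i, |(v i).re| ≤ 15 / 100 := fun i => (lV i).1.trans (by norm_num)
  obtain ⟨L, hL0, hL⟩ := GI_lim hm r n g hn hg hgn y v
    (fun j => by
      have := abs_le.1 (hre j)
      constructor <;> linarith)
    (fun i => ⟨MainN_okS y (v i) _ hre (hvr i), MainN_okS y (v i) _ hre (hvr i)⟩) hc.imv
  set y1 : ℕ → ℝ := fun M => (k1 M + bt n) / M - 1 / 2 with hy1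
  set y2 : ℕ → ℝ := fun M => (k2 M + 1 + bt n) / M - 1 / 2 with hy2
  set ρ : ℕ → ℝ := fun M => rho n M (l2 M) with hρ
  have hzyp : zy (fun j => (y j).im) (pN y v) = y := by
    funext j
    simp [zy, pN, re_add_im]
  have hzvp : zv (fun i => (v i).im) (pN y v) = v := by
    funext i
    simp [zv, pN, re_add_im]
  have hphip : phiN r y v (pN y v) = VN r y v := by
    unfold phiN
    rw [hzyp, hzvp]
  obtain ⟨A, hAdef⟩ : ∃ A : ℕ → (Fin m ⊕ Fin (m + 1) → ℝ) → ℂ, A = fun M =>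
      (Bx m (y1 M) (y2 M) (ρ M)).indicator fun z =>
        GI r n g M (zy (fun j => (y j).im) z) (zv (fun i => (v i).im) z) *
          ((M : ℂ) ^ (m + 1) / (M : ℂ) ^ (2 * m)) * exp (-(M * phiN r y v z)) := ⟨_, rfl⟩
  have hfac : ∀ᶠ M : ℕ in atTop, 1 ≤ M ∧ M0 ≤ M ∧ 1000 * (n + 1) ≤ M ∧
      1 / 4 - 55 / 1000 ≤ y1 M ∧ y1 M ≤ 1 / 4 - 54 / 1000 ∧ 1 / 4 + 54 / 1000 ≤ y2 M ∧
      y2 M ≤ 1 / 4 + 55 / 1000 ∧ 149 / 1000 ≤ ρ M ∧ ρ M ≤ 150 / 1000 := by
    filter_upwards [hw, eventually_ge_atTop M0, eventually_ge_atTop 1] with M h1 h2 h3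
    exact ⟨h3, h2, h1.big, h1.a1, h1.a2, h1.a3, h1.a4, h1.b1, h1.b2⟩
  have hAexp : ∀ M, (fun z => A M z * exp (M * (phiN r y v z - phiN r y v (pN y v)))) =
      (Bx m (y1 M) (y2 M) (ρ M)).indicator (fun z =>
        ((M : ℂ) ^ (m + 1) / (M : ℂ) ^ (2 * m)) * exp (-M * VN r y v) *
        GI r n g M (zy (fun j => (y j).im) z) (zv (fun i => (v i).im) z)) := by
    intro M
    funext z
    rw [hAdef]
    simp only
    by_cases hz : z ∈ Bx m (y1 M) (y2 M) (ρ M)
    · rw [Set.indicator_of_mem hz, Set.indicator_of_mem hz, mul_assoc, ← exp_add, hphip]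
      have e : -((M : ℂ) * phiN r y v z) + M * (phiN r y v z - VN r y v) =
          -M * VN r y v := by ring
      rw [e]
      ring
    · rw [Set.indicator_of_notMem hz, Set.indicator_of_notMem hz, zero_mul]
  have hcard : ((Fintype.card (Fin m ⊕ Fin (m + 1)) : ℝ) / 2) = (m + 1 / 2 : ℝ) := by
    rw [Fintype.card_sum, Fintype.card_fin, Fintype.card_fin]
    push_cast
    ring
  have hlap := laplaceN (phiN r y v) (pN y v) A C (1 / 10) (by norm_num)
    (fun ξ => ∑ a, ∑ b, q a b * ξ a * ξ b) L ?_ ?_ ?_ ?_ hT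
  · refine ⟨L * ∫ ξ : Fin m ⊕ Fin (m + 1) → ℝ, exp (-∑ a, ∑ b, q a b * ξ a * ξ b),
      mul_ne_zero hL0 (gaussN_ne q hqs (1 / 10) (by norm_num) hq), ?_⟩
    rw [hcard] at hlap
    refine hlap.congr fun M => ?_
    rw [hAexp M, MeasureTheory.integral_indicator (MainN_meas _ _ _ _),
      MeasureTheory.integral_const_mul]
    unfold MI
    ring
  · filter_upwards [hfac] with M hM
    obtain ⟨-, -, b1, b2, b3, b4, b5, b6, b7⟩ := hM
    rw [hAexp M, aestronglyMeasurable_indicator_iff (MainN_meas _ _ _ _)]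
    exact (continuousOn_const.mul (MainN_cont r n g M hg hgn b1 _ _ (fun i => (hY1 i).1)
      (y1 M) (y2 M) (ρ M) b2 b5 b7)).aestronglyMeasurable (MainN_meas _ _ _ _)
  · filter_upwards [hfac] with M hM
    obtain ⟨b8, b9, b1, b2, b3, b4, b5, b6, b7⟩ := hM
    intro z
    rw [hAdef]
    simp only
    by_cases hz : z ∈ Bx m (y1 M) (y2 M) (ρ M)
    · rw [Set.indicator_of_mem hz, norm_mul, norm_mul, norm_exp]
      obtain ⟨c1, c2⟩ := MainN_mem.1 hz
      have e1 := hGB M b9 (zy (fun j => (y j).im) z) (fun i => z (Sum.inr i))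
        (fun j => by
          rw [MainN_zy_re, MainN_zy_im, abs_le]
          have := c1 j
          exact ⟨⟨by linarith, by linarith⟩, (lY j).2.trans (by norm_num)⟩)
        (fun i => by
          rw [abs_le]
          have := c2 i
          constructor <;> linarith)
      have e2 : (-((M : ℂ) * phiN r y v z)).re = -(M * (phiN r y v z).re) := by
        rw [neg_re, ← ofReal_natCast, re_ofReal_mul]
      have e4 : (fun i => ((z (Sum.inr i) : ℝ) : ℂ) + ((v i).im : ℝ) * I) =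
          zv (fun i => (v i).im) z := rfl
      rw [e4] at e1
      have hMr : (0 : ℝ) < M := by exact_mod_cast b8
      rw [e2, Real.exp_neg, norm_div, norm_pow, norm_pow, norm_natCast]
      have e3 : 0 < Real.exp (M * (phiN r y v z).re) := Real.exp_pos _
      rw [← div_eq_mul_inv, div_le_iff₀ e3]
      calc ‖GI r n g M (zy (fun j => (y j).im) z) (zv (fun i => (v i).im) z)‖ *
          ((M : ℝ) ^ (m + 1) / (M : ℝ) ^ (2 * m)) ≤
          (C * ((M : ℝ) ^ (2 * m) / (M : ℝ) ^ (m + 1)) *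
            Real.exp (M * (VN r (zy (fun j => (y j).im) z) (zv (fun i => (v i).im) z)).re)) *
          ((M : ℝ) ^ (m + 1) / (M : ℝ) ^ (2 * m)) := by
            gcongr
        _ = C * Real.exp (M * (phiN r y v z).re) := by
            unfold phiN
            field_simp
    · rw [Set.indicator_of_notMem hz, norm_zero]
      exact hC.le
  · filter_upwards [hfac] with M hM
    obtain ⟨b8, b9, b1, b2, b3, b4, b5, b6, b7⟩ := hM
    intro z hz
    have hz' : z ∈ Bx m (y1 M) (y2 M) (ρ M) := by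
      by_contra h
      rw [hAdef] at hz
      exact hz (Set.indicator_of_notMem h _)
    obtain ⟨c1, c2⟩ := MainN_mem.1 hz'
    have e1 := concN r y v hc (fun j => z (Sum.inl j)) (fun i => z (Sum.inr i))
      (fun j => by
        have := c1 j
        rw [abs_le]
        constructor <;> linarith)
      (fun i => by
        have := c2 i
        rw [abs_le]
        constructor <;> linarith)
    rw [sub_re, hphip, Fintype.sum_sum_type]
    have e2 : (phiN r y v z).re = (VN r (fun j => (z (Sum.inl j) : ℂ) + (y j).im * I)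
      (fun i => (z (Sum.inr i) : ℂ) + (v i).im * I)).re := rfl
    rw [e2]
    simp only [pN, Sum.elim_inl, Sum.elim_inr]
    linarith
  · intro ξ
    have hsq : Tendsto (fun M : ℕ => 1 / Real.sqrt M) atTop (𝓝 0) := by
      have h1 : Tendsto (fun M : ℕ => Real.sqrt (M : ℝ)) atTop atTop :=
        Real.tendsto_sqrt_atTop.comp tendsto_natCast_atTop_atTop
      refine h1.inv_tendsto_atTop.congr fun M => ?_
      simp only [Pi.inv_apply, one_div]
    have hzt : Tendsto (fun M : ℕ => pN y v + (1 / Real.sqrt M) • ξ) atTop (𝓝 (pN y v)) := by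
      have := (hsq.smul_const ξ).const_add (pN y v)
      simpa using this
    obtain ⟨Z, hZ⟩ : ∃ Z : ℕ → Fin m ⊕ Fin (m + 1) → ℝ,
        ∀ M, Z M = pN y v + (1 / Real.sqrt M) • ξ := ⟨_, fun _ => rfl⟩
    simp only [← hZ] at hzt ⊢
    have hz1 : ∀ j, Tendsto (fun M : ℕ => Z M (Sum.inl j)) atTop (𝓝 (y j).re) := by
      intro j
      have := (tendsto_pi_nhds.1 hzt) (Sum.inl j)
      simpa [pN] using this
    have hz2 : ∀ i, Tendsto (fun M : ℕ => Z M (Sum.inr i)) atTop (𝓝 (v i).re) := by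
      intro i
      have := (tendsto_pi_nhds.1 hzt) (Sum.inr i)
      simpa [pN] using this
    have hY : ∀ j, Tendsto (fun M : ℕ => zy (fun j => (y j).im) (Z M) j) atTop (𝓝 (y j)) := by
      intro j
      have := ((continuous_ofReal.tendsto _).comp (hz1 j)).add_const ((y j).im * I : ℂ)
      rw [re_add_im] at this
      exact this
    have hV : ∀ i, Tendsto (fun M : ℕ => zv (fun i => (v i).im) (Z M) i) atTop (𝓝 (v i)) := by
      intro i
      have := ((continuous_ofReal.tendsto _).comp (hz2 i)).add_const ((v i).im * I : ℂ)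
      rw [re_add_im] at this
      exact this
    have L5 := hL (fun M => zy (fun j => (y j).im) (Z M)) (fun M => zv (fun i => (v i).im) (Z M))
      hY hV (fun M i => MainN_zv_im _ _ _)
    refine L5.congr' ?_
    have ev1 : ∀ᶠ M in atTop, ∀ j,
        Z M (Sum.inl j) ∈ Set.Ioo (1 / 4 - 2 / 100 : ℝ) (1 / 4 + 2 / 100) := by
      rw [eventually_all]
      intro j
      have := abs_le.1 (lY j).1
      exact (hz1 j).eventually (Ioo_mem_nhds (by linarith) (by linarith))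
    have ev2 : ∀ᶠ M in atTop, ∀ i, Z M (Sum.inr i) ∈ Set.Ioo (-(1 / 10) : ℝ) (1 / 10) := by
      rw [eventually_all]
      intro i
      have := abs_le.1 (lV i).1
      exact (hz2 i).eventually (Ioo_mem_nhds (by linarith) (by linarith))
    filter_upwards [hfac, ev1, ev2] with M hM e1 e2
    obtain ⟨b8, b9, b1, b2, b3, b4, b5, b6, b7⟩ := hM
    have hmem : Z M ∈ Bx m (y1 M) (y2 M) (ρ M) := by
      rw [MainN_mem]
      exact ⟨fun j => ⟨by linarith [(e1 j).1], by linarith [(e1 j).2]⟩,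
        fun i => ⟨by linarith [(e2 i).1], by linarith [(e2 i).2]⟩⟩
    rw [hAdef]
    simp only
    rw [Set.indicator_of_mem hmem]
    unfold phiN
    rw [neg_mul]

end Pool.Agent.H63.VC4
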