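import Pool.Agent.H63.VC3.Defs

/-! # Positivity in the interior twist regions -/

namespace Pool.Agent.H63.VC4

open Pool.Agent.H63.VC Pool.Agent.H63.VC3 Complex
open scoped BigOperators

theorem PosInt_sinh_le {z : ℝ} (h0 : 0 ≤ z) (h1 : z ≤ 1) : Real.sinh z ≤ z + z ^ 2 := by
  have e1 := Real.abs_exp_sub_one_sub_id_le (x := z) (by rw [abs_of_nonneg h0]; exact h1)
  have e2 := Real.abs_exp_sub_one_sub_id_le (x := -z) (by rw [abs_neg, abs_of_nonneg h0]; exact h1)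
  rw [abs_le] at e1 e2
  rw [Real.sinh_eq]
  linarith [e1.1, e1.2, e2.1, e2.2, neg_sq z]

theorem PosInt_cosh_le {z : ℝ} (h0 : 0 ≤ z) (h1 : z ≤ 1) : Real.cosh z ≤ 1 + z ^ 2 := by
  have e1 := Real.abs_exp_sub_one_sub_id_le (x := z) (by rw [abs_of_nonneg h0]; exact h1)
  have e2 := Real.abs_exp_sub_one_sub_id_le (x := -z) (by rw [abs_neg, abs_of_nonneg h0]; exact h1)
  rw [abs_le] at e1 e2
  rw [Real.cosh_eq]
  linarith [e1.1, e1.2, e2.1, e2.2, neg_sq z]

theorem PosInt_abs_sinh (y : ℝ) : |Real.sinh y| = Real.sinh |y| := by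
  rcases le_total 0 y with h | h
  · rw [abs_of_nonneg h, abs_of_nonneg (Real.sinh_nonneg_iff.2 h)]
  · rw [abs_of_nonpos h, abs_of_nonpos (Real.sinh_nonpos_iff.2 h), Real.sinh_neg]

/-- size of `b1`, `b2` -/
theorem PosInt_b {P u v b1 b2 : ℝ} (hP : 20 ≤ P) (hu1 : 2 * P - 1 / 5 ≤ u) (hu2 : u ≤ 2 * P + 1 / 5)
    (hv1 : 9 / 5 ≤ v) (hv2 : v ≤ 11 / 5) (e1 : b1 * u + b2 * v = Real.pi) (e2 : b2 * u = b1 * v) :
    0 < b1 ∧ 0 < b2 ∧ b1 * (2 * P - 1 / 5) ≤ Real.pi ∧ b1 ≤ 0.08 ∧ b2 * (2 * P - 1 / 5) ≤ 11 / 5 * b1 ∧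
      b2 ≤ 0.005 ∧ 9 / 5 * b1 ≤ b2 * (2 * P + 1 / 5) := by
  have hpi1 := Real.pi_gt_d2
  have hpi2 := Real.pi_lt_d2
  have hu0 : 0 < u := by linarith
  have hv0 : 0 < v := by linarith
  have hb1 : 0 < b1 := by
    have h1 : b2 * v * u = b1 * v * v := by
      calc b2 * v * u = b2 * u * v := by ring
        _ = _ := by rw [e2]
    have h3 : b1 * (u ^ 2 + v ^ 2) = Real.pi * u := by
      rw [← e1]
      linear_combination -h1
    have h2 : 0 < b1 * (u ^ 2 + v ^ 2) := by rw [h3]; positivity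
    exact (mul_pos_iff_of_pos_right (by positivity)).1 h2
  have hb2 : 0 < b2 := by
    have : 0 < b2 * u := by rw [e2]; positivity
    exact (mul_pos_iff_of_pos_right hu0).1 this
  have hb1u : b1 * u ≤ Real.pi := by
    have : 0 < b2 * v := mul_pos hb2 hv0
    linarith
  have hb1' : b1 * (2 * P - 1 / 5) ≤ Real.pi := (mul_le_mul_of_nonneg_left hu1 hb1.le).trans hb1u
  have hb1s : b1 ≤ 0.08 := by
    have h1 : b1 * (2 * 20 - 1 / 5) ≤ b1 * (2 * P - 1 / 5) := mul_le_mul_of_nonneg_left (by linarith) hb1.le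
    linarith
  have hb2b : b2 * (2 * P - 1 / 5) ≤ 11 / 5 * b1 := by
    have h1 : b2 * (2 * P - 1 / 5) ≤ b2 * u := mul_le_mul_of_nonneg_left hu1 hb2.le
    have h2 : b1 * v ≤ b1 * (11 / 5) := mul_le_mul_of_nonneg_left hv2 hb1.le
    linarith
  have hb2s : b2 ≤ 0.005 := by
    have h1 : b2 * (2 * 20 - 1 / 5) ≤ b2 * (2 * P - 1 / 5) := mul_le_mul_of_nonneg_left (by linarith) hb2.le
    linarith
  have hb2l : 9 / 5 * b1 ≤ b2 * (2 * P + 1 / 5) := by
    have h1 : b2 * u ≤ b2 * (2 * P + 1 / 5) := mul_le_mul_of_nonneg_left hu2 hb2.le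
    have h2 : b1 * (9 / 5) ≤ b1 * v := mul_le_mul_of_nonneg_left hv1 hb1.le
    linarith
  exact ⟨hb1, hb2, hb1', hb1s, hb2b, hb2s, hb2l⟩

/-- size of `S1`, `S2` -/
theorem PosInt_S {b1 b2 : ℝ} (hb1 : 0 < b1) (hb2 : 0 < b2) (hb1s : b1 ≤ 0.08) (hb2s : b2 ≤ 0.005) :
    0.63 * b1 ≤ Real.sin b1 * Real.cosh b2 ∧ Real.sin b1 * Real.cosh b2 ≤ 1.1 * b1 ∧
    0.9 * b2 ≤ Real.cos b1 * Real.sinh b2 ∧ Real.cos b1 * Real.sinh b2 ≤ 1.1 * b2 := by
  have hpi1 := Real.pi_gt_d2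
  have hpi2 := Real.pi_lt_d2
  have hsin2 : Real.sin b1 ≤ b1 := Real.sin_le hb1.le
  have hsin3 : 2 / Real.pi * b1 ≤ Real.sin b1 := Real.mul_le_sin hb1.le (by linarith)
  have hsin4 : 0.63 * b1 ≤ Real.sin b1 := by
    refine le_trans ?_ hsin3
    apply mul_le_mul_of_nonneg_right _ hb1.le
    rw [le_div_iff₀ (by linarith)]
    linarith
  have hcos1 : 0.9 ≤ Real.cos b1 := by
    have := Real.one_sub_sq_div_two_le_cos (x := b1)
    nlinarith
  have hcos2 : Real.cos b1 ≤ 1 := Real.cos_le_one b1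
  have hch1 : 1 ≤ Real.cosh b2 := Real.one_le_cosh b2
  have hch2 : Real.cosh b2 ≤ 1.1 := by
    have := PosInt_cosh_le hb2.le (by linarith)
    nlinarith
  have hsh1 : b2 ≤ Real.sinh b2 := Real.self_le_sinh_iff.2 hb2.le
  have hsh2 : Real.sinh b2 ≤ 1.1 * b2 := by
    have := PosInt_sinh_le hb2.le (by linarith)
    nlinarith
  refine ⟨?_, ?_, ?_, ?_⟩
  · calc 0.63 * b1 ≤ Real.sin b1 := hsin4
      _ = Real.sin b1 * 1 := by ring
      _ ≤ _ := mul_le_mul_of_nonneg_left hch1 (by linarith)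
  · calc Real.sin b1 * Real.cosh b2 ≤ b1 * 1.1 := mul_le_mul hsin2 hch2 (by linarith) hb1.le
      _ = _ := by ring
  · exact mul_le_mul hcos1 hsh1 hb2.le (by linarith)
  · calc Real.cos b1 * Real.sinh b2 ≤ 1 * (1.1 * b2) := mul_le_mul hcos2 hsh2 (by linarith) (by norm_num)
      _ = _ := by ring

/-- bounds for `x` and `y` -/
theorem PosInt_xy {P b1 b2 t d1 d2 : ℝ} (hP : 20 ≤ P) (hb1 : 0 < b1) (hb2 : 0 < b2)
    (hb1' : b1 * (2 * P - 1 / 5) ≤ Real.pi) (hb1s : b1 ≤ 0.08) (hb2b : b2 * (2 * P - 1 / 5) ≤ 11 / 5 * b1)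
    (ht0 : 0 ≤ t) (htP : t ≤ P - 1) (hd1 : |d1| ≤ 1 / 10) (hd2 : |d2| ≤ 1 / 10) :
    b1 * (t - d2) - b2 * d1 ≤ b1 * (t + 1 / 10) + b2 * (1 / 10) ∧
    b1 * (t - 1 / 10) - b2 * (1 / 10) ≤ b1 * (t - d2) - b2 * d1 ∧
    -(b1 * (1 / 10)) + b2 * (t - 1 / 10) ≤ b1 * d1 + b2 * (t - d2) ∧
    |b1 * d1 + b2 * (t - d2)| ≤ 1.2 * b1 ∧
    0.79 * Real.pi ≤ (Real.pi / 2 - |b1 * (t - d2) - b2 * d1|) * (2 * P - 1 / 5) := by
  have hpi1 := Real.pi_gt_d2
  have hpi2 := Real.pi_lt_d2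
  have hd1' := abs_le.1 hd1
  have hd2' := abs_le.1 hd2
  have p1 := mul_le_mul_of_nonneg_left hd1'.1 hb1.le
  have p2 := mul_le_mul_of_nonneg_left hd1'.2 hb1.le
  have p3 := mul_le_mul_of_nonneg_left hd2'.1 hb1.le
  have p4 := mul_le_mul_of_nonneg_left hd2'.2 hb1.le
  have q1 := mul_le_mul_of_nonneg_left hd1'.1 hb2.le
  have q2 := mul_le_mul_of_nonneg_left hd1'.2 hb2.le
  have q3 := mul_le_mul_of_nonneg_left hd2'.1 hb2.le
  have q4 := mul_le_mul_of_nonneg_left hd2'.2 hb2.le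
  have t1 := mul_le_mul_of_nonneg_left htP hb1.le
  have t2 := mul_le_mul_of_nonneg_left htP hb2.le
  have t3 := mul_nonneg hb1.le ht0
  have t4 := mul_nonneg hb2.le ht0
  have p5 : b1 * 20 ≤ b1 * P := mul_le_mul_of_nonneg_left hP hb1.le
  have q5 : b2 * 20 ≤ b2 * P := mul_le_mul_of_nonneg_left hP hb2.le
  have hxabs : |b1 * (t - d2) - b2 * d1| ≤ b1 * (P - 9 / 10) + b2 * (1 / 10) := by
    rw [abs_le]
    constructor <;> linarith
  refine ⟨by linarith, by linarith, by linarith, ?_, ?_⟩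
  · rw [abs_le]
    constructor <;> linarith
  · have h1 : (b1 * (P - 9 / 10) + b2 * (1 / 10)) * (2 * P - 1 / 5) ≤ Real.pi * (P - 9 / 10) + 0.22 * b1 := by
      have a1 : (b1 * (2 * P - 1 / 5)) * (P - 9 / 10) ≤ Real.pi * (P - 9 / 10) :=
        mul_le_mul_of_nonneg_right hb1' (by linarith)
      linarith
    have h2 : |b1 * (t - d2) - b2 * d1| * (2 * P - 1 / 5) ≤ Real.pi * (P - 9 / 10) + 0.22 * b1 :=
      le_trans (mul_le_mul_of_nonneg_right hxabs (by linarith)) h1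
    linarith

/-- real part -/
theorem PosInt_re {P b1 b2 S1 S2 C sx sy cy : ℝ} (h2P : 0 < 2 * P - 1 / 5) (hb1 : 0 < b1)
    (hb1s : b1 ≤ 0.08) (hb2b : b2 * (2 * P - 1 / 5) ≤ 11 / 5 * b1) (hb2 : 0 < b2)
    (hS1l : 0.63 * b1 ≤ S1) (hS2u : S2 ≤ 1.1 * b2) (hS1p : 0 < S1) (hS2p : 0 < S2)
    (hcosx' : 1.58 ≤ C * (2 * P - 1 / 5)) (hcosp : 0 < C) (hCC : C ≤ C * cy)
    (hsx : |sx| ≤ 1) (hshy2 : |sy| ≤ 1.32 * b1) : 0 < S1 * (C * cy) - S2 * (sx * sy) := by
  have h1 : |sx * sy| ≤ 1 * (1.32 * b1) := by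
    rw [abs_mul]
    exact mul_le_mul hsx hshy2 (abs_nonneg _) (by norm_num)
  have h2 : S2 * (sx * sy) ≤ (1.1 * b2) * (1 * (1.32 * b1)) := by
    have h3 := mul_le_mul_of_nonneg_left (le_abs_self (sx * sy)) hS2p.le
    have h4 := mul_le_mul hS2u h1 (abs_nonneg _) (by linarith)
    exact h3.trans h4
  have h3 : 0.63 * b1 * C ≤ S1 * (C * cy) :=
    mul_le_mul hS1l hCC hcosp.le hS1p.le
  have h4 : 1.452 * b2 < 0.63 * C := by
    have : 1.452 * b2 * (2 * P - 1 / 5) < 0.63 * C * (2 * P - 1 / 5) := by linarith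
    exact lt_of_mul_lt_mul_right this h2P.le
  have h5 : b1 * (1.452 * b2) < b1 * (0.63 * C) := mul_lt_mul_of_pos_left h4 hb1
  linarith

/-- in the critical case `x` and `y` are small -/
theorem PosInt_small {P b1 b2 t d1 d2 x y : ℝ} (hP : 20 ≤ P) (hb1 : 0 < b1) (hb2 : 0 < b2)
    (hb1' : b1 * (2 * P - 1 / 5) ≤ Real.pi) (hb1s : b1 ≤ 0.08)
    (hb2b : b2 * (2 * P - 1 / 5) ≤ 11 / 5 * b1) (hb2l : 9 / 5 * b1 ≤ b2 * (2 * P + 1 / 5))
    (ht : t = 0 ∨ 1 ≤ t) (hd1 : |d1| ≤ 1 / 10) (hd2 : |d2| ≤ 1 / 10)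
    (hx : x = b1 * (t - d2) - b2 * d1) (hy : y = b1 * d1 + b2 * (t - d2))
    (hxu : x ≤ b1 * (t + 1 / 10) + b2 * (1 / 10)) (hxl : b1 * (t - 1 / 10) - b2 * (1 / 10) ≤ x)
    (hyl : -(b1 * (1 / 10)) + b2 * (t - 1 / 10) ≤ y) (hxpi : |x| < Real.pi / 2)
    (hsgn : Real.sin x * Real.sinh y < 0) : |x| ≤ 0.2 ∧ |y| ≤ 0.11 * b1 := by
  have hpi1 := Real.pi_gt_d2
  have hpi2 := Real.pi_lt_d2
  have q6 : b2 * 20 ≤ b2 * P := mul_le_mul_of_nonneg_left hP hb2.le
  have q5 : b2 ≤ 0.1 * b1 := by linarith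
  rcases ht with h | h
  · subst h
    have hd1' := abs_le.1 hd1
    have hd2' := abs_le.1 hd2
    have p1 := mul_le_mul_of_nonneg_left hd1'.1 hb1.le
    have p2 := mul_le_mul_of_nonneg_left hd1'.2 hb1.le
    have p3 := mul_le_mul_of_nonneg_left hd2'.1 hb1.le
    have p4 := mul_le_mul_of_nonneg_left hd2'.2 hb1.le
    have q1 := mul_le_mul_of_nonneg_left hd1'.1 hb2.le
    have q2 := mul_le_mul_of_nonneg_left hd1'.2 hb2.le
    have q3 := mul_le_mul_of_nonneg_left hd2'.1 hb2.le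
    have q4 := mul_le_mul_of_nonneg_left hd2'.2 hb2.le
    rw [abs_le, abs_le, hx, hy]
    refine ⟨⟨by linarith, by linarith⟩, ⟨by linarith, by linarith⟩⟩
  · have hx0 : 0 < x := by
      have p1 : b1 * 1 ≤ b1 * t := mul_le_mul_of_nonneg_left h hb1.le
      linarith
    have hsin0 : 0 ≤ Real.sin x := Real.sin_nonneg_of_nonneg_of_le_pi hx0.le (by
      have := le_abs_self x; linarith)
    have hy0 : y < 0 := by
      by_contra hc
      push Not at hc
      have := mul_nonneg hsin0 (Real.sinh_nonneg_iff.2 hc)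
      linarith
    -- b2 (t - 1/10) < b1/10
    have h5 : b2 * (t - 1 / 10) < b1 * (1 / 10) := by linarith
    -- t small
    have h6 : t - 1 / 10 ≤ (2 * P + 1 / 5) / 18 := by
      by_contra hc
      push Not at hc
      have h7 : b2 * ((2 * P + 1 / 5) / 18) < b2 * (t - 1 / 10) := mul_lt_mul_of_pos_left hc hb2
      linarith
    have h8 : b1 * (t - 1 / 10) ≤ b1 * ((2 * P + 1 / 5) / 18) := mul_le_mul_of_nonneg_left h6 hb1.le
    rw [abs_of_pos hx0, abs_of_neg hy0]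
    have q8 : b2 * 1 ≤ b2 * t := mul_le_mul_of_nonneg_left h hb2.le
    constructor
    · linarith
    · linarith

/-- The real inequalities. -/
theorem PosInt_core {P u v b1 b2 t d1 d2 : ℝ} (hP : 20 ≤ P) (hu1 : 2 * P - 1 / 5 ≤ u) (hu2 : u ≤ 2 * P + 1 / 5)
    (hv1 : 9 / 5 ≤ v) (hv2 : v ≤ 11 / 5) (e1 : b1 * u + b2 * v = Real.pi) (e2 : b2 * u = b1 * v)
    (ht : t = 0 ∨ 1 ≤ t) (htP : t ≤ P - 1) (hd1 : |d1| ≤ 1 / 10) (hd2 : |d2| ≤ 1 / 10) {x y : ℝ}
    (hx : x = b1 * (t - d2) - b2 * d1) (hy : y = b1 * d1 + b2 * (t - d2)) :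
    0 < (Real.sin b1 * Real.cosh b2) * (Real.sin x * Real.sinh y)
        + (Real.cos b1 * Real.sinh b2) * (Real.cos x * Real.cosh y) ∧
    0 < (Real.sin b1 * Real.cosh b2) * (Real.cos x * Real.cosh y)
        - (Real.cos b1 * Real.sinh b2) * (Real.sin x * Real.sinh y) := by
  have hpi1 := Real.pi_gt_d2
  have hpi2 := Real.pi_lt_d2
  obtain ⟨hb1, hb2, hb1', hb1s, hb2b, hb2s, hb2l⟩ := PosInt_b hP hu1 hu2 hv1 hv2 e1 e2
  obtain ⟨hS1l, hS1u, hS2l, hS2u⟩ := PosInt_S hb1 hb2 hb1s hb2s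
  have ht0 : 0 ≤ t := by rcases ht with h | h <;> linarith
  obtain ⟨hxu, hxl, hyl, hyabs, hxpi⟩ := PosInt_xy hP hb1 hb2 hb1' hb1s hb2b ht0 htP hd1 hd2
  rw [← hx] at hxu hxl hxpi
  rw [← hy] at hyl hyabs
  set S1 := Real.sin b1 * Real.cosh b2
  set S2 := Real.cos b1 * Real.sinh b2
  have hS1p : 0 < S1 := by linarith
  have hS2p : 0 < S2 := by linarith
  have h2P : 0 < 2 * P - 1 / 5 := by linarith
  have hxlt : 0 < Real.pi / 2 - |x| := by
    have : 0 < (Real.pi / 2 - |x|) * (2 * P - 1 / 5) := by linarith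
    exact (mul_pos_iff_of_pos_right h2P).1 this
  have hcosx : 2 / Real.pi * (Real.pi / 2 - |x|) ≤ Real.cos x := by
    have h1 := Real.mul_le_sin (x := Real.pi / 2 - |x|) hxlt.le (by linarith [abs_nonneg x])
    rw [Real.sin_pi_div_two_sub, Real.cos_abs] at h1
    exact h1
  have hcosx' : 1.58 ≤ Real.cos x * (2 * P - 1 / 5) := by
    have h1 : 2 / Real.pi * (Real.pi / 2 - |x|) * (2 * P - 1 / 5) ≤ Real.cos x * (2 * P - 1 / 5) :=
      mul_le_mul_of_nonneg_right hcosx h2P.le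
    refine le_trans ?_ h1
    have h2 : 2 / Real.pi * (Real.pi / 2 - |x|) * (2 * P - 1 / 5)
        = 2 / Real.pi * ((Real.pi / 2 - |x|) * (2 * P - 1 / 5)) := by ring
    rw [h2]
    have h3 : 2 / Real.pi * (0.79 * Real.pi) ≤ 2 / Real.pi * ((Real.pi / 2 - |x|) * (2 * P - 1 / 5)) :=
      mul_le_mul_of_nonneg_left hxpi (by positivity)
    refine le_trans (le_of_eq ?_) h3
    have : Real.pi ≠ 0 := Real.pi_ne_zero
    field_simp
    norm_num
  have hcosp : 0 < Real.cos x := by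
    have : 0 < Real.cos x * (2 * P - 1 / 5) := by linarith
    exact (mul_pos_iff_of_pos_right h2P).1 this
  have hchy : 1 ≤ Real.cosh y := Real.one_le_cosh y
  have hshy : |Real.sinh y| ≤ 1.1 * |y| := by
    rw [PosInt_abs_sinh]
    have h1 := PosInt_sinh_le (abs_nonneg y) (by linarith)
    have h2 : |y| * |y| ≤ |y| * 0.1 := mul_le_mul_of_nonneg_left (by linarith) (abs_nonneg y)
    linarith [sq |y|]
  have hshy2 : |Real.sinh y| ≤ 1.32 * b1 := by linarith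
  have hsx := Real.abs_sin_le_one x
  have hCC : Real.cos x ≤ Real.cos x * Real.cosh y := le_mul_of_one_le_right hcosp.le hchy
  constructor
  · -- imaginary part
    have hmain : -(S2 * (Real.cos x * Real.cosh y)) < S1 * (Real.sin x * Real.sinh y) := by
      by_cases hsgn : 0 ≤ Real.sin x * Real.sinh y
      · have h3 : 0 < S2 * (Real.cos x * Real.cosh y) := mul_pos hS2p (by linarith)
        have h4 : 0 ≤ S1 * (Real.sin x * Real.sinh y) := mul_nonneg hS1p.le hsgn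
        linarith
      · -- then |x| is small and |y| is small
        push Not at hsgn
        have hsmall : |x| ≤ 0.2 ∧ |y| ≤ 0.11 * b1 :=
          PosInt_small hP hb1 hb2 hb1' hb1s hb2b hb2l ht hd1 hd2 hx hy hxu hxl hyl (by linarith) hsgn
        obtain ⟨hxs, hys⟩ := hsmall
        have h1 : |Real.sin x| ≤ 0.2 := by
          have h2 := Real.abs_sin_le_abs (x := x)
          linarith
        have h2 : |Real.sin x * Real.sinh y| ≤ 0.2 * (0.121 * b1) := by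
          rw [abs_mul]
          exact mul_le_mul h1 (by linarith) (abs_nonneg _) (by norm_num)
        have h3 : S1 * |Real.sin x * Real.sinh y| ≤ (1.1 * b1) * (0.2 * (0.121 * b1)) :=
          mul_le_mul hS1u h2 (abs_nonneg _) (by linarith)
        have h4 : -(S1 * |Real.sin x * Real.sinh y|) ≤ S1 * (Real.sin x * Real.sinh y) := by
          have := mul_le_mul_of_nonneg_left (neg_abs_le (Real.sin x * Real.sinh y)) hS1p.le
          linarith
        have h5 : 0.9 ≤ Real.cos x := by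
          have h6 := Real.one_sub_sq_div_two_le_cos (x := x)
          have h7 : x ^ 2 ≤ 0.2 ^ 2 := by
            rw [← sq_abs]
            exact pow_le_pow_left₀ (abs_nonneg x) hxs 2
          linarith
        have h6 : 0.81 * b2 ≤ S2 * (Real.cos x * Real.cosh y) := by
          have := mul_le_mul hS2l (h5.trans hCC) (by norm_num) hS2p.le
          linarith
        -- compare: 0.0267 b1^2 < 0.81 b2
        have h7 : b1 * b1 * (2 * P - 1 / 5) ≤ b1 * Real.pi := by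
          have := mul_le_mul_of_nonneg_left hb1' hb1.le
          linarith
        have h8 : 0.02662 * (b1 * b1) < 0.81 * b2 := by
          have h9 : 0.02662 * (b1 * b1) * (2 * P + 1 / 5) < 0.81 * b2 * (2 * P + 1 / 5) := by
            have h10 : b1 * b1 * 20 ≤ b1 * b1 * P := mul_le_mul_of_nonneg_left hP (by positivity)
            have h11 : b1 * Real.pi ≤ b1 * 3.15 := mul_le_mul_of_nonneg_left hpi2.le hb1.le
            linarith
          exact lt_of_mul_lt_mul_right h9 (by linarith)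
        linarith
    linarith
  · -- real part
    exact PosInt_re h2P hb1 hb1s hb2b hb2 hS1l hS2u hS1p hS2p hcosx' hcosp hCC hsx hshy2

theorem pos_int (p : ℕ) (hp : 20 ≤ p) (a e e' : ℂ) (he : ‖e‖ ≤ 1 / 10) (he' : ‖e'‖ ≤ 1 / 10)
    (h : a * (2 * p - I * (2 + e + e')) = 2 * Real.pi) (k : ℕ) (hk : 1 ≤ k) (hk' : k + 1 ≤ 2 * p) :
    0 < (sin (a / 2) ^ 2 / sin (k * (a / 2) - I * a * (1 + e) / 2) ^ 2).im := by
  set d : ℂ := (e' - e) / 2 with hd
  have hdn : ‖d‖ ≤ 1 / 10 := by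
    rw [hd, norm_div]
    have := norm_sub_le e' e
    rw [Complex.norm_ofNat]
    linarith
  have hre := Complex.abs_re_le_norm
  have him := Complex.abs_im_le_norm
  have her := abs_le.1 ((hre e).trans he)
  have hei := abs_le.1 ((him e).trans he)
  have her' := abs_le.1 ((hre e').trans he')
  have hei' := abs_le.1 ((him e').trans he')
  have hh1 := congrArg Complex.re h
  have hh2 := congrArg Complex.im h
  simp at hh1 hh2
  have hPr : (20 : ℝ) ≤ p := by exact_mod_cast hp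
  have hsin : sin (k * (a / 2) - I * a * (1 + e) / 2) = cos (a / 2 * (((k : ℂ) - p) + I * d)) := by
    have h1 : (k * (a / 2) - I * a * (1 + e) / 2) = a / 2 * (((k : ℂ) - p) + I * d) + Real.pi / 2 := by
      rw [hd]
      linear_combination (1 / 4 : ℂ) * h
    rw [h1, Complex.sin_add_pi_div_two]
  rw [hsin]
  -- choose the sign
  obtain ⟨t, d', ht, htP, hd'n, hcos⟩ : ∃ (t : ℝ) (d' : ℂ), (t = 0 ∨ 1 ≤ t) ∧ t ≤ p - 1 ∧ ‖d'‖ ≤ 1 / 10 ∧
      cos (a / 2 * (((k : ℂ) - p) + I * d)) = cos (a / 2 * ((t : ℂ) + I * d')) := by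
    have hk1 : (1 : ℝ) ≤ k := by exact_mod_cast hk
    have hk2 : (k : ℝ) + 1 ≤ 2 * p := by exact_mod_cast hk'
    rcases le_or_gt p k with hkp | hkp
    · refine ⟨(k : ℝ) - p, d, ?_, by linarith, hdn, by push_cast; rfl⟩
      rcases Nat.eq_or_lt_of_le hkp with h1 | h1
      · left; rw [h1]; simp
      · right
        have : (p : ℝ) + 1 ≤ k := by exact_mod_cast h1
        linarith
    · refine ⟨(p : ℝ) - k, -d, ?_, by linarith, by rw [norm_neg]; exact hdn, ?_⟩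
      · right
        have : (k : ℝ) + 1 ≤ p := by exact_mod_cast hkp
        linarith
      · rw [← Complex.cos_neg]
        congr 1
        push_cast
        ring
  rw [hcos]
  have hd1 := (hre d').trans hd'n
  have hd2 := (him d').trans hd'n
  have core := PosInt_core (P := p) (u := 2 * p + (e.im + e'.im)) (v := 2 + (e.re + e'.re))
    (b1 := a.re / 2) (b2 := a.im / 2) (t := t) (d1 := d'.re) (d2 := d'.im)
    hPr (by linarith) (by linarith) (by linarith) (by linarith) (by linarith) (by linarith) ht htP hd1 hd2 rfl rfl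
  set x := a.re / 2 * (t - d'.im) - a.im / 2 * d'.re with hx
  set y := a.re / 2 * d'.re + a.im / 2 * (t - d'.im) with hy
  have hw : a / 2 * ((t : ℂ) + I * d') = (x : ℂ) + (y : ℂ) * I := by
    have e1 : a / 2 * ((t : ℂ) + I * d') = ((a.re : ℂ) + a.im * I) / 2 * ((t : ℂ) + I * ((d'.re : ℂ) + d'.im * I)) := by
      rw [Complex.re_add_im, Complex.re_add_im]
    rw [e1, hx, hy]
    push_cast
    linear_combination (((a.re : ℂ) / 2 + a.im / 2 * I) * d'.im + a.im / 2 * d'.re) * Complex.I_sq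
  have ha2 : a / 2 = ((a.re / 2 : ℝ) : ℂ) + ((a.im / 2 : ℝ) : ℂ) * I := by
    apply Complex.ext <;> simp
  have hC : cos (a / 2 * ((t : ℂ) + I * d')) = ((Real.cos x * Real.cosh y : ℝ) : ℂ) - ((Real.sin x * Real.sinh y : ℝ) : ℂ) * I := by
    rw [hw, Complex.cos_add_mul_I]
    push_cast
    ring
  have hS : sin (a / 2) = ((Real.sin (a.re / 2) * Real.cosh (a.im / 2) : ℝ) : ℂ)
      + ((Real.cos (a.re / 2) * Real.sinh (a.im / 2) : ℝ) : ℂ) * I := by
    rw [ha2, Complex.sin_add_mul_I]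
    push_cast
    ring
  rw [hC, hS]
  generalize Real.sin (a.re / 2) * Real.cosh (a.im / 2) = S1 at core ⊢
  generalize Real.cos (a.re / 2) * Real.sinh (a.im / 2) = S2 at core ⊢
  generalize Real.sin x * Real.sinh y = U at core ⊢
  generalize Real.cos x * Real.cosh y = V at core ⊢
  obtain ⟨c1, c2⟩ := core
  have hN : 0 < V ^ 2 + U ^ 2 := by
    rcases eq_or_ne V 0 with h1 | h1
    · rcases eq_or_ne U 0 with h2 | h2
      · rw [h1, h2] at c1; simp at c1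
      · positivity
    · positivity
  have hne : ((V : ℂ) - (U : ℂ) * I) ≠ 0 := by
    intro h0
    have h1 := congrArg Complex.re h0
    have h2 := congrArg Complex.im h0
    simp at h1 h2
    rw [h1, h2] at hN
    simp at hN
  have hq : ((S1 : ℂ) + (S2 : ℂ) * I) / ((V : ℂ) - (U : ℂ) * I)
      = (((S1 * V - S2 * U) / (V ^ 2 + U ^ 2) : ℝ) : ℂ) + (((S1 * U + S2 * V) / (V ^ 2 + U ^ 2) : ℝ) : ℂ) * I := by
    rw [div_eq_iff hne]
    have hN' : ((V : ℂ) ^ 2 + (U : ℂ) ^ 2) ≠ 0 := by exact_mod_cast hN.ne'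
    push_cast
    field_simp
    ring_nf
    simp only [Complex.I_sq]
    ring
  rw [← div_pow, hq]
  have e : ∀ q r : ℝ, (((q : ℂ) + (r : ℂ) * I) ^ 2).im = 2 * q * r := by
    intro q r
    rw [sq]
    simp
    ring
  rw [e]
  have h1 : 0 < (S1 * V - S2 * U) / (V ^ 2 + U ^ 2) := div_pos c2 hN
  have h2 : 0 < (S1 * U + S2 * V) / (V ^ 2 + U ^ 2) := div_pos c1 hN
  positivity

end Pool.Agent.H63.VC4
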