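import Pool.Agent.H63.VC3.CritA
import Pool.Agent.H63.VC3.Pos
import Pool.Agent.H63.VC4.FanRel
import Pool.Agent.H63.VC4.PosInt
import Pool.Agent.H63.VC4.RegCrit

/-! # Positivity of the shape parameters -/

namespace Pool.Agent.H63.VC4

open Pool.Agent.H63.VC Pool.Agent.H63.VC3 Complex
open scoped BigOperators

theorem PosReg_w {p : ℕ} {w : ℂ} (P : ℝ) (hP : 0 < P) (hp : P ≤ p)
    (hbd : ‖w - 1 / (2 * p)‖ ≤ 6 / (10 * (p : ℝ) ^ 2)) :
    ‖w‖ ≤ 1 / (2 * P) + 6 / (10 * P ^ 2) := by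
  have hp0 : (0 : ℝ) < p := hP.trans_le hp
  have e : w = (w - 1 / (2 * p)) + 1 / (2 * p) := by ring
  have n1 : ‖(1 : ℂ) / (2 * p)‖ = 1 / (2 * (p : ℝ)) := by
    rw [norm_div, norm_mul, norm_one, Complex.norm_two, Complex.norm_natCast]
  have h1 : 1 / (2 * (p : ℝ)) ≤ 1 / (2 * P) := by gcongr
  have h2 : 6 / (10 * (p : ℝ) ^ 2) ≤ 6 / (10 * P ^ 2) := by gcongr
  rw [e]
  refine (norm_add_le _ _).trans ?_
  rw [n1]
  linarith

theorem PosReg_F (x : ℂ) (hx : ‖x‖ ≤ 27 / 1000) :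
    ‖CritA_F (1 / 4 - x) + CritA_F (1 / 4 + x) - 2 * Real.pi‖ ≤ 1 / 10 := by
  set θ : ℂ := Real.pi * x with hθ
  have hn : ‖2 * θ‖ ≤ 17 / 100 := by
    rw [norm_mul, hθ, CritA_norm_pi, Complex.norm_two]
    have := Real.pi_lt_d4
    have h0 := norm_nonneg x
    nlinarith [Real.pi_pos]
  have hc := CritA_cos_le (hn.trans (by norm_num))
  have hc' : ‖cos (2 * θ) - 1‖ ≤ 146 / 10000 := by
    refine hc.trans ?_
    have h0 := norm_nonneg (2 * θ)
    have a2 : ‖2 * θ‖ ^ 2 ≤ (17 / 100) ^ 2 := by gcongr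
    have a4 : ‖2 * θ‖ ^ 4 ≤ (17 / 100) ^ 4 := by gcongr
    norm_num at a2 a4 ⊢
    linarith
  have hl : 98 / 100 ≤ ‖cos (2 * θ)‖ := by
    have : (1 : ℂ) = cos (2 * θ) - (cos (2 * θ) - 1) := by ring
    have h1 : ‖(1 : ℂ)‖ ≤ ‖cos (2 * θ)‖ + ‖cos (2 * θ) - 1‖ := by
      conv_lhs => rw [this]
      exact norm_sub_le _ _
    rw [norm_one] at h1
    linarith
  have hcne : cos (2 * θ) ≠ 0 := by
    intro h
    rw [h, norm_zero] at hl
    norm_num at hl
  have e2 : cos (2 * θ) = (cos θ + sin θ) * (cos θ - sin θ) := by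
    rw [Complex.cos_two_mul]
    linear_combination Complex.sin_sq_add_cos_sq θ
  have hp0 : cos θ + sin θ ≠ 0 := by
    intro h
    apply hcne
    rw [e2, h, zero_mul]
  have hm0 : cos θ - sin θ ≠ 0 := by
    intro h
    apply hcne
    rw [e2, h, mul_zero]
  have hq0 : ((Real.sqrt 2 / 2 : ℝ) : ℂ) ≠ 0 := by
    have : (0 : ℝ) < Real.sqrt 2 / 2 := by positivity
    exact_mod_cast this.ne'
  have f1 : CritA_F (1 / 4 - x) = Real.pi * ((cos θ + sin θ) / (cos θ - sin θ)) := by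
    unfold CritA_F
    have e1 : (Real.pi : ℂ) * (1 / 4 - x) = ((Real.pi / 4 : ℝ) : ℂ) - θ := by
      rw [hθ]; push_cast; ring
    rw [Complex.cot, e1, Complex.sin_sub, Complex.cos_sub, ← Complex.ofReal_sin,
      ← Complex.ofReal_cos, Real.sin_pi_div_four, Real.cos_pi_div_four]
    rw [← mul_add, ← mul_sub, mul_div_mul_left _ _ hq0]
  have f2 : CritA_F (1 / 4 + x) = Real.pi * ((cos θ - sin θ) / (cos θ + sin θ)) := by
    unfold CritA_F
    have e1 : (Real.pi : ℂ) * (1 / 4 + x) = ((Real.pi / 4 : ℝ) : ℂ) + θ := by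
      rw [hθ]; push_cast; ring
    rw [Complex.cot, e1, Complex.sin_add, Complex.cos_add, ← Complex.ofReal_sin,
      ← Complex.ofReal_cos, Real.sin_pi_div_four, Real.cos_pi_div_four]
    rw [← mul_add, ← mul_sub, mul_div_mul_left _ _ hq0]
  have e3 : CritA_F (1 / 4 - x) + CritA_F (1 / 4 + x) - 2 * Real.pi =
      Real.pi * (2 * ((1 - cos (2 * θ)) / cos (2 * θ))) := by
    rw [f1, f2, e2]
    have hsc := Complex.sin_sq_add_cos_sq θ
    field_simp
    linear_combination (2 : ℂ) * hsc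
  rw [e3, CritA_norm_pi, norm_mul, norm_div, Complex.norm_two]
  have h5 : ‖1 - cos (2 * θ)‖ ≤ 146 / 10000 := by rwa [norm_sub_rev]
  have h6 : ‖1 - cos (2 * θ)‖ / ‖cos (2 * θ)‖ ≤ 15 / 1000 := by
    rw [div_le_iff₀ (by linarith)]
    linarith
  have h7 := Real.pi_lt_d4
  have h8 : 0 ≤ ‖1 - cos (2 * θ)‖ / ‖cos (2 * θ)‖ := by positivity
  nlinarith [Real.pi_pos]

/-- `bet w (some y) = -I * (2 π w) (1 + e)` with small `e`. -/
theorem PosReg_bet (w y : ℂ) (hw : ‖w‖ ≤ 27 / 1000) (hw0 : w ≠ 0) (hy : ‖y - 1 / 4‖ ≤ 6 / 1000) :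
    ∃ e : ℂ, ‖e‖ ≤ 1 / 10 ∧ bet w (some y) = -I * (2 * Real.pi * w) * (1 + e) := by
  have hpi0 : (Real.pi : ℂ) ≠ 0 := by exact_mod_cast Real.pi_ne_zero
  have hD : ‖CritA_D y w + 2 * Real.pi * w‖ ≤ 6 / 10 * ‖w‖ := by
    have hs : Convex ℝ (Metric.closedBall (0 : ℂ) (27 / 1000)) := convex_closedBall _ _
    have key : ∀ x ∈ Metric.closedBall (0 : ℂ) (27 / 1000),
        HasDerivAt (fun x => CritA_D y x + 2 * Real.pi * x)
          (-CritA_F (y - x) - CritA_F (y + x) + 2 * Real.pi * 1) x := by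
      intro x hx
      rw [mem_closedBall_zero_iff] at hx
      exact ((CritA_dsub_v (hy.trans (by norm_num)) (hx.trans (by norm_num))).sub
        (CritA_dadd_v (hy.trans (by norm_num)) (hx.trans (by norm_num)))).add
        ((hasDerivAt_id x).const_mul _)
    have hb := Convex.norm_image_sub_le_of_norm_deriv_le
      (f := fun x => CritA_D y x + 2 * Real.pi * x) (C := 6 / 10)
      (fun x hx => (key x hx).differentiableAt) (fun x hx => ?_) hs
      (mem_closedBall_zero_iff.mpr (by norm_num) : (0 : ℂ) ∈ Metric.closedBall 0 (27 / 1000))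
      (mem_closedBall_zero_iff.mpr hw)
    · simpa [CritA_D_zero] using hb
    · rw [(key x hx).deriv]
      rw [mem_closedBall_zero_iff] at hx
      have g1 := CritA_F_lip (a := y - x) (b := 1 / 4 - x)
        (CritA_sub (hy.trans (by norm_num)) (hx.trans (by norm_num)))
        (by
          have : (1 / 4 - x - 1 / 4 : ℂ) = -x := by ring
          rw [this, norm_neg]
          linarith)
        (by
          have : (1 / 4 - x - (y - x) : ℂ) = -(y - 1 / 4) := by ring
          rw [this, norm_neg]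
          linarith)
      have g2 := CritA_F_lip (a := y + x) (b := 1 / 4 + x)
        (CritA_add (hy.trans (by norm_num)) (hx.trans (by norm_num)))
        (by
          have : (1 / 4 + x - 1 / 4 : ℂ) = x := by ring
          rw [this]
          linarith)
        (by
          have : (1 / 4 + x - (y + x) : ℂ) = -(y - 1 / 4) := by ring
          rw [this, norm_neg]
          linarith)
      have e1 : (1 / 4 - x - (y - x) : ℂ) = -(y - 1 / 4) := by ring
      have e2 : (1 / 4 + x - (y + x) : ℂ) = -(y - 1 / 4) := by ring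
      rw [e1, norm_neg] at g1
      rw [e2, norm_neg] at g2
      have g3 := PosReg_F x hx
      have e3 : -CritA_F (y - x) - CritA_F (y + x) + 2 * Real.pi * 1 =
          -(CritA_F (y - x) - CritA_F (1 / 4 - x)) - (CritA_F (y + x) - CritA_F (1 / 4 + x)) -
          (CritA_F (1 / 4 - x) + CritA_F (1 / 4 + x) - 2 * Real.pi) := by ring
      rw [e3]
      refine (norm_sub_le _ _).trans ?_
      have g4 := norm_sub_le (-(CritA_F (y - x) - CritA_F (1 / 4 - x)))
        (CritA_F (y + x) - CritA_F (1 / 4 + x))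
      rw [norm_neg] at g4
      linarith
  refine ⟨-(CritA_D y w) / (2 * Real.pi * w) - 1, ?_, ?_⟩
  · have e1 : -(CritA_D y w) / (2 * Real.pi * w) - 1 =
        -((CritA_D y w + 2 * Real.pi * w) / (2 * Real.pi * w)) := by
      field_simp
      ring
    rw [e1, norm_neg, norm_div]
    have hwn : 0 < ‖w‖ := norm_pos_iff.2 hw0
    have hn : ‖2 * (Real.pi : ℂ) * w‖ = 2 * Real.pi * ‖w‖ := by
      rw [mul_assoc, norm_mul, CritA_norm_pi, Complex.norm_two, mul_assoc]
    have hpi := Real.pi_gt_d2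
    rw [hn, div_le_iff₀ (by positivity)]
    nlinarith
  · have e1 : (2 * Real.pi * w) * (1 + (-(CritA_D y w) / (2 * Real.pi * w) - 1)) =
        -(CritA_D y w) := by
      field_simp
      ring
    rw [mul_assoc, e1]
    unfold bet CritA_D
    ring

theorem PosReg_Vo (w y : ℂ) (hw : ‖w‖ ≤ 56 / 1000) (hy : ‖y - 1 / 4‖ ≤ 6 / 1000) :
    0 < (Vo w y).im := by
  set δ : ℂ := Real.pi * (y - 1 / 4) with hδ
  have hpi := Real.pi_lt_d4
  have hpi0 := Real.pi_pos
  have hδn : ‖2 * δ‖ ≤ 378 / 10000 := by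
    rw [norm_mul, hδ, CritA_norm_pi, Complex.norm_two]
    have h0 := norm_nonneg (y - 1 / 4)
    nlinarith
  -- the cosine of `2 π w`
  have hwn : ‖2 * (Real.pi : ℂ) * w‖ ≤ 352 / 1000 := by
    rw [mul_assoc, norm_mul, CritA_norm_pi, Complex.norm_two]
    have h0 := norm_nonneg w
    nlinarith
  have hc' : ‖cos (2 * Real.pi * w) - 1‖ ≤ 64 / 1000 := by
    refine (CritA_cos_le (hwn.trans (by norm_num))).trans ?_
    have h0 := norm_nonneg (2 * (Real.pi : ℂ) * w)
    have a2 : ‖2 * (Real.pi : ℂ) * w‖ ^ 2 ≤ (352 / 1000) ^ 2 := by gcongr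
    have a4 : ‖2 * (Real.pi : ℂ) * w‖ ^ 4 ≤ (352 / 1000) ^ 4 := by gcongr
    norm_num at a2 a4 ⊢
    linarith
  have hs' : ‖sin (2 * δ)‖ ≤ 4 / 100 := by
    refine (CritA_sin_small (hδn.trans (by norm_num))).trans ?_
    linarith
  have hcy : cos (2 * Real.pi * y) = -sin (2 * δ) := by
    have e1 : (2 * Real.pi * y : ℂ) = 2 * δ + Real.pi / 2 := by
      rw [hδ]; ring
    rw [e1, Complex.cos_add_pi_div_two]
  have hey : exp (-(2 * Real.pi * I * y)) = -I * exp (-(2 * δ * I)) := by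
    have e1 : -(2 * Real.pi * I * y : ℂ) = -(Real.pi / 2 * I) + -(2 * δ * I) := by
      rw [hδ]; ring
    rw [e1, Complex.exp_add, Complex.exp_neg, Complex.exp_pi_div_two_mul_I, Complex.inv_I]
  obtain ⟨η, hη⟩ : ∃ η : ℂ, η = exp (-(2 * δ * I)) - 1 := ⟨_, rfl⟩
  have hηn : ‖η‖ ≤ 8 / 100 := by
    have h1 : ‖-(2 * δ * I)‖ ≤ 378 / 10000 := by
      rw [norm_neg, norm_mul, norm_I, mul_one]
      exact hδn
    have h2 := norm_exp_sub_one_le (x := -(2 * δ * I)) (by linarith)
    rw [← hη] at h2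
    linarith
  have hD : (19 / 10 : ℝ) ≤ ‖1 + cos (2 * Real.pi * w)‖ := by
    have h1 : (2 : ℂ) = (1 + cos (2 * Real.pi * w)) - (cos (2 * Real.pi * w) - 1) := by ring
    have h2 : ‖(2 : ℂ)‖ ≤ ‖1 + cos (2 * Real.pi * w)‖ + ‖cos (2 * Real.pi * w) - 1‖ := by
      conv_lhs => rw [h1]
      exact norm_sub_le _ _
    rw [Complex.norm_two] at h2
    linarith
  have hD0 : 1 + cos (2 * Real.pi * w) ≠ 0 := by
    intro h
    rw [h, norm_zero] at hD
    linarith
  obtain ⟨ε, hε⟩ : ∃ ε : ℂ, ε = (cos (2 * Real.pi * w) - 1 + 2 * sin (2 * δ)) /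
      (1 + cos (2 * Real.pi * w)) := ⟨_, rfl⟩
  have hεn : ‖ε‖ ≤ 1 / 10 := by
    rw [hε, norm_div, div_le_iff₀ (by linarith)]
    have h1 := norm_add_le (cos (2 * Real.pi * w) - 1) (2 * sin (2 * δ))
    have h2 : ‖2 * sin (2 * δ)‖ ≤ 8 / 100 := by
      rw [norm_mul, Complex.norm_two]
      linarith
    linarith
  have hform : Vo w y = I * (1 / 2 : ℝ) + I * ((1 / 2 : ℝ) * (η + ε + η * ε)) := by
    unfold Vo
    rw [hcy, hey]
    have h2 : exp (-(2 * δ * I)) = 1 + η := by rw [hη]; ring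
    rw [h2]
    have h1 : (cos (2 * Real.pi * w) - -sin (2 * δ)) / (1 + cos (2 * Real.pi * w)) =
        1 / 2 * (1 + ε) := by
      rw [hε]
      field_simp
      ring
    calc -(cos (2 * Real.pi * w) - -sin (2 * δ)) * (-I * (1 + η)) / (1 + cos (2 * Real.pi * w))
        = ((cos (2 * Real.pi * w) - -sin (2 * δ)) / (1 + cos (2 * Real.pi * w))) *
          (I * (1 + η)) := by ring
      _ = _ := by
        rw [h1]
        push_cast
        ring
  rw [hform]
  have h3 : ‖η + ε + η * ε‖ ≤ 1 / 2 := by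
    refine (norm_add_le _ _).trans ?_
    have h4 := norm_add_le η ε
    have h5 : ‖η * ε‖ ≤ 8 / 100 * (1 / 10) := by
      rw [norm_mul]
      exact mul_le_mul hηn hεn (norm_nonneg _) (by norm_num)
    linarith
  have h4 := abs_le.1 ((Complex.abs_re_le_norm _).trans h3)
  have h5 : (I * (1 / 2 : ℝ) + I * ((1 / 2 : ℝ) * (η + ε + η * ε))).im =
      1 / 2 + 1 / 2 * (η + ε + η * ε).re := by
    rw [Complex.add_im, Complex.I_mul_im, Complex.I_mul_im, Complex.re_ofReal_mul,
      Complex.ofReal_re]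
  rw [h5]
  linarith [h4.1]

theorem PosReg_sin (p : ℕ) (w : ℂ) (yl yr : Option ℂ) (h : Reg p w yl yr) :
    sin (Real.pi * w) ≠ 0 := by
  intro h0
  rw [Complex.sin_eq_zero_iff] at h0
  obtain ⟨k, hk⟩ := h0
  have hpi0 : (Real.pi : ℂ) ≠ 0 := by exact_mod_cast Real.pi_ne_zero
  have h1 : w = ((k : ℝ) : ℂ) := by
    have h2 : (Real.pi : ℂ) * w = Real.pi * ((k : ℝ) : ℂ) := by
      rw [hk]; push_cast; ring
    exact mul_left_cancel₀ hpi0 h2
  have h3 := h.im_pos
  rw [h1, Complex.ofReal_im] at h3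
  exact lt_irrefl _ h3

theorem PosReg_Xs (w : ℂ) (h : sin (Real.pi * w) ≠ 0) (k : ℕ) :
    zK w 0 k = (Xs (2 * cos (Real.pi * w)) k ^ 2)⁻¹ := by
  unfold zK
  have e := Xs_sin w k
  rw [zero_div, add_zero, ← e, mul_pow]
  rw [div_mul_cancel_right₀ (pow_ne_zero 2 h)]

/-- The fan of a region with only one proper slot. -/
theorem PosReg_end (p : ℕ) (w y : ℂ) (h : Reg p w none (some y)) (k : ℕ) (hk : 2 ≤ k)
    (hk' : k ≤ 2 * p - 1) : 0 < (zK w (bet w none) k).im := by
  have hp : 10 ≤ p := h.hp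
  have hs0 := PosReg_sin p w _ _ h
  have htop : 0 < (zK w (bet w none) (2 * p - 1)).im := by
    have h1 := (zK_symm p w none (some y) h (2 * p - 1) (by omega)).1
    have h2 : 2 * p - (2 * p - 1) = 1 := by omega
    rw [h2] at h1
    rw [h1, (zK_slot p w y none (reg_swap p w none (some y) h)).2]
    refine PosReg_Vo w y ?_ (h.bdr y rfl)
    refine (PosReg_w 10 (by norm_num) (by exact_mod_cast hp) h.bd).trans ?_
    norm_num
  have e0 : bet w none = 0 := rfl
  rw [e0] at htop ⊢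
  rw [PosReg_Xs w hs0] at htop ⊢
  exact pos_fan w p (2 * p - 1) (by omega) (by omega) (by omega) h.re_pos h.re_lt h.im_pos htop k
    hk hk'

theorem reg_pos (p : ℕ) (w : ℂ) (yl yr : Option ℂ) (h : Reg p w yl yr) (k : ℕ) (hk : 1 ≤ k)
    (hk' : k ≤ 2 * p - 1) (hl : yl = none → 2 ≤ k) (hr : yr = none → k ≤ 2 * p - 2) :
    0 < (zK w (bet w yl) k).im := by
  have hp : 10 ≤ p := h.hp
  rcases yl with _ | yl
  · rcases yr with _ | yr
    · exact absurd h.hne (by simp)
    · exact PosReg_end p w yr h k (hl rfl) hk'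
  · rcases yr with _ | yr
    · have h1 := (zK_symm p w (some yl) none h k (by omega)).1
      rw [h1]
      have hr' := hr rfl
      exact PosReg_end p w yl (reg_swap p w _ _ h) (2 * p - k) (by omega) (by omega)
    · have hp2 := h.hp2 (by simp) (by simp)
      have hw : ‖w‖ ≤ 27 / 1000 := by
        refine (PosReg_w 20 (by norm_num) (by exact_mod_cast hp2) h.bd).trans ?_
        norm_num
      have hw0 : w ≠ 0 := by
        intro h0
        have := h.im_pos
        rw [h0] at this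
        simp at this
      obtain ⟨e, he, hbe⟩ := PosReg_bet w yl hw hw0 (h.bdl yl rfl)
      obtain ⟨e', he', hbe'⟩ := PosReg_bet w yr hw hw0 (h.bdr yr rfl)
      have heq := h.eq
      rw [hbe, hbe'] at heq
      have := pos_int p hp2 (2 * Real.pi * w) e e' he he' (by
        linear_combination heq) k hk (by omega)
      unfold zK
      rw [hbe]
      have e1 : (Real.pi * w : ℂ) = 2 * Real.pi * w / 2 := by ring
      have e2 : (k * (Real.pi * w) + -I * (2 * Real.pi * w) * (1 + e) / 2 : ℂ) =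
          k * (2 * Real.pi * w / 2) - I * (2 * Real.pi * w) * (1 + e) / 2 := by ring
      rw [e2]
      rw [← e1] at this ⊢
      exact this

theorem reg_ne (p : ℕ) (w : ℂ) (yl yr : Option ℂ) (h : Reg p w yl yr) (k : ℕ)
    (hk' : k ≤ 2 * p) (hl : yl = none → 1 ≤ k) (hr : yr = none → k ≤ 2 * p - 1) :
    sin (k * (Real.pi * w) + bet w yl / 2) ≠ 0 := by
  have hp : 10 ≤ p := h.hp
  have hs0 := PosReg_sin p w _ _ h
  -- the general case
  have gen : 1 ≤ k → k ≤ 2 * p - 1 → (yl = none → 2 ≤ k) → (yr = none → k ≤ 2 * p - 2) →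
      sin (k * (Real.pi * w) + bet w yl / 2) ≠ 0 := by
    intro g1 g2 g3 g4 h0
    have := reg_pos p w yl yr h k g1 g2 g3 g4
    unfold zK at this
    rw [h0] at this
    simp at this
  by_cases hk0 : k = 0
  · -- `k = 0`
    subst hk0
    rcases yl with _ | yl
    · exact absurd (hl rfl) (by norm_num)
    · have := (bet_sin p w yl yr h).1
      rwa [Nat.cast_zero, zero_mul, zero_add]
  by_cases hk2 : k = 2 * p
  · rcases yr with _ | yr
    · have := hr rfl
      omega
    · have h1 := (bet_sin p w yr yl (reg_swap p w _ _ h)).1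
      have h2 := (zK_symm p w yl (some yr) h k hk').2
      intro h0
      have h3 := h2.1 h0
      rw [hk2, Nat.sub_self, Nat.cast_zero, zero_mul, zero_add] at h3
      exact h1 h3
  by_cases hl1 : yl = none ∧ k = 1
  · obtain ⟨h1, h2⟩ := hl1
    subst h1 h2
    have e0 : bet w none = 0 := rfl
    rwa [e0, zero_div, add_zero, Nat.cast_one, one_mul]
  by_cases hr1 : yr = none ∧ k = 2 * p - 1
  · obtain ⟨h1, h2⟩ := hr1
    subst h1
    have h3 := (zK_symm p w yl none h k hk').2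
    intro h0
    have h4 := h3.1 h0
    have h5 : 2 * p - k = 1 := by omega
    have e0 : bet w none = 0 := rfl
    rw [h5, e0, zero_div, add_zero, Nat.cast_one, one_mul] at h4
    exact hs0 h4
  refine gen (by omega) (by omega) (fun h1 => ?_) (fun h1 => ?_)
  · have : k ≠ 1 := fun h2 => hl1 ⟨h1, h2⟩
    omega
  · have : k ≠ 2 * p - 1 := fun h2 => hr1 ⟨h1, h2⟩
    omega

theorem reg_one (p : ℕ) (w : ℂ) (yr : Option ℂ) (h : Reg p w none yr) :
    zK w (bet w none) 1 = 1 := by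
  have hs0 := PosReg_sin p w _ _ h
  have e0 : bet w none = 0 := rfl
  unfold zK
  rw [e0, zero_div, add_zero, Nat.cast_one, one_mul, div_self (pow_ne_zero 2 hs0)]

end Pool.Agent.H63.VC4
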