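import Pool.Agent.H63.VC3.NNterms
import Pool.Agent.H63.VC4.Defs

/-! # The terms of the entries of the twist matrices -/

namespace Pool.Agent.H63.VC4

open Pool.Agent.H63.VC Pool.Agent.H63.VC3 Complex
open scoped BigOperators

theorem RTerms_bt (n j : ℕ) : bt (n + 2 * j) = bt n + j := by
  unfold bt
  push_cast
  ring

theorem RTerms_yk (n M t j : ℕ) (hj : j ≤ t) : yk (n + 2 * j) M (t - j) = yk n M t := by
  unfold yk
  rw [RTerms_bt, Nat.cast_sub hj]
  congr 2
  ring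

theorem RTerms_vl (n M l j : ℕ) (hj : j ≤ l) : vl (n + 2 * j) M (l - j) = vl n M l := by
  unfold vl
  rw [RTerms_bt, Nat.cast_sub hj]
  congr 2
  ring

/-- telescoping of `LL_step` -/
theorem RTerms_tele (M : ℕ) (hM : 0 < M) (s : ℂ) (m : ℕ) (h0 : -1 < s.re) (h1 : s.re + m < M) :
    exp (LL M (s + m) - LL M s) =
      ∏ j ∈ Finset.range m, 2 * Complex.sin (Real.pi * ((s + (j + 1 : ℕ)) / M)) := by
  induction m with
  | zero => simp
  | succ m ih =>
    have h1' : s.re + m < M := by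
      push_cast at h1
      linarith
    rw [Finset.prod_range_succ, ← ih h1']
    have hre : (s + ((m + 1 : ℕ) : ℂ)).re = s.re + ((m + 1 : ℕ) : ℝ) := by
      rw [Complex.add_re, Complex.natCast_re]
    have hm0 : (0 : ℝ) ≤ (m : ℝ) := Nat.cast_nonneg m
    have hpos : 0 < (s + ((m + 1 : ℕ) : ℂ)).re := by
      rw [hre]
      push_cast
      linarith
    have hlt : (s + ((m + 1 : ℕ) : ℂ)).re < M := by
      rw [hre]
      exact h1
    have hstep := LL_step M hM (s + ((m + 1 : ℕ) : ℂ)) hpos hlt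
    have e1 : s + ((m + 1 : ℕ) : ℂ) - 1 = s + m := by
      push_cast
      ring
    rw [e1] at hstep
    have hMr : (0 : ℝ) < M := by exact_mod_cast hM
    have hz : ((s + ((m + 1 : ℕ) : ℂ)) / M).re = (s + ((m + 1 : ℕ) : ℂ)).re / M := by
      rw [Complex.div_natCast_re]
    have hexp := hh_exp ((s + ((m + 1 : ℕ) : ℂ)) / M) (by rw [hz]; positivity)
      (by rw [hz, div_lt_one hMr]; exact hlt)
    rw [← hexp, ← hstep, ← Complex.exp_add]
    congr 1
    ring

theorem RTerms_Bn (n M t' : ℕ) (hn : 2 ≤ n) (hM : 2 ≤ M)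
    (ht' : t' + n ≤ M + 1) (v : ℂ)
    (h1 : -((t' : ℝ) + bt n + 1 - M / 2) < M * v.re) (h2 : M * v.re < (t' : ℝ) + bt n + 1 - M / 2) :
    Bn (n + 2 * (M + 1 - n - t')) M v = M * exp (-LL M (M * ((yk n M t' : ℂ) - v) - 1 / 2) -
      LL M (M * ((yk n M t' : ℂ) + v) - 1 / 2)) := by
  have hM0 : 0 < M := by omega
  have hMc : (M : ℂ) ≠ 0 := by exact_mod_cast hM0.ne'
  have hMr : (0 : ℝ) < M := by exact_mod_cast hM0
  set a : ℝ := t' + bt n - M / 2 with ha
  set s : ℂ := (a : ℂ) + M * v with hs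
  have hy : (M : ℂ) * (yk n M t' : ℂ) = (a : ℂ) + 1 / 2 := by
    unfold yk
    rw [ha]
    push_cast
    field_simp
    ring
  have e1 : (M : ℂ) * ((yk n M t' : ℂ) - v) - 1 / 2 = (a : ℂ) - M * v := by
    rw [mul_sub, hy]
    ring
  have e2 : (M : ℂ) * ((yk n M t' : ℂ) + v) - 1 / 2 = s := by
    rw [mul_add, hy, hs]
    ring
  rw [e1, e2]
  -- the number of factors
  obtain ⟨j0, hj0⟩ : ∃ j0, M + 1 - n - t' = j0 := ⟨_, rfl⟩
  have hj0' : j0 + n + t' = M + 1 := by omega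
  rw [hj0]
  have hj0r : (j0 : ℝ) = M + 1 - n - t' := by
    have : ((j0 + n + t' : ℕ) : ℝ) = ((M + 1 : ℕ) : ℝ) := by rw [hj0']
    push_cast at this
    linarith
  have hmr : ((n + 2 * j0 - 2 : ℕ) : ℝ) = M - 1 - 2 * a := by
    rw [Nat.cast_sub (by omega)]
    push_cast
    rw [hj0r, ha]
    unfold bt
    ring
  have hmc : ((n + 2 * j0 - 2 : ℕ) : ℂ) = M - 1 - 2 * (a : ℂ) := by
    have := congrArg (fun x : ℝ => (x : ℂ)) hmr
    push_cast at this
    exact this
  have hrefl := LL_reflect M hM0 ((a : ℂ) - M * v)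
  have e3 : (M : ℂ) - 1 - ((a : ℂ) - M * v) = s + ((n + 2 * j0 - 2 : ℕ) : ℂ) := by
    rw [hmc, hs]
    ring
  rw [e3] at hrefl
  have hsre : s.re = a + M * v.re := by
    rw [hs, Complex.add_re, Complex.ofReal_re, ← Complex.ofReal_natCast, Complex.re_ofReal_mul]
  have htele := RTerms_tele M hM0 s (n + 2 * j0 - 2) (by rw [hsre, ha]; linarith) (by
    rw [hsre, hmr, ha]
    rw [ha] at *
    linarith)
  have e4 : -LL M ((a : ℂ) - M * v) - LL M s =
      (LL M (s + ((n + 2 * j0 - 2 : ℕ) : ℂ)) - LL M s) - Real.log M := by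
    linear_combination -hrefl
  rw [e4, Complex.exp_sub, htele]
  have e5 : exp ((Real.log M : ℝ) : ℂ) = M := by
    rw [← Complex.ofReal_exp, Real.exp_log hMr]
    simp
  rw [e5, mul_div_cancel₀ _ hMc]
  unfold Bn
  refine Finset.prod_congr rfl fun j _ => ?_
  rw [RTerms_bt]
  congr 1
  rw [← Complex.sin_add_pi_div_two]
  congr 1
  have hbt : (a : ℂ) = M / 2 - ((bt n + j0 : ℝ) : ℂ) := by
    have : a = M / 2 - (bt n + j0) := by
      rw [ha, hj0r]
      unfold bt
      ring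
    rw [this]
    push_cast
    ring
  rw [hs, hbt]
  push_cast
  field_simp
  ring

theorem Bn_KR (r : ℤ) (n M t t' : ℕ) (hn : 2 ≤ n) (hM : 2 ≤ M) (ht : t ≤ t')
    (ht' : t' + n ≤ M + 1) (h : M + 1 ≤ t + t' + n) (v : ℂ)
    (h1 : -((t' : ℝ) + bt n + 1 - M / 2) < M * v.re) (h2 : M * v.re < (t' : ℝ) + bt n + 1 - M / 2) :
    KK r (n + 2 * (M + 1 - n - t')) M
      (yk (n + 2 * (M + 1 - n - t')) M (t - (M + 1 - n - t'))) v =
      KR r n M (some (yk n M t : ℂ)) (some (yk n M t' : ℂ)) v := by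
  have hj : M + 1 - n - t' ≤ t := by omega
  rw [RTerms_yk n M t _ hj]
  unfold KK KR Qo
  rw [RTerms_Bn n M t' hn hM ht' v h1 h2]
  ring

theorem RS_terms (r : ℤ) (hr : r ≠ 0) (n M t t' : ℕ) (hn : 2 ≤ n) (hM : 2 ≤ M) (ht : t ≤ t')
    (ht' : t' + n ≤ M + 1) (h : M + 1 ≤ t + t' + n) :
    ∃ τ : ℕ → ℂ, RS r n M t t' = ∑ l ∈ Finset.Icc (M + 1 - n - t') t, τ l ∧
    (∀ l ∈ Finset.Icc (M + 1 - n - t') t,
      ‖τ l‖ ≤ 4 * (|(r : ℝ)| * (M : ℝ) + (M : ℝ) ^ 2 + 1) * W2 n M t t' l) ∧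
    (∀ l l' : ℕ, l + l' + n = M + 1 → l ∈ Finset.Icc (M + 1 - n - t') t →
      l' ∈ Finset.Icc (M + 1 - n - t') t →
      τ l + τ l' = 2 * Th0 n M * c1 n M ^ r / (4 * Real.pi * I * M) *
        deriv (KR r n M (some (yk n M t : ℂ)) (some (yk n M t' : ℂ))) (vl n M l)) := by
  obtain ⟨j0, hj0⟩ : ∃ j0, M + 1 - n - t' = j0 := ⟨_, rfl⟩
  have hj0' : j0 + n + t' = M + 1 := by omega
  have hj : j0 ≤ t := by omega
  have hMr : (0 : ℝ) < M := by exact_mod_cast (by omega : 0 < M)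
  have hMc : (M : ℂ) ≠ 0 := by exact_mod_cast (by omega : M ≠ 0)
  obtain ⟨τ0, hs, hb, hp⟩ := NN_terms r hr (n + 2 * j0) M (t - j0) (by omega) hM (by omega)
  have hS : 0 < S M (t - j0) := S_pos (by omega)
  have hSc : ((S M (t - j0) : ℝ) : ℂ) ≠ 0 := by exact_mod_cast hS.ne'
  have hc1 : c1 n M ≠ 0 := by
    intro h0
    have := norm_c1 n M
    rw [h0] at this
    simp at this
  have hc1' : c1 (n + 2 * j0) M ≠ 0 := by
    intro h0
    have := norm_c1 (n + 2 * j0) M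
    rw [h0] at this
    simp at this
  have hTh0 : ‖Th0 n M‖ = 1 := by
    unfold Th0
    simp
  rw [hj0]
  refine ⟨fun l => Th0 n M * (c1 n M / c1 (n + 2 * j0) M) ^ r * τ0 (l - j0) / S M (t - j0),
    ?_, ?_, ?_⟩
  · unfold RS
    rw [if_pos h, min_eq_left ht, max_eq_right ht, hj0]
    unfold RG
    rw [hs, Finset.mul_sum, Finset.sum_div]
    have e : Finset.Icc j0 t = Finset.Ico j0 (t + 1) := by
      ext x
      simp only [Finset.mem_Icc, Finset.mem_Ico]
      omega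
    rw [e, Finset.sum_Ico_eq_sum_range]
    have e2 : t + 1 - j0 = t - j0 + 1 := by omega
    rw [e2]
    refine Finset.sum_congr rfl fun l _ => ?_
    rw [Nat.add_sub_cancel_left]
  · intro l hl
    rw [Finset.mem_Icc] at hl
    have h3 := hb (l - j0) (by omega)
    rw [norm_div, norm_mul, norm_mul, hTh0, one_mul, norm_zpow, norm_div, norm_c1, norm_c1,
      div_one, one_zpow, one_mul, Complex.norm_real, Real.norm_of_nonneg hS.le]
    unfold W2
    rw [hj0, mul_div_assoc']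
    gcongr
  · intro l l' hll hl hl'
    rw [Finset.mem_Icc] at hl hl'
    have h3 := hp (l - j0) (l' - j0) (by omega) (by omega) (by omega)
    have hderiv : deriv (KK r (n + 2 * j0) M (yk (n + 2 * j0) M (t - j0)))
        (vl (n + 2 * j0) M (l - j0)) =
        deriv (KR r n M (some (yk n M t : ℂ)) (some (yk n M t' : ℂ))) (vl n M l) := by
      rw [RTerms_vl n M l j0 hl.1]
      apply Filter.EventuallyEq.deriv_eq
      have hcont : Continuous fun v : ℂ => (M : ℝ) * v.re := by fun_prop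
      have hv : (M : ℝ) * ((vl n M l : ℝ) : ℂ).re = l + bt n - M / 2 := by
        rw [Complex.ofReal_re]
        unfold vl
        field_simp
      have hlr : (l : ℝ) ≤ t' := by exact_mod_cast hl.2.trans ht
      have hlr2 : ((M + 1 : ℕ) : ℝ) ≤ ((l + n + t' : ℕ) : ℝ) := by
        exact_mod_cast (by omega : M + 1 ≤ l + n + t')
      push_cast at hlr2
      have hbt : 2 * bt n = n - 1 := by
        unfold bt
        ring
      have o1 : ∀ᶠ v in nhds ((vl n M l : ℝ) : ℂ),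
          -((t' : ℝ) + bt n + 1 - M / 2) < (M : ℝ) * v.re := by
        apply (isOpen_lt continuous_const hcont).mem_nhds
        show -((t' : ℝ) + bt n + 1 - M / 2) < (M : ℝ) * ((vl n M l : ℝ) : ℂ).re
        rw [hv]
        linarith
      have o2 : ∀ᶠ v in nhds ((vl n M l : ℝ) : ℂ),
          (M : ℝ) * v.re < (t' : ℝ) + bt n + 1 - M / 2 := by
        apply (isOpen_lt hcont continuous_const).mem_nhds
        show (M : ℝ) * ((vl n M l : ℝ) : ℂ).re < (t' : ℝ) + bt n + 1 - M / 2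
        rw [hv]
        linarith
      filter_upwards [o1, o2] with v hv1 hv2
      have := Bn_KR r n M t t' hn hM ht ht' h v hv1 hv2
      rw [hj0] at this
      exact this
    rw [hderiv] at h3
    have e1 : Th0 n M * (c1 n M / c1 (n + 2 * j0) M) ^ r * τ0 (l - j0) / S M (t - j0) +
        Th0 n M * (c1 n M / c1 (n + 2 * j0) M) ^ r * τ0 (l' - j0) / S M (t - j0) =
        Th0 n M * (c1 n M / c1 (n + 2 * j0) M) ^ r * (τ0 (l - j0) + τ0 (l' - j0)) /
          S M (t - j0) := by ring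
    show Th0 n M * (c1 n M / c1 (n + 2 * j0) M) ^ r * τ0 (l - j0) / S M (t - j0) +
        Th0 n M * (c1 n M / c1 (n + 2 * j0) M) ^ r * τ0 (l' - j0) / S M (t - j0) = _
    rw [e1, h3, div_zpow]
    have hz : c1 (n + 2 * j0) M ^ r ≠ 0 := zpow_ne_zero _ hc1'
    field_simp

end Pool.Agent.H63.VC4
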